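import Mathlib
import Pool.Agent.Shared.RevisedGCH

/-!
Coding subsets by functions into the natural numbers, and hitting families of sequences.
-/

set_option autoImplicit false

namespace Pool.Agent.Lib.MP_856180_lc

open Cardinal Set Pool.Agent.Shared.RevisedGCH

universe u

/-- At most `μ` sequences meet every subset of size at least `τ` in an infinite set. -/
def Hit (μ τ : Cardinal.{u}) (β : Type u) : Prop :=
  ∃ S : Set (ℕ → β), #S ≤ μ ∧ ∀ A : Set β, τ ≤ #A → ∃ s ∈ S, (A ∩ range s).Infinite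

/-- At most `μ` countable partitions split every infinite set into infinitely many pieces. -/
def Loc (μ : Cardinal.{u}) (β : Type u) : Prop :=
  ∃ L : Set (β → ℕ), #L ≤ μ ∧ ∀ A : Set β, A.Infinite → ∃ π ∈ L, (π '' A).Infinite

lemma exists_bounded_piece {τ : Cardinal.{u}} (hτ : τ.IsRegular) {W : Type u} [LinearOrder W]
    [NoMaxOrder W] (hcof : Order.cof W ≠ τ) (A : Set W) (hA : τ ≤ #A) :
    ∃ w, τ ≤ #(A ∩ Iio w : Set W) := by
  rcases lt_or_gt_of_ne hcof with h | h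
  · obtain ⟨C, hC, hCc⟩ := Order.exists_cof_eq W
    choose s hs using fun w : W => exists_gt w
    by_contra hcon
    push Not at hcon
    have h1 : A ⊆ ⋃ c : C, A ∩ Iio (s c) := by
      intro x hx
      obtain ⟨c, hc, hxc⟩ := hC x
      exact mem_iUnion.mpr ⟨⟨c, hc⟩, hx, hxc.trans_lt (hs c)⟩
    have h2 := (card_iUnion_lt_iff_forall_of_isRegular (t := fun c : C => A ∩ Iio (s c)) hτ
      (hCc ▸ h)).mpr (fun c => hcon _)
    exact absurd (hA.trans (mk_le_mk_of_subset h1)) (not_le.mpr h2)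
  · obtain ⟨B, hBA, hB⟩ := le_mk_iff_exists_subset.mp hA
    have hnc : ¬ IsCofinal B := fun hc => absurd (Order.cof_le hc) (not_le.mpr (hB ▸ h))
    obtain ⟨w, hw⟩ := not_isCofinal_iff.mp hnc
    exact ⟨w, hB ▸ mk_le_mk_of_subset (fun x hx => ⟨hBA hx, hw x hx⟩)⟩

lemma infinite_iff_aleph0 {β : Type u} {A : Set β} : A.Infinite ↔ ℵ₀ ≤ #A := by
  rw [← infinite_coe_iff, aleph0_le_mk_iff]

lemma Loc.mono_card {μ : Cardinal.{u}} {β β' : Type u} (h : Loc μ β) (hle : #β' ≤ #β) :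
    Loc μ β' := by
  obtain ⟨e⟩ := hle
  obtain ⟨L, hL, h⟩ := h
  refine ⟨(fun π => π ∘ e) '' L, mk_image_le.trans hL, fun A hA => ?_⟩
  obtain ⟨π, hπ, hinf⟩ := h (e '' A) (hA.image e.injective.injOn)
  exact ⟨π ∘ e, ⟨π, hπ, rfl⟩, by rwa [image_comp]⟩

lemma loc {μ : Cardinal.{u}} (hμ : ℵ₀ ≤ μ) (θ : Cardinal.{u}) :
    θ ≤ μ → ∀ β : Type u, #β = θ → Loc μ β := by
  classical
  induction θ using WellFoundedLT.induction with
  | ind θ ih =>
    intro hθ β hβ
    by_cases hs : θ ≤ ℵ₀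
    · have : Countable β := mk_le_aleph0_iff.mp (hβ ▸ hs)
      obtain ⟨π, hπ⟩ := exists_injective_nat β
      exact ⟨{π}, by simpa using one_le_aleph0.trans hμ,
        fun A hA => ⟨π, rfl, hA.image hπ.injOn⟩⟩
    have hθ0 : ℵ₀ ≤ θ := (not_le.mp hs).le
    refine Loc.mono_card (β := θ.ord.ToType) ?_ (by simp [hβ])
    have := Cardinal.noMaxOrder hθ0
    have h1 : ∀ w : θ.ord.ToType, Loc μ (Iio w) := fun w =>
      ih _ (by simpa using mk_Iio_lt w) ((by simpa using mk_Iio_lt w : #(Iio w) < θ).le.trans hθ)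
        _ rfl
    choose L hL1 hL2 using h1
    obtain ⟨π0, hπ0⟩ : ∃ π0 : θ.ord.ToType → ℕ, Order.cof θ.ord.ToType = ℵ₀ →
        ∀ n, ∃ w, ∀ x, π0 x ≤ n → x < w := by
      by_cases hc : Order.cof θ.ord.ToType = ℵ₀
      · obtain ⟨C, hC, hCc⟩ := Order.exists_cof_eq θ.ord.ToType
        have hCcount : C.Countable := le_aleph0_iff_set_countable.mp (hCc.trans hc).le
        have hCne : C.Nonempty := by
          rw [← nonempty_coe_sort, ← mk_ne_zero_iff, hCc, hc]
          exact aleph0_ne_zero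
        obtain ⟨c, hc'⟩ := hCcount.exists_eq_range hCne
        have hex : ∀ x, ∃ n, x ≤ c n := by
          intro x
          obtain ⟨y, hy, hxy⟩ := hC x
          rw [hc'] at hy
          obtain ⟨n, rfl⟩ := hy
          exact ⟨n, hxy⟩
        choose π0 hπ0 using hex
        refine ⟨π0, fun _ n => ?_⟩
        obtain ⟨m, hm⟩ := (Finset.range (n + 1)).exists_max_image c ⟨0, by simp⟩
        obtain ⟨w, hw⟩ := exists_gt (c m)
        exact ⟨w, fun x hx => ((hπ0 x).trans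
          (hm.2 _ (Finset.mem_range.mpr (Nat.lt_succ_of_le hx)))).trans_lt hw⟩
      · exact ⟨fun _ => 0, fun h => absurd h hc⟩
    refine ⟨insert π0 (⋃ w, (fun π => Function.extend Subtype.val π (fun _ => 0)) '' L w),
      mk_insert_le.trans (add_le_of_le hμ (iUnion_le hμ _ (by simpa using hθ)
        (fun w => mk_image_le.trans (hL1 w))) (one_le_aleph0.trans hμ)), fun A hA => ?_⟩
    by_cases hb : ∃ w, (A ∩ Iio w).Infinite
    · obtain ⟨w, hw⟩ := hb
      obtain ⟨π, hπ, hinf⟩ := hL2 w (Subtype.val ⁻¹' A) (by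
        refine Infinite.of_image Subtype.val ?_
        rwa [Subtype.image_preimage_coe, inter_comm])
      refine ⟨_, Or.inr (mem_iUnion.mpr ⟨w, π, hπ, rfl⟩), hinf.mono ?_⟩
      rintro _ ⟨x, hx, rfl⟩
      exact ⟨x.1, hx, Subtype.val_injective.extend_apply _ _ _⟩
    · have hc : Order.cof θ.ord.ToType = ℵ₀ := by
        by_contra hc
        obtain ⟨w, hw⟩ := exists_bounded_piece isRegular_aleph0 hc A (infinite_iff_aleph0.mp hA)
        exact hb ⟨w, infinite_iff_aleph0.mpr hw⟩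
      refine ⟨π0, Or.inl rfl, fun hfin => ?_⟩
      obtain ⟨n, hn⟩ := hfin.bddAbove
      obtain ⟨w, hw⟩ := hπ0 hc n
      exact hb ⟨w, hA.mono (fun x hx => ⟨hx, hw x (hn ⟨x, hx, rfl⟩)⟩)⟩

lemma cov_succ {μ : Cardinal.{u}} (hμ : ℵ₀ ≤ μ) (n : ℕ) :
    ∀ {β : Type u} (S : Set β), #S ≤ Order.succ^[n] μ →
      Cov (Order.succ μ) (max (#S) ℵ₀) 1 S := by
  classical
  induction n with
  | zero =>
    intro β S hS
    refine ⟨{S}, by simp, ?_, fun B hB _ =>
      ⟨{S}, subset_rfl, by simp, by simpa using hB⟩⟩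
    rintro p rfl
    exact Order.lt_succ_of_le hS
  | succ n ih =>
    intro β S hS
    by_cases hle : #S ≤ Order.succ^[n] μ
    · exact ih S hle
    rw [Function.iterate_succ_apply'] at hS
    have hν : μ ≤ Order.succ^[n] μ := Order.le_succ_iterate n μ
    generalize Order.succ^[n] μ = ν at hS hle hν ih
    have hS' : #S = Order.succ ν := le_antisymm hS (Order.succ_le_of_lt (not_le.mp hle))
    have hreg : (Order.succ ν).IsRegular := isRegular_succ (hμ.trans hν)
    have h0 : ℵ₀ ≤ Order.succ ν := hreg.aleph0_le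
    suffices h : Cov (Order.succ μ) (max (#S) ℵ₀) 1 (univ : Set (Order.succ ν).ord.ToType) by
      obtain ⟨e⟩ : #S ≤ #(Order.succ ν).ord.ToType := by simpa using hS
      have : Nonempty (Order.succ ν).ord.ToType := by
        rw [Ordinal.nonempty_toType_iff]
        simp
      refine h.transport (fun x => if h : x ∈ S then e ⟨x, h⟩ else Classical.arbitrary _) ?_
        (fun _ _ => mem_univ _)
      intro x hx y hy hxy
      simp only [dif_pos hx, dif_pos hy] at hxy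
      exact congrArg Subtype.val (e.injective hxy)
    have hI : ∀ w : (Order.succ ν).ord.ToType, #(Iio w) ≤ ν := fun w =>
      Order.le_of_lt_succ (by simpa using mk_Iio_lt w)
    choose P hP1 hP2 hP3 using fun w : (Order.succ ν).ord.ToType => ih (Iio w) (hI w)
    refine ⟨⋃ w, P w, iUnion_le (le_max_right _ _) _ (by simp [hS']) (fun w => (hP1 w).trans
      (max_le_max ((hI w).trans ((Order.le_succ ν).trans hS'.ge)) le_rfl)), ?_, fun B _ hB => ?_⟩
    · intro p hp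
      obtain ⟨w, hw⟩ := mem_iUnion.mp hp
      exact hP2 w p hw
    · have hnc : ¬ IsCofinal B := by
        intro hc
        have := Order.cof_le hc
        rw [Ordinal.cof_toType, hreg.cof_ord] at this
        exact absurd (this.trans_lt hB) (not_lt.mpr (Order.succ_le_succ hν))
      obtain ⟨w, hw⟩ := not_isCofinal_iff.mp hnc
      obtain ⟨Q, h1, h2, h3⟩ := hP3 w B hw hB
      exact ⟨Q, h1.trans (subset_iUnion P w), h2, h3⟩

lemma cofinal_family {μ : Cardinal.{u}} (hμ : ℵ₀ ≤ μ) {n : ℕ} (hc : 𝔠 ≤ Order.succ^[n] μ) :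
    ∃ C : Set (Set (Set (ULift.{u} ℕ))), #C ≤ 𝔠 ∧ (∀ p ∈ C, #p ≤ μ) ∧
      ∀ B : Set (Set (ULift.{u} ℕ)), #B ≤ μ → ∃ p ∈ C, B ⊆ p := by
  have hR : #(univ : Set (Set (ULift.{u} ℕ))) = 𝔠 := by simp
  obtain ⟨P, h1, h2, h3⟩ := cov_succ hμ n (univ : Set (Set (ULift.{u} ℕ))) (hR ▸ hc)
  rw [hR, max_eq_left aleph0_le_continuum] at h1
  refine ⟨insert ∅ P, mk_insert_le.trans (add_le_of_le aleph0_le_continuum h1
    (one_le_aleph0.trans aleph0_le_continuum)), ?_, fun B hB => ?_⟩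
  · rintro p (rfl | hp)
    · simp
    · exact Order.le_of_lt_succ (h2 p hp)
  · obtain ⟨Q, hQ1, hQ2, hQ3⟩ := h3 B (subset_univ _) (Order.lt_succ_of_le hB)
    rw [le_one_iff_subsingleton, Set.subsingleton_coe] at hQ2
    rcases hQ2.eq_empty_or_singleton with rfl | ⟨p, rfl⟩
    · exact ⟨∅, Or.inl rfl, by simpa using hQ3⟩
    · exact ⟨p, Or.inr (hQ1 rfl), by simpa using hQ3⟩

lemma everywhere {ι : Type u} (hι : ℵ₀ ≤ #ι) (D : Set (ι → ℕ))
    (hD : ∀ g : ι → ℕ, ∃ f ∈ D, #{a | f a ≤ g a} < #ι) :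
    ∃ D' : Set (ι → ℕ), #D' ≤ #D * #ι ∧ ∀ g : ι → ℕ, ∃ f ∈ D', ∀ a, g a ≤ f a := by
  obtain ⟨e⟩ : Nonempty (ι × ι ≃ ι) := by
    rw [← Cardinal.eq, mk_prod, lift_id, mul_eq_self hι]
  refine ⟨range (fun z : D × ι => fun a => z.1.1 (e (a, z.2))), ?_, fun g => ?_⟩
  · refine mk_range_le.trans ?_
    rw [mk_prod, lift_id, lift_id]
  · obtain ⟨f, hf, hlt⟩ := hD (fun x => g (e.symm x).1)
    have hns : ¬ Function.Surjective
        (fun x : {a | f a ≤ g (e.symm a).1} => (e.symm x.1).2) := by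
      intro h
      exact absurd (mk_le_of_surjective h) (not_le.mpr hlt)
    obtain ⟨ξ, hξ⟩ : ∃ ξ, ∀ x : {a | f a ≤ g (e.symm a).1}, (e.symm x.1).2 ≠ ξ := by
      by_contra h
      apply hns
      intro ξ
      by_contra h'
      exact h ⟨ξ, fun x hx => h' ⟨x, hx⟩⟩
    refine ⟨_, ⟨(⟨f, hf⟩, ξ), rfl⟩, fun a => ?_⟩
    by_contra hlt'
    have h1 : f (e (a, ξ)) ≤ g (e.symm (e (a, ξ))).1 := by
      rw [e.symm_apply_apply]
      exact (not_le.mp hlt').le
    exact hξ ⟨e (a, ξ), h1⟩ (by simp)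

lemma two_pow_le {ι β : Type u} (D : Set (ι → ℕ)) (hD : ∀ g : ι → ℕ, ∃ f ∈ D, ∀ a, g a ≤ f a)
    (hι : ℵ₀ ≤ #ι) {n : ℕ} (hc : 𝔠 ≤ Order.succ^[n] #ι) {τ ν : Cardinal.{u}} (hit : Hit (#ι) τ β)
    (hν : ∀ ρ < τ, (2 : Cardinal.{u}) ^ ρ ≤ ν) : (2 : Cardinal.{u}) ^ #β ≤ 𝔠 * #D * ν := by
  classical
  obtain ⟨S, hS, hit⟩ := hit
  obtain ⟨C, hC1, hC2, hC3⟩ := cofinal_family hι hc
  choose L hL1 hL2 using fun p : C => loc hι #p.1 (hC2 p.1 p.2) p.1 rfl
  have he : ∀ p : C, Nonempty (S × L p ↪ ι) := by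
    intro p
    rw [← Cardinal.le_def, mk_prod, lift_id, lift_id]
    exact mul_le_of_le hι hS (hL1 p)
  let e : ∀ p : C, S × L p ↪ ι := fun p => (he p).some
  let tr : (ℕ → β) → Set β → Set (ULift.{u} ℕ) := fun s X => {n | s n.down ∈ X}
  let G : C → Set β → ι → ℕ := fun p X => Function.extend (e p)
    (fun z => if h : tr z.1.1 X ∈ p.1 then z.2.1 ⟨_, h⟩ else 0) (fun _ => 0)
  let H : C × D → Set (Set β) := fun z => {X | (∀ s ∈ S, tr s X ∈ z.1.1) ∧ ∀ a, G z.1 X a ≤ z.2.1 a}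
  have hcov : (univ : Set (Set β)) = ⋃ f, H f := by
    ext X
    simp only [mem_univ, mem_iUnion, true_iff]
    obtain ⟨p, hp, hsub⟩ := hC3 (range (fun s : S => tr s.1 X)) (mk_range_le.trans hS)
    obtain ⟨f, hf, h⟩ := hD (G ⟨p, hp⟩ X)
    exact ⟨(⟨p, hp⟩, ⟨f, hf⟩), fun s hs => hsub ⟨⟨s, hs⟩, rfl⟩, h⟩
  have hH : ∀ f, #(H f) ≤ ν := by
    rintro ⟨p, f⟩
    have hfin : ∀ s ∈ S, (range (fun X : H (p, f) => tr s X.1)).Finite := by
      intro s hs
      by_contra hinf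
      have hinf' : (range (fun X : H (p, f) => (⟨tr s X.1, X.2.1 s hs⟩ : p.1))).Infinite := by
        refine Infinite.of_image Subtype.val ?_
        rw [← range_comp]
        exact hinf
      obtain ⟨π, hπ, hinf2⟩ := hL2 p _ hinf'
      apply hinf2
      refine (finite_Iic (f.1 (e p (⟨s, hs⟩, ⟨π, hπ⟩)))).subset ?_
      rintro _ ⟨_, ⟨X, rfl⟩, rfl⟩
      have h1 := X.2.2 (e p (⟨s, hs⟩, ⟨π, hπ⟩))
      simp only [G] at h1
      rw [(e p).injective.extend_apply, dif_pos (X.2.1 s hs)] at h1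
      exact h1
    let col : β → Set (H (p, f)) := fun b => {X | b ∈ X.1}
    have hR : #(range col) < τ := by
      by_contra hge
      rw [not_lt] at hge
      let sec : range col → β := fun r => r.2.choose
      have hsec : ∀ r, col (sec r) = r.1 := fun r => r.2.choose_spec
      have hsi : Function.Injective sec := fun r r' h =>
        Subtype.ext (by rw [← hsec, ← hsec, h])
      obtain ⟨s, hs, hinf⟩ := hit (range sec) (by rwa [mk_range_eq _ hsi])
      have hF := (hfin s hs).to_subtype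
      let φ : ↥(range sec ∩ range s) → ℕ := fun x => x.2.2.choose
      have hφ : ∀ x, s (φ x) = x.1 := fun x => x.2.2.choose_spec
      have hinj2 : Function.Injective (fun x : ↥(range sec ∩ range s) =>
          {T : range (fun X : H (p, f) => tr s X.1) | (⟨φ x⟩ : ULift.{u} ℕ) ∈ T.1}) := by
        intro x y h
        apply Subtype.ext
        obtain ⟨r, hr⟩ := x.2.1
        obtain ⟨r', hr'⟩ := y.2.1
        rw [← hr, ← hr']
        congr 1
        apply Subtype.ext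
        rw [← hsec, ← hsec, hr, hr', ← hφ, ← hφ]
        ext X
        exact Set.ext_iff.mp h ⟨tr s X.1, X, rfl⟩
      have := hinf.to_subtype
      exact not_injective_infinite_finite _ hinj2
    refine le_trans ?_ (hν _ hR)
    rw [← mk_set]
    apply mk_le_of_injective (f := fun X : H (p, f) => {r : range col | X ∈ r.1})
    intro X X' h
    apply Subtype.ext
    ext b
    exact Set.ext_iff.mp h ⟨col b, b, rfl⟩
  rw [← mk_set, ← mk_univ, hcov]
  refine (mk_iUnion_le _).trans (mul_le_mul' ?_ (ciSup_le' hH))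
  rw [mk_prod, lift_id, lift_id]
  exact mul_le_mul_left hC1 _

lemma mk_seq_le {β : Type u} (p : Set β) : #{s : ℕ → β | ∀ n, s n ∈ p} ≤ #p ^ ℵ₀ := by
  have h1 : #{s : ℕ → β | ∀ n, s n ∈ p} ≤ #(ℕ → p) := by
    apply mk_le_of_injective (f := fun t j => ⟨t.1 j, t.2 j⟩)
    intro t t' h
    apply Subtype.ext
    funext j
    exact congrArg Subtype.val (congrFun h j)
  simpa using h1

lemma exists_seq {β : Type u} {A : Set β} (h : A.Infinite) :
    ∃ s : ℕ → β, (range s).Infinite ∧ ∀ n, s n ∈ A :=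
  ⟨fun n => (h.natEmbedding _ n).1, infinite_range_of_injective
    (fun _ _ h' => (h.natEmbedding _).injective (Subtype.ext h')),
    fun n => (h.natEmbedding _ n).2⟩

lemma hit_of_beth {β : Type u} (h : beth Ordinal.omega0 ≤ #β) :
    ∃ τ < beth Ordinal.omega0, Hit (#β) τ β := by
  have hχ := SL_beth_omega.{u}
  obtain ⟨σ, hσ, P, hP1, hP2, hP3⟩ := revised_gch hχ (#β) h (univ : Set β) (by simp)
  have hβ : ℵ₀ ≤ #β := hχ.aleph0_lt.le.trans h
  have hlt : Order.succ (max σ ℵ₀) < beth Ordinal.omega0 :=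
    (Order.succ_le_of_lt (cantor _)).trans_lt (hχ.two_pow _ (max_lt hσ hχ.aleph0_lt))
  refine ⟨Order.succ (max σ ℵ₀), hlt, ⋃ p : P, {s | ∀ n, s n ∈ p.1}, ?_, fun A hA => ?_⟩
  · exact iUnion_le hβ _ hP1 (fun p => (mk_seq_le p.1).trans
      ((hχ.pow_lt (hP2 p.1 p.2) hχ.aleph0_lt).le.trans h))
  · obtain ⟨B, hBA, hB⟩ := le_mk_iff_exists_subset.mp hA
    obtain ⟨Q, hQ1, hQ2, hQ3⟩ := hP3 B (subset_univ _) (hB ▸ hlt)
    obtain ⟨p, hp⟩ : ∃ p : Q, (B ∩ p.1).Infinite := by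
      by_contra hcon
      have hfin : ∀ p : Q, #(B ∩ p.1 : Set β) ≤ max σ ℵ₀ := by
        intro p
        have : (B ∩ p.1).Finite := by
          by_contra h'
          exact hcon ⟨p, h'⟩
        exact (lt_aleph0_iff_set_finite.mpr this).le.trans (le_max_right _ _)
      have h1 : B ⊆ ⋃ p : Q, B ∩ p.1 := by
        intro x hx
        obtain ⟨p, hp, hxp⟩ := hQ3 hx
        exact mem_iUnion.mpr ⟨⟨p, hp⟩, hx, hxp⟩
      have h2 := (mk_le_mk_of_subset h1).trans
        (iUnion_le (le_max_right _ _) _ (hQ2.trans (le_max_left _ _)) hfin)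
      rw [hB] at h2
      exact absurd h2 (not_le.mpr (Order.lt_succ _))
    obtain ⟨s, hs1, hs2⟩ := exists_seq hp
    refine ⟨s, mem_iUnion.mpr ⟨⟨p.1, hQ1 p.2⟩, fun n => (hs2 n).2⟩, hs1.mono ?_⟩
    rintro _ ⟨n, rfl⟩
    exact ⟨hBA (hs2 n).1, n, rfl⟩

lemma Hit.mono_card {μ τ : Cardinal.{u}} {β β' : Type u} (h : Hit μ τ β) (hτ : 0 < τ)
    (hle : #β' ≤ #β) : Hit μ τ β' := by
  obtain ⟨e⟩ := hle
  obtain ⟨S, hS, hit⟩ := h
  rcases isEmpty_or_nonempty β' with hemp | hne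
  · refine ⟨∅, by simp, fun A hA => ?_⟩
    rw [mk_eq_zero] at hA
    exact absurd hA (not_le.mpr hτ)
  refine ⟨(fun s => Function.invFun e ∘ s) '' S, mk_image_le.trans hS, fun A hA => ?_⟩
  obtain ⟨s, hs, hinf⟩ := hit (e '' A) (by rwa [mk_image_eq e.injective])
  refine ⟨_, ⟨s, hs, rfl⟩, Infinite.of_image e (hinf.mono ?_)⟩
  rintro _ ⟨⟨x, hx, rfl⟩, n, hn⟩
  refine ⟨x, ⟨hx, n, ?_⟩, rfl⟩
  simp only [Function.comp]
  rw [hn, Function.leftInverse_invFun e.injective]

lemma Hit.mono_tau {μ τ τ' : Cardinal.{u}} {β : Type u} (h : Hit μ τ β) (hle : τ ≤ τ') :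
    Hit μ τ' β := by
  obtain ⟨S, hS, hit⟩ := h
  exact ⟨S, hS, fun A hA => hit A (hle.trans hA)⟩

lemma Hit.of_Iio {μ τ τ' : Cardinal.{u}} (hμ : ℵ₀ ≤ μ) {W : Type u} [LinearOrder W]
    (hW : #W ≤ μ) (h : ∀ w : W, Hit μ τ' (Iio w))
    (hb : ∀ A : Set W, τ ≤ #A → ∃ w, τ' ≤ #(A ∩ Iio w : Set W)) : Hit μ τ W := by
  choose S hS1 hS2 using h
  refine ⟨⋃ w, (fun s => Subtype.val ∘ s) '' S w,
    iUnion_le hμ _ hW (fun w => mk_image_le.trans (hS1 w)), fun A hA => ?_⟩
  obtain ⟨w, hw⟩ := hb A hA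
  obtain ⟨s, hs, hinf⟩ := hS2 w (Subtype.val ⁻¹' A) (by
    refine hw.trans ?_
    apply mk_le_of_injective (f := fun x : (A ∩ Iio w : Set W) =>
      (⟨⟨x.1, x.2.2⟩, x.2.1⟩ : (Subtype.val ⁻¹' A : Set (Iio w))))
    intro x y hxy
    exact Subtype.ext (congrArg (fun z => z.1.1) hxy))
  refine ⟨Subtype.val ∘ s, mem_iUnion.mpr ⟨w, s, hs, rfl⟩,
    (hinf.image Subtype.val_injective.injOn).mono ?_⟩
  rintro _ ⟨x, ⟨hx, n, rfl⟩, rfl⟩
  exact ⟨hx, n, rfl⟩

lemma hit_of_pow {μ : Cardinal.{u}} (hμ : ℵ₀ ≤ μ) {β : Type u} (h : #β ≤ ℵ₀ ∨ #β ^ ℵ₀ ≤ μ) :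
    Hit μ ℵ₀ β := by
  rcases h with h | h
  · rcases isEmpty_or_nonempty β with hemp | hne
    · refine ⟨∅, by simp, fun A hA => ?_⟩
      rw [mk_eq_zero] at hA
      exact absurd hA (not_le.mpr aleph0_pos)
    have : Countable β := mk_le_aleph0_iff.mp h
    obtain ⟨s, hs⟩ := exists_surjective_nat β
    refine ⟨{s}, by simpa using one_le_aleph0.trans hμ, fun A hA => ⟨s, rfl, ?_⟩⟩
    rw [hs.range_eq, inter_univ]
    exact infinite_iff_aleph0.mpr hA
  · refine ⟨univ, by simpa using h, fun A hA => ?_⟩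
    obtain ⟨s, h1, h2⟩ := exists_seq (infinite_iff_aleph0.mpr hA)
    refine ⟨s, mem_univ _, h1.mono ?_⟩
    rintro _ ⟨n, rfl⟩
    exact ⟨h2 n, n, rfl⟩

lemma hit_base {μ θ : Cardinal.{u}} (hθ : ℵ₀ ≤ θ) (hθμ : θ ≤ μ)
    (h : ∀ a < θ, a ≤ ℵ₀ ∨ a ^ ℵ₀ ≤ μ) : Hit μ ℵ₁ θ.ord.ToType := by
  have := Cardinal.noMaxOrder hθ
  refine Hit.of_Iio (τ' := ℵ₀) (hθ.trans hθμ) (by simpa using hθμ)
    (fun w => hit_of_pow (hθ.trans hθμ) (h _ (by simpa using mk_Iio_lt w))) (fun A hA => ?_)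
  by_cases hc : Order.cof θ.ord.ToType = ℵ₀
  · obtain ⟨w, hw⟩ := exists_bounded_piece isRegular_aleph_one
      (by rw [hc]; exact aleph0_lt_aleph_one.ne) A hA
    exact ⟨w, aleph0_lt_aleph_one.le.trans hw⟩
  · exact exists_bounded_piece isRegular_aleph0 hc A (aleph0_lt_aleph_one.le.trans hA)

/-- Hitting families between two fixed points of the aleph function. -/
lemma hit_step {μ : Cardinal.{u}} (α : Ordinal.{u}) (hα : 1 ≤ α)
    (hbase : Hit μ ℵ₁ (aleph α).ord.ToType)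
    (hfix : ∀ θ, aleph α < θ → θ ≤ μ → θ < aleph θ.ord) (β : Ordinal.{u}) :
    aleph (α + β) ≤ μ → ∀ τ : Cardinal.{u}, τ.IsRegular → ℵ₁ ≤ τ → β.card < τ →
      τ ≤ aleph (α + β) → Hit μ τ (aleph (α + β)).ord.ToType := by
  have hcard : ∀ β : Ordinal.{u}, β ≠ 0 → aleph (α + β) ≤ μ → β.card < aleph (α + β) := by
    intro β hβ hle
    have h1 := hfix (aleph (α + β)) (aleph_lt_aleph.mpr (lt_add_of_pos_right _ (pos_of_ne_zero hβ)))
      hle
    rw [aleph_lt_aleph] at h1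
    exact Cardinal.lt_ord.mp (le_add_self.trans_lt h1)
  induction β using WellFoundedLT.induction with
  | ind β ih =>
    intro hle
    rcases eq_or_ne β 0 with rfl | hβ
    · intro τ _ h1 _ _
      rw [add_zero]
      exact hbase.mono_tau h1
    have hμ : ℵ₀ ≤ μ := (aleph0_le_aleph _).trans hle
    have := Cardinal.noMaxOrder (aleph0_le_aleph (α + β))
    have main : ∀ τ : Cardinal.{u}, τ.IsRegular → ℵ₁ ≤ τ → β.card < τ →
        τ < aleph (α + β) → Hit μ τ (aleph (α + β)).ord.ToType := by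
      intro τ hτ h1 h2 h3
      refine Hit.of_Iio (τ' := τ) hμ (by simpa using hle) (fun w => ?_)
        (exists_bounded_piece hτ ?_)
      · have hw : #(Iio w) < aleph (α + β) := by simpa using mk_Iio_lt w
        by_cases hs : #(Iio w) ≤ aleph α
        · exact (hbase.mono_tau h1).mono_card hτ.pos (by simpa using hs)
        by_cases ht : #(Iio w) < τ
        · exact ⟨∅, by simp, fun A hA => absurd (hA.trans (mk_set_le A)) (not_le.mpr ht)⟩
        obtain ⟨γ, hγ⟩ := mem_range_aleph_iff.mpr ((aleph0_le_aleph α).trans (not_le.mp hs).le)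
        have hαγ : α ≤ γ := by
          rw [← hγ] at hs
          exact (aleph_lt_aleph.mp (not_le.mp hs)).le
        obtain ⟨β', rfl⟩ := exists_add_of_le hαγ
        have hβ' : β' < β := by
          rw [← hγ, aleph_lt_aleph] at hw
          exact lt_of_add_lt_add_left hw
        refine (ih β' hβ' (hγ ▸ hw.le.trans hle) τ hτ h1
          ((Ordinal.card_le_card hβ'.le).trans_lt h2) (hγ ▸ not_lt.mp ht)).mono_card hτ.pos ?_
        rw [← hγ]; simp
      · rw [Ordinal.cof_toType, ord_aleph]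
        rcases Ordinal.zero_or_succ_or_isSuccLimit β with h | ⟨γ, rfl⟩ | h
        · exact absurd h hβ
        · rw [Order.succ_eq_add_one, ← add_assoc, cof_omega_add_one]
          rw [Order.succ_eq_add_one, ← add_assoc] at h3
          exact h3.ne'
        · rw [Ordinal.cof_omega (Ordinal.isSuccLimit_add α h), Ordinal.cof_add α hβ]
          exact ((Ordinal.cof_le_card β).trans_lt h2).ne
    intro τ hτ h1 h2 h3
    rcases h3.lt_or_eq with h3 | h3
    · exact main τ hτ h1 h2 h3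
    have hα1 : ℵ₁ < aleph (α + β) :=
      aleph_lt_aleph.mpr (hα.trans_lt (lt_add_of_pos_right _ (pos_of_ne_zero hβ)))
    by_cases hfin : β.card ≤ ℵ₀
    · exact (main ℵ₁ isRegular_aleph_one le_rfl (hfin.trans_lt aleph0_lt_aleph_one)
        hα1).mono_tau h1
    · have hinf : ℵ₀ < β.card := not_le.mp hfin
      refine (main (Order.succ β.card) (isRegular_succ hinf.le)
        (by rw [← succ_aleph0]; exact Order.succ_le_succ hinf.le) (Order.lt_succ _) ?_).mono_tau
        (Order.succ_le_of_lt h2)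
      refine lt_of_le_of_ne (Order.succ_le_of_lt (hcard β hβ hle)) (fun heq => ?_)
      obtain ⟨γ, hγ⟩ := mem_range_aleph_iff.mpr hinf.le
      rw [← hγ, succ_aleph, aleph.injective.eq_iff] at heq
      rcases Ordinal.zero_or_succ_or_isSuccLimit β with h | ⟨δ, rfl⟩ | h
      · exact hβ h
      · rw [Order.succ_eq_add_one, ← add_assoc] at heq
        have hγδ : γ = α + δ := by
          rw [← Order.succ_eq_add_one, ← Order.succ_eq_add_one] at heq
          exact Order.succ_injective heq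
        have hδc : δ.card = (Order.succ δ).card := by
          have hδ : ℵ₀ ≤ δ.card := by
            by_contra hlt
            rw [Order.succ_eq_add_one, Ordinal.card_add_one] at hinf
            exact absurd (add_lt_of_lt le_rfl (not_le.mp hlt) one_lt_aleph0) (not_lt.mpr hinf.le)
          rw [Order.succ_eq_add_one, Ordinal.card_add_one, add_one_eq hδ]
        have hδ0 : δ ≠ 0 := by
          rintro rfl
          rw [← hδc] at hinf
          simp at hinf
        have := hcard δ hδ0 ((aleph_le_aleph.mpr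
          (add_le_add_right (Order.le_succ δ) α)).trans hle)
        rw [← hγδ, hγ, hδc] at this
        exact lt_irrefl _ this
      · have := Ordinal.isSuccLimit_add α h
        rw [← heq, ← Order.succ_eq_add_one] at this
        exact Order.not_isSuccLimit_succ γ this

end Pool.Agent.Lib.MP_856180_lc
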