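import Mathlib
import Pool.Agent.Lib.MP_856180_lc.Coding

/-!
Initial segments of well-orders, and Shelah's club guessing in the form needed here.
-/

set_option autoImplicit false

namespace Pool.Agent.Lib.MP_856180_lc

open Cardinal Set Pool.Agent.Shared.RevisedGCH

universe u

lemma rec_exists {Y : Type u} {St : Type u} [LT Y] [WellFoundedLT Y]
    (P : (ζ : Y) → ((ξ : Y) → ξ < ζ → St) → St → Prop) (h : ∀ ζ ih, ∃ st, P ζ ih st) :
    ∃ s : Y → St, ∀ ζ, P ζ (fun ξ _ => s ξ) (s ζ) := by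
  choose F hF using h
  refine ⟨(wellFounded_lt (α := Y)).fix F, fun ζ => ?_⟩
  have h1 := (wellFounded_lt (α := Y)).fix_eq F ζ
  rw [h1]
  exact hF ζ _

lemma mk_finset_le {α : Type u} {ν : Cardinal.{u}} (hν : ℵ₀ ≤ ν) (h : #α ≤ ν) :
    #(Finset α) ≤ ν := by
  classical
  refine (mk_le_of_surjective (f := fun l : List α => l.toFinset) List.toFinset_surjective).trans ?_
  exact (mk_list_le_max α).trans (max_le hν h)

section WO

variable {X : Type u} [LinearOrder X] [WellFoundedLT X]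

lemma mk_low_le (E : Set X) (θ : Cardinal.{u}) :
    #{x | x ∈ E ∧ #(E ∩ Iio x : Set X) < θ} ≤ θ := by
  by_contra hcon
  rw [not_le] at hcon
  set T : Set X := {x | x ∈ E ∧ #(E ∩ Iio x : Set X) < θ}
  have h1 : θ.ord < Ordinal.type (α := T) (· < ·) :=
    (ord_lt_ord.mpr hcon).trans_le (ord_le_type _)
  obtain ⟨x, hx⟩ := Ordinal.typein_surj _ h1
  have h2 : #{y : T // y < x} = θ := by
    rw [← Ordinal.card_typein, hx, card_ord]
  refine absurd x.2.2 (not_lt.mpr ?_)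
  rw [← h2]
  apply mk_le_of_injective (f := fun y : {y : T // y < x} =>
    (⟨y.1.1, y.1.2.1, y.2⟩ : (E ∩ Iio x.1 : Set X)))
  intro y z h
  exact Subtype.ext (Subtype.ext (congrArg (fun w : (E ∩ Iio x.1 : Set X) => w.1) h))

lemma le_mk_low (E : Set X) {θ : Cardinal.{u}} (h : θ ≤ #E) :
    θ ≤ #{x | x ∈ E ∧ #(E ∩ Iio x : Set X) < θ} := by
  by_cases hall : ∀ x ∈ E, #(E ∩ Iio x : Set X) < θ
  · exact h.trans (mk_le_mk_of_subset (fun x hx => ⟨hx, hall x hx⟩))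
  · push Not at hall
    have hne : {x | x ∈ E ∧ θ ≤ #(E ∩ Iio x : Set X)}.Nonempty := hall
    have h1 := (wellFounded_lt (α := X)).min_mem _ hne
    refine h1.2.trans (mk_le_mk_of_subset (fun x hx => ⟨hx.1, ?_⟩))
    by_contra hcon
    exact (wellFounded_lt (α := X)).not_lt_min _ (show x ∈ {x | x ∈ E ∧ θ ≤ #(E ∩ Iio x : Set X)}
      from ⟨hx.1, not_lt.mp hcon⟩) hx.2

omit [WellFoundedLT X] in
lemma mk_Iic_le {θ : Cardinal.{u}} (hθ : ℵ₀ ≤ θ) {x : X} (h : #(Iio x) ≤ θ) : #(Iic x) ≤ θ := by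
  rw [← Iio_insert]
  exact mk_insert_le.trans (add_le_of_le hθ h (one_le_aleph0.trans hθ))

omit [WellFoundedLT X] in
lemma mk_inter_Iic_lt {θ : Cardinal.{u}} (hθ : ℵ₀ ≤ θ) {E : Set X} {x : X}
    (h : #(E ∩ Iio x : Set X) < θ) : #(E ∩ Iic x : Set X) < θ := by
  refine (mk_le_mk_of_subset (t := insert x (E ∩ Iio x)) ?_).trans_lt
    (mk_insert_le.trans_lt (add_lt_of_lt hθ h (one_lt_aleph0.trans_le hθ)))
  rintro y ⟨hy, hyx⟩
  rcases (mem_Iic.mp hyx).eq_or_lt with h' | h'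
  · exact Or.inl h'
  · exact Or.inr ⟨hy, h'⟩

lemma exists_strict_bound {θ : Cardinal.{u}} (hθ : ℵ₀ ≤ θ) (hX : θ < #X) (R : Set X)
    (hR : #R ≤ θ) (hI : ∀ x ∈ R, #(Iio x) ≤ θ) : ∃ v, #(Iio v) ≤ θ ∧ ∀ x ∈ R, x < v := by
  have hU : #(⋃ x : R, Iic x.1) ≤ θ := iUnion_le hθ _ hR (fun x => mk_Iic_le hθ (hI x.1 x.2))
  have hne : (⋃ x : R, Iic x.1)ᶜ.Nonempty := by
    rw [nonempty_compl]
    intro h
    rw [h, mk_univ] at hU
    exact absurd hX (not_lt.mpr hU)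
  have h1 := (wellFounded_lt (α := X)).min_mem _ hne
  refine ⟨(wellFounded_lt (α := X)).min _ hne,
    le_trans (mk_le_mk_of_subset (fun y hy => ?_)) hU, fun x hx => ?_⟩
  · by_contra hcon
    exact (wellFounded_lt (α := X)).not_lt_min _ (show y ∈ (⋃ x : R, Iic x.1)ᶜ from hcon) hy
  · by_contra hcon
    exact h1 (mem_iUnion.mpr ⟨⟨x, hx⟩, not_lt.mp hcon⟩)

end WO

lemma mk_Iio_ord {c : Cardinal.{u}} (i : c.ord.ToType) : #(Iio i) < c := by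
  simpa using mk_Iio_lt i

lemma succ_bound {θ : Cardinal.{u}} (hθ : ℵ₀ ≤ θ) (R : Set (Order.succ θ).ord.ToType)
    (hR : #R ≤ θ) : ∃ v, ∀ x ∈ R, x < v := by
  obtain ⟨v, -, hv⟩ := exists_strict_bound hθ (by simp) R hR
    (fun x _ => Order.le_of_lt_succ (mk_Iio_ord x))
  exact ⟨v, hv⟩

section Guess

variable {Y : Type u} [ConditionallyCompleteLinearOrderBot Y] [WellFoundedLT Y]

/-- Closure points of `h`. -/
def Cl (h : Y → Y) : Set Y := {ζ | ∀ ξ < ζ, h ξ < ζ}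

omit [WellFoundedLT Y] in
lemma sSup_mem_Cl (h : Y → Y) (α : Y) : sSup (Cl h ∩ Iic α) ∈ Cl h := by
  intro ξ hξ
  have hb : BddAbove (Cl h ∩ Iic α) := ⟨α, fun _ hx => hx.2⟩
  obtain ⟨ε, hε, hlt⟩ := (lt_csSup_iff' hb).mp hξ
  exact (hε.1 ξ hlt).trans_le (le_csSup hb hε)

omit [WellFoundedLT Y] in
lemma Cl_unbounded {θ : Cardinal.{u}} (hθ : ℵ₀ ≤ θ) (hI : ∀ y : Y, #(Iio y) ≤ θ)
    (hb : ∀ R : Set Y, #R ≤ θ → ∃ v, ∀ x ∈ R, x < v) (h : Y → Y) (y : Y) :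
    ∃ ε ∈ Cl h, y < ε := by
  have h1 : ∀ z : Y, ∃ v, z < v ∧ ∀ ξ ≤ z, h ξ < v := by
    intro z
    obtain ⟨v, hv⟩ := hb (insert z (h '' Iic z)) (mk_insert_le.trans (add_le_of_le hθ
      (mk_image_le.trans (mk_Iic_le hθ (hI z))) (one_le_aleph0.trans hθ)))
    exact ⟨v, hv z (Or.inl rfl), fun ξ hξ => hv _ (Or.inr ⟨ξ, hξ, rfl⟩)⟩
  choose g hg1 hg2 using h1
  obtain ⟨v, hv⟩ := hb (range (fun n : ULift.{u} ℕ => g^[n.down] y))
    (mk_range_le.trans (by simpa using hθ))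
  have hbd : BddAbove (range (fun n : ULift.{u} ℕ => g^[n.down] y)) :=
    ⟨v, fun x hx => (hv x hx).le⟩
  refine ⟨sSup (range (fun n : ULift.{u} ℕ => g^[n.down] y)), fun ξ hξ => ?_, ?_⟩
  · obtain ⟨_, ⟨n, rfl⟩, hlt⟩ := (lt_csSup_iff' hbd).mp hξ
    refine (hg2 _ ξ hlt.le).trans_le (le_csSup hbd ⟨⟨n.down + 1⟩, ?_⟩)
    simp only [Function.iterate_succ_apply']
  · exact (hg1 y).trans_le (le_csSup hbd ⟨⟨1⟩, rfl⟩)

theorem club_guessing {ν : Cardinal.{u}} (hν : ℵ₀ ≤ ν) {θ : Cardinal.{u}}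
    (hθ : Order.succ (Order.succ ν) ≤ θ) (hI : ∀ y : Y, #(Iio y) ≤ θ)
    (hb : ∀ R : Set Y, #R ≤ θ → ∃ v, ∀ x ∈ R, x < v) :
    ∃ G : Set (Set Y), #G ≤ #Y ∧
      (∀ c ∈ G, #c = Order.succ ν ∧ ∀ ζ ∈ c, #(c ∩ Iio ζ : Set Y) ≤ ν) ∧
      ∀ h : Y → Y, ∃ c ∈ G, c ⊆ Cl h := by
  classical
  have hL : (Order.succ ν).IsRegular := isRegular_succ hν
  have hL0 : ℵ₀ ≤ Order.succ ν := hL.aleph0_le
  have hLθ : Order.succ ν ≤ θ := (Order.le_succ _).trans hθ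
  have hθ0 : ℵ₀ ≤ θ := hL0.trans hLθ
  let S : Y → Set Y → Prop := fun δ C => C ⊆ Iio δ ∧ #C = Order.succ ν ∧
    ∀ ζ < δ, #(C ∩ Iic ζ : Set Y) < Order.succ ν
  let C : Y → Set Y := fun δ => if h : ∃ C, S δ C then h.choose else ∅
  have hC : ∀ δ, (∃ C, S δ C) → S δ (C δ) := fun δ h => by
    simp only [C, dif_pos h]
    exact h.choose_spec
  let drop : (Y → Y) → Y → Y := fun h α => sSup (Cl h ∩ Iic α)
  have hbd : ∀ (h : Y → Y) (α : Y), BddAbove (Cl h ∩ Iic α) := fun h α => ⟨α, fun _ hx => hx.2⟩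
  have hdle : ∀ h α, drop h α ≤ α := fun h α => csSup_le' (fun _ hx => hx.2)
  let acc : (Y → Y) → Y → Prop := fun h δ => ∀ ζ < δ, ∃ ε ∈ Cl h, ζ < ε ∧ ε < δ
  let G : (Y → Y) → Set (Set Y) := fun h =>
    (fun δ => drop h '' C δ) '' {δ | (∃ C, S δ C) ∧ acc h δ}
  have hG : ∀ h, #(G h) ≤ #Y ∧
      ∀ c ∈ G h, #c = Order.succ ν ∧ ∀ ζ ∈ c, #(c ∩ Iio ζ : Set Y) ≤ ν := by
    intro h
    refine ⟨mk_image_le.trans (mk_set_le _), ?_⟩
    rintro _ ⟨δ, ⟨hδ, hacc⟩, rfl⟩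
    obtain ⟨h1, h2, h3⟩ := hC δ hδ
    have key : ∀ y < δ, ∃ ε < δ, ∀ α, drop h α ≤ y → α ≤ ε := by
      intro y hy
      obtain ⟨ε, hε, hyε, hεδ⟩ := hacc y hy
      refine ⟨ε, hεδ, fun α hα => ?_⟩
      by_contra hcon
      exact absurd (hyε.trans_le (le_csSup (hbd h α) ⟨hε, (not_le.mp hcon).le⟩)) (not_lt.mpr hα)
    refine ⟨le_antisymm (mk_image_le.trans h2.le) ?_, ?_⟩
    · by_contra hcon
      rw [not_le] at hcon
      have h4 : C δ ⊆ ⋃ y : (drop h '' C δ), {α | α ∈ C δ ∧ drop h α = y.1} :=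
        fun α hα => mem_iUnion.mpr ⟨⟨_, α, hα, rfl⟩, hα, rfl⟩
      have h5 := (card_iUnion_lt_iff_forall_of_isRegular
        (t := fun y : (drop h '' C δ) => {α | α ∈ C δ ∧ drop h α = y.1}) hL hcon).mpr (by
          rintro ⟨_, α, hα, rfl⟩
          obtain ⟨ε, hε, hε'⟩ := key _ ((hdle h α).trans_lt (h1 hα))
          refine lt_of_le_of_lt (mk_le_mk_of_subset ?_) (h3 ε hε)
          exact fun β hβ => ⟨hβ.1, hε' β hβ.2.le⟩)
      exact absurd ((mk_le_mk_of_subset h4).trans_lt h5) (not_lt.mpr h2.ge)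
    · rintro _ ⟨α, hα, rfl⟩
      obtain ⟨ε, hε, hε'⟩ := key _ ((hdle h α).trans_lt (h1 hα))
      refine Order.le_of_lt_succ (lt_of_le_of_lt ?_ (h3 ε hε))
      refine le_trans (mk_le_mk_of_subset (t := drop h '' (C δ ∩ Iic ε)) ?_) mk_image_le
      rintro _ ⟨⟨β, hβ, rfl⟩, hlt⟩
      exact ⟨β, ⟨hβ, hε' β (mem_Iio.mp hlt).le⟩, rfl⟩
  by_contra hcon
  have hF : ∀ h : Y → Y, ∃ h' : Y → Y, ∀ c ∈ G h, ¬ c ⊆ Cl h' := by
    intro h
    by_contra h'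
    push Not at h'
    exact hcon ⟨G h, (hG h).1, (hG h).2, h'⟩
  choose F hF using hF
  obtain ⟨H, hH⟩ := rec_exists (Y := (Order.succ (Order.succ ν)).ord.ToType) (St := Y → Y)
    (fun i ih st => ∀ j (hj : j < i) ξ, ih j hj ξ < st ξ ∧ F (ih j hj) ξ < st ξ) (by
      intro i ih
      have : ∀ ξ, ∃ v, ∀ j (hj : j < i), ih j hj ξ < v ∧ F (ih j hj) ξ < v := by
        intro ξ
        have hi : #(Iio i) ≤ θ := (mk_Iio_ord i).le.trans hθ
        obtain ⟨v, hv⟩ := hb (range (fun j : Iio i => ih j.1 j.2 ξ) ∪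
          range (fun j : Iio i => F (ih j.1 j.2) ξ)) ((mk_union_le _ _).trans
            (add_le_of_le hθ0 (mk_range_le.trans hi) (mk_range_le.trans hi)))
        exact ⟨v, fun j hj => ⟨hv _ (Or.inl ⟨⟨j, hj⟩, rfl⟩), hv _ (Or.inr ⟨⟨j, hj⟩, rfl⟩)⟩⟩
      choose st hst using this
      exact ⟨st, fun j hj ξ => hst ξ j hj⟩)
  have htop : ∀ ξ, ∃ v, ∀ i, H i ξ < v := by
    intro ξ
    obtain ⟨v, hv⟩ := hb (range (fun i => H i ξ)) (mk_range_le.trans (by simpa using hθ))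
    exact ⟨v, fun i => hv _ ⟨i, rfl⟩⟩
  choose ht hht using htop
  have hCl : ∀ {h h' : Y → Y}, (∀ ξ, h ξ ≤ h' ξ) → Cl h' ⊆ Cl h :=
    fun hle ζ hζ ξ hξ => (hle ξ).trans_lt (hζ ξ hξ)
  have hE : Order.succ ν ≤ #(Cl ht) := by
    by_contra hlt
    obtain ⟨v, hv⟩ := hb (Cl ht) ((not_le.mp hlt).le.trans hLθ)
    obtain ⟨ε, hε, hvε⟩ := Cl_unbounded hθ0 hI hb ht v
    exact lt_asymm hvε (hv ε hε)
  set T : Set Y := {x | x ∈ Cl ht ∧ #(Cl ht ∩ Iio x : Set Y) < Order.succ ν} with hT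
  have hTc : #T = Order.succ ν := le_antisymm (mk_low_le _ _) (le_mk_low _ hE)
  obtain ⟨v, hv⟩ := hb T (hTc.le.trans hLθ)
  have hTb : BddAbove T := ⟨v, fun x hx => (hv x hx).le⟩
  have hTs : ∀ x ∈ T, #(T ∩ Iic x : Set Y) < Order.succ ν := fun x hx =>
    lt_of_le_of_lt (mk_le_mk_of_subset (inter_subset_inter_left _ (fun _ hy => hy.1)))
      (mk_inter_Iic_lt hL0 hx.2)
  have hnm : ∀ x ∈ T, ∃ y ∈ T, x < y := by
    intro x hx
    by_contra h'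
    push Not at h'
    refine absurd (lt_of_le_of_lt (mk_le_mk_of_subset ?_) (hTs x hx)) (not_lt.mpr hTc.ge)
    exact fun y hy => ⟨hy, h' y hy⟩
  have hlt : ∀ x ∈ T, x < sSup T := fun x hx => by
    obtain ⟨y, hy, hxy⟩ := hnm x hx
    exact hxy.trans_le (le_csSup hTb hy)
  have hS : ∃ C, S (sSup T) C := by
    refine ⟨T, hlt, hTc, fun ζ hζ => ?_⟩
    obtain ⟨x, hx, hζx⟩ := (lt_csSup_iff' hTb).mp hζ
    refine lt_of_le_of_lt (mk_le_mk_of_subset ?_) (hTs x hx)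
    exact fun y hy => ⟨hy.1, hy.2.trans hζx.le⟩
  have hacc : ∀ i, acc (H i) (sSup T) := by
    intro i ζ hζ
    obtain ⟨x, hx, hζx⟩ := (lt_csSup_iff' hTb).mp hζ
    exact ⟨x, hCl (fun ξ => (hht ξ i).le) hx.1, hζx, hlt x hx⟩
  have hanti : ∀ α i j, i ≤ j → drop (H j) α ≤ drop (H i) α := by
    intro α i j hij
    rcases hij.eq_or_lt with rfl | hij
    · exact le_rfl
    · exact csSup_le_csSup' (hbd _ α)
        (inter_subset_inter_left _ (hCl (fun ξ => (hH j i hij ξ).1.le)))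
  have hne : Nonempty (Order.succ (Order.succ ν)).ord.ToType := by
    rw [Ordinal.nonempty_toType_iff]
    simp
  have hconst : ∀ α, ∃ i, ∀ j, i ≤ j → drop (H j) α = drop (H i) α := by
    intro α
    obtain ⟨i, hi⟩ := (wellFounded_lt (α := Y)).min_mem (range (fun i => drop (H i) α))
      (range_nonempty _)
    refine ⟨i, fun j hj => le_antisymm (hanti α i j hj) ?_⟩
    simp only at hi
    rw [hi]
    exact (wellFounded_lt (α := Y)).min_le (mem_range_self j)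
  choose i0 hi0 using hconst
  obtain ⟨i, hi⟩ := succ_bound hL0 (i0 '' C (sSup T)) (mk_image_le.trans (hC _ hS).2.1.le)
  obtain ⟨j, hj⟩ := succ_bound hL0 {i} (by simpa using one_le_aleph0.trans hL0)
  have hij : i < j := hj i rfl
  refine hF (H i) _ ⟨sSup T, ⟨hS, hacc i⟩, rfl⟩ ?_
  rintro _ ⟨α, hα, rfl⟩
  have h1 := (hi _ ⟨α, hα, rfl⟩).le
  rw [hi0 α i h1, ← hi0 α j (h1.trans hij.le)]
  exact hCl (fun ξ => (hH j i hij ξ).2.le) (sSup_mem_Cl _ α)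

end Guess

end Pool.Agent.Lib.MP_856180_lc
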