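import Mathlib

set_option autoImplicit false

namespace Pool.Agent.Lib.MP_856180_lc

open Cardinal

universe u

/-- The cofinality of the ultraproduct of the cardinals `a i` modulo `U`: the least size of a
family of functions in the product such that every function in the product is bounded modulo `U`
by a member of the family. -/
noncomputable def ucof {ι : Type u} (a : ι → Cardinal.{u}) (U : Ultrafilter ι) : Cardinal.{u} :=
  sInf {c : Cardinal.{u} | ∃ S : Set (∀ i, (a i).ord.ToType), Cardinal.mk S = c ∧
    ∀ g : ∀ i, (a i).ord.ToType, ∃ f ∈ S, ∀ᶠ i in (U : Filter ι), g i ≤ f i}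

end Pool.Agent.Lib.MP_856180_lc
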