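import Mathlib
import Pool.Agent.Lib.MP_856180_lc.Guess
import Pool.Agent.Lib.MP_856180_lc.PcfDefs

/-!
Basic pcf theory: cofinalities of ultraproducts and directedness of reduced products.
-/

set_option autoImplicit false

namespace Pool.Agent.Lib.MP_856180_lc

open Cardinal Set Filter Pool.Agent.Shared.RevisedGCH

universe u

section Generic

lemma bound_of_lt_cof {A : Type u} [LinearOrder A] (R : Set A) (h : #R < Order.cof A) :
    ∃ v, ∀ x ∈ R, x < v :=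
  not_isCofinal_iff.mp (fun hc => absurd h (not_lt.mpr (Order.cof_le hc)))

lemma tukey {A B : Type u} [LinearOrder A] [LinearOrder B] (h : Order.cof A = Order.cof B)
    (h0 : ℵ₀ ≤ Order.cof A) : ∃ (φ : A → B) (ψ : B → A), ∀ x y, ψ y ≤ x → y ≤ φ x := by
  obtain ⟨CA, hA1, hA2⟩ := Order.exists_cof_eq A
  obtain ⟨CB, hB1, hB2⟩ := Order.exists_cof_eq B
  obtain ⟨eA⟩ : Nonempty ((Order.cof A).ord.ToType ≃ CA) := by
    rw [← Cardinal.eq, hA2, mk_ord_toType]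
  obtain ⟨eB⟩ : Nonempty ((Order.cof A).ord.ToType ≃ CB) := by
    rw [← Cardinal.eq, hB2, mk_ord_toType, h]
  have h1 : ∀ t : (Order.cof A).ord.ToType, ∃ v : A, ∀ s ≤ t, (eA s).1 < v := by
    intro t
    obtain ⟨v, hv⟩ := bound_of_lt_cof ((fun s => (eA s).1) '' Iic t) (mk_image_le.trans_lt (by
      have := mk_inter_Iic_lt h0 (E := univ) (x := t) (by simpa using mk_Iio_ord t)
      rwa [univ_inter] at this))
    exact ⟨v, fun s hs => hv _ ⟨s, hs, rfl⟩⟩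
  choose ub hub using h1
  have h2 : ∀ x : A, ∃ v : B, ∀ t, ub t ≤ x → (eB t).1 < v := by
    intro x
    obtain ⟨c, hc, hxc⟩ := hA1 x
    obtain ⟨v, hv⟩ := bound_of_lt_cof ((fun s => (eB s).1) '' Iio (eA.symm ⟨c, hc⟩))
      (mk_image_le.trans_lt (h ▸ mk_Iio_ord _))
    refine ⟨v, fun t ht => hv _ ⟨t, ?_, rfl⟩⟩
    by_contra hcon
    have := hub t _ (not_lt.mp hcon)
    rw [Equiv.apply_symm_apply] at this
    exact absurd (ht.trans hxc) (not_le.mpr this)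
  choose φ hφ using h2
  have h3 : ∀ y : B, ∃ t, y ≤ (eB t).1 := by
    intro y
    obtain ⟨c, hc, hyc⟩ := hB1 y
    exact ⟨eB.symm ⟨c, hc⟩, by rwa [Equiv.apply_symm_apply]⟩
  choose t ht using h3
  exact ⟨φ, fun y => ub (t y), fun x y hxy => (ht y).trans (hφ x _ hxy).le⟩

/-- The cofinality of an ultraproduct of linear orders. -/
noncomputable def gcf {ι : Type u} (X : ι → Type u) [∀ i, LinearOrder (X i)] (U : Ultrafilter ι) :
    Cardinal.{u} :=
  sInf {c : Cardinal.{u} | ∃ S : Set (∀ i, X i), #S = c ∧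
    ∀ g : ∀ i, X i, ∃ f ∈ S, ∀ᶠ i in (U : Filter ι), g i ≤ f i}

lemma gcf_spec {ι : Type u} (X : ι → Type u) [∀ i, LinearOrder (X i)] (U : Ultrafilter ι) :
    ∃ S : Set (∀ i, X i), #S = gcf X U ∧
      ∀ g : ∀ i, X i, ∃ f ∈ S, ∀ᶠ i in (U : Filter ι), g i ≤ f i :=
  csInf_mem (s := {c : Cardinal.{u} | ∃ S : Set (∀ i, X i), #S = c ∧
    ∀ g : ∀ i, X i, ∃ f ∈ S, ∀ᶠ i in (U : Filter ι), g i ≤ f i})
    ⟨_, univ, rfl, fun g => ⟨g, mem_univ _, Eventually.of_forall (fun _ => le_rfl)⟩⟩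

lemma gcf_le {ι : Type u} {X : ι → Type u} [∀ i, LinearOrder (X i)] {U : Ultrafilter ι}
    {J : Type u} (k : J → ∀ i, X i) (h : ∀ g : ∀ i, X i, ∃ j, ∀ᶠ i in (U : Filter ι), g i ≤ k j i) :
    gcf X U ≤ #J :=
  (csInf_le' (s := {c : Cardinal.{u} | ∃ S : Set (∀ i, X i), #S = c ∧
    ∀ g : ∀ i, X i, ∃ f ∈ S, ∀ᶠ i in (U : Filter ι), g i ≤ f i})
    ⟨range k, rfl, fun g => (h g).elim (fun j hj => ⟨_, ⟨j, rfl⟩, hj⟩)⟩).trans mk_range_le

lemma gcf_map {ι ι' : Type u} {X : ι → Type u} [∀ i, LinearOrder (X i)] {X' : ι' → Type u}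
    [∀ i, LinearOrder (X' i)] {μ : Cardinal.{u}} (hμ : ℵ₀ ≤ μ) (hX : ∀ i, μ < Order.cof (X i))
    (hX' : ∀ i, μ < Order.cof (X' i)) (π : ι → ι') {e : Set ι} (he : #e ≤ μ) {U : Ultrafilter ι}
    (heU : e ∈ U) (h : ∀ i ∈ e, Order.cof (X i) = Order.cof (X' (π i))) :
    gcf X U = gcf X' (U.map π) := by
  have hne : ∀ i, Nonempty (X i) := fun i =>
    Order.cof_ne_zero_iff.mp (zero_le.trans_lt (hX i)).ne'
  have hne' : ∀ i, Nonempty (X' i) := fun i =>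
    Order.cof_ne_zero_iff.mp (zero_le.trans_lt (hX' i)).ne'
  apply le_antisymm
  · have h1 : ∀ i, ∃ (φ : X' (π i) → X i) (ψ : X i → X' (π i)),
        i ∈ e → ∀ x y, ψ y ≤ x → y ≤ φ x := by
      intro i
      by_cases hi : i ∈ e
      · obtain ⟨φ, ψ, h2⟩ := tukey (h i hi).symm (hμ.trans (hX' _).le)
        exact ⟨φ, ψ, fun _ => h2⟩
      · exact ⟨fun _ => Classical.arbitrary _, fun _ => Classical.arbitrary _,
          fun h' => absurd h' hi⟩
    choose φ ψ hφ using h1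
    obtain ⟨S, hS1, hS2⟩ := gcf_spec X' (U.map π)
    rw [← hS1]
    refine gcf_le (fun (f : S) i => φ i (f.1 (π i))) (fun g => ?_)
    have h2 : ∀ i', ∃ v : X' i', ∀ i ∈ e, ∀ hi : π i = i', hi ▸ ψ i (g i) < v := by
      intro i'
      obtain ⟨v, hv⟩ := bound_of_lt_cof (range (fun i : {i : e // π i = i'} =>
        (i.2 ▸ ψ i.1.1 (g i.1.1) : X' i'))) (mk_range_le.trans_lt
          (((mk_subtype_le _).trans he).trans_lt (hX' i')))
      exact ⟨v, fun i hi hπ => hv _ ⟨⟨⟨i, hi⟩, hπ⟩, rfl⟩⟩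
    choose g' hg' using h2
    obtain ⟨f, hf, hgf⟩ := hS2 g'
    refine ⟨⟨f, hf⟩, ?_⟩
    rw [Ultrafilter.coe_map, eventually_map] at hgf
    filter_upwards [hgf, heU] with i h3 h4
    exact hφ i h4 _ _ ((hg' _ i h4 rfl).le.trans h3)
  · have h1 : ∀ i, ∃ (φ : X i → X' (π i)) (ψ : X' (π i) → X i),
        i ∈ e → ∀ x y, ψ y ≤ x → y ≤ φ x := by
      intro i
      by_cases hi : i ∈ e
      · obtain ⟨φ, ψ, h2⟩ := tukey (h i hi) (hμ.trans (hX _).le)
        exact ⟨φ, ψ, fun _ => h2⟩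
      · exact ⟨fun _ => Classical.arbitrary _, fun _ => Classical.arbitrary _,
          fun h' => absurd h' hi⟩
    choose φ ψ hφ using h1
    obtain ⟨S, hS1, hS2⟩ := gcf_spec X U
    rw [← hS1]
    have h2 : ∀ (g : ∀ i, X i) i', ∃ v : X' i', ∀ i ∈ e, ∀ hi : π i = i',
        hi ▸ φ i (g i) < v := by
      intro g i'
      obtain ⟨v, hv⟩ := bound_of_lt_cof (range (fun i : {i : e // π i = i'} =>
        (i.2 ▸ φ i.1.1 (g i.1.1) : X' i'))) (mk_range_le.trans_lt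
          (((mk_subtype_le _).trans he).trans_lt (hX' i')))
      exact ⟨v, fun i hi hπ => hv _ ⟨⟨⟨i, hi⟩, hπ⟩, rfl⟩⟩
    choose k hk using h2
    refine gcf_le (fun (f : S) => k f.1) (fun g => ?_)
    obtain ⟨f, hf, hgf⟩ := hS2 (fun i => ψ i (g (π i)))
    refine ⟨⟨f, hf⟩, ?_⟩
    rw [Ultrafilter.coe_map, eventually_map]
    filter_upwards [hgf, heU] with i h3 h4
    exact (hφ i h4 _ _ h3).trans (hk f _ i h4 rfl).le

lemma no_chain {ι : Type u} {ν : Cardinal.{u}} (hν : ℵ₀ ≤ ν) {e : Set ι} (he : #e ≤ ν)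
    (A : (Order.succ ν).ord.ToType → Set ι) (hm : Monotone A)
    (h : ∀ α α', α < α' → ∃ i ∈ e, i ∈ A α' ∧ i ∉ A α) : False := by
  have h1 : ∀ α : (Order.succ ν).ord.ToType, ∃ α', α < α' ∧ ∀ β, α < β → α' ≤ β := by
    intro α
    obtain ⟨v, hv⟩ := succ_bound hν {α} (by simpa using one_le_aleph0.trans hν)
    obtain ⟨m, hm1, hm2⟩ := WellFounded.has_min wellFounded_lt {β | α < β} ⟨v, hv α rfl⟩
    exact ⟨m, hm1, fun β hβ => not_lt.mp (hm2 β hβ)⟩
  choose s hs1 hs2 using h1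
  choose i hi1 hi2 hi3 using fun α => h α (s α) (hs1 α)
  have h2 : ∀ α β, α < β → i α ≠ i β := fun α β hαβ heq =>
    hi3 β (heq ▸ hm (hs2 α β hαβ) (hi2 α))
  have h3 : #(Order.succ ν).ord.ToType ≤ #e := by
    apply mk_le_of_injective (f := fun α => ⟨i α, hi1 α⟩)
    intro α β heq
    have h4 : i α = i β := congrArg Subtype.val heq
    rcases lt_trichotomy α β with h5 | h5 | h5
    · exact absurd h4 (h2 _ _ h5)
    · exact h5
    · exact absurd h4.symm (h2 _ _ h5)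
  rw [mk_ord_toType] at h3
  exact absurd (h3.trans he) (not_le.mpr (Order.lt_succ ν))

end Generic

section Basic

variable {W : Type u} [LinearOrder W] {ι : Type u} {μ : Cardinal.{u}}

/-- The point `w` has cofinality above `μ`. -/
def Big (μ : Cardinal.{u}) (w : W) : Prop := μ < Order.cof (Iio w)

lemma bound_below {w : W} (R : Set W) (h : #R < Order.cof (Iio w)) (hR : ∀ x ∈ R, x < w) :
    ∃ v < w, ∀ x ∈ R, x < v := by
  obtain ⟨v, hv⟩ := bound_of_lt_cof (Subtype.val ⁻¹' R : Set (Iio w))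
    ((mk_preimage_of_injective _ _ Subtype.val_injective).trans_lt h)
  exact ⟨v.1, v.2, fun x hx => hv ⟨x, hR x hx⟩ hx⟩

lemma Big.bound {w : W} (h : Big μ w) {J : Type u} (hJ : #J ≤ μ) (k : J → W) (hk : ∀ j, k j < w) :
    ∃ v < w, ∀ j, k j < v := by
  obtain ⟨v, h1, h2⟩ := bound_below (range k) ((mk_range_le.trans hJ).trans_lt h)
    (by rintro _ ⟨j, rfl⟩; exact hk j)
  exact ⟨v, h1, fun j => h2 _ ⟨j, rfl⟩⟩

lemma Big.next (hμ : ℵ₀ ≤ μ) {w x : W} (h : Big μ w) (hx : x < w) : ∃ v < w, x < v := by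
  obtain ⟨v, h1, h2⟩ := h.bound (J := PUnit.{u + 1}) (by simpa using one_le_aleph0.trans hμ)
    (fun _ => x) (fun _ => hx)
  exact ⟨v, h1, h2 PUnit.unit⟩

lemma Big.lt_mk {w : W} (h : Big μ w) : μ < #(Iio w) := h.trans_le (Order.cof_le_cardinalMk _)

/-- Membership in the product. -/
def Pr (a g : ι → W) : Prop := ∀ i, g i < a i

lemma bound_fam {a : ι → W} (ha : ∀ i, Big μ (a i)) {J : Type u} (hJ : #J ≤ μ) (k : J → ι → W)
    (hk : ∀ j, Pr a (k j)) : ∃ g, Pr a g ∧ ∀ j i, k j i < g i := by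
  choose g h1 h2 using fun i => (ha i).bound hJ (fun j => k j i) (fun j => hk j i)
  exact ⟨g, h1, fun j i => h2 i j⟩

lemma bound_two (hμ : ℵ₀ ≤ μ) {a : ι → W} (ha : ∀ i, Big μ (a i)) {f g : ι → W} (hf : Pr a f)
    (hg : Pr a g) : ∃ k, Pr a k ∧ (∀ i, f i < k i) ∧ ∀ i, g i < k i := by
  choose k h1 h2 using fun i => (ha i).next hμ (max_lt (hf i) (hg i))
  exact ⟨k, h1, fun i => (le_max_left _ _).trans_lt (h2 i),
    fun i => (le_max_right _ _).trans_lt (h2 i)⟩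

lemma bound_pairs {a : ι → W} (ha : ∀ i, Big μ (a i)) {J : Type u} (hJ : #J ≤ μ) (β : J → ι)
    (v : J → W) (hv : ∀ j, v j < a (β j)) : ∃ g, Pr a g ∧ ∀ j, v j < g (β j) := by
  choose g h1 h2 using fun i => (ha i).bound ((mk_subtype_le (fun j => β j = i)).trans hJ)
    (fun j => v j.1) (fun j => by
      have := hv j.1
      rwa [j.2] at this)
  exact ⟨g, h1, fun j => h2 (β j) ⟨j, rfl⟩⟩

/-- The cofinality of the ultraproduct of the points `a i`. -/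
noncomputable def cf (U : Ultrafilter ι) (a : ι → W) : Cardinal.{u} := gcf (fun i => Iio (a i)) U

lemma cf_spec (U : Ultrafilter ι) (a : ι → W) : ∃ (J : Type u) (k : J → ι → W), #J = cf U a ∧
    (∀ j, Pr a (k j)) ∧ ∀ g, Pr a g → ∃ j, ∀ᶠ i in (U : Filter ι), g i ≤ k j i := by
  obtain ⟨S, h1, h2⟩ := gcf_spec (fun i => Iio (a i)) U
  refine ⟨S, fun f i => (f.1 i).1, h1, fun f i => (f.1 i).2, fun g hg => ?_⟩
  obtain ⟨f, hf, h⟩ := h2 (fun i => ⟨g i, hg i⟩)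
  exact ⟨⟨f, hf⟩, h⟩

lemma cf_le {U : Ultrafilter ι} {a : ι → W} {J : Type u} (k : J → ι → W) (hk : ∀ j, Pr a (k j))
    (h : ∀ g, Pr a g → ∃ j, ∀ᶠ i in (U : Filter ι), g i ≤ k j i) : cf U a ≤ #J :=
  gcf_le (fun j i => ⟨k j i, hk j i⟩) (fun g => h (fun i => (g i).1) (fun i => (g i).2))

/-- Fewer than `η` members of the product have a strict upper bound modulo `F`. -/
def Dir (F : Filter ι) (a : ι → W) (η : Cardinal.{u}) : Prop :=
  ∀ (J : Type u) (k : J → ι → W), #J < η → (∀ j, Pr a (k j)) →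
    ∃ g, Pr a g ∧ ∀ j, ∀ᶠ i in F, k j i < g i

lemma Dir.mono {F F' : Filter ι} {a : ι → W} {η η' : Cardinal.{u}} (h : Dir F a η) (hF : F' ≤ F)
    (hη : η' ≤ η) : Dir F' a η' := by
  intro J k hJ hk
  obtain ⟨g, h1, h2⟩ := h J k (hJ.trans_le hη) hk
  exact ⟨g, h1, fun j => (h2 j).filter_mono hF⟩

lemma dir_cf (U : Ultrafilter ι) (a : ι → W) : Dir (U : Filter ι) a (cf U a) := by
  intro J k hJ hk
  by_contra hcon
  push Not at hcon
  refine absurd hJ (not_lt.mpr (cf_le k hk (fun g hg => ?_)))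
  obtain ⟨j, hj⟩ := hcon g hg
  exact ⟨j, hj⟩

lemma Dir.le_cf {U : Ultrafilter ι} {a : ι → W} {η : Cardinal.{u}} (h : Dir (U : Filter ι) a η) :
    η ≤ cf U a := by
  obtain ⟨J, k, h1, h2, h3⟩ := cf_spec U a
  by_contra hcon
  obtain ⟨g, hg, h4⟩ := h J k (h1 ▸ not_le.mp hcon) h2
  obtain ⟨j, hj⟩ := h3 g hg
  obtain ⟨i, h5, h6⟩ := (hj.and (h4 j)).exists
  exact absurd h5 (not_le.mpr h6)

lemma dir_succ (F : Filter ι) {a : ι → W} (ha : ∀ i, Big μ (a i)) : Dir F a (Order.succ μ) := by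
  intro J k hJ hk
  obtain ⟨g, h1, h2⟩ := bound_fam ha (Order.le_of_lt_succ hJ) k hk
  exact ⟨g, h1, fun j => Eventually.of_forall (h2 j)⟩

lemma lt_cf (U : Ultrafilter ι) {a : ι → W} (ha : ∀ i, Big μ (a i)) : μ < cf U a :=
  Order.succ_le_iff.mp (dir_succ _ ha).le_cf

lemma cf_map {ι' : Type u} (hμ : ℵ₀ ≤ μ) {a : ι → W} (ha : ∀ i, Big μ (a i)) {a' : ι' → W}
    (ha' : ∀ i, Big μ (a' i)) (π : ι → ι') {e : Set ι} (he : #e ≤ μ) {U : Ultrafilter ι}
    (heU : e ∈ U) (h : ∀ i ∈ e, Order.cof (Iio (a i)) = Order.cof (Iio (a' (π i)))) :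
    cf U a = cf (U.map π) a' :=
  gcf_map (X := fun i => Iio (a i)) (X' := fun i => Iio (a' i)) hμ ha ha' π he heU h

lemma raise (hμ : ℵ₀ ≤ μ) {a : ι → W} (ha : ∀ i, Big μ (a i)) {F : Filter ι} {η : Cardinal.{u}}
    (hdir : Dir F a η) {T : Type u} [LinearOrder T] [WellFoundedLT T] (D : Set T)
    (hD : ∀ t ∈ D, #(Iio t) < η) (g : T → ι → W) (hg : ∀ t, Pr a (g t)) (E : T → Set T)
    (hE : ∀ t, #(E t) ≤ μ) : ∃ f : T → ι → W, (∀ t, Pr a (f t)) ∧ (∀ t i, g t i < f t i) ∧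
      (∀ t ∈ D, ∀ s < t, ∀ᶠ i in F, f s i < f t i) ∧ ∀ t, ∀ s ∈ E t, s < t → ∀ i, f s i < f t i := by
  obtain ⟨f, hf⟩ := rec_exists (Y := T) (St := {f : ι → W // Pr a f})
    (fun t ih st => (∀ i, g t i < st.1 i) ∧
      (t ∈ D → ∀ s (h : s < t), ∀ᶠ i in F, (ih s h).1 i < st.1 i) ∧
      ∀ s ∈ E t, ∀ h : s < t, ∀ i, (ih s h).1 i < st.1 i) (by
    intro t ih
    obtain ⟨k₁, h1, h2⟩ : ∃ k, Pr a k ∧
        (t ∈ D → ∀ s (h : s < t), ∀ᶠ i in F, (ih s h).1 i < k i) := by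
      by_cases ht : t ∈ D
      · obtain ⟨k, h1, h2⟩ := hdir (Iio t) (fun s => (ih s.1 s.2).1) (hD t ht)
          (fun s => (ih s.1 s.2).2)
        exact ⟨k, h1, fun _ s h => h2 ⟨s, h⟩⟩
      · exact ⟨g t, hg t, fun h => absurd h ht⟩
    obtain ⟨k₂, h3, h4⟩ := bound_fam ha (J := {s : E t // s.1 < t})
      ((mk_subtype_le _).trans (hE t)) (fun s => (ih s.1.1 s.2).1) (fun s => (ih s.1.1 s.2).2)
    obtain ⟨k₃, h5, h6, h7⟩ := bound_two hμ ha h1 h3
    obtain ⟨k₄, h8, h9, h10⟩ := bound_two hμ ha h5 (hg t)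
    refine ⟨⟨k₄, h8⟩, h10, fun ht s h => (h2 ht s h).mono (fun i hi => ?_), fun s hs h i => ?_⟩
    · exact hi.trans ((h6 i).trans (h9 i))
    · exact (h4 ⟨⟨s, hs⟩, h⟩ i).trans ((h7 i).trans (h9 i)))
  exact ⟨fun t => (f t).1, fun t => (f t).2, fun t => (hf t).1, fun t ht s h => (hf t).2.1 ht s h,
    fun t s hs h => (hf t).2.2 s hs h⟩

/-- The intersection of the ultrafilters on `e` whose ultraproduct has cofinality at least `η`. -/
def FF (a : ι → W) (e : Set ι) (η : Cardinal.{u}) : Filter ι :=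
  ⨆ U ∈ {U : Ultrafilter ι | e ∈ U ∧ η ≤ cf U a}, (U : Filter ι)

lemma ev_FF {a : ι → W} {e : Set ι} {η : Cardinal.{u}} {p : ι → Prop} :
    (∀ᶠ i in FF a e η, p i) ↔
      ∀ U : Ultrafilter ι, e ∈ U → η ≤ cf U a → ∀ᶠ i in (U : Filter ι), p i := by
  simp [FF, eventually_iSup]

lemma le_FF {a : ι → W} {e : Set ι} {η : Cardinal.{u}} {U : Ultrafilter ι} (h1 : e ∈ U)
    (h2 : η ≤ cf U a) : (U : Filter ι) ≤ FF a e η :=
  fun _ hs => ev_FF.mp hs U h1 h2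

lemma mem_FF (a : ι → W) (e : Set ι) (η : Cardinal.{u}) : e ∈ FF a e η :=
  ev_FF.mpr (fun _ h _ => h)

theorem dir_FF {ν : Cardinal.{u}} (hν : ℵ₀ ≤ ν) (hνμ : Order.succ ν ≤ μ) {a : ι → W}
    (ha : ∀ i, Big μ (a i)) {e : Set ι} (he : #e ≤ ν) (η : Cardinal.{u}) : Dir (FF a e η) a η := by
  have hμ : ℵ₀ ≤ μ := hν.trans ((Order.le_succ ν).trans hνμ)
  suffices h : ∀ c < η, Dir (FF a e η) a (Order.succ c) from
    fun J k hJ hk => h _ hJ J k (Order.lt_succ _) hk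
  intro c
  induction c using WellFoundedLT.induction with
  | ind c ih =>
    intro hc J k hJ hk
    by_cases hs : c ≤ μ
    · exact dir_succ _ ha J k (hJ.trans_le (Order.succ_le_succ hs)) hk
    obtain ⟨g0, hg0, -⟩ := bound_fam ha (J := PEmpty.{u + 1}) (by simp) (fun j => j.elim)
      (fun j => j.elim)
    obtain ⟨j⟩ : #J ≤ #c.ord.ToType := by simpa using Order.le_of_lt_succ hJ
    obtain ⟨f, h1, h2, h3, -⟩ := raise hμ ha (F := FF a e η) (η := c)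
      (fun J k hJ hk => ih _ hJ (hJ.trans hc) J k (Order.lt_succ _) hk) (T := c.ord.ToType) univ
      (fun t _ => mk_Iio_ord t) (Function.extend j k (fun _ => g0)) (by
        intro t
        by_cases ht : ∃ x, j x = t
        · obtain ⟨x, rfl⟩ := ht
          rw [j.injective.extend_apply]
          exact hk x
        · rw [Function.extend_apply' _ _ _ ht]
          exact hg0) (fun _ => ∅) (fun _ => by simp)
    have h4 : ∀ s t, s ≤ t → ∀ᶠ i in FF a e η, f s i ≤ f t i := by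
      intro s t hst
      rcases hst.eq_or_lt with rfl | h
      · exact Eventually.of_forall (fun _ => le_rfl)
      · exact (h3 t (mem_univ _) s h).mono (fun _ h => h.le)
    suffices h : ∃ g, Pr a g ∧ ∀ t, ∀ᶠ i in FF a e η, f t i < g i by
      obtain ⟨g, hg, h⟩ := h
      refine ⟨g, hg, fun x => (h (j x)).mono (fun i hi => lt_trans ?_ hi)⟩
      have := h2 (j x) i
      rwa [j.injective.extend_apply] at this
    by_cases hcof : Order.cof c.ord.ToType ≤ μ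
    · obtain ⟨C, hC1, hC2⟩ := Order.exists_cof_eq c.ord.ToType
      obtain ⟨g, hg, h5⟩ := bound_fam ha (J := C) (hC2.le.trans hcof) (fun t => f t.1)
        (fun t => h1 t.1)
      refine ⟨g, hg, fun t => ?_⟩
      obtain ⟨s, hs, hts⟩ := hC1 t
      exact (h4 t s hts).mono (fun i hi => hi.trans_lt (h5 ⟨s, hs⟩ i))
    by_contra hcon
    have h5 : ∀ g : {f : ι → W // Pr a f}, ∃ (t : c.ord.ToType) (U : Ultrafilter ι) (g' : ι → W),
        e ∈ U ∧ η ≤ cf U a ∧ Pr a g' ∧ (∀ᶠ i in (U : Filter ι), g.1 i ≤ f t i) ∧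
        ∀ s, ∀ᶠ i in (U : Filter ι), f s i < g' i := by
      rintro ⟨g, hg⟩
      by_contra h
      refine hcon ⟨g, hg, fun t => ev_FF.mpr (fun U h6 h7 => ?_)⟩
      obtain ⟨g', h8, h9⟩ := dir_cf U a _ f (by simpa using hc.trans_le h7) h1
      by_contra h10
      exact h ⟨t, U, g', h6, h7, h8,
        (Ultrafilter.eventually_not.mpr h10).mono (fun _ h => not_lt.mp h), h9⟩
    choose t U g' h6 h7 h8 h9 h10 using h5
    obtain ⟨s, hs⟩ := rec_exists (Y := (Order.succ ν).ord.ToType) (St := {f : ι → W // Pr a f})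
      (fun α ih st => ∀ β (h : β < α), ∀ i, (ih β h).1 i < st.1 i ∧ g' (ih β h) i < st.1 i) (by
      intro α ih
      have hα : #(Iio α) ≤ μ := (mk_Iio_ord α).le.trans hνμ
      obtain ⟨k₁, h11, h12⟩ := bound_fam ha hα (fun β => (ih β.1 β.2).1) (fun β => (ih β.1 β.2).2)
      obtain ⟨k₂, h13, h14⟩ := bound_fam ha hα (fun β => g' (ih β.1 β.2))
        (fun β => h8 _)
      obtain ⟨k₃, h15, h16, h17⟩ := bound_two hμ ha h11 h13
      exact ⟨⟨k₃, h15⟩, fun β h i => ⟨(h12 ⟨β, h⟩ i).trans (h16 i), (h14 ⟨β, h⟩ i).trans (h17 i)⟩⟩)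
    obtain ⟨v, hv⟩ := bound_of_lt_cof (range (fun α => t (s α)))
      ((mk_range_le.trans (by simpa using hνμ)).trans_lt (not_le.mp hcof))
    refine no_chain hν he (fun α => {i | f v i < (s α).1 i}) (fun α β hαβ i hi => ?_)
      (fun α β hαβ => ?_)
    · rcases hαβ.eq_or_lt with rfl | h
      · exact hi
      · exact lt_trans hi (hs β α h i).1
    · have h11 := (h4 _ _ (hv _ ⟨α, rfl⟩).le).filter_mono
        (le_FF (h6 (s α)) (h7 (s α)))
      obtain ⟨i, h12, h13, h14, h15⟩ := ((show ∀ᶠ i in (U (s α) : Filter ι), i ∈ e from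
        h6 (s α)).and ((h9 (s α)).and (h11.and (h10 (s α) v)))).exists
      exact ⟨i, h12, h15.trans (hs β α hαβ i).2, not_lt.mpr (h13.trans h14)⟩

end Basic

end Pool.Agent.Lib.MP_856180_lc
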