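import Mathlib
import Pool.Agent.Lib.MP_856180_lc.PcfBasic

/-!
Continuous increasing chains and their construction by recursion.
-/

set_option autoImplicit false

namespace Pool.Agent.Lib.MP_856180_lc

open Cardinal Set Filter Pool.Agent.Shared.RevisedGCH

universe u

variable {W : Type u} [LinearOrder W] {ι : Type u} {μ : Cardinal.{u}}
variable {Y : Type u} [ConditionallyCompleteLinearOrderBot Y]

/-- The order `Y` looks like the successor of `θ`. -/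
structure YY (θ : Cardinal.{u}) (Y : Type u) [ConditionallyCompleteLinearOrderBot Y] : Prop where
  inf : ℵ₀ ≤ θ
  low : ∀ y : Y, #(Iio y) ≤ θ
  bdd : ∀ R : Set Y, #R ≤ θ → ∃ v, ∀ x ∈ R, x < v
  card : #Y ≤ Order.succ θ

lemma exists_YY {θ : Cardinal.{u}} (hθ : ℵ₀ ≤ θ) : ∃ (Y : Type u)
    (_ : ConditionallyCompleteLinearOrderBot Y), WellFoundedLT Y ∧ YY θ Y := by
  have hY : Nonempty (Order.succ θ).ord.ToType := by
    rw [Ordinal.nonempty_toType_iff]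
    simp
  let := WellFoundedLT.toOrderBot (Order.succ θ).ord.ToType
  let := WellFoundedLT.conditionallyCompleteLinearOrderBot (Order.succ θ).ord.ToType
  exact ⟨(Order.succ θ).ord.ToType, this, inferInstance, hθ,
    fun y => Order.le_of_lt_succ (mk_Iio_ord y), succ_bound hθ, by simp⟩

lemma YY.bound {θ : Cardinal.{u}} (h : YY θ Y) {J : Type u} (hJ : #J ≤ θ) (k : J → Y) :
    ∃ v, ∀ j, k j < v := by
  obtain ⟨v, hv⟩ := h.bdd (range k) (mk_range_le.trans hJ)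
  exact ⟨v, fun j => hv _ ⟨j, rfl⟩⟩

lemma YY.next {θ : Cardinal.{u}} (h : YY θ Y) (y : Y) : ∃ v, y < v := by
  obtain ⟨v, hv⟩ := h.bdd {y} (by simpa using one_le_aleph0.trans h.inf)
  exact ⟨v, hv y rfl⟩

lemma YY.common {θ : Cardinal.{u}} (hY : YY θ Y) {J : Type u} (hJ : #J ≤ θ) (h : J → Y → Y) :
    ∃ g : Y → Y, ∀ j, Cl g ⊆ Cl (h j) := by
  choose g hg using fun y => hY.bound hJ (fun j => h j y)
  exact ⟨g, fun j ζ hζ ξ hξ => (hg ξ j).trans (hζ ξ hξ)⟩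

/-- `s` is a continuous strictly increasing sequence converging to `γ`. -/
structure Chain (s : Y → W) (γ : W) : Prop where
  mono : StrictMono s
  cont : ∀ ζ, (∀ ξ < ζ, ∃ ξ', ξ < ξ' ∧ ξ' < ζ) → ∀ w < s ζ, ∃ ξ < ζ, w < s ξ
  lt : ∀ ζ, s ζ < γ
  cofinal : ∀ w < γ, ∃ ζ, w < s ζ

lemma Chain.agree {s t : Y → W} {γ : W} (hs : Chain s γ) (ht : Chain t γ) :
    ∃ h : Y → Y, ∀ ζ ∈ Cl h, s ζ = t ζ := by
  choose k₁ h1 using fun α => ht.cofinal _ (hs.lt α)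
  choose k₂ h2 using fun α => hs.cofinal _ (ht.lt α)
  refine ⟨fun α => max (k₁ α) (k₂ α), fun ζ hζ => ?_⟩
  have hlim : ∀ ξ < ζ, ∃ ξ', ξ < ξ' ∧ ξ' < ζ := by
    intro ξ hξ
    refine ⟨_, ?_, hζ ξ hξ⟩
    by_contra hcon
    rw [not_lt, max_le_iff] at hcon
    exact lt_irrefl _ (((h1 ξ).trans_le (ht.mono.monotone hcon.1)).trans
      ((h2 ξ).trans_le (hs.mono.monotone hcon.2)))
  rcases lt_trichotomy (s ζ) (t ζ) with h | h | h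
  · obtain ⟨ξ, h3, h4⟩ := ht.cont ζ hlim _ h
    exact absurd (h4.trans (h2 ξ))
      (not_lt.mpr (hs.mono.monotone ((le_max_right _ _).trans (hζ ξ h3).le)))
  · exact h
  · obtain ⟨ξ, h3, h4⟩ := hs.cont ζ hlim _ h
    exact absurd (h4.trans (h1 ξ))
      (not_lt.mpr (ht.mono.monotone ((le_max_left _ _).trans (hζ ξ h3).le)))

variable (Y) in
/-- A fixed chain converging to `γ`, if there is one. -/
noncomputable def can (γ : W) : Y → W :=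
  open Classical in if h : ∃ s : Y → W, Chain s γ then h.choose else fun _ => γ

lemma Chain.can {s : Y → W} {γ : W} (hs : Chain s γ) : Chain (can Y γ) γ := by
  have h : ∃ s : Y → W, Chain s γ := ⟨s, hs⟩
  simp only [MP_856180_lc.can, dif_pos h]
  exact h.choose_spec

variable [WellFoundedLT W] [WellFoundedLT Y]

theorem chain_rec {θ : Cardinal.{u}} (hY : YY θ Y) (hθ : Order.succ θ ≤ μ) {a : ι → W}
    (ha : ∀ i, Big μ (a i)) {Ex : Type u}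
    (Q : (ζ : Y) → ((ξ : Y) → ξ < ζ → (ι → W) × Ex) → (ι → W) → (ι → W) → Ex → Prop)
    (hQ : ∀ ζ ih y, Pr a y → (∀ ξ h, Pr a (ih ξ h).1) → ∃ t ex, Pr a t ∧ Q ζ ih y t ex) :
    ∃ (x t : Y → ι → W) (ex : Y → Ex) (z : ι → W), Pr a z ∧ (∀ i, Chain (fun ζ => x ζ i) (z i)) ∧
      (∀ ζ, Pr a (t ζ)) ∧ (∀ ξ ζ, ξ < ζ → ∀ i, t ξ i ≤ x ζ i) ∧
      ∀ ζ, Q ζ (fun ξ _ => (x ξ, ex ξ)) (x ζ) (t ζ) (ex ζ) := by
  have hμ : ℵ₀ ≤ μ := hY.inf.trans ((Order.le_succ θ).trans hθ)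
  obtain ⟨s, hs⟩ := rec_exists (Y := Y)
    (St := {f : ι → W // Pr a f} × {f : ι → W // Pr a f} × {f : ι → W // Pr a f} × Ex)
    (fun ζ ih st => (∀ i, (∀ ξ (h : ξ < ζ), (ih ξ h).2.2.1.1 i ≤ st.1.1 i) ∧
      (∀ w < st.1.1 i, ∃ ξ, ∃ h : ξ < ζ, w < (ih ξ h).2.2.1.1 i) ∧
      st.1.1 i < st.2.2.1.1 i ∧ st.2.1.1 i < st.2.2.1.1 i) ∧
      Q ζ (fun ξ h => ((ih ξ h).1.1, (ih ξ h).2.2.2)) st.1.1 st.2.1.1 st.2.2.2) (by
    intro ζ ih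
    have h1 : ∀ i, ∃ v < a i, (∀ ξ (h : ξ < ζ), (ih ξ h).2.2.1.1 i ≤ v) ∧
        ∀ w < v, ∃ ξ, ∃ h : ξ < ζ, w < (ih ξ h).2.2.1.1 i := by
      intro i
      obtain ⟨v, h2, h3⟩ := (ha i).bound (J := Iio ζ)
        ((hY.low ζ).trans ((Order.le_succ θ).trans hθ)) (fun ξ => (ih ξ.1 ξ.2).2.2.1.1 i)
        (fun ξ => (ih ξ.1 ξ.2).2.2.1.2 i)
      obtain ⟨m, h4, h5⟩ := WellFounded.has_min wellFounded_lt
        {v | ∀ ξ (h : ξ < ζ), (ih ξ h).2.2.1.1 i ≤ v} ⟨v, fun ξ h => (h3 ⟨ξ, h⟩).le⟩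
      refine ⟨m, (not_lt.mp (h5 v (fun ξ h => (h3 ⟨ξ, h⟩).le))).trans_lt h2, h4, fun w hw => ?_⟩
      by_contra hcon
      push Not at hcon
      exact h5 w hcon hw
    choose y h2 h3 h4 using h1
    obtain ⟨t, ex, h5, h6⟩ := hQ ζ (fun ξ h => ((ih ξ h).1.1, (ih ξ h).2.2.2)) y h2
      (fun ξ h => (ih ξ h).1.2)
    obtain ⟨k, h7, h8, h9⟩ := bound_two hμ ha h2 h5
    exact ⟨(⟨y, h2⟩, ⟨t, h5⟩, ⟨k, h7⟩, ex), fun i => ⟨h3 i, h4 i, h8 i, h9 i⟩, h6⟩)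
  have h1 : ∀ i, StrictMono (fun ζ => (s ζ).1.1 i) :=
    fun i ξ ζ h => ((hs ξ).1 i).2.2.1.trans_le (((hs ζ).1 i).1 ξ h)
  have h2 : ∀ i, ∃ v < a i, (∀ ζ, (s ζ).1.1 i < v) ∧ ∀ w < v, ∃ ζ, w < (s ζ).1.1 i := by
    intro i
    obtain ⟨v, h2, h3⟩ := (ha i).bound (hY.card.trans hθ) (fun ζ => (s ζ).1.1 i)
      (fun ζ => (s ζ).1.2 i)
    obtain ⟨m, h4, h5⟩ := WellFounded.has_min wellFounded_lt {v | ∀ ζ, (s ζ).1.1 i < v} ⟨v, h3⟩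
    refine ⟨m, (not_lt.mp (h5 v h3)).trans_lt h2, h4, fun w hw => ?_⟩
    by_contra hcon
    push Not at hcon
    refine h5 w (fun ζ => ?_) hw
    obtain ⟨ζ', hζ'⟩ := hY.next ζ
    exact (h1 i hζ').trans_le (hcon ζ')
  choose z h3 h4 h5 using h2
  refine ⟨fun ζ => (s ζ).1.1, fun ζ => (s ζ).2.1.1, fun ζ => (s ζ).2.2.2, z, h3,
    fun i => ⟨h1 i, fun ζ hζ w hw => ?_, h4 i, h5 i⟩, fun ζ => (s ζ).2.1.2,
    fun ξ ζ h i => ((hs ξ).1 i).2.2.2.le.trans (((hs ζ).1 i).1 ξ h), fun ζ => (hs ζ).2⟩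
  obtain ⟨ξ, h6, h7⟩ := ((hs ζ).1 i).2.1 w hw
  obtain ⟨ξ', h8, h9⟩ := hζ ξ h6
  exact ⟨ξ', h9, h7.trans_le (((hs ξ').1 i).1 ξ h8)⟩

end Pool.Agent.Lib.MP_856180_lc
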