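import Mathlib
import Pool.Agent.Lib.MP_856180_lc.PcfChain

/-!
Exact upper bounds.
-/

set_option autoImplicit false

namespace Pool.Agent.Lib.MP_856180_lc

open Cardinal Set Filter Pool.Agent.Shared.RevisedGCH

universe u

variable {W : Type u} [LinearOrder W] [WellFoundedLT W] {ι : Type u} {μ : Cardinal.{u}}

/-- The least element of `S` above `x`. -/
noncomputable def proj (S : Set W) (x : W) : W :=
  open Classical in
  if h : {s | s ∈ S ∧ x ≤ s}.Nonempty then (wellFounded_lt (α := W)).min _ h else x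

lemma proj_mem {S : Set W} {x : W} (h : ∃ s ∈ S, x ≤ s) : proj S x ∈ S := by
  have h' : {s | s ∈ S ∧ x ≤ s}.Nonempty := h
  simp only [proj, dif_pos h']
  exact ((wellFounded_lt (α := W)).min_mem _ h').1

lemma le_proj (S : Set W) (x : W) : x ≤ proj S x := by
  by_cases h : {s | s ∈ S ∧ x ≤ s}.Nonempty
  · simp only [proj, dif_pos h]
    exact ((wellFounded_lt (α := W)).min_mem _ h).2
  · simp only [proj, dif_neg h, le_rfl]

lemma proj_le {S : Set W} {x s : W} (h1 : s ∈ S) (h2 : x ≤ s) : proj S x ≤ s := by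
  have h : {s | s ∈ S ∧ x ≤ s}.Nonempty := ⟨s, h1, h2⟩
  simp only [proj, dif_pos h]
  exact not_lt.mp ((wellFounded_lt (α := W)).not_lt_min _
    (show s ∈ {s | s ∈ S ∧ x ≤ s} from ⟨h1, h2⟩))

/-- `f` is a sequence in the product, increasing modulo `F` below `p`. -/
def Inc (F : Filter ι) (a : ι → W) (p : W) (f : W → ι → W) : Prop :=
  (∀ ξ, Pr a (f ξ)) ∧ ∀ ξ < p, ∀ ζ < ξ, ∀ᶠ i in F, f ζ i < f ξ i

omit [WellFoundedLT W] in
lemma Inc.le {F : Filter ι} {a : ι → W} {p : W} {f : W → ι → W} (h : Inc F a p f) {ξ ζ : W}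
    (h1 : ξ < p) (h2 : ζ ≤ ξ) : ∀ᶠ i in F, f ζ i ≤ f ξ i := by
  rcases h2.eq_or_lt with rfl | h3
  · exact Eventually.of_forall (fun _ => le_rfl)
  · exact (h.2 ξ h1 ζ h3).mono (fun _ h => h.le)

/-- `h` is an upper bound of the sequence modulo `F`. -/
def UB (F : Filter ι) (p : W) (f : W → ι → W) (h : ι → W) : Prop :=
  ∀ ξ < p, ∀ᶠ i in F, f ξ i ≤ h i

lemma bpp {Y : Type u} [ConditionallyCompleteLinearOrderBot Y] [WellFoundedLT Y]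
    {ν θ : Cardinal.{u}} (hν : ℵ₀ ≤ ν) (hθ : Order.succ (Order.succ ν) ≤ θ) (hY : YY θ Y)
    (hθμ : Order.succ θ ≤ μ) {e : Set ι} (he : #e ≤ ν) {F : Filter ι} (heF : e ∈ F) {a : ι → W}
    {p : W} {f : W → ι → W} (hp : Big μ p) (hf : Inc F a p f)
    (hE : ∀ ξ, ∀ ζ : Y, can Y ξ ζ < ξ → ∀ i, f (can Y ξ ζ) i < f ξ i)
    (S : ι → Set W) (hS : ∀ i, #(S i) ≤ ν) (hb : ∀ ξ < p, ∀ᶠ i in F, ∃ s ∈ S i, f ξ i ≤ s) :
    ∃ ξ < p, UB F p f (fun i => proj (S i) (f ξ i)) := by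
  have hμ : ℵ₀ ≤ μ := hY.inf.trans ((Order.le_succ θ).trans hθμ)
  by_contra hcon
  have h1 : ∀ ξ, ∃ ζ, ξ < p → ζ < p ∧ ∃ᶠ i in F, proj (S i) (f ξ i) < f ζ i := by
    intro ξ
    by_contra h
    push Not at h
    refine hcon ⟨ξ, (h ξ).1, fun ζ hζ => ?_⟩
    simpa using (h ζ).2 hζ
  choose r hr using h1
  obtain ⟨G, hG1, hG2, hG3⟩ := club_guessing hν hθ hY.low hY.bdd
  obtain ⟨x, t, ex, z, hz, hx, -, ht, hQ⟩ := chain_rec hY hθμ (a := fun _ : PUnit.{u + 1} => p)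
    (fun _ => hp) (Ex := PUnit.{u + 1})
    (fun ζ ih y t _ => ∀ c ∈ G, (∃ σ < p, ∀ᶠ i in F, f (y PUnit.unit) i < f σ i ∧
        ∀ ξ ∈ c, ∀ h : ξ < ζ, f ((ih ξ h).1 PUnit.unit) i < f σ i) →
      ∃ σ < p, r σ ≤ t PUnit.unit ∧ ∀ᶠ i in F, f (y PUnit.unit) i < f σ i ∧
        ∀ ξ ∈ c, ∀ h : ξ < ζ, f ((ih ξ h).1 PUnit.unit) i < f σ i) (by
      intro ζ ih y hy _
      have h2 : ∀ c : G, ∃ σ < p, (∃ σ < p, ∀ᶠ i in F, f (y PUnit.unit) i < f σ i ∧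
          ∀ ξ ∈ c.1, ∀ h : ξ < ζ, f ((ih ξ h).1 PUnit.unit) i < f σ i) →
          ∀ᶠ i in F, f (y PUnit.unit) i < f σ i ∧
          ∀ ξ ∈ c.1, ∀ h : ξ < ζ, f ((ih ξ h).1 PUnit.unit) i < f σ i := by
        intro c
        by_cases h : ∃ σ < p, ∀ᶠ i in F, f (y PUnit.unit) i < f σ i ∧
          ∀ ξ ∈ c.1, ∀ h : ξ < ζ, f ((ih ξ h).1 PUnit.unit) i < f σ i
        · obtain ⟨σ, h3, h4⟩ := h
          exact ⟨σ, h3, fun _ => h4⟩
        · exact ⟨y PUnit.unit, hy _, fun h' => absurd h' h⟩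
      choose σ h3 h4 using h2
      obtain ⟨v, h5, h6⟩ := hp.bound (hG1.trans (hY.card.trans hθμ)) (fun c => r (σ c))
        (fun c => (hr _ (h3 c)).1)
      exact ⟨fun _ => v, PUnit.unit, fun _ => h5, fun c hc h =>
        ⟨σ ⟨c, hc⟩, h3 _, (h6 ⟨c, hc⟩).le, h4 ⟨c, hc⟩ h⟩⟩)
  have hch := hx PUnit.unit
  obtain ⟨h, hh⟩ := hch.agree hch.can
  obtain ⟨c, hc, hch'⟩ := hG3 h
  obtain ⟨σ₀, h2, h3⟩ := hp.next hμ (hz PUnit.unit)
  have h4 : ∀ ξ ∈ c, ∀ i, f (x ξ PUnit.unit) i < f (z PUnit.unit) i := by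
    intro ξ hξ i
    have h5 : x ξ PUnit.unit = can Y (z PUnit.unit) ξ := hh ξ (hch' hξ)
    rw [h5]
    exact hE _ _ (hch.can.lt ξ) i
  have h5 : ∀ k : c, ∃ n : c, k.1 < n.1 := by
    intro k
    by_contra hcon'
    push Not at hcon'
    have h6 : #c ≤ #(c ∩ Iic k.1 : Set Y) :=
      mk_le_mk_of_subset (fun y hy => ⟨hy, hcon' ⟨y, hy⟩⟩)
    have h7 := mk_inter_Iic_lt (hν.trans (Order.le_succ ν))
      (Order.lt_succ_of_le ((hG2 c hc).2 k.1 k.2))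
    rw [(hG2 c hc).1] at h6
    exact absurd h6 (not_le.mpr h7)
  choose n hn using h5
  have h6 : ∀ k : c, ∃ (σ : W) (i : ι), i ∈ e ∧ proj (S i) (f σ i) ∈ S i ∧
      proj (S i) (f σ i) < f (x (n k) PUnit.unit) i ∧
      ∀ ξ ∈ c, ξ ≤ k.1 → f (x ξ PUnit.unit) i < f σ i := by
    intro k
    obtain ⟨σ, h7, h8, h9⟩ := hQ k.1 c hc ⟨σ₀, h2, (hf.2 _ h2 _ h3).mono (fun i hi =>
      ⟨(h4 _ k.2 i).trans hi, fun ξ hξ _ => (h4 ξ hξ i).trans hi⟩)⟩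
    have h10 := hf.le ((hch.lt (n k)).trans (hz _)) (h8.trans (ht _ _ (hn k) PUnit.unit))
    obtain ⟨i, h11, h12, h13, h14, h15⟩ := ((hr σ h7).2.and_eventually
      ((show ∀ᶠ i in F, i ∈ e from heF).and ((hb σ h7).and (h10.and h9)))).exists
    refine ⟨σ, i, h12, proj_mem h13, h11.trans_le h14, fun ξ hξ hξk => ?_⟩
    rcases hξk.eq_or_lt with rfl | h16
    · exact h15.1
    · exact h15.2 ξ hξ h16
  choose σ i h7 h8 h9 h10 using h6
  obtain ⟨s, hs⟩ := infinite_pigeonhole_card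
    (fun k : c => (⟨⟨i k, h7 k⟩, ⟨_, h8 k⟩⟩ : Σ j : e, S j)) (Order.succ ν) (hG2 c hc).1.ge
    (hν.trans (Order.le_succ ν)) (by
      rw [(isRegular_succ hν).cof_ord, mk_sigma]
      exact Order.lt_succ_of_le ((sum_le_mk_mul_iSup _).trans
        (mul_le_of_le hν he (ciSup_le' (fun j => hS j)))))
  have h11 : ∀ k₀ : c, ∃ k : c, (⟨⟨i k, h7 k⟩, ⟨_, h8 k⟩⟩ : Σ j : e, S j) = s ∧ k₀.1 ≤ k.1 := by
    intro k₀
    by_contra hcon'
    push Not at hcon'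
    refine absurd (hs.trans (le_trans ?_ ((hG2 c hc).2 k₀.1 k₀.2))) (not_le.mpr (Order.lt_succ ν))
    apply mk_le_of_injective (f := fun k => ⟨k.1.1, k.1.2, hcon' k.1 k.2⟩)
    intro k k' hk
    have h12 : k.1.1 = k'.1.1 := congrArg (fun z : (c ∩ Iio k₀.1 : Set Y) => z.1) hk
    exact Subtype.ext (Subtype.ext h12)
  have : Nonempty c := by
    rw [← mk_ne_zero_iff, (hG2 c hc).1]
    exact (zero_le.trans_lt (Order.lt_succ ν)).ne'
  obtain ⟨k, hk, -⟩ := h11 (Classical.arbitrary c)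
  obtain ⟨k', hk', hkk⟩ := h11 (n k)
  have h12 := hk.trans hk'.symm
  have h13 : i k = i k' := congrArg (fun z : Σ j : e, S j => z.1.1) h12
  have h14 : proj (S (i k)) (f (σ k) (i k)) = proj (S (i k')) (f (σ k') (i k')) :=
    congrArg (fun z : Σ j : e, S j => z.2.1) h12
  have h15 := h9 k
  rw [h14, h13] at h15
  exact absurd (h15.trans (h10 k' _ (n k).2 hkk)) (not_lt.mpr (le_proj _ _))

lemma min_ub {ν : Cardinal.{u}} (hν : ℵ₀ ≤ ν) (hνμ : Order.succ ν ≤ μ) {e : Set ι} (he : #e ≤ ν)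
    {F : Filter ι} (heF : e ∈ F) {a : ι → W} {p : W} {f : W → ι → W} (hp : Big μ p)
    (hf : Inc F a p f) (hB : ∀ S : ι → Set W, (∀ i, #(S i) ≤ ν) →
      (∀ ξ < p, ∀ᶠ i in F, ∃ s ∈ S i, f ξ i ≤ s) →
      ∃ ξ < p, UB F p f (fun i => proj (S i) (f ξ i))) :
    ∃ h, (∀ i, h i ≤ a i) ∧ UB F p f h ∧ ∀ u, UB F p f u → ∀ᶠ i in F, h i ≤ u i := by
  by_contra hcon
  have h1 : ∀ S : ι → Set W, ∃ (ξ : W) (u : ι → W), (∀ i, #(S i) ≤ ν) → (∀ i, a i ∈ S i) →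
      ξ < p ∧ UB F p f u ∧ ∃ᶠ i in F, u i < proj (S i) (f ξ i) := by
    intro S
    by_cases h : (∀ i, #(S i) ≤ ν) ∧ ∀ i, a i ∈ S i
    · obtain ⟨ξ, h2, h3⟩ := hB S h.1 (fun ξ _ =>
        Eventually.of_forall (fun i => ⟨a i, h.2 i, (hf.1 ξ i).le⟩))
      by_contra h4
      refine hcon ⟨_, fun i => proj_le (h.2 i) (hf.1 ξ i).le, h3, fun u hu => ?_⟩
      by_contra h5
      exact h4 ⟨ξ, u, fun _ _ => ⟨h2, hu, by simpa using h5⟩⟩
    · exact ⟨p, a, fun h2 h3 => absurd ⟨h2, h3⟩ h⟩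
  choose ξ u hξ using h1
  obtain ⟨s, hs⟩ := rec_exists (Y := (Order.succ ν).ord.ToType) (St := ι → Set W)
    (fun α ih st => st = fun i => insert (a i) (range (fun β : Iio α => u (ih β.1 β.2) i)))
    (fun _ _ => ⟨_, rfl⟩)
  have h2 : ∀ α i, #(s α i) ≤ ν := by
    intro α i
    rw [hs α]
    exact mk_insert_le.trans (add_le_of_le hν
      (mk_range_le.trans (Order.le_of_lt_succ (mk_Iio_ord α))) (one_le_aleph0.trans hν))
  have h3 : ∀ α i, a i ∈ s α i := by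
    intro α i
    rw [hs α]
    exact Or.inl rfl
  have h4 : ∀ α β, α < β → ∀ i, u (s α) i ∈ s β i := by
    intro α β h i
    rw [hs β]
    exact Or.inr ⟨⟨α, h⟩, rfl⟩
  have h5 : ∀ α β, α ≤ β → ∀ i, s α i ⊆ s β i := by
    intro α β h i w hw
    rw [hs α] at hw
    rcases hw with rfl | ⟨γ, rfl⟩
    · exact h3 β i
    · exact h4 _ _ (lt_of_lt_of_le γ.2 h) i
  obtain ⟨v, h6, h7⟩ := hp.bound (J := (Order.succ ν).ord.ToType) (by simpa using hνμ)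
    (fun α => ξ (s α)) (fun α => (hξ _ (h2 α) (h3 α)).1)
  have h8 : ∀ α β, α ≤ β → ∀ i, proj (s β i) (f v i) ≤ proj (s α i) (f v i) :=
    fun α β h i => proj_le (h5 α β h i (proj_mem ⟨a i, h3 α i, (hf.1 v i).le⟩)) (le_proj _ _)
  have h9 : ∀ i : e, ∃ α, ∀ β, proj (s α i.1) (f v i.1) ≤ proj (s β i.1) (f v i.1) := by
    intro i
    obtain ⟨α₀, -⟩ := succ_bound hν ∅ (by simp)
    obtain ⟨_, ⟨α, rfl⟩, h⟩ := WellFounded.has_min wellFounded_lt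
      (range (fun α => proj (s α i.1) (f v i.1))) ⟨_, α₀, rfl⟩
    exact ⟨α, fun β => not_lt.mp (h _ ⟨β, rfl⟩)⟩
  choose α hα using h9
  obtain ⟨β, hβ⟩ := succ_bound hν (range α) (mk_range_le.trans he)
  obtain ⟨γ, hγ⟩ := succ_bound hν {β} (by simpa using one_le_aleph0.trans hν)
  obtain ⟨-, h10, h11⟩ := hξ _ (h2 β) (h3 β)
  obtain ⟨i, h12, h13, h14, h15⟩ := (h11.and_eventually ((show ∀ᶠ i in F, i ∈ e from heF).and
    ((h10 v h6).and (hf.le h6 (h7 β).le)))).exists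
  have h16 : proj (s β i) (f (ξ (s β)) i) ≤ proj (s β i) (f v i) :=
    proj_le (proj_mem ⟨a i, h3 β i, (hf.1 v i).le⟩) (h15.trans (le_proj _ _))
  have h17 : proj (s γ i) (f v i) ≤ u (s β) i := proj_le (h4 _ _ (hγ β rfl) i) h14
  exact absurd ((h8 _ _ (hβ _ ⟨⟨i, h13⟩, rfl⟩).le i).trans (hα ⟨i, h13⟩ γ))
    (not_le.mpr (h17.trans_lt (h12.trans_le h16)))

/-- `μ` is an uncountable limit cardinal with the cofinal sequence `b`. -/
structure Sing (μ : Cardinal.{u}) (b : ℕ → Cardinal.{u}) : Prop where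
  aleph0_lt : ℵ₀ < μ
  succ_lt : ∀ {a}, a < μ → Order.succ a < μ
  b_lt : ∀ n, b n < μ
  b_inf : ∀ n, ℵ₀ ≤ b n
  cofinal : ∀ a < μ, ∃ n, a ≤ b n

theorem eub {b : ℕ → Cardinal.{u}} (hμ : Sing μ b) {e : Set ι} (he : #e < μ) {F : Filter ι}
    (heF : e ∈ F) {a : ι → W} (ha : ∀ i, Big μ (a i)) {p : W} (hp : Big μ p) {η : Cardinal.{u}}
    (hdir : Dir F a η) (hη : ∀ ξ < p, #(Iio ξ) < η) (g : W → ι → W) (hg : ∀ ξ, Pr a (g ξ)) :
    ∃ (f : W → ι → W) (h : ι → W), Inc F a p f ∧ (∀ ξ i, g ξ i < f ξ i) ∧ (∀ i, h i ≤ a i) ∧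
      (∀ ξ < p, ∀ᶠ i in F, f ξ i < h i) ∧ (∀ u, UB F p f u → ∀ᶠ i in F, h i ≤ u i) ∧
      (∀ k : ι → W, (∀ᶠ i in F, k i < h i) → ∃ ξ < p, ∀ᶠ i in F, k i < f ξ i) ∧
      ∀ n, ∀ᶠ i in F, b n < Order.cof (Iio (h i)) := by
  classical
  have h0 := hμ.aleph0_lt.le
  have hν : ∀ n, ℵ₀ ≤ max #e (b n) := fun n => (hμ.b_inf n).trans (le_max_right _ _)
  have hνμ : ∀ n, max #e (b n) < μ := fun n => max_lt he (hμ.b_lt n)
  choose Y inst wf hY using fun n => exists_YY (θ := Order.succ (Order.succ (max #e (b n))))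
    ((hν n).trans ((Order.le_succ _).trans (Order.le_succ _)))
  have hθ : ∀ n, Order.succ (Order.succ (Order.succ (max #e (b n)))) ≤ μ :=
    fun n => (hμ.succ_lt (hμ.succ_lt (hμ.succ_lt (hνμ n)))).le
  obtain ⟨f, h1, h2, h3, h4⟩ := raise h0 ha hdir (Iio p) hη g hg
    (fun ξ => ⋃ n, range (can (Y n) ξ))
    (fun ξ => iUnion_nat_le h0 _ (fun n => mk_range_le.trans ((hY n).card.trans (hθ n))))
  have hf : Inc F a p f := ⟨h1, h3⟩
  have hB := fun n => bpp (hν n) le_rfl (hY n) (hθ n) (le_max_left _ _) heF hp hf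
    (fun ξ ζ h => h4 ξ _ (mem_iUnion.mpr ⟨n, ζ, rfl⟩) h)
  obtain ⟨h, h5, h6, h7⟩ := min_ub (hν 0) (hμ.succ_lt (hνμ 0)).le (le_max_left _ _) heF hp hf
    (hB 0)
  have h8 : ∀ ξ < p, ∀ᶠ i in F, f ξ i < h i := by
    intro ξ hξ
    obtain ⟨ζ, h9, h10⟩ := hp.next h0 hξ
    filter_upwards [h3 ζ h9 ξ h10, h6 ζ h9] with i h11 h12 using h11.trans_le h12
  refine ⟨f, h, hf, h2, h5, h8, h7, fun k hk => ?_, fun n => ?_⟩
  · obtain ⟨ξ, h9, h10⟩ := hB 0 (fun i => {k i, h i})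
      (fun i => (lt_aleph0_of_finite _).le.trans (hν 0))
      (fun ξ hξ => (h6 ξ hξ).mono (fun i hi => ⟨h i, Or.inr rfl, hi⟩))
    refine ⟨ξ, h9, ?_⟩
    filter_upwards [hk, h7 _ h10] with i h11 h12
    by_contra h13
    exact absurd (h12.trans (proj_le (Or.inl rfl) (not_lt.mp h13))) (not_le.mpr h11)
  · choose C hC1 hC2 using fun i => Order.exists_cof_eq (Iio (h i))
    obtain ⟨ξ, h9, h10⟩ := hB n
      (fun i => if Order.cof (Iio (h i)) ≤ b n then Subtype.val '' C i else {h i}) (by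
        intro i
        split_ifs with h9
        · exact mk_image_le.trans ((hC2 i).le.trans (h9.trans (le_max_right _ _)))
        · simpa using one_le_aleph0.trans (hν n)) (fun ξ hξ => (h8 ξ hξ).mono (by
        intro i hi
        split_ifs with h9
        · obtain ⟨s, h10, h11⟩ := hC1 i ⟨_, hi⟩
          exact ⟨s.1, ⟨s, h10, rfl⟩, h11⟩
        · exact ⟨h i, rfl, hi.le⟩))
    filter_upwards [h8 ξ h9, h7 _ h10] with i h11 h12
    by_contra h13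
    rw [if_pos (not_lt.mp h13)] at h12
    obtain ⟨s, h14, h15⟩ := hC1 i ⟨_, h11⟩
    exact absurd (h12.trans (proj_le ⟨s, h14, rfl⟩ h15)) (not_le.mpr s.2)

end Pool.Agent.Lib.MP_856180_lc
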