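import Mathlib
import Pool.Agent.Lib.MP_856180_lc.PcfEub

/-!
Universal sequences, generators, and exact reconstruction of limits of chains.
-/

set_option autoImplicit false

namespace Pool.Agent.Lib.MP_856180_lc

open Cardinal Set Filter Pool.Agent.Shared.RevisedGCH

universe u

variable {W : Type u} [LinearOrder W] {ι : Type u} {μ : Cardinal.{u}}

lemma compact_cover {K : Type u} {B : Set ι} (E : K → Set ι) {T : Set K}
    (h : ∀ U : Ultrafilter ι, B ∈ U → ∃ k ∈ T, E k ∈ U) :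
    ∃ s : Finset K, ↑s ⊆ T ∧ ∀ i ∈ B, ∃ k ∈ s, i ∈ E k := by
  obtain ⟨s, h1, h2, h3⟩ := (ultrafilter_isClosed_basic B).isCompact.elim_finite_subcover_image
    (b := T) (c := fun k => {U : Ultrafilter ι | E k ∈ U})
    (fun k _ => ultrafilter_isOpen_basic (E k)) (fun U hU => by simpa using h U hU)
  refine ⟨h2.toFinset, by simpa using h1, fun i hi => ?_⟩
  have := h3 (show pure i ∈ {U : Ultrafilter ι | B ∈ U} by simpa using hi)
  simpa using this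

/-- The point `p` is an initial ordinal. -/
def Init (p : W) : Prop := ∀ v < p, #(Iio v) < #(Iio p)

lemma Init.le {p w : W} (h : Init p) (hw : #(Iio p) ≤ #(Iio w)) : p ≤ w :=
  not_lt.mp (fun h' => absurd hw (not_le.mpr (h w h')))

lemma mk_low [WellFoundedLT W] (l : Cardinal.{u}) : #{ξ : W // #(Iio ξ) < l} ≤ l := by
  refine le_trans (mk_le_mk_of_subset (s := {ξ : W | #(Iio ξ) < l}) (fun v hv => ?_))
    (mk_low_le (Set.univ : Set W) l)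
  refine ⟨mem_univ _, ?_⟩
  rw [univ_inter]
  exact hv

lemma exists_pt [WellFoundedLT W] {t : W} {η : Cardinal.{u}} (h : η ≤ #(Iio t)) :
    ∃ p : W, Init p ∧ #(Iio p) = η := by
  obtain ⟨p, h1, h2⟩ := WellFounded.has_min wellFounded_lt {p : W | η ≤ #(Iio p)} ⟨t, h⟩
  have h3 : ∀ v < p, #(Iio v) < η := fun v hv => not_le.mp (fun h' => h2 v h' hv)
  have h4 : #(Iio p) ≤ η :=
    le_trans (mk_le_mk_of_subset (t := {ξ : W | #(Iio ξ) < η}) h3) (mk_low η)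
  exact ⟨p, fun v hv => (h3 v hv).trans_le h1, le_antisymm h4 h1⟩

lemma enum_fam {a : ι → W} (ha : ∀ i, Big μ (a i)) {p : W} {J : Type u} (hJ : #J ≤ #(Iio p))
    (k : J → ι → W) (hk : ∀ j, Pr a (k j)) :
    ∃ w : W → ι → W, (∀ ξ, Pr a (w ξ)) ∧ ∀ j, ∃ ξ < p, w ξ = k j := by
  obtain ⟨g0, hg0, -⟩ := bound_fam ha (J := PEmpty.{u + 1}) (by simp) (fun j => j.elim)
    (fun j => j.elim)
  obtain ⟨e⟩ := hJ
  have hinj : Function.Injective (fun j => (e j).1) := fun _ _ h => e.injective (Subtype.ext h)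
  refine ⟨Function.extend (fun j => (e j).1) k (fun _ => g0), fun ξ => ?_,
    fun j => ⟨_, (e j).2, hinj.extend_apply _ _ j⟩⟩
  by_cases ht : ∃ x, (e x).1 = ξ
  · obtain ⟨x, rfl⟩ := ht
    rw [hinj.extend_apply]
    exact hk x
  · rw [Function.extend_apply' _ _ _ ht]
    exact hg0

/-- The sequence `f` eventually dominates every member of the product modulo `F`. -/
def Conv (F : Filter ι) (a : ι → W) (p : W) (f : W → ι → W) : Prop :=
  (∀ ξ, Pr a (f ξ)) ∧ ∀ g, Pr a g → ∃ ξ₀ < p, ∀ ξ, ξ₀ ≤ ξ → ξ < p → ∀ᶠ i in F, g i < f ξ i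

lemma Conv.mono {F F' : Filter ι} {a : ι → W} {p : W} {f : W → ι → W} (h : Conv F a p f)
    (hF : F' ≤ F) : Conv F' a p f :=
  ⟨h.1, fun g hg => (h.2 g hg).imp (fun _ h' =>
    ⟨h'.1, fun ξ h1 h2 => (h'.2 ξ h1 h2).filter_mono hF⟩)⟩

/-- The intersection of the ultrafilters on `e` whose ultraproduct has cofinality `η`. -/
def GG (a : ι → W) (e : Set ι) (η : Cardinal.{u}) : Filter ι :=
  ⨆ U ∈ {U : Ultrafilter ι | e ∈ U ∧ cf U a = η}, (U : Filter ι)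

lemma ev_GG {a : ι → W} {e : Set ι} {η : Cardinal.{u}} {p : ι → Prop} :
    (∀ᶠ i in GG a e η, p i) ↔
      ∀ U : Ultrafilter ι, e ∈ U → cf U a = η → ∀ᶠ i in (U : Filter ι), p i := by
  simp [GG, eventually_iSup]

lemma le_GG {a : ι → W} {e : Set ι} {η : Cardinal.{u}} {U : Ultrafilter ι} (h1 : e ∈ U)
    (h2 : cf U a = η) : (U : Filter ι) ≤ GG a e η :=
  fun _ hs => ev_GG.mp hs U h1 h2

variable [WellFoundedLT W]

lemma big_pt (hμ : ℵ₀ ≤ μ) {a : ι → W} (ha : ∀ i, Big μ (a i)) {U : Ultrafilter ι} {p : W}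
    (h1 : Init p) (h2 : cf U a = #(Iio p)) : Big μ p := by
  obtain ⟨J, k, h3, h4, h5⟩ := cf_spec U a
  obtain ⟨w, h6, h7⟩ := enum_fam ha (h3.trans h2).le k h4
  obtain ⟨f, h8, h9, h10, -⟩ := raise hμ ha (dir_cf U a) (Iio p) (fun v hv => h2 ▸ h1 v hv) w h6
    (fun _ => ∅) (fun _ => by simp)
  have hf : Inc (U : Filter ι) a p f := ⟨h8, h10⟩
  by_contra hcon
  obtain ⟨C, hC1, hC2⟩ := Order.exists_cof_eq (Iio p)
  obtain ⟨g, hg, h11⟩ := bound_fam ha (J := C) (hC2.le.trans (not_lt.mp hcon)) (fun t => f t.1.1)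
    (fun t => h8 _)
  obtain ⟨j, hj⟩ := h5 g hg
  obtain ⟨ξ, h12, h13⟩ := h7 j
  obtain ⟨s, h14, h15⟩ := hC1 ⟨ξ, h12⟩
  obtain ⟨i, h16, h17⟩ := (hj.and (hf.le s.2 h15)).exists
  rw [← h13] at h16
  exact lt_irrefl _ (((h16.trans_lt (h9 ξ i)).trans_le h17).trans (h11 ⟨s, h14⟩ i))

lemma universal {ν : Cardinal.{u}} (hν : ℵ₀ ≤ ν) (hνμ : Order.succ ν ≤ μ) {a : ι → W}
    (ha : ∀ i, Big μ (a i)) {e : Set ι} (he : #e ≤ ν) {p : W} (h1 : Init p) (hp : Big μ p) :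
    ∃ f : W → ι → W, (∀ ξ, Pr a (f ξ)) ∧ ∀ U : Ultrafilter ι, e ∈ U → cf U a = #(Iio p) →
      ∀ g, Pr a g → ∃ ξ < p, ∀ᶠ i in (U : Filter ι), g i ≤ f ξ i := by
  have hμ : ℵ₀ ≤ μ := hν.trans ((Order.le_succ ν).trans hνμ)
  by_contra hcon
  have h2 : ∀ f : {f : W → ι → W // Inc (FF a e #(Iio p)) a p f},
      ∃ (U : Ultrafilter ι) (g : ι → W) (w : W → ι → W), e ∈ U ∧ cf U a = #(Iio p) ∧ Pr a g ∧
      (∀ ξ < p, ∀ᶠ i in (U : Filter ι), f.1 ξ i < g i) ∧ (∀ ξ, Pr a (w ξ)) ∧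
      ∀ k, Pr a k → ∃ ξ < p, ∀ᶠ i in (U : Filter ι), k i ≤ w ξ i := by
    intro f
    by_contra h
    refine hcon ⟨f.1, f.2.1, fun U h3 h4 g hg => ?_⟩
    by_contra h5
    obtain ⟨J, k, h6, h7, h8⟩ := cf_spec U a
    obtain ⟨w, h9, h10⟩ := enum_fam ha (h6.trans h4).le k h7
    refine h ⟨U, g, w, h3, h4, hg, fun ξ hξ => ?_, h9, fun k' hk' => ?_⟩
    · exact (Ultrafilter.eventually_not.mpr (fun h' => h5 ⟨ξ, hξ, h'⟩)).mono
        (fun _ h' => not_le.mp h')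
    · obtain ⟨j, hj⟩ := h8 k' hk'
      obtain ⟨ξ, h11, h12⟩ := h10 j
      exact ⟨ξ, h11, h12 ▸ hj⟩
  choose U g w h3 h4 h5 h6 h7 h8 using h2
  obtain ⟨s, hs⟩ := rec_exists (Y := (Order.succ ν).ord.ToType)
    (St := {f : W → ι → W // Inc (FF a e #(Iio p)) a p f})
    (fun α ih st => ∀ β (h : β < α), ∀ ξ i, (ih β h).1 ξ i < st.1 ξ i ∧
      w (ih β h) ξ i < st.1 ξ i) (by
    intro α ih
    have hα : #(Iio α) ≤ μ := (mk_Iio_ord α).le.trans hνμ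
    choose k₁ h11 h12 using fun ξ => bound_fam ha hα (fun β => (ih β.1 β.2).1 ξ)
      (fun β => (ih β.1 β.2).2.1 ξ)
    choose k₂ h13 h14 using fun ξ => bound_fam ha hα (fun β => w (ih β.1 β.2) ξ)
      (fun β => h7 _ ξ)
    choose k₃ h15 h16 h17 using fun ξ => bound_two hμ ha (h11 ξ) (h13 ξ)
    obtain ⟨f, h18, h19, h20, -⟩ := raise hμ ha (dir_FF hν hνμ ha he #(Iio p)) (Iio p) h1 k₃ h15
      (fun _ => ∅) (fun _ => by simp)
    exact ⟨⟨f, h18, h20⟩, fun β h ξ i => ⟨((h12 ξ ⟨β, h⟩ i).trans (h16 ξ i)).trans (h19 ξ i),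
      ((h14 ξ ⟨β, h⟩ i).trans (h17 ξ i)).trans (h19 ξ i)⟩⟩)
  obtain ⟨G, hG1, hG2⟩ := bound_fam ha (J := (Order.succ ν).ord.ToType) (by simpa using hνμ)
    (fun α => g (s α)) (fun α => h5 _)
  choose ξ h9 h10 using fun α => h8 (s α) G hG1
  obtain ⟨v, h11, h12⟩ := hp.bound (J := (Order.succ ν).ord.ToType) (by simpa using hνμ) ξ h9
  refine no_chain hν he (fun α => {i | G i < (s α).1 v i}) (fun α β hαβ i hi => ?_)
    (fun α β hαβ => ?_)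
  · rcases hαβ.eq_or_lt with rfl | h
    · exact hi
    · exact lt_trans hi (hs β α h v i).1
  · have h13 := ((s β).2.le h11 (h12 α).le).filter_mono (le_FF (h3 (s α)) (h4 (s α)).ge)
    obtain ⟨i, h14, h15, h16, h17⟩ := ((show ∀ᶠ i in (U (s α) : Filter ι), i ∈ e from
      h3 (s α)).and ((h10 α).and (h13.and (h6 (s α) v h11)))).exists
    exact ⟨i, h14, (h15.trans_lt (hs β α hαβ _ i).2).trans_le h16,
      not_lt.mpr (h17.trans (hG2 α i)).le⟩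

theorem scale {b : ℕ → Cardinal.{u}} (hμ : Sing μ b) {a : ι → W} (ha : ∀ i, Big μ (a i))
    {e : Set ι} (he : #e < μ) {p : W} (h1 : Init p) (hp : Big μ p) :
    ∃ (f : W → ι → W) (B : Set ι), B ⊆ e ∧ Conv (GG a e #(Iio p)) a p f ∧
      (∀ U : Ultrafilter ι, e ∈ U → cf U a = #(Iio p) → B ∈ U) ∧
      ∀ U : Ultrafilter ι, B ∈ U → cf U a ≤ #(Iio p) := by
  classical
  have h0 := hμ.aleph0_lt.le
  have hν := (hμ.succ_lt (max_lt he hμ.aleph0_lt)).le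
  obtain ⟨w, h2, h3⟩ := universal (le_max_right _ _) hν ha (le_max_left _ _) h1 hp
  obtain ⟨f, h, h4, h5, h6, h7, -, h8, h9⟩ := eub hμ he (mem_FF a e #(Iio p)) ha hp
    (dir_FF (le_max_right _ _) hν ha (le_max_left _ _) _) h1 w h2
  have hB : ∀ U : Ultrafilter ι, e ∈ U → cf U a = #(Iio p) → {i | i ∈ e ∧ h i = a i} ∈ U := by
    intro U h10 h11
    by_contra h12
    obtain ⟨ξ, h13, h14⟩ := h3 U h10 h11 (fun i => if h i < a i then h i else w p i) (by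
      intro i
      dsimp only
      split_ifs with h13
      · exact h13
      · exact h2 p i)
    obtain ⟨i, h15, h16, h17, h18⟩ := ((show ∀ᶠ i in (U : Filter ι), i ∈ e from h10).and
      ((Ultrafilter.eventually_not.mpr h12).and
        (h14.and ((h7 ξ h13).filter_mono (le_FF h10 h11.ge))))).exists
    rw [if_pos (lt_of_le_of_ne (h6 i) (fun h' => h16 ⟨h15, h'⟩))] at h17
    exact lt_irrefl _ ((h17.trans_lt (h5 ξ i)).trans h18)
  have hC : ∀ g, Pr a g → ∃ ξ < p, ∀ᶠ i in FF a e #(Iio p), h i = a i → g i < f ξ i := by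
    intro g hg
    obtain ⟨ξ₀, h10, -⟩ := hp.bound (J := PEmpty.{u + 1}) (by simp) (fun j => j.elim)
      (fun j => j.elim)
    obtain ⟨ξ, h11, h12⟩ := h8 (fun i => if h i = a i then g i else f ξ₀ i)
      ((h7 ξ₀ h10).mono (by
        intro i hi
        split_ifs with h11
        · exact h11 ▸ hg i
        · exact hi))
    exact ⟨ξ, h11, h12.mono (fun i hi h13 => by rwa [if_pos h13] at hi)⟩
  refine ⟨f, {i | i ∈ e ∧ h i = a i}, fun i hi => hi.1, ⟨h4.1, fun g hg => ?_⟩, hB,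
    fun U hU => ?_⟩
  · obtain ⟨ξ₀, h10, h11⟩ := hC g hg
    refine ⟨ξ₀, h10, fun ξ h12 h13 => ev_GG.mpr (fun U h14 h15 => ?_)⟩
    filter_upwards [hB U h14 h15, (h11.and (h4.le h13 h12)).filter_mono (le_FF h14 h15.ge)]
      with i h16 h17 using (h17.1 h16.2).trans_le h17.2
  · by_contra hcon
    refine hcon (cf_le (fun ξ : Iio p => f ξ.1) (fun ξ => h4.1 _) (fun g hg => ?_))
    obtain ⟨ξ, h10, h11⟩ := hC g hg
    refine ⟨⟨ξ, h10⟩, ?_⟩
    filter_upwards [hU, h11.filter_mono (le_FF (mem_of_superset hU (fun i hi => hi.1))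
      (not_le.mp hcon).le)] with i h12 h13 using (h13 h12.2).le

variable (μ W) in
/-- The points of cofinality above `μ`. -/
abbrev BW : Type u := {w : W // Big μ w}

/-- The initial points whose size is a possible cofinality of `e`. -/
def Pts (e : Set (BW W μ)) : Set (BW W μ) :=
  {p | Init p.1 ∧ ∃ U : Ultrafilter (BW W μ), e ∈ U ∧ cf U Subtype.val = #(Iio p.1)}

/-- All possible cofinalities of `B` are at most `l`. -/
def Jl (l : Cardinal.{u}) (B : Set (BW W μ)) : Prop :=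
  ∀ U : Ultrafilter (BW W μ), B ∈ U → cf U Subtype.val ≤ l

omit [WellFoundedLT W] in
lemma Pts_mono {e e' : Set (BW W μ)} (h : e ⊆ e') : Pts e ⊆ Pts e' :=
  fun _ ⟨h1, U, h2, h3⟩ => ⟨h1, U, mem_of_superset h2 h, h3⟩

lemma exists_mem_Pts (hμ : ℵ₀ ≤ μ) {t : W} {e : Set (BW W μ)} {U : Ultrafilter (BW W μ)}
    (he : e ∈ U) (h : cf U Subtype.val ≤ #(Iio t)) :
    ∃ p ∈ Pts e, cf U Subtype.val = #(Iio p.1) := by
  obtain ⟨p, h1, h2⟩ := exists_pt h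
  exact ⟨⟨p, big_pt hμ (fun i => i.2) h1 h2.symm⟩, ⟨h1, U, he, h2.symm⟩, h2.symm⟩

lemma scales {b : ℕ → Cardinal.{u}} (hμ : Sing μ b) {e : Set (BW W μ)} (he : #e < μ) :
    ∃ (f : BW W μ → W → BW W μ → W) (r : BW W μ → (BW W μ → W) → W),
      (∀ p ξ, Pr Subtype.val (f p ξ)) ∧ ∀ p ∈ Pts e, ∀ g, Pr Subtype.val g → r p g < p.1 ∧
        ∀ U : Ultrafilter (BW W μ), e ∈ U → cf U Subtype.val = #(Iio p.1) →
          ∀ ξ, r p g ≤ ξ → ξ < p.1 → ∀ᶠ i in (U : Filter (BW W μ)), g i < f p ξ i := by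
  have h1 : ∀ p : BW W μ, ∃ f : W → BW W μ → W, (∀ ξ, Pr Subtype.val (f ξ)) ∧
      ∀ g, ∃ r, p ∈ Pts e → Pr Subtype.val g → r < p.1 ∧
        ∀ U : Ultrafilter (BW W μ), e ∈ U → cf U Subtype.val = #(Iio p.1) →
          ∀ ξ, r ≤ ξ → ξ < p.1 → ∀ᶠ i in (U : Filter (BW W μ)), g i < f ξ i := by
    intro p
    by_cases hp : p ∈ Pts e
    · obtain ⟨f, B, -, h2, -⟩ := scale hμ (fun i : BW W μ => i.2) he hp.1 p.2
      refine ⟨f, h2.1, fun g => ?_⟩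
      by_cases hg : Pr Subtype.val g
      · obtain ⟨r, h3, h4⟩ := h2.2 g hg
        exact ⟨r, fun _ _ => ⟨h3, fun U h5 h6 ξ h7 h8 => (h4 ξ h7 h8).filter_mono (le_GG h5 h6)⟩⟩
      · exact ⟨p.1, fun _ h => absurd h hg⟩
    · obtain ⟨g0, hg0, -⟩ := bound_fam (fun i : BW W μ => i.2) (J := PEmpty.{u + 1}) (by simp)
        (fun j => j.elim) (fun j => j.elim)
      exact ⟨fun _ => g0, fun _ => hg0, fun _ => ⟨p.1, fun h => absurd h hp⟩⟩
  choose f h2 r h3 using h1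
  exact ⟨f, r, h2, fun p hp g hg => h3 p g hp hg⟩

theorem cof_family {b : ℕ → Cardinal.{u}} (hμ : Sing μ b) {e : Set (BW W μ)} (he : #e < μ)
    {l : Cardinal.{u}} (hl : ℵ₀ ≤ l) (hP : #(Pts e) ≤ l) {t : W} (ht : l ≤ #(Iio t)) :
    ∃ S : Set (BW W μ → W), #S ≤ l ∧ (∀ u ∈ S, Pr Subtype.val u) ∧
      ∀ B ⊆ e, Jl l B → ∀ g, Pr Subtype.val g → ∃ u ∈ S, ∀ β ∈ B, g β ≤ u β := by
  have h0 := hμ.aleph0_lt.le
  obtain ⟨f, r, h1, h2⟩ := scales hμ he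
  choose u h3 h4 using fun s : Finset (Pts e × {ξ : W // #(Iio ξ) < l}) =>
    bound_fam (fun i : BW W μ => i.2) (J := s) ((lt_aleph0_of_finite _).le.trans h0)
      (fun z => f z.1.1.1 z.1.2.1) (fun z => h1 _ _)
  refine ⟨range u, mk_range_le.trans (mk_finset_le hl ?_), by rintro _ ⟨s, rfl⟩; exact h3 s,
    fun B hB hJ g hg => ?_⟩
  · rw [mk_prod, lift_id, lift_id]
    exact mul_le_of_le hl hP (mk_low l)
  obtain ⟨s, -, h5⟩ := compact_cover (B := B) (T := Set.univ)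
    (fun z : Pts e × {ξ : W // #(Iio ξ) < l} =>
      {β | g β < f z.1.1 z.2.1 β}) (by
    intro U hU
    obtain ⟨p, h5, h6⟩ := exists_mem_Pts h0 (mem_of_superset hU hB) ((hJ U hU).trans ht)
    obtain ⟨h7, h8⟩ := h2 p h5 g hg
    refine ⟨(⟨p, h5⟩, ⟨r p g, ?_⟩), mem_univ _,
      h8 U (mem_of_superset hU hB) h6 _ le_rfl h7⟩
    exact (h5.1 _ h7).trans_le (h6 ▸ hJ U hU))
  refine ⟨u s, ⟨s, rfl⟩, fun β hβ => ?_⟩
  obtain ⟨z, h6, h7⟩ := h5 β hβ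
  exact (lt_trans h7 (h4 s ⟨z, h6⟩ β)).le

theorem exact_limit {Y : Type u} [ConditionallyCompleteLinearOrderBot Y] [WellFoundedLT Y]
    {b : ℕ → Cardinal.{u}} (hμ : Sing μ b) {θ : Cardinal.{u}} (hY : YY θ Y) (hθ : θ < μ)
    {e : Set (BW W μ)} (he : #e ≤ θ) (hP : #(Pts e) ≤ μ) :
    ∃ (u : BW W μ → W → BW W μ → W) (req : (BW W μ → W) → BW W μ → W),
      (∀ p γ, Pr Subtype.val (u p γ)) ∧ (∀ y, Pr Subtype.val y → Pr Subtype.val (req y)) ∧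
      ∀ (x : Y → BW W μ → W) (z : BW W μ → W) (α₀ : Y), Pr Subtype.val z →
        (∀ β, Chain (fun ζ => x ζ β) (z β)) →
        (∀ α α', α₀ ≤ α → α < α' → ∀ β, req (x α) β ≤ x α' β) →
        ∀ p ∈ Pts e, ∀ U : Ultrafilter (BW W μ), e ∈ U → cf U Subtype.val = #(Iio p.1) →
          ∀ᶠ β in (U : Filter (BW W μ)), u p (z p) β = z β := by
  have h0 := hμ.aleph0_lt.le
  obtain ⟨f, r, h1, h2⟩ := scales hμ (he.trans_lt hθ)
  have h3 : ∀ (p : BW W μ) (γ : W) (β : BW W μ), ∃ m < β.1,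
      (∃ (h : Y → Y) (y : Y), ∀ ζ ∈ Cl h, y ≤ ζ → f p (can Y γ ζ) β ≤ m) ∧
      ∀ w (h : Y → Y) (y : Y), (∀ ζ ∈ Cl h, y ≤ ζ → f p (can Y γ ζ) β ≤ w) → m ≤ w := by
    intro p γ β
    obtain ⟨v, h4, h5⟩ := β.2.bound (hY.card.trans (hμ.succ_lt hθ).le)
      (fun ζ => f p (can Y γ ζ) β) (fun ζ => h1 p _ β)
    obtain ⟨m, h6, h7⟩ := WellFounded.has_min wellFounded_lt
      {m | ∃ (h : Y → Y) (y : Y), ∀ ζ ∈ Cl h, y ≤ ζ → f p (can Y γ ζ) β ≤ m}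
      ⟨v, id, ⊥, fun ζ _ _ => (h5 ζ).le⟩
    exact ⟨m, (not_lt.mp (h7 v ⟨id, ⊥, fun ζ _ _ => (h5 ζ).le⟩)).trans_lt h4, h6,
      fun w h y hw => not_lt.mp (h7 w ⟨h, y, hw⟩)⟩
  choose u h4 h5 h6 using h3
  have h7 : ∀ y : BW W μ → W, ∃ t, Pr Subtype.val y → Pr Subtype.val t ∧
      ∀ p ∈ Pts e, r p y ≤ t p ∧ ∀ β, f p (y p) β ≤ t β := by
    intro y
    by_cases hy : Pr Subtype.val y
    · obtain ⟨k₁, h8, h9⟩ := bound_fam (fun i : BW W μ => i.2) hP (fun p => f p.1 (y p.1))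
        (fun p => h1 _ _)
      obtain ⟨k₂, h10, h11⟩ := bound_pairs (fun i : BW W μ => i.2) hP (fun p => p.1)
        (fun p => r p.1 y) (fun p => (h2 p.1 p.2 y hy).1)
      obtain ⟨k, h12, h13, h14⟩ := bound_two h0 (fun i : BW W μ => i.2) h8 h10
      exact ⟨k, fun _ => ⟨h12, fun p hp => ⟨((h11 ⟨p, hp⟩).trans (h14 p)).le,
        fun β => ((h9 ⟨p, hp⟩ β).trans (h13 β)).le⟩⟩⟩
    · exact ⟨y, fun h => absurd h hy⟩
  choose req h8 using h7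
  refine ⟨u, req, h4, fun y hy => (h8 y hy).1, fun x z α₀ hz hx hreq p hp U hU hcf => ?_⟩
  have hxP : ∀ α, Pr Subtype.val (x α) := fun α β => ((hx β).lt α).trans (hz β)
  have h9 : ∀ β, u p (z p) β ≤ z β := by
    intro β
    obtain ⟨h, hh⟩ := (hx p).agree (hx p).can
    refine h6 p _ β _ h α₀ (fun ζ h10 h11 => ?_)
    obtain ⟨ζ', hζ'⟩ := hY.next ζ
    rw [← hh ζ h10]
    exact (((h8 _ (hxP ζ)).2 p hp).2 β).trans ((hreq ζ ζ' h11 hζ' β).trans ((hx β).lt ζ').le)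
  choose h y h10 using fun β : e => h5 p (z p) β.1
  obtain ⟨g, hg⟩ := hY.common he h
  obtain ⟨y', hy'⟩ := hY.bound he y
  have h11 : ∀ β : e, ∃ α, u p (z p) β.1 < z β.1 → u p (z p) β.1 < x α β.1 := by
    intro β
    by_cases h12 : u p (z p) β.1 < z β.1
    · obtain ⟨α, hα⟩ := (hx β.1).cofinal _ h12
      exact ⟨α, fun _ => hα⟩
    · exact ⟨α₀, fun h13 => absurd h13 h12⟩
  choose α hα using h11
  obtain ⟨α₁, h12⟩ := hY.bound he α
  obtain ⟨α₂, h13⟩ := hY.next (max α₀ α₁)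
  obtain ⟨ζ₁, h14⟩ := (hx p).can.cofinal _ ((hx p).lt α₂)
  obtain ⟨ζ, h15, h16⟩ := Cl_unbounded hY.inf hY.low hY.bdd g (max ζ₁ y')
  have h17 := (h2 p hp _ (hxP (max α₀ α₁))).2 U hU hcf (can Y (z p) ζ)
    ((((h8 _ (hxP _)).2 p hp).1.trans (hreq _ _ (le_max_left _ _) h13 p)).trans
      (h14.le.trans ((hx p).can.mono.monotone ((le_max_left _ _).trans h16.le))))
    (((hx p).can.lt ζ).trans (hz p))
  filter_upwards [hU, h17] with β h18 h19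
  refine le_antisymm (h9 β) (not_lt.mp (fun h20 => ?_))
  have h21 := h10 ⟨β, h18⟩ ζ (hg _ h15) ((hy' _).le.trans ((le_max_right _ _).trans h16.le))
  exact lt_irrefl _ (((hα ⟨β, h18⟩ h20).trans_le ((hx β).mono.monotone
    ((h12 _).le.trans (le_max_right _ _)))).trans (h19.trans_le h21))

end Pool.Agent.Lib.MP_856180_lc
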