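import Mathlib
import Pool.Agent.Lib.MP_856180_lc.PcfScale

/-!
Clopen sets of the space of possible cofinalities.
-/

set_option autoImplicit false

namespace Pool.Agent.Lib.MP_856180_lc

open Cardinal Set Filter Pool.Agent.Shared.RevisedGCH

universe u

variable {W : Type u} [LinearOrder W] {ι : Type u} {μ : Cardinal.{u}}

lemma ev_bind {κ : Type u} {E : Ultrafilter κ} {U : κ → Ultrafilter ι} {p : ι → Prop} :
    (∀ᶠ i in (E.bind U : Filter ι), p i) ↔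
      ∀ᶠ q in (E : Filter κ), ∀ᶠ i in (U q : Filter ι), p i :=
  Filter.eventually_bind

lemma cf_bind {a : ι → W} (ha : ∀ i, Big μ (a i)) {Z : Set (BW W μ)} (hZ : #Z ≤ μ)
    {E : Ultrafilter (BW W μ)} (hE : Z ∈ E) (U : BW W μ → Ultrafilter ι)
    (f : Z → W → ι → W) (hf : ∀ q : Z, Conv (U q.1 : Filter ι) a q.1.1 (f q)) :
    cf (E.bind U) a = cf E Subtype.val := by
  choose K hK1 hK2 using fun y : BW W μ → W =>
    bound_fam ha hZ (fun q => f q (y q.1)) (fun q => (hf q).1 _)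
  have h1 : ∀ g, Pr a g → ∃ y : BW W μ → W, Pr Subtype.val y ∧ ∀ q : Z, ∀ ξ, y q.1 ≤ ξ →
      ξ < q.1.1 → ∀ᶠ i in (U q.1 : Filter ι), g i < f q ξ i := by
    intro g hg
    choose r h2 h3 using fun q : Z => (hf q).2 g hg
    obtain ⟨y, h4, h5⟩ := bound_pairs (fun i : BW W μ => i.2) hZ (fun q => q.1) r h2
    exact ⟨y, h4, fun q ξ h6 => h3 q ξ ((h5 q).le.trans h6)⟩
  apply le_antisymm
  · obtain ⟨J, k, h2, h3, h4⟩ := cf_spec E (Subtype.val : BW W μ → W)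
    rw [← h2]
    refine cf_le (fun j => K (k j)) (fun j => hK1 _) (fun g hg => ?_)
    obtain ⟨y, h5, h6⟩ := h1 g hg
    obtain ⟨j, hj⟩ := h4 y h5
    refine ⟨j, ev_bind.mpr ?_⟩
    filter_upwards [hj, hE] with q h7 h8
    exact (h6 ⟨q, h8⟩ _ h7 (h3 j q)).mono (fun i hi => (hi.trans (hK2 _ ⟨q, h8⟩ i)).le)
  · obtain ⟨J, k, h2, h3, h4⟩ := cf_spec (E.bind U) a
    rw [← h2]
    choose y h5 h6 using fun j => h1 _ (h3 j)
    refine cf_le y h5 (fun g hg => ?_)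
    obtain ⟨j, hj⟩ := h4 _ (hK1 g)
    refine ⟨j, ?_⟩
    filter_upwards [ev_bind.mp hj, hE] with q h7 h8
    by_contra h9
    obtain ⟨i, h10, h11⟩ := (h7.and (h6 j ⟨q, h8⟩ _ (not_le.mp h9).le (hg q))).exists
    exact lt_irrefl _ (((hK2 g ⟨q, h8⟩ i).trans_le h10).trans h11)

/-- The subsets of `e` with possible cofinalities at most `l` that share no possible cofinality
with their complement in `e`. -/
def Clop (l : Cardinal.{u}) (e : Set (BW W μ)) : Set (Set (BW W μ)) :=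
  {Y | Y ⊆ e ∧ Jl l Y ∧ ∀ U U' : Ultrafilter (BW W μ), Y ∈ U → e \ Y ∈ U' →
    cf U Subtype.val ≠ cf U' Subtype.val}

lemma Clop.trace {l : Cardinal.{u}} {e e' Y : Set (BW W μ)} (h : Y ∈ Clop l e) (he : e' ⊆ e) :
    Y ∩ e' ∈ Clop l e' :=
  ⟨inter_subset_right, fun U hU => h.2.1 U (mem_of_superset hU inter_subset_left),
    fun U U' hU hU' => h.2.2 U U' (mem_of_superset hU inter_subset_left)
      (mem_of_superset hU' (fun _ hx => ⟨he hx.1, fun h' => hx.2 ⟨h', hx.1⟩⟩))⟩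

lemma Clop.empty (l : Cardinal.{u}) (e : Set (BW W μ)) : ∅ ∈ Clop l e :=
  ⟨empty_subset _, fun U hU => absurd hU U.empty_notMem,
    fun U _ hU => absurd hU U.empty_notMem⟩

lemma Clop.mem {l : Cardinal.{u}} {e Y : Set (BW W μ)} (h : Y ∈ Clop l e)
    {U U' : Ultrafilter (BW W μ)} (h1 : Y ∈ U) (h2 : e ∈ U')
    (h3 : cf U Subtype.val = cf U' Subtype.val) : Y ∈ U' := by
  by_contra h4
  exact h.2.2 U U' h1 (inter_mem h2 (Ultrafilter.compl_mem_iff_notMem.mpr h4)) h3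

lemma Clop.biUnion {l : Cardinal.{u}} {e : Set (BW W μ)} {K : Type u} (s : Finset K)
    (Y : K → Set (BW W μ)) (h : ∀ k ∈ s, Y k ∈ Clop l e) : (⋃ k ∈ (s : Set K), Y k) ∈ Clop l e := by
  refine ⟨iUnion₂_subset (fun k hk => (h k hk).1), fun U hU => ?_, fun U U' hU hU' => ?_⟩
  · obtain ⟨k, hk, h1⟩ := (Ultrafilter.finite_biUnion_mem_iff s.finite_toSet).mp hU
    exact (h k hk).2.1 U h1
  · obtain ⟨k, hk, h1⟩ := (Ultrafilter.finite_biUnion_mem_iff s.finite_toSet).mp hU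
    exact (h k hk).2.2 U U' h1 (mem_of_superset hU'
      (fun x hx => ⟨hx.1, fun h' => hx.2 (mem_biUnion hk h')⟩))

variable [WellFoundedLT W]

lemma conv_of {b : ℕ → Cardinal.{u}} (hμ : Sing μ b) {a : ι → W} (ha : ∀ i, Big μ (a i))
    {e : Set ι} (he : #e < μ) {p : W} (h1 : Init p) (hp : Big μ p) {U : Ultrafilter ι}
    (h2 : e ∈ U) (h3 : cf U a = #(Iio p)) : ∃ f, Conv (U : Filter ι) a p f := by
  obtain ⟨f, B, -, h, -⟩ := scale hμ ha he h1 hp
  exact ⟨f, h.mono (le_GG h2 h3)⟩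

lemma gen_clop {b : ℕ → Cardinal.{u}} (hμ : Sing μ b) {e : Set (BW W μ)} (he : #e < μ)
    (hP : #(Pts e) ≤ μ) {l : Cardinal.{u}} {t : W} (ht : l ≤ #(Iio t)) (η : Cardinal.{u}) :
    η ≤ l → ∃ Y ∈ Clop l e,
      (∀ U : Ultrafilter (BW W μ), e ∈ U → cf U Subtype.val = η → Y ∈ U) ∧ Jl η Y := by
  have h0 := hμ.aleph0_lt.le
  induction η using WellFoundedLT.induction with
  | ind η ih =>
    intro hη
    by_cases hex : ∃ U : Ultrafilter (BW W μ), e ∈ U ∧ cf U Subtype.val = η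
    swap
    · exact ⟨∅, Clop.empty l e, fun U h1 h2 => absurd ⟨U, h1, h2⟩ hex,
        fun U hU => absurd hU U.empty_notMem⟩
    obtain ⟨U₀, h1, h2⟩ := hex
    obtain ⟨p, h3, h4⟩ := exists_mem_Pts h0 h1 (h2.le.trans (hη.trans ht))
    have h5 : #(Iio p.1) = η := h4.symm.trans h2
    obtain ⟨-, B, hB1, -, hB2, hB3⟩ := scale hμ (fun i : BW W μ => i.2) he h3.1 p.2
    rw [h5] at hB2 hB3
    let Z : Set (BW W μ) := {q | q ∈ Pts e ∧ ∃ U U' : Ultrafilter (BW W μ), B ∈ U ∧ e \ B ∈ U' ∧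
      cf U Subtype.val = #(Iio q.1) ∧ cf U' Subtype.val = #(Iio q.1)}
    have hZ : ∀ U U' : Ultrafilter (BW W μ), B ∈ U → e \ B ∈ U' →
        cf U Subtype.val = cf U' Subtype.val → ∃ q ∈ Z, cf U Subtype.val = #(Iio q.1) := by
      intro U U' h6 h7 h8
      obtain ⟨q, h9, h10⟩ := exists_mem_Pts h0 (mem_of_superset h6 hB1)
        ((hB3 U h6).trans (hη.trans ht))
      exact ⟨q, ⟨h9, U, U', h6, h7, h10, h8.symm.trans h10⟩, h10⟩
    have hlt : ∀ q ∈ Z, #(Iio q.1) < η := by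
      rintro q ⟨-, U, U', h6, h7, h8, h9⟩
      refine lt_of_le_of_ne (h8 ▸ hB3 U h6) (fun h10 => ?_)
      obtain ⟨x, h11, h12⟩ := U'.nonempty_of_mem (inter_mem h7
        (hB2 U' (mem_of_superset h7 sdiff_subset) (h9.trans h10)))
      exact h11.2 h12
    choose! Y hY1 hY2 hY3 using fun q (hq : q ∈ Z) => ih _ (hlt q hq) ((hlt q hq).le.trans hη)
    obtain ⟨s, hs1, hs2⟩ := compact_cover (B := Z) (T := Z) (fun q' => {q : BW W μ |
        ∀ U : Ultrafilter (BW W μ), e ∈ U → cf U Subtype.val = #(Iio q.1) → Y q' ∈ U}) (by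
      intro E hE
      have h6 : ∀ q, ∃ U U' : Ultrafilter (BW W μ), q ∈ Z → B ∈ U ∧ e \ B ∈ U' ∧
          cf U Subtype.val = #(Iio q.1) ∧ cf U' Subtype.val = #(Iio q.1) := by
        intro q
        by_cases hq : q ∈ Z
        · obtain ⟨U, U', h⟩ := hq.2
          exact ⟨U, U', fun _ => h⟩
        · exact ⟨U₀, U₀, fun h => absurd h hq⟩
      choose U U' hU using h6
      have hZμ : #Z ≤ μ := (mk_le_mk_of_subset (fun q hq => hq.1)).trans hP
      choose f hf using fun q : Z => conv_of hμ (fun i : BW W μ => i.2) he q.2.1.1 q.1.2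
        (mem_of_superset (hU q.1 q.2).1 hB1) (hU q.1 q.2).2.2.1
      choose f' hf' using fun q : Z => conv_of hμ (fun i : BW W μ => i.2) he q.2.1.1 q.1.2
        (mem_of_superset (hU q.1 q.2).2.1 sdiff_subset) (hU q.1 q.2).2.2.2
      have h7 : B ∈ E.bind U := ev_bind.mpr (mem_of_superset hE (fun q hq => (hU q hq).1))
      have h8 : e \ B ∈ E.bind U' := ev_bind.mpr (mem_of_superset hE (fun q hq => (hU q hq).2.1))
      obtain ⟨q₀, h9, h10⟩ := hZ _ _ h7 h8 ((cf_bind (fun i : BW W μ => i.2) hZμ hE U f hf).trans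
        (cf_bind (fun i : BW W μ => i.2) hZμ hE U' f' hf').symm)
      refine ⟨q₀, h9, ?_⟩
      have h11 := ev_bind.mp (hY2 q₀ h9 _ (mem_of_superset h7 hB1) h10)
      filter_upwards [h11, hE] with q h12 h13
      exact fun V h14 h15 => Clop.mem (hY1 q₀ h9) h12 h14 ((hU q h13).2.2.1.trans h15.symm))
    have hYs := Clop.biUnion s Y (fun q hq => hY1 q (hs1 hq))
    have hJ : Jl η (B ∪ ⋃ k ∈ (s : Set (BW W μ)), Y k) := by
      intro U hU
      rcases Ultrafilter.union_mem_iff.mp hU with h6 | h6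
      · exact hB3 U h6
      · obtain ⟨k, hk, h7⟩ := (Ultrafilter.finite_biUnion_mem_iff s.finite_toSet).mp h6
        exact (hY3 k (hs1 hk) U h7).trans (hlt k (hs1 hk)).le
    refine ⟨_, ⟨union_subset hB1 hYs.1, fun U hU => (hJ U hU).trans hη,
      fun U U' hU hU' heq => ?_⟩, fun U h6 h7 => mem_of_superset (hB2 U h6 h7) subset_union_left,
      hJ⟩
    refine hYs.2.2 U U' ?_ (mem_of_superset hU' (fun x hx => ⟨hx.1, fun h => hx.2 (Or.inr h)⟩)) heq
    rcases Ultrafilter.union_mem_iff.mp hU with h6 | h6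
    · obtain ⟨q, h7, h8⟩ := hZ U U' h6
        (mem_of_superset hU' (fun x hx => ⟨hx.1, fun h => hx.2 (Or.inl h)⟩)) heq
      obtain ⟨q', h9, h10⟩ := hs2 q h7
      exact mem_of_superset (h10 U (mem_of_superset h6 hB1) h8)
        (fun x hx => mem_biUnion (show q' ∈ (s : Set (BW W μ)) from h9) hx)
    · exact h6

theorem clop_facts {b : ℕ → Cardinal.{u}} (hμ : Sing μ b) {e : Set (BW W μ)} (he : #e < μ)
    {ρ : Cardinal.{u}} (hρ : ℵ₀ ≤ ρ) (hρμ : ρ ≤ μ) (hP : #(Pts e) ≤ ρ) {l : Cardinal.{u}} {t : W}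
    (ht : l ≤ #(Iio t)) :
    #(Clop l e) ≤ ρ ∧ ∀ B ⊆ e, Jl l B → ∃ Y ∈ Clop l e, B ⊆ Y := by
  have h0 := hμ.aleph0_lt.le
  choose! Y hY1 hY2 hY3 using fun (p : Pts e) (hp : #(Iio p.1.1) ≤ l) =>
    gen_clop hμ he (hP.trans hρμ) ht _ hp
  have hpt : ∀ U : Ultrafilter (BW W μ), e ∈ U → cf U Subtype.val ≤ l →
      ∃ p : Pts e, cf U Subtype.val = #(Iio p.1.1) ∧ #(Iio p.1.1) ≤ l ∧ Y p ∈ U := by
    intro U h1 h2
    obtain ⟨p, h3, h4⟩ := exists_mem_Pts h0 h1 (h2.trans ht)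
    exact ⟨⟨p, h3⟩, h4, h4 ▸ h2, hY2 ⟨p, h3⟩ (h4 ▸ h2) U h1 h4⟩
  constructor
  · let E : Pts e × Finset (Pts e) → Set (BW W μ) := fun z =>
      Y z.1 \ ⋃ q ∈ (z.2 : Set (Pts e)), Y q
    refine le_trans (mk_le_mk_of_subset (t := range (fun s : Finset (Pts e × Finset (Pts e)) =>
      ⋃ z ∈ s, E z)) (fun X hX => ?_)) (mk_range_le.trans (mk_finset_le hρ ?_))
    swap
    · rw [mk_prod, lift_id, lift_id]
      exact mul_le_of_le hρ hP (mk_finset_le hρ hP)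
    obtain ⟨s, h1, h2⟩ := compact_cover (B := X) (T := {z | E z ⊆ X}) E (by
      intro U hU
      obtain ⟨p, h1, h2, h3⟩ := hpt U (mem_of_superset hU hX.1) (hX.2.1 U hU)
      obtain ⟨s, h4, h5⟩ := compact_cover (B := Y p \ X)
        (T := {q : Pts e | #(Iio q.1.1) < #(Iio p.1.1)}) Y (by
        intro U' hU'
        have h4 := hY3 p h2 U' (mem_of_superset hU' sdiff_subset)
        have h5 : e \ X ∈ U' := mem_of_superset hU' (fun x hx => ⟨(hY1 p h2).1 hx.1, hx.2⟩)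
        obtain ⟨q, h6, -, h7⟩ := hpt U' (mem_of_superset h5 sdiff_subset) (h4.trans h2)
        exact ⟨q, lt_of_le_of_ne (h6 ▸ h4)
          (fun h => hX.2.2 U U' hU h5 (h1.trans (h6.trans h).symm)), h7⟩)
      refine ⟨(p, s), fun x hx => ?_, inter_mem h3 (Ultrafilter.compl_mem_iff_notMem.mpr ?_)⟩
      · by_contra h6
        obtain ⟨q, h7, h8⟩ := h5 x ⟨hx.1, h6⟩
        exact hx.2 (mem_biUnion (show q ∈ (s : Set (Pts e)) from h7) h8)
      · intro h6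
        obtain ⟨q, h7, h8⟩ := (Ultrafilter.finite_biUnion_mem_iff s.finite_toSet).mp h6
        have h9 : #(Iio q.1.1) < #(Iio p.1.1) := h4 h7
        exact absurd (h1 ▸ hY3 q (h9.le.trans h2) U h8) (not_le.mpr h9))
    refine ⟨s, subset_antisymm (iUnion₂_subset (fun z hz => h1 hz)) (fun x hx => ?_)⟩
    obtain ⟨z, h3, h4⟩ := h2 x hx
    exact mem_iUnion₂.mpr ⟨z, h3, h4⟩
  · intro B hB hJ
    obtain ⟨s, h1, h2⟩ := compact_cover (B := B) (T := {p : Pts e | #(Iio p.1.1) ≤ l}) Y (by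
      intro U hU
      obtain ⟨p, -, h2, h3⟩ := hpt U (mem_of_superset hU hB) (hJ U hU)
      exact ⟨p, h2, h3⟩)
    refine ⟨_, Clop.biUnion s Y (fun p hp => hY1 p (h1 hp)), fun x hx => ?_⟩
    obtain ⟨p, h3, h4⟩ := h2 x hx
    exact mem_biUnion (show p ∈ (s : Set (Pts e)) from h3) h4

end Pool.Agent.Lib.MP_856180_lc
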