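import Mathlib
import Pool.Agent.Lib.MP_856180_lc.PcfClop

/-!
No holes: regular cardinals below a directed reduced product are true cofinalities.
-/

set_option autoImplicit false

namespace Pool.Agent.Lib.MP_856180_lc

open Cardinal Set Filter Pool.Agent.Shared.RevisedGCH

universe u

variable {W : Type u} [LinearOrder W] {ι : Type u} {μ : Cardinal.{u}}

lemma Sing.lt_of_regular {b : ℕ → Cardinal.{u}} (hμ : Sing μ b) {c : Cardinal.{u}}
    (hc : c.IsRegular) (h : ∀ n, b n < c) : μ < c := by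
  have h1 : μ ≤ c := by
    by_contra h1
    obtain ⟨n, hn⟩ := hμ.cofinal c (not_le.mp h1)
    exact absurd hn (not_le.mpr (h n))
  refine lt_of_le_of_ne h1 (fun h2 => ?_)
  have h3 : iSup (fun n : ULift.{u} ℕ => b n.down) < c :=
    iSup_lt_of_lt_cof_ord (by simpa [hc.cof_ord] using h2 ▸ hμ.aleph0_lt) (fun n => h _)
  obtain ⟨n, hn⟩ := hμ.cofinal _ (hμ.succ_lt (h2 ▸ h3))
  exact absurd (hn.trans (le_ciSup (f := fun n : ULift.{u} ℕ => b n.down) bddAbove_of_small ⟨n⟩))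
    (not_le.mpr (Order.lt_succ _))

lemma jl_cof (hμ : ℵ₀ ≤ μ) {e : Set (BW W μ)} (he : #e ≤ μ) {l : Cardinal.{u}}
    (h : ∀ β ∈ e, Order.cof (Iio β.1) = l) : Jl l e := by
  intro U hU
  obtain ⟨β, hβ⟩ := U.nonempty_of_mem hU
  rw [cf_map hμ (fun i : BW W μ => i.2) (a' := fun _ : PUnit.{u + 1} => β.1) (fun _ => β.2)
    (fun _ => PUnit.unit) he hU (fun i hi => (h i hi).trans (h β hβ).symm)]
  obtain ⟨C, hC1, hC2⟩ := Order.exists_cof_eq (Iio β.1)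
  rw [← h β hβ, ← hC2]
  refine cf_le (fun (c : C) _ => c.1.1) (fun c _ => c.1.2) (fun g hg => ?_)
  obtain ⟨c, h1, h2⟩ := hC1 ⟨_, hg PUnit.unit⟩
  exact ⟨⟨c, h1⟩, Eventually.of_forall (fun _ => h2)⟩

variable [WellFoundedLT W]

lemma regular_cof {A : Type u} [LinearOrder A] [WellFoundedLT A] (h : ℵ₀ ≤ Order.cof A) :
    (Order.cof A).IsRegular :=
  ⟨h, (Order.cof_ord_cof A).ge⟩

omit [WellFoundedLT W] in
lemma Init.cof {q : W} (h : Init q) (hr : (#(Iio q)).IsRegular) :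
    Order.cof (Iio q) = #(Iio q) := by
  refine le_antisymm (Order.cof_le_cardinalMk _) (not_lt.mp (fun h1 => ?_))
  obtain ⟨C, hC1, hC2⟩ := Order.exists_cof_eq (Iio q)
  have h2 : #(⋃ c : C, Iic c.1.1) < #(Iio q) :=
    (card_iUnion_lt_iff_forall_of_isRegular hr (hC2 ▸ h1)).mpr (fun c => by
      have := mk_inter_Iic_lt hr.aleph0_le (E := Set.univ) (x := c.1.1)
        (by simpa using h _ c.1.2)
      rwa [univ_inter] at this)
  refine absurd h2 (not_lt.mpr (mk_le_mk_of_subset (fun x hx => ?_)))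
  obtain ⟨c, h3, h4⟩ := hC1 ⟨x, hx⟩
  exact mem_iUnion.mpr ⟨⟨c, h3⟩, h4⟩

lemma exists_reg_pt (hμ : ℵ₀ ≤ μ) (β : BW W μ) : ∃ q : BW W μ, Init q.1 ∧
    #(Iio q.1) = Order.cof (Iio β.1) ∧ Order.cof (Iio q.1) = Order.cof (Iio β.1) := by
  obtain ⟨q, h1, h2⟩ := exists_pt (t := β.1) (Order.cof_le_cardinalMk (Iio β.1))
  have h3 := (h1.cof (h2 ▸ regular_cof (hμ.trans β.2.le))).trans h2
  exact ⟨⟨q, lt_of_lt_of_eq β.2 h3.symm⟩, h1, h2, h3⟩

omit [WellFoundedLT W] in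
lemma dir_of_ultra {b : ℕ → Cardinal.{u}} (hμ : Sing μ b) {a : ι → W} (ha : ∀ i, Big μ (a i))
    {e : Set ι} (he : #e < μ) {D : Filter ι} (heD : e ∈ D) {η : Cardinal.{u}}
    (h : ∀ U : Ultrafilter ι, (U : Filter ι) ≤ D → η ≤ cf U a) : Dir D a η :=
  (dir_FF (le_max_right _ _) (hμ.succ_lt (max_lt he hμ.aleph0_lt)).le ha (le_max_left _ _) η).mono
    (le_iff_ultrafilter.mpr (fun U hU => le_FF (hU heD) (h U hU))) le_rfl

lemma exists_gen {b : ℕ → Cardinal.{u}} (hμ : Sing μ b) {e : Set (BW W μ)} (he : #e < μ)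
    {l : Cardinal.{u}} {t : W} (ht : l ≤ #(Iio t)) {U : Ultrafilter (BW W μ)} (hU : e ∈ U)
    (h : cf U Subtype.val ≤ l) : ∃ B ⊆ e, B ∈ U ∧ Jl l B := by
  obtain ⟨p, h1, h2⟩ := exists_mem_Pts hμ.aleph0_lt.le hU (h.trans ht)
  obtain ⟨-, B, h3, -, h4, h5⟩ := scale hμ (fun i : BW W μ => i.2) he h1.1 p.2
  exact ⟨B, h3, h4 U hU h2, fun V hV => (h5 V hV).trans (h2 ▸ h)⟩

variable (μ) in
/-- Every point of cofinality below `l` is the true cofinality of a product below `g`. -/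
def Rep (D : Filter ι) (g : ι → W) (l : Cardinal.{u}) : Prop :=
  ∀ p : BW W μ, Order.cof (Iio p.1) < l → ∃ (h : ι → BW W μ) (f : W → ι → W),
    (∀ᶠ i in D, (h i).1 < g i) ∧ Conv D (fun i => (h i).1) p.1 f

theorem no_holes {b : ℕ → Cardinal.{u}} (hμ : Sing μ b) {e : Set ι} (he : #e < μ) {D : Filter ι}
    [CountableInterFilter D] (heD : e ∈ D) {s : ι → W} (hs : ∀ i, Big μ (s i)) {l : Cardinal.{u}}
    (hdir : Dir D s (Order.succ l)) : ∃ g, Pr s g ∧ Rep μ D g l := by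
  classical
  have h0 := hμ.aleph0_lt.le
  obtain ⟨g0, hg0, -⟩ := bound_fam hs (J := PEmpty.{u + 1}) (by simp) (fun j => j.elim)
    (fun j => j.elim)
  have h1 : ∀ q : {ξ : W // #(Iio ξ) < l}, ∃ k, Pr s k ∧ (Init q.1 → Big μ q.1 →
      ∃ (h : ι → BW W μ) (f : W → ι → W), (∀ᶠ i in D, (h i).1 ≤ k i) ∧
        Conv D (fun i => (h i).1) q.1 f) := by
    intro q
    by_cases hq : Init q.1 ∧ Big μ q.1
    swap
    · exact ⟨g0, hg0, fun h2 h3 => absurd ⟨h2, h3⟩ hq⟩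
    obtain ⟨f, h, h2, -, -, h3, h4, h5, h6⟩ := eub hμ he heD hs hq.2 hdir
      (fun ξ hξ => ((hq.1 ξ hξ).trans q.2).trans (Order.lt_succ l)) (fun _ => g0) (fun _ => hg0)
    obtain ⟨k, h7, h8⟩ := hdir (Iio q.1) (fun ξ => f ξ.1) (q.2.trans (Order.lt_succ l))
      (fun ξ => h2.1 _)
    have h9 : ∀ᶠ i in D, Big μ (h i) := (eventually_countable_forall.mpr h6).mono (fun i hi =>
      hμ.lt_of_regular (regular_cof ((hμ.b_inf 0).trans (hi 0).le)) hi)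
    let h' : ι → BW W μ := fun i => if hi : Big μ (h i) then ⟨h i, hi⟩ else ⟨s i, hs i⟩
    have h10 : ∀ᶠ i in D, (h' i).1 = h i := h9.mono (fun i hi => by simp only [h', dif_pos hi])
    obtain ⟨g1, hg1, -⟩ := bound_fam (fun i => (h' i).2) (J := PEmpty.{u + 1}) (by simp)
      (fun j => j.elim) (fun j => j.elim)
    refine ⟨k, h7, fun _ _ => ⟨h', fun ξ i => if f ξ i < (h' i).1 then f ξ i else g1 i, ?_,
      fun ξ i => ?_, fun G hG => ?_⟩⟩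
    · filter_upwards [h10, h4 k (fun ξ hξ => (h8 ⟨ξ, hξ⟩).mono (fun _ h => h.le))] with i h11 h12
      exact h11.le.trans h12
    · dsimp only
      split_ifs with h11
      · exact h11
      · exact hg1 i
    · obtain ⟨ξ₀, h11, h12⟩ := h5 G (h10.mono (fun i hi => hi ▸ hG i))
      refine ⟨ξ₀, h11, fun ξ h13 h14 => ?_⟩
      filter_upwards [h10, h12, h2.le h14 h13, h3 ξ h14] with i h15 h16 h17 h18
      rw [if_pos (h15 ▸ h18)]
      exact h16.trans_le h17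
  choose k h2 h3 using h1
  obtain ⟨g, h4, h5⟩ := hdir _ k (Order.lt_succ_of_le (mk_low l)) h2
  refine ⟨g, h4, fun p hp => ?_⟩
  obtain ⟨q, h6, h7, h8⟩ := exists_reg_pt h0 p
  obtain ⟨h, f, h9, h10⟩ := h3 ⟨q.1, h7 ▸ hp⟩ h6 q.2
  obtain ⟨φ, ψ, h11⟩ := tukey h8.symm (h0.trans p.2.le)
  refine ⟨h, fun ξ => if hξ : ξ < p.1 then f (φ ⟨ξ, hξ⟩).1 else f ξ, ?_, fun ξ => ?_,
    fun G hG => ?_⟩
  · filter_upwards [h9, h5 ⟨q.1, h7 ▸ hp⟩] with i h12 h13 using h12.trans_lt h13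
  · dsimp only
    split_ifs <;> exact h10.1 _
  · obtain ⟨ξ₀, h12, h13⟩ := h10.2 G hG
    refine ⟨(ψ ⟨ξ₀, h12⟩).1, (ψ ⟨ξ₀, h12⟩).2, fun ξ h14 h15 => ?_⟩
    simp only [dif_pos h15]
    exact h13 _ (h11 ⟨ξ, h15⟩ ⟨ξ₀, h12⟩ h14) (φ ⟨ξ, h15⟩).2

end Pool.Agent.Lib.MP_856180_lc
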