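import Mathlib

set_option autoImplicit false

namespace Pool.Agent.Lib.MP_856180_lc

open Cardinal

universe u

/-- The cofinality of the subsets of `θ` of size at most `μ` under inclusion: the least size of a
family of subsets of `θ` of size at most `μ` such that every subset of `θ` of size at most `μ` is
contained in a member of the family. -/
noncomputable def cofSub (θ μ : Cardinal.{u}) : Cardinal.{u} :=
  sInf {c : Cardinal.{u} | ∃ C : Set (Set θ.out), Cardinal.mk C = c ∧
    (∀ p ∈ C, Cardinal.mk p ≤ μ) ∧ ∀ A : Set θ.out, Cardinal.mk A ≤ μ → ∃ p ∈ C, A ⊆ p}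

end Pool.Agent.Lib.MP_856180_lc
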