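import Mathlib

set_option autoImplicit false

namespace Pool.Agent.Lib.MP_856180_lc

open Cardinal

universe u

/-- The least size of a family `D` of functions from `μ` to `ω` such that every `g` is dominated
by some `f ∈ D`, that is, `f a ≤ g a` for fewer than `μ` many `a`. -/
noncomputable def domNum (μ : Cardinal.{u}) : Cardinal.{u} :=
  sInf {c : Cardinal.{u} | ∃ D : Set (μ.out → ℕ), Cardinal.mk D = c ∧
    ∀ g : μ.out → ℕ, ∃ f ∈ D, Cardinal.mk {a : μ.out | f a ≤ g a} < μ}

end Pool.Agent.Lib.MP_856180_lc
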