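import Mathlib
import Pool.Agent.Lib.MP_856180_lc.Defs
import Pool.Agent.Lib.MP_856180_lc.Coding

set_option autoImplicit false

namespace Pool.Agent.Lib.MP_856180_lc

open Cardinal Set Pool.Agent.Shared.RevisedGCH

universe u

lemma two_pow_mem {μ : Cardinal.{u}} (hμ : ℵ₀ ≤ μ) :
    (2 : Cardinal.{u}) ^ μ ∈ {c : Cardinal.{u} | ∃ D : Set (μ.out → ℕ), #D = c ∧
      ∀ g : μ.out → ℕ, ∃ f ∈ D, #{a : μ.out | f a ≤ g a} < μ} := by
  refine ⟨univ, ?_, fun g => ⟨fun a => g a + 1, mem_univ _, ?_⟩⟩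
  · rw [mk_univ, mk_arrow]
    simp only [mk_nat, lift_aleph0, lift_uzero, mk_out]
    exact power_eq_two_power hμ (natCast_lt_aleph0 (n := 2)).le hμ
  · simpa using aleph0_pos.trans_le hμ

lemma domNum_le {μ : Cardinal.{u}} (hμ : ℵ₀ ≤ μ) : domNum μ ≤ 2 ^ μ :=
  csInf_le' (two_pow_mem hμ)

lemma domNum_max {μ : Cardinal.{u}} (hμ : ℵ₀ ≤ μ)
    (h : ∀ D : Set (μ.out → ℕ), (∀ g : μ.out → ℕ, ∃ f ∈ D, ∀ a, g a ≤ f a) →
      (2 : Cardinal.{u}) ^ μ ≤ max (max (#D) μ) 𝔠) : 2 ^ μ = max (domNum μ) 𝔠 := by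
  apply le_antisymm
  · obtain ⟨D, hDc, hD⟩ := csInf_mem ⟨_, two_pow_mem hμ⟩
    have hDc' : #D = domNum μ := hDc
    obtain ⟨D', h1, h2⟩ := everywhere (ι := μ.out) (by rwa [mk_out]) D (by rwa [mk_out])
    rw [mk_out] at h1
    have h4 : (2 : Cardinal.{u}) ^ μ ≤ max (max (#D) μ) 𝔠 :=
      (h D' h2).trans (max_le_max (max_le (h1.trans (mul_le_max_of_aleph0_le_right hμ))
        (le_max_right _ _)) le_rfl)
    rw [← hDc']
    rcases le_max_iff.mp h4 with h5 | h5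
    · rcases le_max_iff.mp h5 with h6 | h6
      · exact h6.trans (le_max_left _ _)
      · exact absurd h6 (not_le.mpr (cantor μ))
    · exact h5.trans (le_max_right _ _)
  · refine max_le (domNum_le hμ) ?_
    rw [← two_power_aleph0]
    exact power_le_power_left two_ne_zero hμ

lemma mul3_le {a μ : Cardinal.{u}} (hμ : ℵ₀ ≤ μ) :
    𝔠 * a * max (max a μ) 𝔠 ≤ max (max a μ) 𝔠 := by
  have h0 : ℵ₀ ≤ max (max a μ) 𝔠 := aleph0_le_continuum.trans (le_max_right _ _)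
  exact mul_le_of_le h0 (mul_le_of_le h0 (le_max_right _ _)
    ((le_max_left _ _).trans (le_max_left _ _))) le_rfl

theorem domNum_of_beth {μ : Cardinal.{u}} (h : beth Ordinal.omega0 ≤ μ) : domNum μ = 2 ^ μ := by
  have hχ := SL_beth_omega.{u}
  have hμ : ℵ₀ ≤ μ := hχ.aleph0_lt.le.trans h
  have hc : 𝔠 ≤ μ := by
    rw [← two_power_aleph0]
    exact (hχ.two_pow _ hχ.aleph0_lt).le.trans h
  have key := domNum_max hμ (fun D hD => by
    obtain ⟨τ, hτ, hit⟩ := hit_of_beth (β := μ.out) (by rwa [mk_out])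
    have := two_pow_le D hD (by rwa [mk_out]) (n := 0) (by rwa [mk_out]) hit
      (ν := max (max (#D) μ) 𝔠) (fun ρ hρ => ((hχ.two_pow _ (hρ.trans hτ)).le.trans h).trans
        ((le_max_right _ _).trans (le_max_left _ _)))
    rw [mk_out] at this
    exact this.trans (mul3_le hμ))
  rcases le_total (domNum μ) 𝔠 with h1 | h1
  · rw [max_eq_right h1] at key
    exact absurd (key.le.trans hc) (not_le.mpr (cantor μ))
  · rw [key, max_eq_left h1]

theorem domNum_of_no_fixed {μ θ₀ : Cardinal.{u}} (hμ' : ℵ₀ < μ) {n : ℕ}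
    (hc : 𝔠 ≤ Order.succ^[n] μ) (h0 : θ₀ ≤ μ)
    (hpow : ∀ a < θ₀, a ^ ℵ₀ ≤ μ) (hfix : ∀ θ, θ₀ < θ → θ ≤ μ → θ < aleph θ.ord) :
    2 ^ μ = max (domNum μ) 𝔠 := by
  have hμ : ℵ₀ ≤ μ := hμ'.le
  have h1μ : ℵ₁ ≤ μ := aleph_one_le_iff.mpr hμ'
  obtain ⟨α, hα⟩ := mem_range_aleph_iff.mpr
    (aleph0_lt_aleph_one.le.trans (le_max_right θ₀ ℵ₁))
  have hα1 : 1 ≤ α := aleph_le_aleph.mp (hα ▸ le_max_right θ₀ ℵ₁)
  have hbase : Hit μ ℵ₁ (aleph α).ord.ToType := by
    refine hit_base (aleph0_le_aleph α) (hα ▸ max_le h0 h1μ) (fun a ha => ?_)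
    rw [hα, lt_max_iff] at ha
    rcases ha with ha | ha
    · exact Or.inr (hpow a ha)
    · exact Or.inl (lt_aleph_one_iff.mp ha)
  have hfix' : ∀ θ, aleph α < θ → θ ≤ μ → θ < aleph θ.ord := fun θ h1 h2 =>
    hfix θ ((le_max_left θ₀ ℵ₁).trans_lt (hα ▸ h1)) h2
  have hhit : ∀ θ, ℵ₀ < θ → θ ≤ μ → Hit μ θ θ.out := by
    intro θ h1 h2
    by_cases hs : θ ≤ aleph α
    · exact (hbase.mono_tau (aleph_one_le_iff.mpr h1)).mono_card (aleph0_pos.trans h1)
        (by simpa using hs)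
    · obtain ⟨γ, rfl⟩ := mem_range_aleph_iff.mpr h1.le
      obtain ⟨β, rfl⟩ := exists_add_of_le (aleph_lt_aleph.mp (not_le.mp hs)).le
      have h3 := hfix' _ (not_le.mp hs) h2
      rw [aleph_lt_aleph] at h3
      have h4 : β.card < aleph (α + β) := Cardinal.lt_ord.mp (le_add_self.trans_lt h3)
      have h5 : Order.succ (max β.card ℵ₀) ≤ aleph (α + β) := Order.succ_le_of_lt (max_lt h4 h1)
      refine ((hit_step α hα1 hbase hfix' β h2 _ (isRegular_succ (le_max_right _ _)) ?_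
        ((le_max_left _ _).trans_lt (Order.lt_succ _)) h5).mono_tau h5).mono_card
        (aleph0_pos.trans h1) (by simp)
      rw [← succ_aleph0]
      exact Order.succ_le_succ (le_max_right _ _)
  refine domNum_max hμ (fun D hD => ?_)
  have key : ∀ θ : Cardinal.{u}, θ ≤ μ → (2 : Cardinal.{u}) ^ θ ≤ max (max (#D) μ) 𝔠 := by
    intro θ
    induction θ using WellFoundedLT.induction with
    | ind θ ih =>
      intro hθ
      by_cases hs : θ ≤ ℵ₀
      · refine (power_le_power_left two_ne_zero hs).trans ?_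
        rw [two_power_aleph0]
        exact le_max_right _ _
      · have := two_pow_le (β := θ.out) (τ := θ) D hD (by rwa [mk_out]) (n := n)
          (by rwa [mk_out]) (by rw [mk_out]; exact hhit θ (not_le.mp hs) hθ)
          (ν := max (max (#D) μ) 𝔠) (fun ρ hρ => ih ρ hρ (hρ.le.trans hθ))
        rw [mk_out] at this
        exact this.trans (mul3_le hμ)
  exact key μ le_rfl

end Pool.Agent.Lib.MP_856180_lc
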