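import Mathlib
import Pool.Agent.Lib.MP_856180_lc.Guess

/-!
Threads: a substitute for covering.  If fewer than `ν⁺` cardinals lie between the covered
cardinals and `κ`, every strategy can be followed for `ν⁺` steps inside small sets taken from a
family of size `κ`.
-/

set_option autoImplicit false

namespace Pool.Agent.Lib.MP_856180_lc

open Cardinal Set Pool.Agent.Shared.RevisedGCH

universe u

/-- The closure of `J` under the maps `f γ` for `γ ∈ Γ`. -/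
def Gen {X : Type u} (f : X → X → X) (J Γ : Set X) : Set X :=
  {x | ∃ l : List X, (∀ γ ∈ l, γ ∈ Γ) ∧ ∃ y ∈ J, l.foldr f y = x}

lemma Gen.base {X : Type u} {f : X → X → X} {J Γ : Set X} {y : X} (h : y ∈ J) :
    y ∈ Gen f J Γ := ⟨[], by simp, y, h, rfl⟩

lemma Gen.step {X : Type u} {f : X → X → X} {J Γ : Set X} {γ y : X} (hγ : γ ∈ Γ)
    (h : y ∈ Gen f J Γ) : f γ y ∈ Gen f J Γ := by
  obtain ⟨l, h1, z, hz, rfl⟩ := h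
  refine ⟨γ :: l, ?_, z, hz, rfl⟩
  intro δ hδ
  rcases List.mem_cons.mp hδ with rfl | hδ
  · exact hγ
  · exact h1 δ hδ

lemma Gen.mono {X : Type u} {f : X → X → X} {J Γ J' Γ' : Set X} (hJ : J ⊆ J') (hΓ : Γ ⊆ Γ') :
    Gen f J Γ ⊆ Gen f J' Γ' := by
  rintro x ⟨l, h1, z, hz, rfl⟩
  exact ⟨l, fun γ hγ => hΓ (h1 γ hγ), z, hJ hz, rfl⟩

lemma mk_Gen_le {X : Type u} (f : X → X → X) {J Γ : Set X} {θ : Cardinal.{u}} (hθ : ℵ₀ ≤ θ)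
    (hJ : #J ≤ θ) (hΓ : #Γ ≤ θ) : #(Gen f J Γ) ≤ θ := by
  have h1 : Gen f J Γ ⊆ range (fun z : List Γ × J => (z.1.map Subtype.val).foldr f z.2.1) := by
    rintro x ⟨l, h1, z, hz, rfl⟩
    lift l to List Γ using h1
    exact ⟨(l, ⟨z, hz⟩), rfl⟩
  refine (mk_le_mk_of_subset h1).trans (mk_range_le.trans ?_)
  rw [mk_prod, lift_id, lift_id]
  exact mul_le_of_le hθ ((mk_list_le_max _).trans (max_le hθ hΓ)) hJ

/-- At most `κ` sets of size at most `ν` cover all subsets of `Q` of size at most `ν`. -/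
def Cv (ν κ : Cardinal.{u}) {X : Type u} (Q : Set X) : Prop :=
  ∃ C : Set (Set X), #C ≤ κ ∧ (∀ p ∈ C, #p ≤ ν) ∧ ∀ A ⊆ Q, #A ≤ ν → ∃ p ∈ C, A ⊆ p

lemma Cv.of_card {ν κ : Cardinal.{u}} {X X' : Type u} {Q : Set X} {Q' : Set X'} (h : Cv ν κ Q)
    (hle : #Q' ≤ #Q) : Cv ν κ Q' := by
  obtain ⟨e⟩ := hle
  obtain ⟨C, h1, h2, h3⟩ := h
  have hinj : Function.Injective (fun x : Q' => (e x).1) :=
    fun x y hxy => e.injective (Subtype.ext hxy)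
  refine ⟨(fun p => Subtype.val '' ((fun x : Q' => (e x).1) ⁻¹' p)) '' C, mk_image_le.trans h1,
    ?_, fun A hA hAν => ?_⟩
  · rintro _ ⟨p, hp, rfl⟩
    exact mk_image_le.trans ((mk_preimage_of_injective _ _ hinj).trans (h2 p hp))
  · obtain ⟨p, hp, hsub⟩ := h3 ((fun x : Q' => (e x).1) '' (Subtype.val ⁻¹' A))
      (by rintro _ ⟨x, -, rfl⟩; exact (e x).2)
      (mk_image_le.trans ((mk_preimage_of_injective _ _ Subtype.val_injective).trans hAν))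
    exact ⟨_, ⟨p, hp, rfl⟩, fun x hx => ⟨⟨x, hA hx⟩, hsub ⟨⟨x, hA hx⟩, hx, rfl⟩, rfl⟩⟩

/-- Every strategy `G` can be followed along a chain of length `ν⁺` of subsets of members of a
family of at most `κ` sets of size at most `ν`. -/
def Thr (ν κ : Cardinal.{u}) (X : Type u) : Prop :=
  ∃ C : Set (Set X), #C ≤ κ ∧ (∀ q ∈ C, #q ≤ ν) ∧ ∀ G : Set (Set X) → X,
    ∃ (I : Type u) (_ : LinearOrder I) (e : I → Set X), ν < #I ∧ #I ≤ Order.succ ν ∧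
      (∀ i : I, #(Iio i) ≤ ν) ∧ Monotone e ∧ ∀ i, ∃ P : Set (Set X), e i ∈ P ∧ #P ≤ ν ∧
        (∀ p ∈ P, ∃ q ∈ C, p ⊆ q) ∧ ∃ i', G P ∈ e i'

lemma exists_codes {X : Type u} [LinearOrder X] [WellFoundedLT X] :
    ∃ f g : X → X → X, ∀ γ, ∀ x < γ, #(Iio (g γ x)) < #(Iio γ) ∧ f γ (g γ x) = x := by
  classical
  have : ∀ γ : X, ∃ f g : X → X, ∀ x < γ, #(Iio (g x)) < #(Iio γ) ∧ f (g x) = x := by
    intro γ
    obtain ⟨e⟩ := le_mk_low (univ : Set X) (θ := #(Iio γ)) (by simpa using mk_set_le _)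
    refine ⟨fun y => if h : ∃ x : Iio γ, (e x).1 = y then h.choose.1 else y,
      fun x => if h : x < γ then (e ⟨x, h⟩).1 else x, fun x hx => ?_⟩
    simp only [dif_pos hx]
    refine ⟨by simpa using (e ⟨x, hx⟩).2.2, ?_⟩
    have h : ∃ z : Iio γ, (e z).1 = (e ⟨x, hx⟩).1 := ⟨_, rfl⟩
    rw [dif_pos h]
    exact congrArg Subtype.val (e.injective (Subtype.ext h.choose_spec))
  choose f g h using this
  exact ⟨f, g, h⟩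

theorem thr_core {X Y : Type u} [ConditionallyCompleteLinearOrderBot X] [WellFoundedLT X]
    [ConditionallyCompleteLinearOrderBot Y] [WellFoundedLT Y] {ν κ θ σ : Cardinal.{u}}
    (hν : ℵ₀ ≤ ν) (hθ : Order.succ (Order.succ ν) ≤ θ) (hθσ : θ ≤ σ) (hY : #Y ≤ σ)
    (hI : ∀ y : Y, #(Iio y) ≤ θ) (hYb : ∀ R : Set Y, #R ≤ θ → ∃ v, ∀ x ∈ R, x < v)
    (hX : #X ≤ κ) (hνκ : ν ≤ κ) {J₁ J₂ : Type u} (hJ₁ : #J₁ ≤ ν) (hJ₂ : #J₂ ≤ ν)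
    (a : J₁ → Cardinal.{u}) (b : J₂ → Cardinal.{u}) (ha : ∀ j, σ ≤ a j ∧ a j < #X)
    (hb : ∀ j, σ ≤ b j ∧ Cv ν κ (univ : Set (b j).out))
    (hab : ∀ x : X, (∃ j, #(Iio x) < b j) ∨ ∃ j, #(Iio x) = a j) : Thr ν κ X := by
  classical
  have hνθ : ν ≤ θ := ((Order.le_succ _).trans (Order.le_succ _)).trans hθ
  have hθ0 : ℵ₀ ≤ θ := hν.trans hνθ
  have hσ0 : ℵ₀ ≤ σ := hθ0.trans hθσ
  have hκ0 : ℵ₀ ≤ κ := hν.trans hνκ
  obtain ⟨GG, hG1, hG2, hG3⟩ := club_guessing hν hθ hI hYb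
  obtain ⟨dec, enc, hcode⟩ := exists_codes (X := X)
  have hD : ∀ γ : X, ∃ D : Set X, #D ≤ σ ∧ ((∃ D' : Set X, #D' ≤ σ ∧ D' ⊆ Iio γ ∧
      ∀ x < γ, ∃ d ∈ D', x ≤ d) → D ⊆ Iio γ ∧ ∀ x < γ, ∃ d ∈ D, x ≤ d) := by
    intro γ
    by_cases h : ∃ D' : Set X, #D' ≤ σ ∧ D' ⊆ Iio γ ∧ ∀ x < γ, ∃ d ∈ D', x ≤ d
    · obtain ⟨D', h1, h2⟩ := h
      exact ⟨D', h1, fun _ => h2⟩
    · exact ⟨∅, by simp, fun h' => absurd h' h⟩
  choose D hD1 hD2 using hD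
  let Db : X → Set X := fun γ => (fun d => sSup (D γ ∩ Iio d)) '' D γ
  let Jb : J₂ → Set X := fun j => {y | #(Iio y) < b j}
  have hJb : ∀ j, #(Jb j) ≤ b j := fun j => by
    simpa using mk_low_le (univ : Set X) (b j)
  let Q : Finset X × J₂ → Set X := fun z => Gen dec (Jb z.2) (⋃ γ : z.1, Db γ.1)
  have hQ : ∀ z, Cv ν κ (Q z) := by
    intro z
    refine (hb z.2).2.of_card ?_
    rw [mk_univ, mk_out]
    refine mk_Gen_le _ (hσ0.trans (hb _).1) (hJb _) (le_trans ?_ (hb _).1)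
    exact iUnion_le hσ0 _ ((lt_aleph0_of_finite _).le.trans hσ0)
      (fun γ => mk_image_le.trans (hD1 _))
  choose C hC1 hC2 hC3 using hQ
  refine ⟨⋃ z, C z, iUnion_le hκ0 _ ?_ hC1, ?_, fun G => ?_⟩
  · rw [mk_prod, lift_id, lift_id]
    exact mul_le_of_le hκ0 (mk_finset_le hκ0 hX) (hJ₂.trans hνκ)
  · intro q hq
    obtain ⟨z, hz⟩ := mem_iUnion.mp hq
    exact hC2 z q hz
  obtain ⟨s, hs⟩ := rec_exists (Y := Y) (St := (J₁ → X) × (GG → X) × (J₁ → X))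
    (fun ζ ih st => (∀ j, st.1 j = sSup {z | ∃ ξ, ∃ h : ξ < ζ, (ih ξ h).2.2 j = z}) ∧
      (∀ c : GG, st.2.1 c = G (range (fun t : Finset J₁ × J₂ =>
        {z | (∃ ξ ∈ c.1, ∃ h : ξ < ζ, (ih ξ h).2.1 c = z) ∧ z ∈ Gen dec (Jb t.2)
          {γ | ∃ ξ ∈ c.1, ∃ h : ξ < ζ, ∃ j ∈ t.1, (ih ξ h).1 j = γ}}))) ∧
      ∀ j, #(Iio (st.2.2 j)) ≤ a j ∧ ∀ z ∈ Gen enc
        ((range st.2.1 ∪ ⋃ ξ : Iio ζ, range (ih ξ.1 ξ.2).2.1) ∪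
          (range st.1 ∪ ⋃ ξ : Iio ζ, range (ih ξ.1 ξ.2).1))
        (range st.1 ∪ ⋃ ξ : Iio ζ, range (ih ξ.1 ξ.2).1), #(Iio z) ≤ a j → z < st.2.2 j) (by
      intro ζ ih
      have key : ∀ (w : J₁ → X) (x : GG → X), ∃ v : J₁ → X, ∀ j, #(Iio (v j)) ≤ a j ∧
          ∀ z ∈ Gen enc ((range x ∪ ⋃ ξ : Iio ζ, range (ih ξ.1 ξ.2).2.1) ∪
            (range w ∪ ⋃ ξ : Iio ζ, range (ih ξ.1 ξ.2).1))
            (range w ∪ ⋃ ξ : Iio ζ, range (ih ξ.1 ξ.2).1), #(Iio z) ≤ a j → z < v j := by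
        intro w x
        have h1 : #(range w ∪ ⋃ ξ : Iio ζ, range (ih ξ.1 ξ.2).1 : Set X) ≤ σ :=
          (mk_union_le _ _).trans (add_le_of_le hσ0 (mk_range_le.trans (hJ₁.trans (hνθ.trans hθσ)))
            (iUnion_le hσ0 _ ((hI ζ).trans hθσ)
              (fun _ => mk_range_le.trans (hJ₁.trans (hνθ.trans hθσ)))))
        have h2 : #(range x ∪ ⋃ ξ : Iio ζ, range (ih ξ.1 ξ.2).2.1 : Set X) ≤ σ :=
          (mk_union_le _ _).trans (add_le_of_le hσ0 (mk_range_le.trans (hG1.trans hY))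
            (iUnion_le hσ0 _ ((hI ζ).trans hθσ) (fun _ => mk_range_le.trans (hG1.trans hY))))
        have h3 := mk_Gen_le enc hσ0 ((mk_union_le _ _).trans (add_le_of_le hσ0 h2 h1)) h1
        have h4 := fun j => exists_strict_bound (hσ0.trans (ha j).1) (ha j).2
          (_ ∩ {z | #(Iio z) ≤ a j}) ((mk_le_mk_of_subset inter_subset_left).trans
            (h3.trans (ha j).1)) (fun z hz => hz.2)
        choose v hv1 hv2 using h4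
        exact ⟨v, fun j => ⟨hv1 j, fun z hz hz' => hv2 j z ⟨hz, hz'⟩⟩⟩
      obtain ⟨v, hv⟩ := key _ _
      exact ⟨(_, _, v), fun j => rfl, fun c => rfl, hv⟩)
  let w : Y → J₁ → X := fun ζ => (s ζ).1
  let x : Y → GG → X := fun ζ => (s ζ).2.1
  let v : Y → J₁ → X := fun ζ => (s ζ).2.2
  have hw : ∀ ζ j, w ζ j = sSup {z | ∃ ξ, ∃ _ : ξ < ζ, v ξ j = z} := fun ζ => (hs ζ).1
  let e : GG → Finset J₁ × J₂ → Y → Set X := fun c t ζ =>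
    {z | (∃ ξ ∈ c.1, ∃ _ : ξ < ζ, x ξ c = z) ∧ z ∈ Gen dec (Jb t.2)
      {γ | ∃ ξ ∈ c.1, ∃ _ : ξ < ζ, ∃ j ∈ t.1, w ξ j = γ}}
  have hx : ∀ ζ c, x ζ c = G (range (fun t => e c t ζ)) := fun ζ => (hs ζ).2.1
  let Γ : Y → Set X := fun ζ => {γ | ∃ ξ ≤ ζ, ∃ j, w ξ j = γ}
  let R : Y → Set X := fun ζ => Gen enc ({z | ∃ ξ ≤ ζ, ∃ c, x ξ c = z} ∪ Γ ζ) (Γ ζ)
  have hv1 : ∀ ζ j, #(Iio (v ζ j)) ≤ a j := fun ζ j => ((hs ζ).2.2 j).1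
  have hv2 : ∀ ζ j, ∀ z ∈ R ζ, #(Iio z) ≤ a j → z < v ζ j := by
    intro ζ j z hz
    have hΓ : Γ ζ ⊆ range (s ζ).1 ∪ ⋃ ξ : Iio ζ, range (s ξ.1).1 := by
      rintro _ ⟨ξ, hξ, j, rfl⟩
      rcases hξ.eq_or_lt with rfl | hξ
      · exact Or.inl ⟨j, rfl⟩
      · exact Or.inr (mem_iUnion.mpr ⟨⟨ξ, hξ⟩, j, rfl⟩)
    refine ((hs ζ).2.2 j).2 z (Gen.mono (union_subset_union ?_ hΓ) hΓ hz)
    rintro _ ⟨ξ, hξ, c, rfl⟩
    rcases hξ.eq_or_lt with rfl | hξ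
    · exact Or.inl ⟨c, rfl⟩
    · exact Or.inr (mem_iUnion.mpr ⟨⟨ξ, hξ⟩, c, rfl⟩)
  have hRmono : ∀ {ζ ζ'}, ζ ≤ ζ' → R ζ ⊆ R ζ' := by
    intro ζ ζ' h
    have hΓ : Γ ζ ⊆ Γ ζ' := fun γ ⟨ξ, hξ, hγ⟩ => ⟨ξ, hξ.trans h, hγ⟩
    exact Gen.mono (union_subset_union (fun γ ⟨ξ, hξ, hγ⟩ => ⟨ξ, hξ.trans h, hγ⟩) hΓ) hΓ
  have htop : ∀ j, ∃ T, #(Iio T) ≤ a j ∧ ∀ ξ, v ξ j < T := by
    intro j
    obtain ⟨T, h1, h2⟩ := exists_strict_bound (hσ0.trans (ha j).1) (ha j).2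
      (range (fun ξ => v ξ j)) (mk_range_le.trans (hY.trans (ha j).1))
      (by rintro _ ⟨ξ, rfl⟩; exact hv1 ξ j)
    exact ⟨T, h1, fun ξ => h2 _ ⟨ξ, rfl⟩⟩
  choose T hT1 hT2 using htop
  have hwI : ∀ ζ j, #(Iio (w ζ j)) ≤ a j := by
    intro ζ j
    refine le_trans (mk_le_mk_of_subset (Iio_subset_Iio ?_)) (hT1 j)
    rw [hw]
    refine csSup_le' ?_
    rintro _ ⟨ξ, _, rfl⟩
    exact (hT2 j ξ).le
  have hvw : ∀ {ξ ζ} j, ξ < ζ → v ξ j ≤ w ζ j := by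
    intro ξ ζ j h
    rw [hw]
    refine le_csSup ⟨T j, ?_⟩ ⟨ξ, h, rfl⟩
    rintro _ ⟨ξ, _, rfl⟩
    exact (hT2 j ξ).le
  have hwv : ∀ ζ j, w ζ j < v ζ j := fun ζ j =>
    hv2 ζ j _ (Gen.base (Or.inr ⟨ζ, le_rfl, j, rfl⟩)) (hwI ζ j)
  have hnm : ∀ ξ : Y, ∃ ζ, ξ < ζ := fun ξ => by
    obtain ⟨ζ, hζ⟩ := hYb {ξ} (by simpa using one_le_aleph0.trans hθ0)
    exact ⟨ζ, hζ ξ rfl⟩
  let γs : J₁ → X := fun j => sSup (range (fun ξ => v ξ j))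
  have hbd : ∀ j, BddAbove (range (fun ξ => v ξ j)) := fun j =>
    ⟨T j, by rintro _ ⟨ξ, rfl⟩; exact (hT2 j ξ).le⟩
  have hvγ : ∀ ξ j, v ξ j < γs j := by
    intro ξ j
    obtain ⟨ζ, hζ⟩ := hnm ξ
    exact ((hvw j hζ).trans_lt (hwv ζ j)).trans_le (le_csSup (hbd j) ⟨ζ, rfl⟩)
  have hDγ : ∀ j, D (γs j) ⊆ Iio (γs j) ∧ ∀ z < γs j, ∃ d ∈ D (γs j), z ≤ d := by
    intro j
    refine hD2 _ ⟨range (fun ξ => v ξ j), mk_range_le.trans hY, ?_, fun z hz => ?_⟩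
    · rintro _ ⟨ξ, rfl⟩
      exact hvγ ξ j
    · obtain ⟨d, hd, hlt⟩ := (lt_csSup_iff' (hbd j)).mp hz
      exact ⟨d, hd, hlt.le⟩
  have hh : ∀ ξ, ∃ ζ, ∀ j, ∃ ξ' < ζ, ∃ d ∈ D (γs j), v ξ j ≤ d ∧ d < v ξ' j := by
    intro ξ
    have : ∀ j, ∃ ξ', ∃ d ∈ D (γs j), v ξ j ≤ d ∧ d < v ξ' j := by
      intro j
      obtain ⟨d, hd, hle⟩ := (hDγ j).2 _ (hvγ ξ j)
      obtain ⟨_, ⟨ξ', rfl⟩, hlt⟩ := (lt_csSup_iff' (hbd j)).mp ((hDγ j).1 hd)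
      exact ⟨ξ', d, hd, hle, hlt⟩
    choose k hk using this
    obtain ⟨ζ, hζ⟩ := hYb (range k) (mk_range_le.trans (hJ₁.trans hνθ))
    exact ⟨ζ, fun j => ⟨k j, hζ _ ⟨j, rfl⟩, hk j⟩⟩
  choose h hh using hh
  obtain ⟨c, hc, hcl⟩ := hG3 h
  have hwD : ∀ ζ ∈ c, ∀ j, w ζ j ∈ Db (γs j) := by
    intro ζ hζ j
    have hne : {d | d ∈ D (γs j) ∧ w ζ j ≤ d}.Nonempty :=
      (hDγ j).2 _ ((hwv ζ j).trans (hvγ ζ j))
    have h1 := (wellFounded_lt (α := X)).min_mem _ hne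
    refine ⟨_, h1.1, le_antisymm (csSup_le' (fun d hd => ?_)) ?_⟩
    · by_contra hcon
      exact (wellFounded_lt (α := X)).not_lt_min _
        (show d ∈ {d | d ∈ D (γs j) ∧ w ζ j ≤ d} from ⟨hd.1, (not_le.mp hcon).le⟩) hd.2
    · conv_lhs => rw [hw]
      refine csSup_le' ?_
      rintro _ ⟨ξ, hξ, rfl⟩
      obtain ⟨ξ', h2, d, hd, h3, h4⟩ := hh ξ j
      refine h3.trans (le_csSup ⟨_, fun _ hy => (mem_Iio.mp hy.2).le⟩ ⟨hd, ?_⟩)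
      exact (h4.trans_le (hvw j (h2.trans (hcl hζ ξ hξ)))).trans_le h1.2
  have hcs : ∀ ζ ∈ c, #(c ∩ Iic ζ : Set Y) < Order.succ ν := fun ζ hζ =>
    mk_inter_Iic_lt (hν.trans (Order.le_succ _)) (Order.lt_succ_of_le ((hG2 c hc).2 ζ hζ))
  have hcn : ∀ (E : Set Y), E ⊆ c → ν < #E → ∀ ζ ∈ c, ∃ ζ' ∈ E, ζ < ζ' := by
    intro E hE hν' ζ hζ
    by_contra hcon
    push Not at hcon
    refine absurd (lt_of_le_of_lt (mk_le_mk_of_subset ?_) (hcs ζ hζ))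
      (not_lt.mpr (Order.succ_le_of_lt hν'))
    exact fun y hy => ⟨hE hy, hcon y hy⟩
  have hcν : ν < #c := by rw [(hG2 c hc).1]; exact Order.lt_succ _
  have hdesc : ∀ (ρ : Cardinal.{u}) (y : X), #(Iio y) = ρ → ∀ ζ ∈ c, y ∈ R ζ →
      ∃ t : Finset J₁ × J₂, ∃ ζ' ∈ c, y ∈ Gen dec (Jb t.2)
        {γ | ∃ ξ ∈ c, ∃ _ : ξ < ζ', ∃ j ∈ t.1, w ξ j = γ} := by
    intro ρ
    induction ρ using WellFoundedLT.induction with
    | ind ρ ih =>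
      intro y hy ζ hζ hR
      rcases hab y with ⟨j, hj⟩ | ⟨j, hj⟩
      · exact ⟨(∅, j), ζ, hζ, Gen.base hj⟩
      · obtain ⟨ζ₁, hζ₁, hlt⟩ := hcn c subset_rfl hcν ζ hζ
        have h1 : y < w ζ₁ j := (hv2 ζ j y hR hj.le).trans_le (hvw j hlt)
        obtain ⟨h2, h3⟩ := hcode _ y h1
        obtain ⟨t, ζ', hζ', h4⟩ := ih _ (hy ▸ hj ▸ h2.trans_le (hwI ζ₁ j)) _ rfl ζ₁ hζ₁
          (Gen.step ⟨ζ₁, le_rfl, j, rfl⟩ (hRmono hlt.le hR))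
        obtain ⟨ζ₂, hζ₂, hlt₂⟩ := hcn c subset_rfl hcν (max ζ₁ ζ')
          (by rcases max_choice ζ₁ ζ' with h | h <;> rw [h] <;> assumption)
        refine ⟨(insert j t.1, t.2), ζ₂, hζ₂, ?_⟩
        rw [← h3]
        refine Gen.step ⟨ζ₁, hζ₁, (le_max_left _ _).trans_lt hlt₂, j, Finset.mem_insert_self _ _,
          rfl⟩ (Gen.mono subset_rfl ?_ h4)
        rintro _ ⟨ξ, hξ, h5, k, hk, rfl⟩
        exact ⟨ξ, hξ, h5.trans ((le_max_right _ _).trans_lt hlt₂), k, Finset.mem_insert_of_mem hk,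
          rfl⟩
  have hth : ∀ ζ : c, ∃ t : Finset J₁ × J₂, ∃ ζ' ∈ c, x ζ.1 ⟨c, hc⟩ ∈ Gen dec (Jb t.2)
      {γ | ∃ ξ ∈ c, ∃ _ : ξ < ζ', ∃ j ∈ t.1, w ξ j = γ} := fun ζ =>
    hdesc _ _ rfl ζ.1 ζ.2 (Gen.base (Or.inl ⟨ζ.1, le_rfl, _, rfl⟩))
  choose th hth using hth
  have hTν : #(Finset J₁ × J₂) ≤ ν := by
    rw [mk_prod, lift_id, lift_id]
    exact mul_le_of_le hν (mk_finset_le hν hJ₁) hJ₂
  obtain ⟨t, ht⟩ := infinite_pigeonhole_card th (Order.succ ν) (hG2 c hc).1.ge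
    (hν.trans (Order.le_succ _))
    (by rw [(isRegular_succ hν).cof_ord]; exact Order.lt_succ_of_le hTν)
  let E : Set Y := Subtype.val '' (th ⁻¹' {t})
  have hEc : E ⊆ c := by rintro _ ⟨ζ, -, rfl⟩; exact ζ.2
  have hEν : ν < #E := by
    rw [mk_image_eq Subtype.val_injective]
    exact (Order.lt_succ _).trans_le ht
  refine ⟨E, inferInstance, fun i => e ⟨c, hc⟩ t i.1, hEν,
    (mk_le_mk_of_subset hEc).trans (hG2 c hc).1.le, fun i => ?_, ?_, fun i => ?_⟩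
  · refine le_trans ?_ ((hG2 c hc).2 i.1 (hEc i.2))
    apply mk_le_of_injective (f := fun k : Iio i => (⟨k.1.1, hEc k.1.2, k.2⟩ : (c ∩ Iio i.1 : Set Y)))
    intro k l hkl
    exact Subtype.ext (Subtype.ext (congrArg (fun z : (c ∩ Iio i.1 : Set Y) => z.1) hkl))
  · rintro i i' hii' z ⟨⟨ξ, hξ, h1, h2⟩, h3⟩
    refine ⟨⟨ξ, hξ, h1.trans_le hii', h2⟩, Gen.mono subset_rfl ?_ h3⟩
    rintro _ ⟨ξ, hξ, h5, k, hk, rfl⟩
    exact ⟨ξ, hξ, h5.trans_le hii', k, hk, rfl⟩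
  · refine ⟨range (fun t' => e ⟨c, hc⟩ t' i.1), ⟨t, rfl⟩, mk_range_le.trans hTν, ?_, ?_⟩
    · rintro _ ⟨t', rfl⟩
      obtain ⟨q, hq, hsub⟩ := hC3 (t'.1.image γs, t'.2) (e ⟨c, hc⟩ t' i.1) (by
        refine fun z hz => Gen.mono subset_rfl ?_ hz.2
        rintro _ ⟨ξ, hξ, -, k, hk, rfl⟩
        exact mem_iUnion.mpr ⟨⟨γs k, Finset.mem_image_of_mem _ hk⟩, hwD ξ hξ k⟩) (by
        refine le_trans (mk_le_mk_of_subset (t := (fun ξ => x ξ ⟨c, hc⟩) '' (c ∩ Iio i.1)) ?_)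
          (mk_image_le.trans ((hG2 c hc).2 i.1 (hEc i.2)))
        rintro z ⟨⟨ξ, hξ, h1, h2⟩, -⟩
        exact ⟨ξ, ⟨hξ, h1⟩, h2⟩)
      exact ⟨q, mem_iUnion.mpr ⟨_, hq⟩, hsub⟩
    · obtain ⟨_, ζ, hζ, rfl⟩ := i
      obtain ⟨ζ', hζ', h1⟩ := hth ζ
      rw [mem_preimage, mem_singleton_iff] at hζ
      rw [hζ] at h1
      obtain ⟨ζ₂, hζ₂, hlt₂⟩ := hcn E hEc hEν (max ζ.1 ζ')
        (by rcases max_choice ζ.1 ζ' with h | h <;> rw [h] <;> first | exact ζ.2 | exact hζ')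
      refine ⟨⟨ζ₂, hζ₂⟩, ?_⟩
      rw [← hx]
      refine ⟨⟨ζ.1, ζ.2, (le_max_left _ _).trans_lt hlt₂, rfl⟩, Gen.mono subset_rfl ?_ h1⟩
      rintro _ ⟨ξ, hξ, h5, k, hk, rfl⟩
      exact ⟨ξ, hξ, h5.trans ((le_max_right _ _).trans_lt hlt₂), k, hk, rfl⟩

theorem thr_of {ν κ : Cardinal.{u}} (hν : ℵ₀ ≤ ν) (hνκ : ν ≤ κ) {J₁ J₂ : Type u} (hJ₁ : #J₁ ≤ ν)
    (hJ₂ : #J₂ ≤ ν) (a : J₁ → Cardinal.{u}) (b : J₂ → Cardinal.{u})
    (ha : ∀ j, Order.succ (Order.succ (Order.succ ν)) ≤ a j ∧ a j < κ)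
    (hb : ∀ j, Order.succ (Order.succ (Order.succ ν)) ≤ b j ∧ Cv ν κ (univ : Set (b j).out))
    (hab : ∀ ρ < κ, (∃ j, ρ < b j) ∨ ∃ j, ρ = a j) : Thr ν κ κ.ord.ToType := by
  have h2 : ℵ₀ ≤ Order.succ (Order.succ ν) := hν.trans ((Order.le_succ _).trans (Order.le_succ _))
  have hX : Nonempty κ.ord.ToType := by
    rw [Ordinal.nonempty_toType_iff]
    simpa using (aleph0_pos.trans_le (hν.trans hνκ)).ne'
  have hY : Nonempty (Order.succ (Order.succ (Order.succ ν))).ord.ToType := by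
    rw [Ordinal.nonempty_toType_iff]
    simp
  let := WellFoundedLT.toOrderBot κ.ord.ToType
  let := WellFoundedLT.conditionallyCompleteLinearOrderBot κ.ord.ToType
  let := WellFoundedLT.toOrderBot (Order.succ (Order.succ (Order.succ ν))).ord.ToType
  let := WellFoundedLT.conditionallyCompleteLinearOrderBot
    (Order.succ (Order.succ (Order.succ ν))).ord.ToType
  exact thr_core (Y := (Order.succ (Order.succ (Order.succ ν))).ord.ToType)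
    (θ := Order.succ (Order.succ ν)) (σ := Order.succ (Order.succ (Order.succ ν))) hν le_rfl
    (Order.le_succ _) (by simp) (fun y => Order.le_of_lt_succ (mk_Iio_ord y)) (succ_bound h2)
    (by simp) hνκ hJ₁ hJ₂ a b (by simpa using ha) hb (fun x => hab _ (mk_Iio_ord x))

end Pool.Agent.Lib.MP_856180_lc
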