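import Mathlib
import Pool.Agent.Lib.MP_856180_lc.Threads

/-!
Closed sets of binary functions, their lexicographic minima, and the bound `2 ^ ν ≤ κ`.
-/

set_option autoImplicit false

namespace Pool.Agent.Lib.MP_856180_lc

open Cardinal Set Pool.Agent.Shared.RevisedGCH

universe u

section Lex

variable {N : Type u} [LinearOrder N]

/-- `m` is lexicographically below `z`, with first difference at `k`. -/
def LexAt (m z : N → Bool) (k : N) : Prop := (∀ ξ < k, m ξ = z ξ) ∧ m k = false ∧ z k = true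

/-- `m` is the lexicographically least element of `K`. -/
def LMin (m : N → Bool) (K : Set (N → Bool)) : Prop := m ∈ K ∧ ∀ z ∈ K, z ≠ m → ∃ k, LexAt m z k

lemma LexAt.asymm {m z : N → Bool} {k k' : N} (h : LexAt m z k) (h' : LexAt z m k') : False := by
  rcases lt_trichotomy k k' with hk | rfl | hk
  · have := h'.1 k hk
    rw [h.2.1, h.2.2] at this
    exact Bool.noConfusion this
  · exact Bool.noConfusion (h.2.1.symm.trans h'.2.2)
  · have := h.1 k' hk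
    rw [h'.2.1, h'.2.2] at this
    exact Bool.noConfusion this

lemma LMin.unique {m m' : N → Bool} {K : Set (N → Bool)} (h : LMin m K) (h' : LMin m' K) :
    m = m' := by
  by_contra hne
  obtain ⟨k, hk⟩ := h.2 m' h'.1 (Ne.symm hne)
  obtain ⟨k', hk'⟩ := h'.2 m h.1 hne
  exact hk.asymm hk'

variable [WellFoundedLT N]

lemma lex_total {m z : N → Bool} (h : m ≠ z) : (∃ k, LexAt m z k) ∨ ∃ k, LexAt z m k := by
  have hne : {k | m k ≠ z k}.Nonempty := Function.ne_iff.mp h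
  have h1 := (wellFounded_lt (α := N)).min_mem _ hne
  have h2 : ∀ ξ < (wellFounded_lt (α := N)).min _ hne, m ξ = z ξ := by
    intro ξ hξ
    by_contra hcon
    exact (wellFounded_lt (α := N)).not_lt_min _ (show ξ ∈ {k | m k ≠ z k} from hcon) hξ
  generalize (wellFounded_lt (α := N)).min _ hne = k at h1 h2
  have h3 : m k ≠ z k := h1
  cases hm : m k <;> cases hz : z k
  · exact absurd (hm.trans hz.symm) h3
  · exact Or.inl ⟨k, h2, hm, hz⟩
  · exact Or.inr ⟨k, fun ξ hξ => (h2 ξ hξ).symm, hz, hm⟩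
  · exact absurd (hm.trans hz.symm) h3

lemma exists_lmin {K : Set (N → Bool)} (hK : IsClosed K) (hne : K.Nonempty) : ∃ m, LMin m K := by
  let F : Set (Set (N → Bool)) := {L | L ⊆ K ∧ IsClosed L ∧ L.Nonempty ∧
    ∀ z ∈ L, ∀ y ∈ K, (∃ k, LexAt y z k) → y ∈ L}
  have hKF : K ∈ F := ⟨subset_rfl, hK, hne, fun _ _ _ hy _ => hy⟩
  have : Nonempty F := ⟨⟨K, hKF⟩⟩
  have hdir : DirectedOn (· ⊇ ·) F := by
    intro L hL L' hL'
    by_cases h : L ⊆ L'
    · exact ⟨L, hL, subset_rfl, h⟩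
    · obtain ⟨z, hz, hz'⟩ := not_subset.mp h
      refine ⟨L', hL', fun y hy => ?_, subset_rfl⟩
      rcases lex_total (m := y) (z := z) (fun h' => hz' (h' ▸ hy)) with h' | h'
      · exact hL.2.2.2 z hz y (hL'.1 hy) h'
      · exact absurd (hL'.2.2.2 y hy z (hL.1 hz) h') hz'
  obtain ⟨m, hm⟩ := IsCompact.nonempty_sInter_of_directed_nonempty_isCompact_isClosed hdir
    (fun L hL => hL.2.2.1) (fun L hL => hL.2.1.isCompact) (fun L hL => hL.2.1)
  have hin : ∀ z ∈ ⋂₀ F, ∀ y ∈ K, (∃ k, LexAt y z k) → y ∈ ⋂₀ F :=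
    fun z hz y hy h L hL => hL.2.2.2 z (hz L hL) y hy h
  refine ⟨m, hm K hKF, fun z hz hzm => ?_⟩
  rcases lex_total (Ne.symm hzm) with h | h
  · exact h
  exfalso
  have hne' : {k | ∃ y ∈ ⋂₀ F, ∃ y' ∈ ⋂₀ F, y k = false ∧ y' k = true}.Nonempty := by
    obtain ⟨k, hk⟩ := h
    exact ⟨k, z, hin m hm z hz ⟨k, hk⟩, m, hm, hk.2⟩
  have h1 := (wellFounded_lt (α := N)).min_mem _ hne'
  have h2 : ∀ ξ ∈ {k | ∃ y ∈ ⋂₀ F, ∃ y' ∈ ⋂₀ F, y k = false ∧ y' k = true},
      ¬ ξ < (wellFounded_lt (α := N)).min _ hne' :=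
    fun ξ hξ => (wellFounded_lt (α := N)).not_lt_min _ hξ
  generalize (wellFounded_lt (α := N)).min _ hne' = k at h1 h2
  obtain ⟨y, hy, y', hy', h3, h4⟩ := h1
  have h5 : (⋂₀ F ∩ {t | t k = false}) ∈ F := by
    refine ⟨fun t ht => ht.1 K hKF, (isClosed_sInter (fun L hL => hL.2.1)).inter
      (isClosed_eq (continuous_apply k) continuous_const), ⟨y, hy, h3⟩, ?_⟩
    rintro t ⟨ht, ht'⟩ t' ht'K ⟨k', hk'⟩
    have h6 := hin t ht t' ht'K ⟨k', hk'⟩
    refine ⟨h6, ?_⟩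
    rcases lt_trichotomy k' k with hlt | rfl | hlt
    · exact absurd hlt (h2 k' ⟨t', h6, t, ht, hk'.2⟩)
    · exact hk'.2.1
    · exact (hk'.1 k hlt).trans ht'
  exact Bool.noConfusion ((hy' _ h5).2.symm.trans h4)

end Lex

section Closure

variable {N W : Type u} [LinearOrder W]

/-- The points approximable by values `r β`, `β ∈ A`, at points `β` that finitely many tests from
`E` do not distinguish from `α`. -/
def Kset (r : W → N → Bool) (A : Set W) (E : Set ((W → Finset N) × W)) (α : W) :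
    Set (N → Bool) :=
  {z | ∀ a : Finset ((W → Finset N) × W), ↑a ⊆ E → ∀ u : Finset N,
    ∃ β ∈ A, (∀ y ∈ a, y.1 β = y.1 α ∧ y.2 ≤ β) ∧ ∀ ξ ∈ u, r β ξ = z ξ}

lemma isClosed_Kset (r : W → N → Bool) (A : Set W) (E : Set ((W → Finset N) × W)) (α : W) :
    IsClosed (Kset r A E α) := by
  simp only [Kset, ofPred_forall]
  refine isClosed_iInter (fun a => isClosed_iInter (fun _ => isClosed_iInter (fun u => ?_)))
  have h1 : Continuous (fun (z : N → Bool) (ξ : u) => z ξ) :=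
    continuous_pi (fun ξ => continuous_apply _)
  have h2 := (isClosed_discrete {t : u → Bool | ∃ β ∈ A, (∀ y ∈ a, y.1 β = y.1 α ∧ y.2 ≤ β) ∧
    ∀ ξ : u, r β ξ = t ξ}).preimage h1
  convert h2 using 1
  ext z
  simp

lemma Kset_anti (r : W → N → Bool) (A : Set W) {E E' : Set ((W → Finset N) × W)} (h : E ⊆ E')
    (α : W) : Kset r A E' α ⊆ Kset r A E α := fun _ hz a ha => hz a (ha.trans h)

lemma Kset_congr {r r' : W → N → Bool} {A : Set W} (h : ∀ β ∈ A, r β = r' β)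
    (E : Set ((W → Finset N) × W)) (α : W) : Kset r A E α = Kset r' A E α := by
  ext z
  refine forall₃_congr (fun a _ u => exists_congr (fun β => and_congr_right (fun hβ => ?_)))
  rw [h β hβ]

lemma self_mem_Kset (r : W → N → Bool) {E : Set ((W → Finset N) × W)} {α : W}
    (h : ∀ y ∈ E, y.2 ≤ α) : r α ∈ Kset r univ E α :=
  fun _ ha _ => ⟨α, mem_univ _, fun y hy => ⟨rfl, h y (ha hy)⟩, fun _ _ => rfl⟩

lemma Kset_stable {ν : Cardinal.{u}} (hν : ℵ₀ ≤ ν) (hN : #N ≤ ν)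
    (hb : ∀ R : Set W, #R ≤ ν → ∃ v, ∀ x ∈ R, x < v) (r : W → N → Bool)
    {E : Set ((W → Finset N) × W)} (hE : #E ≤ ν) :
    ∃ γ, ∀ α, γ ≤ α → Kset r (Iio α) E α = Kset r univ E α := by
  classical
  obtain ⟨w0, -⟩ := hb ∅ (by simp)
  have key : ∀ (a : Finset E) (u : Finset N) (t : (a → Finset N) × (u → Bool)), ∃ β' : W,
      ∀ β, (∀ y ∈ a, y.1.2 ≤ β) → ((fun y : a => y.1.1.1 β, fun ξ : u => r β ξ) = t) →
        (∀ y ∈ a, y.1.2 ≤ β') ∧ (fun y : a => y.1.1.1 β', fun ξ : u => r β' ξ) = t := by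
    intro a u t
    by_cases h : ∃ β, (∀ y ∈ a, y.1.2 ≤ β) ∧ (fun y : a => y.1.1.1 β, fun ξ : u => r β ξ) = t
    · obtain ⟨β, hβ⟩ := h
      exact ⟨β, fun _ _ _ => hβ⟩
    · exact ⟨w0, fun β h1 h2 => absurd ⟨β, h1, h2⟩ h⟩
  choose wit hwit using key
  obtain ⟨γ, hγ⟩ := hb (⋃ a, ⋃ u, range (wit a u)) (by
    refine iUnion_le hν _ (mk_finset_le hν hE) (fun a => iUnion_le hν _ (mk_finset_le hν hN)
      (fun u => mk_range_le.trans ?_))
    rw [mk_prod, lift_id, lift_id]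
    refine mul_le_of_le hν ?_ ((lt_aleph0_of_finite _).le.trans hν)
    rw [← power_def]
    exact (power_le_power_right (mk_finset_le hν hN)).trans (pow_le hν (lt_aleph0_of_finite _)))
  refine ⟨γ, fun α hα => Subset.antisymm (fun z hz a ha u => ?_) (fun z hz a ha u => ?_)⟩
  · obtain ⟨β, -, hβ⟩ := hz a ha u
    exact ⟨β, mem_univ _, hβ⟩
  · obtain ⟨β, -, h1, h2⟩ := hz a ha u
    lift a to Finset E using ha
    obtain ⟨h3, h4⟩ := hwit a u _ β
      (fun y hy => (h1 y.1 (Finset.mem_image_of_mem _ hy)).2) rfl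
    have h5 := (hγ _ (mem_iUnion₂.mpr ⟨a, u,
      (fun y : a => y.1.1.1 β, fun ξ : u => r β ξ), rfl⟩)).trans_le hα
    refine ⟨_, h5, fun y hy => ?_, fun ξ hξ => ?_⟩
    · obtain ⟨y', hy', rfl⟩ := Finset.mem_image.mp hy
      exact ⟨(congrFun (congrArg Prod.fst h4) ⟨y', hy'⟩).trans (h1 _ hy).1, h3 y' hy'⟩
    · exact (congrFun (congrArg Prod.snd h4) ⟨ξ, hξ⟩).trans (h2 ξ hξ)

variable [LinearOrder N]

/-- The test `y` records where `r β` leaves the least point. -/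
def IsGap (r : W → N → Bool) (E : Set ((W → Finset N) × W)) (y : (W → Finset N) × W) : Prop :=
  ∀ β, y.2 ≤ β → ∃ m, LMin m (Kset r univ E β) ∧ ∃ k ∈ y.1 β, LexAt m (r β) k

lemma IsGap.strict {r : W → N → Bool} {E : Set ((W → Finset N) × W)} {y : (W → Finset N) × W}
    (hg : IsGap r E y) {α : W} {m : N → Bool} (hm : LMin m (Kset r univ E α)) :
    ∃ u : Finset N, ∀ E', insert y E ⊆ E' → ∀ z ∈ Kset r univ E' α, ¬ ∀ ξ ∈ u, z ξ = m ξ := by
  classical
  have key : ∀ k : N, ∃ p : {a : Finset ((W → Finset N) × W) // ↑a ⊆ E} × Finset N,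
      m k = true → ∀ t ∈ Kset r univ (↑p.1.1) α, t k = false → ¬ ∀ ξ ∈ p.2, ξ < k → t ξ = m ξ := by
    intro k
    by_contra hcon
    push Not at hcon
    have : Nonempty ({a : Finset ((W → Finset N) × W) // ↑a ⊆ E} × Finset N) :=
      ⟨(⟨∅, by simp⟩, ∅)⟩
    let T : {a : Finset ((W → Finset N) × W) // ↑a ⊆ E} × Finset N → Set (N → Bool) := fun p =>
      Kset r univ (↑p.1.1) α ∩ ({t | t k = false} ∩ ⋂ ξ ∈ p.2, ⋂ _ : ξ < k, {t | t ξ = m ξ})
    have hcl : ∀ p, IsClosed (T p) := fun p => (isClosed_Kset _ _ _ _).inter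
      ((isClosed_eq (continuous_apply k) continuous_const).inter (isClosed_biInter (fun ξ _ =>
        isClosed_iInter (fun _ => isClosed_eq (continuous_apply ξ) continuous_const))))
    obtain ⟨t, ht⟩ := IsCompact.nonempty_iInter_of_directed_nonempty_isCompact_isClosed T (by
        intro p p'
        refine ⟨(⟨p.1.1 ∪ p'.1.1, by simpa using ⟨p.1.2, p'.1.2⟩⟩, p.2 ∪ p'.2), ?_, ?_⟩
        · rintro t ⟨h1, h2, h3⟩
          refine ⟨Kset_anti _ _ (by simp) _ h1, h2, ?_⟩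
          simp only [mem_iInter] at h3 ⊢
          exact fun ξ hξ => h3 ξ (Finset.mem_union_left _ hξ)
        · rintro t ⟨h1, h2, h3⟩
          refine ⟨Kset_anti _ _ (by simp) _ h1, h2, ?_⟩
          simp only [mem_iInter] at h3 ⊢
          exact fun ξ hξ => h3 ξ (Finset.mem_union_right _ hξ)) (by
        intro p
        obtain ⟨-, t, h1, h2, h3⟩ := hcon p
        exact ⟨t, h1, h2, by simpa only [mem_iInter, mem_ofPred_eq] using h3⟩)
      (fun p => (hcl p).isCompact) hcl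
    rw [mem_iInter] at ht
    have h1 : LexAt t m k := by
      refine ⟨fun ξ hξ => ?_, (ht (⟨∅, by simp⟩, ∅)).2.1, (hcon (⟨∅, by simp⟩, ∅)).1⟩
      have := (ht (⟨∅, by simp⟩, {ξ})).2.2
      simp only [mem_iInter] at this
      exact this ξ (Finset.mem_singleton_self _) hξ
    obtain ⟨k', hk'⟩ := hm.2 t (fun a ha => (ht (⟨a, ha⟩, ∅)).1 a subset_rfl) (by
      rintro rfl
      exact h1.asymm h1)
    exact h1.asymm hk'
  choose p hp using key
  refine ⟨y.1 α ∪ (y.1 α).biUnion (fun k => (p k).2), fun E' hE' z hz hzm => ?_⟩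
  obtain ⟨β, -, h1, h2⟩ := hz (insert y ((y.1 α).biUnion (fun k => (p k).1.1))) (by
    refine subset_trans ?_ hE'
    rw [Finset.coe_insert]
    refine insert_subset_insert (fun t ht => ?_)
    obtain ⟨k, -, hk⟩ := Finset.mem_biUnion.mp ht
    exact (p k).1.2 hk) (y.1 α ∪ (y.1 α).biUnion (fun k => (p k).2))
  obtain ⟨h3, h4⟩ := h1 y (Finset.mem_insert_self _ _)
  obtain ⟨m', hm', k, hk, hlt⟩ := hg β h4
  rw [h3] at hk
  have hk' := Finset.mem_union_left ((y.1 α).biUnion (fun k => (p k).2)) hk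
  refine hp k (by rw [← hzm k hk', ← h2 k hk', hlt.2.2]) m' (fun a ha u => ?_) hlt.2.1
    (fun ξ hξ hξk => ?_)
  · obtain ⟨β', -, h5, h6⟩ := hm'.1 a (ha.trans (p k).1.2) u
    refine ⟨β', mem_univ _, fun t ht => ⟨(h5 t ht).1.trans (h1 t ?_).1, (h5 t ht).2⟩, h6⟩
    exact Finset.mem_insert_of_mem (Finset.mem_biUnion.mpr ⟨k, hk, ha ht⟩)
  · have hξ' := Finset.mem_union_right (y.1 α) (Finset.mem_biUnion.mpr ⟨k, hk, hξ⟩ :
      ξ ∈ (y.1 α).biUnion (fun k => (p k).2))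
    rw [hlt.1 ξ hξk, h2 ξ hξ', hzm ξ hξ']

end Closure

theorem two_pow_le_core {N W X : Type u} [LinearOrder N] [WellFoundedLT N] [LinearOrder W]
    [WellFoundedLT W] {ν κ : Cardinal.{u}} (hν : ℵ₀ ≤ ν) (hN : #N = ν)
    (hb : ∀ R : Set W, #R ≤ Order.succ ν → ∃ v, ∀ x ∈ R, x < v) (hT : Thr ν κ X)
    (code : X → (W × N → Finset N) × W)
    (hcode : ∀ (F : W × N → N) (γ : W), ∃ x, (∀ p, F p ∈ (code x).1 p) ∧ (code x).2 = γ) :
    2 ^ ν ≤ κ := by
  classical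
  by_contra hcon
  have hlt : κ < #(N → Bool) := by
    rw [not_le] at hcon
    simpa [hN] using hcon
  obtain ⟨C, hC1, hC2, hC3⟩ := hT
  have hb' : ∀ R : Set W, #R ≤ ν → ∃ v, ∀ x ∈ R, x < v :=
    fun R hR => hb R (hR.trans (Order.le_succ _))
  let tl : Set X → Set ((W → Finset N) × W) := fun e =>
    ⋃ x : e, range (fun k : N => (fun α => (code x.1).1 (α, k), (code x.1).2))
  have htl : ∀ e : Set X, #e ≤ ν → #(tl e) ≤ ν := fun e he =>
    iUnion_le hν _ he (fun _ => mk_range_le.trans hN.le)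
  have hmono : ∀ {e e' : Set X}, e ⊆ e' → tl e ⊆ tl e' := by
    intro e e' h y hy
    obtain ⟨x, hx⟩ := mem_iUnion.mp hy
    exact mem_iUnion.mpr ⟨⟨x.1, h x.2⟩, hx⟩
  obtain ⟨r, hr⟩ := rec_exists (Y := W) (St := N → Bool) (fun α ih st => ∀ q ∈ C,
    ¬ LMin st (Kset (fun β => if h : β < α then ih β h else fun _ => false) (Iio α) (tl q) α)) (by
      intro α ih
      by_contra h
      push Not at h
      choose q hq1 hq2 using h
      refine absurd (le_trans (mk_le_of_injective (f := fun st => (⟨q st, hq1 st⟩ : C)) ?_) hC1)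
        (not_le.mpr hlt)
      intro st st' hst
      have h1 : q st = q st' := congrArg Subtype.val hst
      exact (hq2 st).unique (h1 ▸ hq2 st'))
  have hr' : ∀ α, ∀ q ∈ C, ¬ LMin (r α) (Kset r (Iio α) (tl q) α) := by
    intro α q hq
    rw [Kset_congr (r' := fun β => if β < α then r β else fun _ => false) (A := Iio α)
      (fun β hβ => (if_pos hβ).symm)]
    exact hr α q hq
  have hN0 : Nonempty N := by
    rw [← mk_ne_zero_iff, hN]
    exact (aleph0_pos.trans_le hν).ne'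
  have hgap : ∀ e : Set X, (∃ q ∈ C, e ⊆ q) → ∃ (γ : W) (f : W → N), ∀ β, γ ≤ β →
      ∃ m, LMin m (Kset r univ (tl e) β) ∧ LexAt m (r β) (f β) := by
    rintro e ⟨q, hq, heq⟩
    obtain ⟨γ₁, h1⟩ := Kset_stable hν hN.le hb' r (htl q (hC2 q hq))
    obtain ⟨γ₂, h2⟩ := hb' (Prod.snd '' tl q) (mk_image_le.trans (htl q (hC2 q hq)))
    have : ∀ β, ∃ k, max γ₁ γ₂ ≤ β → ∃ m, LMin m (Kset r univ (tl e) β) ∧ LexAt m (r β) k := by
      intro β
      by_cases hβ : max γ₁ γ₂ ≤ β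
      · have h3 : r β ∈ Kset r univ (tl q) β := self_mem_Kset r
          (fun y hy => (h2 _ ⟨y, hy, rfl⟩).le.trans ((le_max_right _ _).trans hβ))
        have h4 := Kset_anti r univ (hmono heq) β
        obtain ⟨m, hm⟩ := exists_lmin (isClosed_Kset r univ (tl e) β) ⟨_, h4 h3⟩
        obtain ⟨k, hk⟩ := hm.2 _ (h4 h3) (by
          intro h5
          apply hr' β q hq
          rw [h1 β ((le_max_left _ _).trans hβ), h5]
          exact ⟨h5 ▸ h3, fun z hz => hm.2 z (h4 hz)⟩)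
        exact ⟨k, fun _ => ⟨m, hm, hk⟩⟩
      · exact ⟨Classical.arbitrary N, fun h => absurd h hβ⟩
    choose f hf using this
    exact ⟨_, f, hf⟩
  have hG : ∀ P : Set (Set X), ∃ x, #P ≤ ν → (∀ p ∈ P, ∃ q ∈ C, p ⊆ q) →
      ∀ p ∈ P, ∃ y ∈ tl {x}, IsGap r (tl p) y := by
    intro P
    by_cases hP : #P ≤ ν ∧ ∀ p ∈ P, ∃ q ∈ C, p ⊆ q
    · choose γ f hf using fun p : P => hgap p.1 (hP.2 p.1 p.2)
      obtain ⟨j⟩ : #P ≤ #N := hP.1.trans hN.ge
      obtain ⟨γ', hγ'⟩ := hb' (range γ) (mk_range_le.trans hP.1)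
      obtain ⟨x, hx1, hx2⟩ := hcode (fun z => Function.extend j (fun p => f p z.1)
        (fun _ => z.2) z.2) γ'
      refine ⟨x, fun _ _ p hp => ⟨_, mem_iUnion.mpr ⟨⟨x, rfl⟩, j ⟨p, hp⟩, rfl⟩, fun β hβ => ?_⟩⟩
      obtain ⟨m, h1, h2⟩ := hf ⟨p, hp⟩ β ((hγ' _ ⟨_, rfl⟩).le.trans (hx2 ▸ hβ))
      refine ⟨m, h1, _, ?_, h2⟩
      have := hx1 (β, j ⟨p, hp⟩)
      rwa [j.injective.extend_apply] at this
    · obtain ⟨w0, -⟩ := hb ∅ (by simp)
      obtain ⟨x, -⟩ := hcode Prod.snd w0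
      exact ⟨x, fun h1 h2 => absurd ⟨h1, h2⟩ hP⟩
  choose G hG using hG
  obtain ⟨I, _, e, h1, h2, h3, h4, h5⟩ := hC3 G
  have hν1 : ℵ₀ ≤ Order.succ ν := hν.trans (Order.le_succ _)
  obtain ⟨α, hα⟩ := hb (⋃ i, Prod.snd '' tl (e i)) (iUnion_le hν1 _ h2 (fun i => by
    obtain ⟨P, hP1, -, hP2, -⟩ := h5 i
    obtain ⟨q, hq, hsub⟩ := hP2 _ hP1
    exact mk_image_le.trans ((htl _ ((mk_le_mk_of_subset hsub).trans (hC2 q hq))).trans
      (Order.le_succ _))))
  have hm : ∀ i, ∃ m, LMin m (Kset r univ (tl (e i)) α) := fun i =>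
    exists_lmin (isClosed_Kset _ _ _ _) ⟨_, self_mem_Kset r
      (fun y hy => (hα _ (mem_iUnion.mpr ⟨i, y, hy, rfl⟩)).le)⟩
  choose m hm using hm
  have hu : ∀ i, ∃ (u : Finset N) (i' : I), ∀ i'', i' ≤ i'' → ¬ ∀ ξ ∈ u, m i'' ξ = m i ξ := by
    intro i
    obtain ⟨P, hP1, hP2, hP3, i', hi'⟩ := h5 i
    obtain ⟨y, hy1, hy2⟩ := hG P hP2 hP3 _ hP1
    obtain ⟨u, hu⟩ := hy2.strict (hm i)
    refine ⟨u, max i i', fun i'' hi'' => hu _ (insert_subset ?_ ?_) _ (hm i'').1⟩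
    · exact hmono (singleton_subset_iff.mpr (h4 ((le_max_right _ _).trans hi'') hi')) hy1
    · exact hmono (h4 ((le_max_left _ _).trans hi''))
  choose u i' hu using hu
  obtain ⟨s, hs⟩ := infinite_pigeonhole_card (fun i => (u i).image (fun ξ => (ξ, m i ξ)))
    (Order.succ ν) (Order.succ_le_of_lt h1) hν1 (by
      rw [(isRegular_succ hν).cof_ord]
      refine Order.lt_succ_of_le (mk_finset_le hν ?_)
      rw [mk_prod, lift_uzero, hN]
      exact mul_le_of_le hν le_rfl (by simpa using (natCast_lt_aleph0 (n := 2)).le.trans hν))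
  have hne : ∀ i₀ : I, ∃ i, (u i).image (fun ξ => (ξ, m i ξ)) = s ∧ i₀ ≤ i := by
    intro i₀
    by_contra hcon'
    push Not at hcon'
    exact absurd (hs.trans ((mk_le_mk_of_subset (fun i hi => hcon' i hi)).trans (h3 i₀)))
      (not_le.mpr (Order.lt_succ _))
  have hI : Nonempty I := by
    rw [← mk_ne_zero_iff]
    exact (zero_le.trans_lt h1).ne'
  obtain ⟨i, hi, -⟩ := hne (Classical.arbitrary I)
  obtain ⟨k, hk, hik⟩ := hne (i' i)
  refine hu i k hik (fun ξ hξ => ?_)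
  have h6 : (ξ, m i ξ) ∈ (u k).image (fun ξ => (ξ, m k ξ)) := by
    rw [hk, ← hi]
    exact Finset.mem_image_of_mem _ hξ
  obtain ⟨ξ', -, h7⟩ := Finset.mem_image.mp h6
  obtain ⟨rfl, h8⟩ := Prod.mk.inj h7
  exact h8

end Pool.Agent.Lib.MP_856180_lc
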