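import Mathlib
import Pool.Agent.Lib.MP_856180_lc.LexMin

/-!
Finite slaloms read off from a dominating family, covering numbers, and the branch lemma.
-/

set_option autoImplicit false

namespace Pool.Agent.Lib.MP_856180_lc

open Cardinal Set Pool.Agent.Shared.RevisedGCH

universe u

lemma slalom {ι₀ : Type u} (hι₀ : ℵ₀ ≤ #ι₀) {D : Set (ι₀ → ℕ)}
    (hD : ∀ g : ι₀ → ℕ, ∃ f ∈ D, ∀ a, g a ≤ f a) {ι : Type u} {β : ι → Type u} (hι : #ι ≤ #ι₀)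
    (hL : ∀ i, Loc (#ι₀) (β i)) :
    ∃ S : Set (∀ i, Finset (β i)), #S ≤ #D ∧ ∀ F : ∀ i, β i, ∃ s ∈ S, ∀ i, F i ∈ s i := by
  choose L hL1 hL2 using hL
  obtain ⟨e⟩ : #(Σ i, L i) ≤ #ι₀ := by
    rw [mk_sigma]
    exact (sum_le_mk_mul_iSup _).trans (mul_le_of_le hι₀ hι (ciSup_le' hL1))
  have hfin : ∀ (g : ι₀ → ℕ) (i : ι), {b : β i | ∀ π : L i, π.1 b ≤ g (e ⟨i, π⟩)}.Finite := by
    intro g i
    by_contra hinf
    obtain ⟨π, hπ, h⟩ := hL2 i _ hinf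
    refine h ((finite_Iic (g (e ⟨i, π, hπ⟩))).subset ?_)
    rintro _ ⟨b, hb, rfl⟩
    exact hb ⟨π, hπ⟩
  refine ⟨range (fun g : D => fun i => (hfin g.1 i).toFinset), mk_range_le, fun F => ?_⟩
  obtain ⟨f, hf, h⟩ := hD (Function.extend e (fun z => z.2.1 (F z.1)) (fun _ => 0))
  refine ⟨_, ⟨⟨f, hf⟩, rfl⟩, fun i => ?_⟩
  rw [Finite.mem_toFinset]
  intro π
  have := h (e ⟨i, π⟩)
  rwa [e.injective.extend_apply] at this

lemma pi_le_of_loc {ι₀ : Type u} (hι₀ : ℵ₀ ≤ #ι₀) {D : Set (ι₀ → ℕ)}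
    (hD : ∀ g : ι₀ → ℕ, ∃ f ∈ D, ∀ a, g a ≤ f a) {ι : Type u} {β : ι → Type u} (hι : #ι ≤ ℵ₀)
    (hL : ∀ i, Loc (#ι₀) (β i)) {κ : Cardinal.{u}} (hκ : #D ≤ κ) (hc : 2 ^ ℵ₀ ≤ κ) :
    #(∀ i, β i) ≤ κ := by
  obtain ⟨S, h1, h2⟩ := slalom hι₀ hD (hι.trans hι₀) hL
  have h3 : (univ : Set (∀ i, β i)) ⊆ ⋃ s : S, range (fun (t : ∀ i, s.1 i) i => (t i).1) := by
    intro F _
    obtain ⟨s, hs, h⟩ := h2 F
    exact mem_iUnion.mpr ⟨⟨s, hs⟩, fun i => ⟨F i, h i⟩, rfl⟩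
  rw [← mk_univ]
  refine (mk_le_mk_of_subset h3).trans (iUnion_le ((cantor _).le.trans hc) _ (h1.trans hκ)
    (fun s => mk_range_le.trans (le_trans ?_ hc)))
  rw [mk_pi, ← power_self_eq le_rfl]
  refine (prod_le_prod _ (fun _ => ℵ₀) (fun i => (lt_aleph0_of_finite _).le)).trans ?_
  rw [prod_const']
  exact power_le_power_left aleph0_ne_zero hι

lemma Cv.self {ν κ : Cardinal.{u}} (hκ : ℵ₀ ≤ κ) {X : Type u} {Q : Set X} (h : #Q ≤ ν) :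
    Cv ν κ Q :=
  ⟨{Q}, by simpa using one_le_aleph0.trans hκ, by rintro _ rfl; exact h,
    fun A hA _ => ⟨Q, rfl, hA⟩⟩

lemma Cv.mono {ν κ κ' : Cardinal.{u}} {X : Type u} {Q : Set X} (h : Cv ν κ Q) (hκ : κ ≤ κ') :
    Cv ν κ' Q := by
  obtain ⟨C, h1, h2⟩ := h
  exact ⟨C, h1.trans hκ, h2⟩

lemma Cv.trans {ν μ κ : Cardinal.{u}} (hκ : ℵ₀ ≤ κ) (hν : ν ≤ μ) {X : Type u} {Q : Set X}
    (h : Cv μ κ Q) (h' : Cv ν κ (univ : Set μ.out)) : Cv ν κ Q := by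
  obtain ⟨C, h1, h2, h3⟩ := h
  choose P hP1 hP2 hP3 using fun p : C => h'.of_card (Q' := p.1) (by simpa using h2 p.1 p.2)
  refine ⟨⋃ p, P p, iUnion_le hκ _ h1 hP1, fun q hq => ?_, fun A hA hAν => ?_⟩
  · obtain ⟨p, hp⟩ := mem_iUnion.mp hq
    exact hP2 p q hp
  · obtain ⟨p, hp, hAp⟩ := h3 A hA (hAν.trans hν)
    obtain ⟨q, hq, hAq⟩ := hP3 ⟨p, hp⟩ A hAp hAν
    exact ⟨q, mem_iUnion.mpr ⟨_, hq⟩, hAq⟩

lemma cv_of_dom {ι₀ : Type u} (hι₀ : ℵ₀ ≤ #ι₀) {D : Set (ι₀ → ℕ)}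
    (hD : ∀ g : ι₀ → ℕ, ∃ f ∈ D, ∀ a, g a ≤ f a) {ν κ : Cardinal.{u}} (hν : ℵ₀ ≤ ν)
    (hνμ : ν ≤ #ι₀) (hκ : #D ≤ κ) : Cv ν κ (univ : Set ι₀) := by
  obtain ⟨S, h1, h2⟩ := slalom hι₀ hD (ι := ν.out) (β := fun _ => ι₀) (by simpa using hνμ)
    (fun _ => loc hι₀ _ le_rfl _ rfl)
  refine ⟨(fun s => ⋃ i, ↑(s i)) '' S, mk_image_le.trans (h1.trans hκ), ?_, fun A _ hA => ?_⟩
  · rintro _ ⟨s, -, rfl⟩
    exact iUnion_le hν _ (by simp) (fun i => (lt_aleph0_of_finite _).le.trans hν)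
  · obtain ⟨j⟩ : #A ≤ #ν.out := by simpa using hA
    obtain ⟨a₀⟩ : Nonempty ι₀ := by
      rw [← mk_ne_zero_iff]
      exact (aleph0_pos.trans_le hι₀).ne'
    obtain ⟨s, hs, h⟩ := h2 (Function.extend j Subtype.val (fun _ => a₀))
    refine ⟨_, ⟨s, hs, rfl⟩, fun x hx => mem_iUnion.mpr ⟨j ⟨x, hx⟩, ?_⟩⟩
    have := h (j ⟨x, hx⟩)
    rwa [j.injective.extend_apply] at this

lemma bounded_of_lt_cof {θ : Cardinal.{u}} (A : Set θ.ord.ToType) (hA : #A < θ.ord.cof) :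
    ∃ w, ∀ x ∈ A, x < w := by
  refine not_isCofinal_iff.mp (fun hc => ?_)
  have := Order.cof_le hc
  rw [Ordinal.cof_toType] at this
  exact absurd hA (not_lt.mpr this)

lemma cv_of_cof {μ θ : Cardinal.{u}} (hθ : ℵ₀ ≤ θ) (hcof : μ < θ.ord.cof)
    (h : ∀ ρ < θ, ∃ b ≤ θ, ρ ≤ b ∧ Cv μ b (univ : Set b.out)) : Cv μ θ (univ : Set θ.out) := by
  have h1 : ∀ w : θ.ord.ToType, Cv μ θ (Iio w) := by
    intro w
    obtain ⟨b, hb1, hb2, hb3⟩ := h _ (mk_Iio_ord w)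
    exact (hb3.mono hb1).of_card (by simpa using hb2)
  choose P hP1 hP2 hP3 using h1
  refine Cv.of_card (Q := (univ : Set θ.ord.ToType)) ⟨⋃ w, P w, iUnion_le hθ _ (by simp) hP1,
    fun q hq => ?_, fun A _ hA => ?_⟩ (by simp)
  · obtain ⟨w, hw⟩ := mem_iUnion.mp hq
    exact hP2 w q hw
  · obtain ⟨w, hw⟩ := bounded_of_lt_cof A (hA.trans_lt hcof)
    obtain ⟨q, hq, hAq⟩ := hP3 w A hw hA
    exact ⟨q, mem_iUnion.mpr ⟨w, hq⟩, hAq⟩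

lemma Cv.pow_le {μ b η c : Cardinal.{u}} (h : Cv μ b (univ : Set b.out)) (hη : η ≤ μ)
    (hc : ℵ₀ ≤ c) (hb : b ≤ c) (hμ : μ ^ η ≤ c) : b ^ η ≤ c := by
  obtain ⟨C, h1, h2, h3⟩ := h
  have h4 : (univ : Set (η.out → b.out)) ⊆ ⋃ p : C, {t | ∀ j, t j ∈ p.1} := by
    intro F _
    obtain ⟨p, hp, h⟩ := h3 (range F) (subset_univ _) (mk_range_le.trans (by simpa using hη))
    exact mem_iUnion.mpr ⟨⟨p, hp⟩, fun j => h ⟨j, rfl⟩⟩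
  have h5 := (mk_le_mk_of_subset h4).trans (iUnion_le hc _ (h1.trans hb) (fun p =>
    (mk_pi_set_le (fun _ : η.out => p.1) (fun _ => h2 p.1 p.2)).trans (by simpa using hμ)))
  simpa using h5

lemma exists_cof_family {θ : Cardinal.{u}} (hθ : ℵ₀ ≤ θ) : ∃ (ι : Type u) (ρ : ι → Cardinal.{u}),
    #ι = θ.ord.cof ∧ (∀ i, ρ i < θ) ∧ (∀ σ < θ, ∃ i, σ ≤ ρ i) ∧
      2 ^ θ ≤ #(∀ i, Set (ρ i).out) := by
  obtain ⟨C, hC, hCc⟩ := Order.exists_cof_eq θ.ord.ToType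
  rw [Ordinal.cof_toType] at hCc
  refine ⟨C, fun w => #(Iic w.1), hCc, fun w => ?_, fun σ hσ => ?_, ?_⟩
  · have := mk_inter_Iic_lt hθ (E := univ) (x := w.1) (by simpa using mk_Iio_ord w.1)
    rwa [univ_inter] at this
  · by_contra hcon
    push Not at hcon
    have h1 := mk_low_le (univ : Set θ.ord.ToType) σ
    have h2 : {x : θ.ord.ToType | x ∈ Set.univ ∧ #(Set.univ ∩ Iio x : Set θ.ord.ToType) < σ}
        = Set.univ := by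
      refine eq_univ_of_forall (fun x => ⟨mem_univ _, ?_⟩)
      obtain ⟨w, hw, hxw⟩ := hC x
      exact (mk_le_mk_of_subset (fun y hy => hy.2.le.trans hxw)).trans_lt (hcon ⟨w, hw⟩)
    rw [h2] at h1
    exact absurd hσ (not_lt.mpr (by simpa using h1))
  · have h1 : #(Set θ.ord.ToType) ≤ #(∀ w : C, Set (Iic w.1)) := by
      refine mk_le_of_injective (f := fun X w => Subtype.val ⁻¹' X) (fun X X' h => ?_)
      ext x
      obtain ⟨w, hw, hxw⟩ := hC x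
      exact Set.ext_iff.mp (congrFun h ⟨w, hw⟩) ⟨x, hxw⟩
    refine le_trans (by simp) (h1.trans (mk_pi_congrRight (fun w => by simp)).le)

lemma two_pow_le_pow_cof {θ c : Cardinal.{u}} (hθ : ℵ₀ ≤ θ) (h : ∀ ρ < θ, 2 ^ ρ ≤ c) :
    2 ^ θ ≤ c ^ θ.ord.cof := by
  obtain ⟨ι, ρ, h1, h2, -, h3⟩ := exists_cof_family hθ
  rw [mk_pi] at h3
  rw [← h1, ← prod_const']
  exact h3.trans (prod_le_prod _ _ (fun i => by simpa using h _ (h2 i)))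

/-- At most `c` sets of size at most `μ` meet every subset of `Q` of size `τ` in `τ` points. -/
def UU (μ τ c : Cardinal.{u}) {X : Type u} (Q : Set X) : Prop :=
  ∃ P : Set (Set X), #P ≤ c ∧ (∀ p ∈ P, #p ≤ μ) ∧
    ∀ A ⊆ Q, τ ≤ #A → ∃ p ∈ P, τ ≤ #(A ∩ p : Set X)

lemma UU.of_card {μ τ c : Cardinal.{u}} {X X' : Type u} {Q : Set X} {Q' : Set X'}
    (h : UU μ τ c Q) (hle : #Q' ≤ #Q) : UU μ τ c Q' := by
  obtain ⟨e⟩ := hle
  obtain ⟨C, h1, h2, h3⟩ := h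
  have hinj : Function.Injective (fun x : Q' => (e x).1) :=
    fun x y hxy => e.injective (Subtype.ext hxy)
  refine ⟨(fun p => Subtype.val '' ((fun x : Q' => (e x).1) ⁻¹' p)) '' C, mk_image_le.trans h1,
    ?_, fun A hA hAτ => ?_⟩
  · rintro _ ⟨p, hp, rfl⟩
    exact mk_image_le.trans ((mk_preimage_of_injective _ _ hinj).trans (h2 p hp))
  · obtain ⟨p, hp, hsub⟩ := h3 ((fun x : Q' => (e x).1) '' (Subtype.val ⁻¹' A))
      (by rintro _ ⟨x, -, rfl⟩; exact (e x).2) (by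
        rw [mk_image_eq hinj, mk_preimage_of_injective_of_subset_range _ _ Subtype.val_injective
          (by simpa using hA)]
        exact hAτ)
    refine ⟨_, ⟨p, hp, rfl⟩, hsub.trans ?_⟩
    rw [← image_inter_preimage, mk_image_eq hinj, ← mk_image_eq Subtype.val_injective]
    refine mk_le_mk_of_subset ?_
    rintro _ ⟨x, hx, rfl⟩
    exact ⟨hx.1, x, hx.2, rfl⟩

lemma Cv.uu {μ τ c : Cardinal.{u}} {X : Type u} {Q : Set X} (h : Cv μ c Q) (hτ : τ ≤ μ) :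
    UU μ τ c Q := by
  obtain ⟨C, h1, h2, h3⟩ := h
  refine ⟨C, h1, h2, fun A hA hAτ => ?_⟩
  obtain ⟨B, hBA, hB⟩ := le_mk_iff_exists_subset.mp hAτ
  obtain ⟨p, hp, h⟩ := h3 B (hBA.trans hA) (hB ▸ hτ)
  exact ⟨p, hp, hB ▸ mk_le_mk_of_subset (subset_inter hBA h)⟩

lemma uu_of_cof {μ τ c : Cardinal.{u}} (hτ : τ.IsRegular) (hτμ : τ ≤ μ) (hμc : μ ≤ c)
    (h : ∀ θ ≤ c, μ < θ → Cv μ c (univ : Set θ.out) ∨ θ.ord.cof ≠ τ) (θ : Cardinal.{u}) :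
    θ ≤ c → UU μ τ c (univ : Set θ.out) := by
  have hc : ℵ₀ ≤ c := hτ.aleph0_le.trans (hτμ.trans hμc)
  induction θ using WellFoundedLT.induction with
  | ind θ ih =>
    intro hθ
    by_cases hs : θ ≤ μ
    · exact (Cv.self hc (by simpa using hs)).uu hτμ
    rcases h θ hθ (not_le.mp hs) with h' | h'
    · exact h'.uu hτμ
    have := Cardinal.noMaxOrder (hτ.aleph0_le.trans (hτμ.trans (not_le.mp hs).le))
    choose P hP1 hP2 hP3 using fun w : θ.ord.ToType => (ih _ (mk_Iio_ord w)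
      ((mk_Iio_ord w).le.trans hθ)).of_card (Q' := Iio w) (by simp)
    refine UU.of_card (Q := (univ : Set θ.ord.ToType)) ⟨⋃ w, P w,
      iUnion_le hc _ (by simpa using hθ) hP1, fun q hq => ?_, fun A _ hA => ?_⟩ (by simp)
    · obtain ⟨w, hw⟩ := mem_iUnion.mp hq
      exact hP2 w q hw
    · obtain ⟨w, hw⟩ := exists_bounded_piece hτ (by rwa [Ordinal.cof_toType]) A hA
      obtain ⟨q, hq, hAq⟩ := hP3 w _ inter_subset_right hw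
      exact ⟨q, mem_iUnion.mpr ⟨w, hq⟩, hAq.trans
        (mk_le_mk_of_subset (inter_subset_inter_left _ inter_subset_left))⟩

lemma loc_of_branch {μ τ c : Cardinal.{u}} (hτ : τ.IsRegular) (hτ0 : ℵ₀ < τ) (hτμ : τ ≤ μ)
    (hμc : μ ≤ c) (hlow : ∀ ρ < τ, 2 ^ ρ ≤ c) (hhigh : c < 2 ^ τ)
    (hU : UU μ τ c (univ : Set c.out)) {β : Type u} (hβ : #β ≤ c) : Loc μ β := by
  have hμ : ℵ₀ ≤ μ := hτ0.le.trans hτμ
  have hc : ℵ₀ ≤ c := hμ.trans hμc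
  obtain ⟨P, hP1, hP2, hP3⟩ := hU.of_card (Q' := ⋃ α : τ.ord.ToType, Prod.mk α '' 𝒫 (Iio α)) (by
    rw [mk_univ, mk_out]
    refine iUnion_le hc _ (by simpa using hτμ.trans hμc) (fun α => mk_image_le.trans ?_)
    rw [mk_powerset]
    exact hlow _ (mk_Iio_ord α))
  have h1 : ∀ X : Set τ.ord.ToType, ∃ p : P, ∀ α, ∃ γ, α ≤ γ ∧ (γ, X ∩ Iio γ) ∈ p.1 := by
    intro X
    obtain ⟨p, hp, h⟩ := hP3 (range (fun α => (α, X ∩ Iio α))) (by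
      rintro _ ⟨α, rfl⟩
      exact mem_iUnion.mpr ⟨α, _, inter_subset_right, rfl⟩) (by
      rw [mk_range_eq _ (fun _ _ h => congrArg Prod.fst h)]
      simp)
    refine ⟨⟨p, hp⟩, fun α => ?_⟩
    by_contra hcon
    push Not at hcon
    refine absurd (h.trans ((mk_le_mk_of_subset (t := (fun α => (α, X ∩ Iio α)) '' Iio α)
      ?_).trans mk_image_le)) (not_le.mpr (mk_Iio_ord α))
    rintro _ ⟨⟨γ, rfl⟩, hγ⟩
    exact ⟨γ, not_le.mp (fun h' => hcon γ h' hγ), rfl⟩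
  choose pp hpp using h1
  obtain ⟨p, hp⟩ : ∃ p : P, c < #{X | pp X = p} := by
    by_contra hcon
    push Not at hcon
    have h2 : (univ : Set (Set τ.ord.ToType)) ⊆ ⋃ p : P, {X | pp X = p} :=
      fun X _ => mem_iUnion.mpr ⟨_, rfl⟩
    exact absurd hhigh (not_lt.mpr (by
      simpa using (mk_le_mk_of_subset h2).trans (iUnion_le hc _ hP1 hcon)))
  refine Loc.mono_card ?_ (hβ.trans hp.le)
  have h2 : ∀ (X : {X | pp X = p}) (α : τ.ord.ToType), ∃ γ, α ≤ γ ∧ (γ, X.1 ∩ Iio γ) ∈ p.1 := by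
    rintro ⟨X, rfl⟩
    exact hpp X
  choose nx hnx1 hnx2 using h2
  obtain ⟨L, hL1, hL2⟩ := loc hμ _ (hP2 p.1 p.2) p.1 rfl
  refine ⟨range (fun z : τ.ord.ToType × L => fun X => z.2.1 ⟨_, hnx2 X z.1⟩),
    mk_range_le.trans ?_, fun A hA => ?_⟩
  · rw [mk_prod, lift_id, lift_id]
    exact mul_le_of_le hμ (by simpa using hτμ) hL1
  obtain ⟨B, hBA, hB⟩ := le_mk_iff_exists_subset.mp (infinite_iff_aleph0.mp hA)
  have h3 : ∀ z : B × B, ∃ d, (d ∈ z.1.1.1 ↔ d ∈ z.2.1.1) → z.1 = z.2 := by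
    intro z
    by_contra hcon
    push Not at hcon
    obtain ⟨d⟩ : Nonempty τ.ord.ToType := by
      rw [← mk_ne_zero_iff]
      simpa using hτ.pos.ne'
    exact (hcon d).2 (Subtype.ext (Subtype.ext (Set.ext (fun d => (hcon d).1))))
  choose d hd using h3
  obtain ⟨α, hα⟩ := bounded_of_lt_cof (range d) (by
    rw [hτ.cof_ord]
    refine mk_range_le.trans_lt (lt_of_le_of_lt ?_ hτ0)
    rw [mk_prod, lift_id, hB, aleph0_mul_aleph0])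
  obtain ⟨π, hπ, hinf⟩ := hL2 ((fun X => ⟨_, hnx2 X α⟩) '' B) (by
    refine Infinite.image (fun X hX X' hX' h => ?_) (infinite_iff_aleph0.mpr hB.ge)
    obtain ⟨h4, h5⟩ := Prod.mk.inj (Subtype.mk.inj h)
    rw [← h4] at h5
    have h6 := (hα _ ⟨(⟨X, hX⟩, ⟨X', hX'⟩), rfl⟩).trans_le (hnx1 X α)
    refine congrArg Subtype.val (hd (⟨X, hX⟩, ⟨X', hX'⟩) ?_)
    have h7 := Set.ext_iff.mp h5 (d (⟨X, hX⟩, ⟨X', hX'⟩))
    exact ⟨fun h => (h7.mp ⟨h, h6⟩).1, fun h => (h7.mpr ⟨h, h6⟩).1⟩)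
  refine ⟨_, ⟨(α, ⟨π, hπ⟩), rfl⟩, hinf.mono ?_⟩
  rintro _ ⟨_, ⟨X, hX, rfl⟩, rfl⟩
  exact ⟨X, hBA hX, rfl⟩

end Pool.Agent.Lib.MP_856180_lc
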