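import Mathlib
import Pool.Agent.Lib.MP_856180_lc.Main
import Pool.Agent.Lib.MP_856180_lc.CofDefs
import Pool.Agent.Lib.MP_856180_lc.Slalom

/-!
If the dominating number at `μ` is below `2 ^ μ`, then it lies at least `μ` cardinals above every
cardinal `θ` whose subsets of size at most `μ` have cofinality `θ`.
-/

set_option autoImplicit false

namespace Pool.Agent.Lib.MP_856180_lc

open Cardinal Set Pool.Agent.Shared.RevisedGCH

universe u

lemma succ_lt_of_cof {μ : Cardinal.{u}} (h0 : ℵ₀ ≤ μ) (h : μ.ord.cof < μ) {ρ : Cardinal.{u}}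
    (hρ : ρ < μ) : Order.succ ρ < μ := by
  refine lt_of_le_of_ne (Order.succ_le_of_lt hρ) (fun heq => ?_)
  by_cases h1 : ℵ₀ ≤ ρ
  · rw [← heq, (isRegular_succ h1).cof_ord] at h
    exact lt_irrefl _ h
  · obtain ⟨n, rfl⟩ := lt_aleph0.mp (not_le.mp h1)
    rw [← heq, succ_natCast] at h0
    exact absurd (add_lt_of_lt le_rfl natCast_lt_aleph0 one_lt_aleph0) (not_lt.mpr h0)

theorem two_pow_le_of_families {μ κ : Cardinal.{u}} (hμ : ℵ₀ < μ) (hcof : μ.ord.cof = ℵ₀)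
    {D : Set (μ.out → ℕ)} (hD : ∀ g : μ.out → ℕ, ∃ f ∈ D, ∀ a, g a ≤ f a) (hDκ : #D ≤ κ)
    (hμκ : μ ≤ κ) {J₁ J₂ : Type u} (hJ₁ : #J₁ < μ) (hJ₂ : #J₂ < μ) (a : J₁ → Cardinal.{u})
    (b : J₂ → Cardinal.{u}) (ha : ∀ j, μ ≤ a j ∧ a j < κ)
    (hb : ∀ j, μ ≤ b j ∧ b j ≤ κ ∧ Cv μ (b j) (univ : Set (b j).out))
    (hab : ∀ ρ < κ, (∃ j, ρ < b j) ∨ ∃ j, ρ = a j) : 2 ^ μ ≤ κ := by
  classical
  have hι : ℵ₀ ≤ #μ.out := by simpa using hμ.le
  have hκ : ℵ₀ ≤ κ := hμ.le.trans hμκ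
  have hlim : ∀ {ρ}, ρ < μ → Order.succ ρ < μ := succ_lt_of_cof hμ.le (hcof ▸ hμ)
  have hloc : ∀ {β : Type u}, #β ≤ μ → Loc (#μ.out) β := fun h =>
    loc hι _ (by simpa using h) _ rfl
  have hpow : ∀ ρ < μ, 2 ^ ρ ≤ κ := by
    intro ρ hρ
    obtain ⟨ν, hνμ, hν, h1, h2, h3⟩ : ∃ ν < μ, ℵ₀ ≤ ν ∧ #J₁ ≤ ν ∧ #J₂ ≤ ν ∧ ρ ≤ ν :=
      ⟨max (max ℵ₀ #J₁) (max #J₂ ρ), max_lt (max_lt hμ hJ₁) (max_lt hJ₂ hρ), by simp, by simp,
        by simp, by simp⟩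
    refine (power_le_power_left two_ne_zero h3).trans ?_
    have h4 := hlim (hlim hνμ)
    have hT := thr_of hν (hνμ.le.trans hμκ) h1 h2 a b
      (fun j => ⟨(hlim h4).le.trans (ha j).1, (ha j).2⟩)
      (fun j => ⟨(hlim h4).le.trans (hb j).1, ((hb j).2.2.mono (hb j).2.1).trans hκ hνμ.le
        (cv_of_dom hι hD hν (by simpa using hνμ.le) hDκ)⟩) hab
    obtain ⟨S, hS1, hS2⟩ := slalom hι hD
      (ι := (Order.succ (Order.succ ν)).ord.ToType × ν.ord.ToType)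
      (β := fun _ => ν.ord.ToType) (by simpa using mul_le_of_le hμ.le h4.le hνμ.le)
      (fun _ => hloc (by simpa using hνμ.le))
    obtain ⟨j⟩ : #(S × (Order.succ (Order.succ ν)).ord.ToType) ≤ #κ.ord.ToType := by
      simpa using mul_le_of_le hκ (hS1.trans hDκ) (h4.le.trans hμκ)
    have hbd := succ_bound (hν.trans (Order.le_succ ν))
    obtain ⟨w0, -⟩ := hbd ∅ (by simp)
    refine two_pow_le_core (N := ν.ord.ToType) hν (by simp) hbd hT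
      (Function.extend j (fun z => (z.1.1, z.2)) (fun _ => (fun _ => ∅, w0))) (fun F γ => ?_)
    obtain ⟨s, hs, h⟩ := hS2 F
    refine ⟨j (⟨s, hs⟩, γ), ?_⟩
    rw [j.injective.extend_apply]
    exact ⟨h, rfl⟩
  have hμω : μ ^ ℵ₀ ≤ κ := by
    simpa using pi_le_of_loc hι hD (ι := (ℵ₀ : Cardinal.{u}).out) (β := fun _ => μ.out) (by simp)
      (fun _ => hloc (by simp)) hDκ (hpow _ hμ)
  by_contra hcon
  have hB : ∀ c : Cardinal.{u}, c ^ ℵ₀ ≤ κ → ∃ ρ < μ, c < 2 ^ ρ := by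
    intro c hc
    by_contra h
    push Not at h
    exact hcon ((two_pow_le_pow_cof hμ.le h).trans (hcof ▸ hc))
  obtain ⟨ρ₀, hρ₀, hμρ⟩ := hB μ hμω
  have hL : ∀ ρ < μ, Loc (#μ.out) (Set ρ.out) := by
    intro ρ hρ
    obtain ⟨ν, hνμ, hν, h1, h2, h3, h4⟩ :
        ∃ ν < μ, ℵ₀ ≤ ν ∧ #J₁ ≤ ν ∧ #J₂ ≤ ν ∧ ρ ≤ ν ∧ ρ₀ ≤ ν :=
      ⟨max (max ℵ₀ #J₁) (max #J₂ (max ρ ρ₀)), max_lt (max_lt hμ hJ₁) (max_lt hJ₂ (max_lt hρ hρ₀)),
        by simp, by simp, by simp, by simp, by simp⟩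
    have hμν : μ ≤ 2 ^ ν := hμρ.le.trans (power_le_power_left two_ne_zero h4)
    have h5 : ∀ η c : Cardinal.{u}, 2 ^ ν ≤ c → 2 ^ η ≤ c → (2 ^ ν) ^ η ≤ c := by
      intro η c h6 h7
      rw [← power_mul]
      refine (power_le_power_left two_ne_zero (mul_le_max_of_aleph0_le_left hν)).trans ?_
      rcases le_total ν η with h | h
      · rwa [max_eq_right h]
      · rwa [max_eq_left h]
    obtain ⟨c, hc1, hc2, hc3, hc4⟩ : ∃ c : Cardinal.{u}, 2 ^ ν ≤ c ∧ c ≤ κ ∧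
        (∀ η ≤ μ, 2 ^ η ≤ c → c ^ η ≤ c) ∧
        ∀ θ ≤ c, μ < θ → Cv μ c (univ : Set θ.out) ∨ θ.ord.cof ≤ ν ∨ θ.ord.cof = θ := by
      by_cases hj : ∃ j, 2 ^ ν ≤ b j
      · obtain ⟨j, hj⟩ := hj
        exact ⟨b j, hj, (hb j).2.1, fun η hη h => (hb j).2.2.pow_le hη (hμ.le.trans (hb j).1)
          le_rfl ((power_le_power_right hμν).trans (h5 η _ hj h)),
          fun θ hθ _ => Or.inl ((hb j).2.2.of_card (by simpa using hθ))⟩
      push Not at hj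
      refine ⟨2 ^ ν, le_rfl, hpow ν hνμ, fun η _ h => h5 η _ le_rfl h, fun θ hθ hμθ => ?_⟩
      by_cases hj' : ∃ j, θ ≤ b j
      · obtain ⟨j, hj'⟩ := hj'
        exact Or.inl (((hb j).2.2.mono (hj j).le).of_card (by simpa using hj'))
      push Not at hj'
      by_contra h
      push Not at h
      have h6 := iSup_lt_of_lt_cof_ord (f := Sum.elim (fun j => if a j < θ then a j else 0) b)
        (lt_of_le_of_lt (by simpa using add_le_of_le hν h1 h2) h.2.1) (by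
          rintro (j | j)
          · by_cases h7 : a j < θ
            · simp [h7]
            · simpa [h7] using (aleph0_pos.trans hμ).trans hμθ
          · exact hj' j)
      have h7 := succ_lt_of_cof (hμ.trans hμθ).le
        (lt_of_le_of_ne (Ordinal.cof_ord_le θ) h.2.2) h6
      have h8 := le_ciSup (f := Sum.elim (fun j => if a j < θ then a j else 0) b) bddAbove_of_small
      rcases hab _ (h7.trans_le (hθ.trans (hpow ν hνμ))) with ⟨j, h9⟩ | ⟨j, h9⟩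
      · exact absurd ((Order.lt_succ _).trans h9) (not_lt.mpr (h8 (Sum.inr j)))
      · have h10 := h8 (Sum.inl j)
        rw [Sum.elim_inl, if_pos (h9 ▸ h7), ← h9] at h10
        exact absurd (Order.lt_succ _) (not_lt.mpr h10)
    have hμc : μ ≤ c := hμν.trans hc1
    obtain ⟨ρ', hρ', hcρ⟩ := hB c ((hc3 _ hμ.le
      ((power_le_power_left two_ne_zero hν).trans hc1)).trans hc2)
    have hne : {η : Cardinal.{u} | c < 2 ^ η}.Nonempty := ⟨ρ', hcρ⟩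
    have hτ1 : c < 2 ^ sInf {η : Cardinal.{u} | c < 2 ^ η} := csInf_mem hne
    have hτ2 : sInf {η : Cardinal.{u} | c < 2 ^ η} < μ :=
      (csInf_le' (s := {η : Cardinal.{u} | c < 2 ^ η}) hcρ).trans_lt hρ'
    have hτ3 : ∀ η < sInf {η : Cardinal.{u} | c < 2 ^ η}, 2 ^ η ≤ c :=
      fun η hη => not_lt.mp (notMem_of_lt_csInf' (s := {η : Cardinal.{u} | c < 2 ^ η}) hη)
    generalize sInf {η : Cardinal.{u} | c < 2 ^ η} = τ at hτ1 hτ2 hτ3
    have hντ : ν < τ := by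
      by_contra h
      exact absurd hτ1 (not_lt.mpr ((power_le_power_left two_ne_zero (not_lt.mp h)).trans hc1))
    have hreg : τ.IsRegular := by
      refine ⟨hν.trans hντ.le, not_lt.mp (fun h => ?_)⟩
      exact absurd hτ1 (not_lt.mpr ((two_pow_le_pow_cof (hν.trans hντ.le) hτ3).trans
        (hc3 _ (h.trans hτ2).le (hτ3 _ h))))
    rw [mk_out]
    refine loc_of_branch hreg (hν.trans_lt hντ) hτ2.le hμc hτ3 hτ1
      (uu_of_cof hreg hτ2.le hμc (fun θ hθ hμθ => (hc4 θ hθ hμθ).imp_right ?_) c le_rfl)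
      (le_trans (by simpa using power_le_power_left two_ne_zero h3) hc1)
    rintro (h | h)
    · exact (h.trans_lt hντ).ne
    · rw [h]
      exact (hτ2.trans hμθ).ne'
  obtain ⟨ι, ρ, h1, h2, -, h3⟩ := exists_cof_family hμ.le
  exact hcon (h3.trans (pi_le_of_loc hι hD (h1.trans hcof).le (fun i => hL _ (h2 i)) hDκ
    (hpow _ hμ)))

lemma exists_dom {μ : Cardinal.{u}} (hμ : ℵ₀ ≤ μ) : μ < domNum μ ∧ ∃ D : Set (μ.out → ℕ),
    #D ≤ domNum μ ∧ ∀ g : μ.out → ℕ, ∃ f ∈ D, ∀ a, g a ≤ f a := by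
  obtain ⟨D, hDc, hD⟩ := csInf_mem ⟨_, two_pow_mem hμ⟩
  have hDc' : #D = domNum μ := hDc
  obtain ⟨D', h1, h2⟩ := everywhere (ι := μ.out) (by rwa [mk_out]) D (by rwa [mk_out])
  rw [mk_out, hDc'] at h1
  have h3 : μ < domNum μ := by
    by_contra h
    obtain ⟨e⟩ : #D' ≤ #μ.out := by simpa using h1.trans (mul_le_of_le hμ (not_lt.mp h) le_rfl)
    obtain ⟨f, hf, h4⟩ := h2 (Function.extend e (fun f => f.1 (e f) + 1) (fun _ => 0))
    have := h4 (e ⟨f, hf⟩)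
    rw [e.injective.extend_apply] at this
    exact Nat.not_succ_le_self _ this
  exact ⟨h3, D', h1.trans (mul_le_of_le (hμ.trans h3.le) le_rfl h3.le), h2⟩

lemma cv_of_cofSub {θ μ : Cardinal.{u}} (h : cofSub θ μ ≤ θ) : Cv μ θ (univ : Set θ.out) := by
  obtain ⟨C, h1, h2, h3⟩ := csInf_mem (s := {c : Cardinal.{u} | ∃ C : Set (Set θ.out), #C = c ∧
    (∀ p ∈ C, #p ≤ μ) ∧ ∀ A : Set θ.out, #A ≤ μ → ∃ p ∈ C, A ⊆ p})
    ⟨_, {p | #p ≤ μ}, rfl, fun _ h => h, fun A hA => ⟨A, hA, subset_rfl⟩⟩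
  exact ⟨C, h1.le.trans h, h2, fun A _ => h3 A⟩

theorem gap_of_lt {μ : Cardinal.{u}} (hμ : ℵ₀ < μ) (hcof : μ.ord.cof = ℵ₀)
    (h : domNum μ < 2 ^ μ) : ∃ δ : Ordinal.{u}, μ < aleph δ ∧ aleph (δ + μ.ord) ≤ domNum μ ∧
      ∀ θ, aleph δ ≤ θ → θ ≤ domNum μ → θ < cofSub θ μ := by
  obtain ⟨hμκ, D, hDκ, hD⟩ := exists_dom hμ.le
  generalize domNum μ = κ at h hμκ hDκ
  let K : Set Cardinal.{u} := {b | μ ≤ b ∧ b ≤ κ ∧ Cv μ b (univ : Set b.out)}
  have hKμ : μ ∈ K := ⟨le_rfl, hμκ.le, Cv.self hμ.le (by simp)⟩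
  have hKb : BddAbove K := ⟨κ, fun _ hb => hb.2.1⟩
  have h1 : ∀ b ∈ K, b ≤ sSup K := fun b hb => le_csSup hKb hb
  have h2 : sSup K ≤ κ := csSup_le' (fun _ hb => hb.2.1)
  have h3 : ∀ ρ < sSup K, ∃ b ∈ K, ρ < b := fun ρ hρ => exists_lt_of_lt_csSup' hρ
  generalize sSup K = l at h1 h2 h3
  have hμl : μ ≤ l := h1 μ hKμ
  have h4 : l ∉ K := by
    intro hl
    rcases h2.eq_or_lt with rfl | h5
    · refine absurd h (not_lt.mpr (two_pow_le_of_families hμ hcof hD hDκ hμl (J₁ := PEmpty)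
        (J₂ := PUnit) (by simpa using aleph0_pos.trans hμ) (by simpa using one_lt_aleph0.trans hμ)
        (fun j => j.elim) (fun _ => l) (fun j => j.elim) (fun _ => hl)
        (fun ρ hρ => Or.inl ⟨PUnit.unit, hρ⟩)))
    · refine absurd (Order.lt_succ l) (not_lt.mpr (h1 _ ⟨hμl.trans (Order.le_succ _),
        Order.succ_le_of_lt h5, cv_of_cof (hμ.le.trans (hμl.trans (Order.le_succ _))) ?_
          (fun ρ hρ => ⟨l, Order.le_succ _, Order.le_of_lt_succ hρ, hl.2.2⟩)⟩))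
      rw [(isRegular_succ (hμ.le.trans hμl)).cof_ord]
      exact Order.lt_succ_of_le hμl
  have h5 : μ < l := lt_of_le_of_ne hμl (fun h' => h4 (h' ▸ hKμ))
  have h6 : l.ord.cof < μ := by
    rcases lt_trichotomy l.ord.cof μ with h' | h' | h'
    · exact h'
    · have := Ordinal.cof_ord_cof l.ord
      rw [h', hcof] at this
      exact absurd this hμ.ne
    · refine absurd ⟨hμl, h2, cv_of_cof (hμ.le.trans hμl) h' (fun ρ hρ => ?_)⟩ h4
      obtain ⟨b, hb, hρb⟩ := h3 ρ hρ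
      exact ⟨b, h1 b hb, hρb.le, hb.2.2⟩
  obtain ⟨δ, rfl⟩ := mem_range_aleph_iff.mpr (hμ.le.trans hμl)
  refine ⟨δ, h5, not_lt.mp (fun h7 => ?_), fun θ h7 h8 => not_le.mp (fun h9 => ?_)⟩
  · obtain ⟨ι, ρ, hι, hρ1, hρ2, -⟩ := exists_cof_family (aleph0_le_aleph δ)
    choose b hb1 hb2 using fun i => h3 _ (hρ1 i)
    obtain ⟨γ, rfl⟩ := mem_range_aleph_iff.mpr (hμ.le.trans hμκ.le)
    obtain ⟨β, rfl⟩ := exists_add_of_le (aleph_le_aleph.mp h2)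
    have hβ : β < μ.ord := lt_of_add_lt_add_left (aleph_lt_aleph.mp h7)
    refine absurd h (not_lt.mpr (two_pow_le_of_families hμ hcof hD hDκ hμκ.le (J₁ := β.ToType)
      (by simpa using lt_ord.mp hβ) (hι ▸ h6)
      (fun j => aleph (δ + Ordinal.typein (α := β.ToType) (· < ·) j)) b
      (fun j => ⟨hμl.trans (aleph_le_aleph.mpr le_self_add),
        aleph_lt_aleph.mpr (add_lt_add_right (Ordinal.typein_lt_self j) δ)⟩) hb1
      (fun σ hσ => ?_)))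
    by_cases hs : σ < aleph δ
    · obtain ⟨i, hi⟩ := hρ2 σ hs
      exact Or.inl ⟨i, hi.trans_lt (hb2 i)⟩
    · obtain ⟨γ, rfl⟩ := mem_range_aleph_iff.mpr ((aleph0_le_aleph δ).trans (not_lt.mp hs))
      obtain ⟨β', rfl⟩ := exists_add_of_le (aleph_le_aleph.mp (not_lt.mp hs))
      obtain ⟨j, hj⟩ := Ordinal.typein_surj (α := β.ToType) (· < ·) (o := β') (by
        rw [Ordinal.type_toType]
        exact lt_of_add_lt_add_left (aleph_lt_aleph.mp hσ))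
      exact Or.inr ⟨j, by rw [hj]⟩
  · have h10 : θ ∈ K := ⟨hμl.trans h7, h8, cv_of_cofSub h9⟩
    exact h4 (le_antisymm h7 (h1 θ h10) ▸ h10)

end Pool.Agent.Lib.MP_856180_lc
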