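import Mathlib
import Pool.Agent.Lib.MP_856180_lc.PcfHoles

/-!
The revised GCH at `μ` from a bound on the number of possible cofinalities.
-/

set_option autoImplicit false

namespace Pool.Agent.Lib.MP_856180_lc

open Cardinal Set Filter Pool.Agent.Shared.RevisedGCH

universe u

variable {μ : Cardinal.{u}}

/-- Small sets of points have few possible cofinalities. -/
def HH (W : Type u) [LinearOrder W] (μ : Cardinal.{u}) : Prop :=
  ∀ ν < μ, ∃ ρ < μ, ∀ e : Set (BW W μ), #e ≤ ν → #(Pts e) ≤ ρ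

/-- Small sets of points of cofinality at most `l` are covered by `κ` sets with possible
cofinalities at most `l`. -/
def RR (W : Type u) [LinearOrder W] (μ l κ : Cardinal.{u}) : Prop :=
  ∀ e : Set (BW W μ), #e < μ → (∀ β ∈ e, Order.cof (Iio β.1) ≤ l) →
    ∃ C : Set (Set (BW W μ)), #C ≤ κ ∧ (∀ B ∈ C, B ⊆ e ∧ Jl l B) ∧ e ⊆ ⋃₀ C

variable {W : Type u} [LinearOrder W]

lemma RR.mono {l κ κ' : Cardinal.{u}} (h : RR W μ l κ) (hκ : κ ≤ κ') : RR W μ l κ' := by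
  intro e h1 h2
  obtain ⟨C, h3, h4⟩ := h e h1 h2
  exact ⟨C, h3.trans hκ, h4⟩

variable [WellFoundedLT W]

lemma swap {b : ℕ → Cardinal.{u}} (hμ : Sing μ b) (hH : HH W μ) {l : Cardinal.{u}} (hl : μ ≤ l)
    {t : W} (ht : l ≤ #(Iio t)) {K : Type u} {eK : Set K} (heK : #eK < μ) {D : Filter K}
    (hD : eK ∈ D) {g : K → W} {κ₀ : Cardinal.{u}} (hκ₀ : ℵ₀ ≤ κ₀) (hκμ : κ₀ < μ)
    (hR : ∀ᶠ i in D, RR W μ #(Iio (g i)) κ₀) (hRep : Rep μ D g l) (s₀ : K → BW W μ)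
    (hno : ∀ s : K → W, (∀ i, Big μ (s i)) → (∀ᶠ i in D, s i ≤ g i) →
      ¬ Dir D s (Order.succ l)) : ∃ κ < μ, RR W μ l κ := by
  classical
  have h0 := hμ.aleph0_lt.le
  have hB : ∀ i : BW W μ, Big μ i.1 := fun i => i.2
  obtain ⟨ρ₀, hρ₀, hρ₀'⟩ := hH _ (max_lt heK hκμ)
  refine ⟨max ρ₀ ℵ₀, max_lt hρ₀ hμ.aleph0_lt, fun e he hcof => ?_⟩
  let e₀ : Set (BW W μ) := {β | β ∈ e ∧ Order.cof (Iio β.1) < l}
  have h1 : ∀ β : BW W μ, ∃ (h : K → BW W μ) (f : W → K → W) (r : (K → W) → W), β ∈ e₀ →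
      (∀ᶠ i in D, (h i).1 < g i) ∧ (∀ ξ i, f ξ i < (h i).1) ∧ ∀ G, Pr (fun i => (h i).1) G →
        r G < β.1 ∧ ∀ ξ, r G ≤ ξ → ξ < β.1 → ∀ᶠ i in D, G i < f ξ i := by
    intro β
    by_cases hβ : β ∈ e₀
    · obtain ⟨h, f, h2, h3, h4⟩ := hRep β hβ.2
      have : Nonempty W := ⟨t⟩
      choose! r h5 h6 using h4
      exact ⟨h, f, r, fun _ => ⟨h2, h3, fun G hG => ⟨h5 G hG, h6 G hG⟩⟩⟩
    · exact ⟨s₀, fun _ _ => t, fun _ => t, fun h => absurd h hβ⟩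
  choose h f r hr using h1
  let eh : Set (BW W μ) := range (fun z : e₀ × eK => h z.1.1 z.2.1)
  have he₀ : #e₀ < μ := (mk_le_mk_of_subset (fun β hβ => hβ.1)).trans_lt he
  have hz : #(e₀ × eK) < μ := by
    rw [mk_prod, lift_id, lift_id]
    exact mul_lt_of_lt h0 he₀ heK
  obtain ⟨ρ₁, hρ₁, hρ₁'⟩ := hH _ (mk_range_le.trans_lt hz : #(eh) < μ)
  have hPh : #(Pts eh) < μ := (hρ₁' eh le_rfl).trans_lt hρ₁
  have he' : #(eh ∪ Pts eh : Set (BW W μ)) < μ :=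
    (mk_union_le _ _).trans_lt (add_lt_of_lt h0 (mk_range_le.trans_lt hz) hPh)
  obtain ⟨ρ₂, hρ₂, hρ₂'⟩ := hH _ he'
  have hP' : #(Pts (eh ∪ Pts eh)) ≤ μ := (hρ₂' _ le_rfl).trans hρ₂.le
  obtain ⟨Y, _, _, hY⟩ := exists_YY (θ := max #(eh ∪ Pts eh : Set (BW W μ)) ℵ₀) (le_max_right _ _)
  have hθ := max_lt he' hμ.aleph0_lt
  obtain ⟨u, req, hu, hreq, hex⟩ := exact_limit hμ hY hθ (le_max_left _ _) hP'
  choose Φ hΦ1 hΦ2 using fun (p : BW W μ) (γ : W) => bound_fam hB hPh.le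
    (fun q => u q.1 (u p γ q.1)) (fun q => hu _ _)
  obtain ⟨g0, hg0, -⟩ := bound_fam hB (J := PEmpty.{u + 1}) (by simp) (fun j => j.elim)
    (fun j => j.elim)
  let φ : BW W μ → W → BW W μ → W := fun p γ β =>
    if β ∈ e₀ then r β (fun i => Φ p γ (h β i)) else g0 β
  have hφ : ∀ p γ, Pr Subtype.val (φ p γ) := by
    intro p γ β
    simp only [φ]
    split_ifs with hβ
    · exact ((hr β hβ).2.2 _ (fun i => hΦ1 p γ _)).1
    · exact hg0 β
  obtain ⟨ψ, hψ1, hψ2⟩ := dir_FF (le_max_right _ _) (hμ.succ_lt (max_lt he hμ.aleph0_lt)).le hB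
    (le_max_left _ _) (Order.succ l) (Pts (eh ∪ Pts eh) × {ξ : W // #(Iio ξ) < l})
    (fun z => φ z.1.1 z.2.1)
    (Order.lt_succ_of_le (by
      rw [mk_prod, lift_id, lift_id]
      exact mul_le_of_le (h0.trans hl) (hP'.trans hl) (mk_low l))) (fun z => hφ _ _)
  obtain ⟨x, tt, ex, z, hz1, hz2, -, htt, hQ⟩ := chain_rec hY (hμ.succ_lt hθ).le hB
    (Ex := PUnit.{u + 1}) (fun _ _ y k _ => (∀ β, req y β ≤ k β) ∧ (∀ β, ψ β ≤ k β) ∧
      ∀ β ∈ e₀, ∀ i ∈ eK, f β (y β) i ≤ k (h β i)) (by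
    intro _ _ y hy _
    obtain ⟨k₁, h2, h3, h4⟩ := bound_two h0 hB (hreq y hy) hψ1
    obtain ⟨k₂, h5, h6⟩ := bound_pairs hB hz.le (fun z => h z.1.1 z.2.1)
      (fun z => f z.1.1 (y z.1.1) z.2.1) (fun z => (hr _ z.1.2).2.1 _ _)
    obtain ⟨k, h7, h8, h9⟩ := bound_two h0 hB h2 h5
    exact ⟨k, PUnit.unit, h7, fun β => ((h3 β).trans (h8 β)).le, fun β => ((h4 β).trans (h8 β)).le,
      fun β hβ i hi => ((h6 (⟨β, hβ⟩, ⟨i, hi⟩)).trans (h9 _)).le⟩)
  have hlt : ∀ α β, tt α β < z β := by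
    intro α β
    obtain ⟨α', hα'⟩ := hY.next α
    exact (htt α α' hα' β).trans_lt ((hz2 β).lt α')
  have hex' := hex x z ⊥ hz1 hz2
    (fun α α' _ hα β => ((hQ α).1 β).trans (htt α α' hα β))
  have h2 : ∀ i, ∃ Θ : Set (BW W μ), #Θ ≤ κ₀ ∧ (∀ p ∈ Θ, p ∈ Pts eh ∧ p.1 ≤ g i) ∧
      (i ∈ eK → RR W μ #(Iio (g i)) κ₀ → ∀ β ∈ e₀, (h β i).1 < g i →
        ∃ p ∈ Θ, u p (z p) (h β i) = z (h β i)) := by
    intro i
    by_cases hi : i ∈ eK ∧ RR W μ #(Iio (g i)) κ₀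
    swap
    · exact ⟨∅, by simp, by simp, fun h2 h3 => absurd ⟨h2, h3⟩ hi⟩
    obtain ⟨C, h2, h3, h4⟩ := hi.2 {q | q ∈ eh ∧ q.1 < g i}
      ((mk_le_mk_of_subset (fun q hq => hq.1)).trans_lt (mk_range_le.trans_lt hz))
      (fun q hq => (Order.cof_le_cardinalMk _).trans (mk_le_mk_of_subset (Iio_subset_Iio hq.2.le)))
    choose s h5 h6 using fun B : C => compact_cover (B := B.1)
      (T := {p | p ∈ Pts eh ∧ p.1 ≤ g i}) (fun p => {q | u p (z p) q = z q}) (by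
        intro U hU
        have h5 : eh ∈ U := mem_of_superset hU (fun q hq => ((h3 B.1 B.2).1 hq).1)
        obtain ⟨p, h6, h7⟩ := exists_mem_Pts h0 h5 ((h3 B.1 B.2).2 U hU)
        exact ⟨p, ⟨h6, h6.1.le (h7 ▸ (h3 B.1 B.2).2 U hU)⟩, hex' p (Pts_mono subset_union_left h6)
          U (mem_of_superset h5 subset_union_left) h7⟩)
    refine ⟨⋃ B, ↑(s B), iUnion_le hκ₀ _ h2 (fun B => (lt_aleph0_of_finite _).le.trans hκ₀),
      fun p hp => ?_, fun _ _ β hβ h7 => ?_⟩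
    · obtain ⟨B, hB'⟩ := mem_iUnion.mp hp
      exact h5 B hB'
    · obtain ⟨B, h8, h9⟩ := h4 (show h β i ∈ {q | q ∈ eh ∧ q.1 < g i} from
        ⟨⟨(⟨β, hβ⟩, ⟨i, hi.1⟩), rfl⟩, h7⟩)
      obtain ⟨p, h10, h11⟩ := h6 ⟨B, h8⟩ _ h9
      exact ⟨p, mem_iUnion.mpr ⟨⟨B, h8⟩, h10⟩, h11⟩
  choose Θ hΘ1 hΘ2 hΘ3 using h2
  have he₁ : #(⋃ i : eK, Θ i : Set (BW W μ)) ≤ max #eK κ₀ :=
    iUnion_le (hκ₀.trans (le_max_right _ _)) _ (le_max_left _ _)
      (fun i => (hΘ1 i).trans (le_max_right _ _))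
  have he₁' : (⋃ i : eK, Θ i : Set (BW W μ)) ⊆ eh ∪ Pts eh :=
    iUnion_subset (fun i p hp => Or.inr (hΘ2 i p hp).1)
  have h3 : ∀ β ∈ e₀, ∃ p ∈ Pts (⋃ i : eK, Θ i : Set (BW W μ)), #(Iio p.1) ≤ l ∧
      z β ≤ φ p (z p) β := by
    intro β hβ
    have h3 : ∀ i, ∃ p : BW W μ, (i ∈ eK ∧ RR W μ #(Iio (g i)) κ₀ ∧ (h β i).1 < g i) →
        p ∈ Θ i ∧ u p (z p) (h β i) = z (h β i) := by
      intro i
      by_cases hi : i ∈ eK ∧ RR W μ #(Iio (g i)) κ₀ ∧ (h β i).1 < g i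
      · obtain ⟨p, h3⟩ := hΘ3 i hi.1 hi.2.1 β hβ hi.2.2
        exact ⟨p, fun _ => h3⟩
      · exact ⟨s₀ i, fun h3 => absurd h3 hi⟩
    choose s hs using h3
    have h4 : ∀ᶠ i in D, i ∈ eK ∧ s i ∈ Θ i ∧ u (s i) (z (s i)) (h β i) = z (h β i) := by
      filter_upwards [hD, hR, (hr β hβ).1] with i h4 h5 h6 using ⟨h4, hs i ⟨h4, h5, h6⟩⟩
    obtain ⟨U, h5, h6⟩ : ∃ U : Ultrafilter K, (U : Filter K) ≤ D ∧
        cf U (fun i => (s i).1) ≤ l := by
      by_contra hcon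
      push Not at hcon
      exact hno _ (fun i => (s i).2) (h4.mono (fun i hi => (hΘ2 i _ hi.2.1).2))
        (dir_of_ultra hμ (fun i => (s i).2) heK hD (fun U hU => Order.succ_le_of_lt (hcon U hU)))
    rw [cf_map h0 (fun i => (s i).2) hB s heK.le (h5 hD) (fun _ _ => rfl)] at h6
    have h7 : (⋃ i : eK, Θ i : Set (BW W μ)) ∈ U.map s := Ultrafilter.mem_map.mpr
      (mem_of_superset (h5 h4) (fun i hi => mem_iUnion.mpr ⟨⟨i, hi.1⟩, hi.2.1⟩))
    obtain ⟨p, h8, h9⟩ := exists_mem_Pts h0 h7 (h6.trans ht)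
    refine ⟨p, h8, h9 ▸ h6, ?_⟩
    have h10 := hex' p (Pts_mono he₁' h8) _ (mem_of_superset h7 he₁') h9
    rw [Ultrafilter.coe_map, eventually_map] at h10
    simp only [φ, if_pos hβ]
    by_contra hcon
    obtain ⟨α, hα⟩ := (hz2 β).cofinal _ (not_le.mp hcon)
    have h11 := ((hr β hβ).2.2 _ (fun i => hΦ1 p (z p) _)).2 _ hα.le
      (((hz2 β).lt α).trans (hz1 β))
    obtain ⟨i, h12, h13, h14⟩ := (h10.and ((h4.and h11).filter_mono h5)).exists
    have h15 := hΦ2 p (z p) ⟨s i, (hΘ2 i _ h13.2.1).1⟩ (h β i)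
    simp only [h12, h13.2.2] at h15
    exact lt_irrefl _ (h15.trans ((h14.trans_le ((hQ α).2.2 β hβ i h13.1)).trans (hlt α _)))
  refine ⟨insert (e \ e₀) ((fun p => {β | β ∈ e ∧ z β ≤ φ p (z p) β}) ''
    {p | p ∈ Pts (⋃ i : eK, Θ i : Set (BW W μ)) ∧ #(Iio p.1) ≤ l}), ?_, ?_, fun β hβ => ?_⟩
  · exact mk_insert_le.trans (add_le_of_le (le_max_right _ _) (mk_image_le.trans
      ((mk_le_mk_of_subset (fun p hp => hp.1)).trans ((hρ₀' _ he₁).trans (le_max_left _ _))))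
      (one_le_aleph0.trans (le_max_right _ _)))
  · rintro B (rfl | ⟨p, hp, rfl⟩)
    · exact ⟨sdiff_subset, jl_cof h0 ((mk_le_mk_of_subset sdiff_subset).trans he.le)
        (fun β hβ => le_antisymm (hcof β hβ.1) (not_lt.mp (fun h4 => hβ.2 ⟨hβ.1, h4⟩)))⟩
    · refine ⟨fun β hβ => hβ.1, fun U hU => not_lt.mp (fun h4 => ?_)⟩
      have h5 := ev_FF.mp (hψ2 (⟨p, Pts_mono he₁' hp.1⟩,
        ⟨z p, (hp.1.1 _ (hz1 p)).trans_le hp.2⟩)) U
        (mem_of_superset hU (fun β hβ => hβ.1)) (Order.succ_le_of_lt h4)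
      obtain ⟨β, h6, h7⟩ := (h5.and (show ∀ᶠ β in (U : Filter (BW W μ)),
        β ∈ {β | β ∈ e ∧ z β ≤ φ p (z p) β} from hU)).exists
      exact lt_irrefl _ ((h7.2.trans_lt h6).trans (((hQ ⊥).2.1 β).trans_lt (hlt ⊥ β)))
  · by_cases h4 : β ∈ e₀
    · obtain ⟨p, h5, h6, h7⟩ := h3 β h4
      exact ⟨_, Or.inr ⟨p, ⟨h5, h6⟩, rfl⟩, hβ, h7⟩
    · exact ⟨_, Or.inl rfl, hβ, h4⟩

theorem revised {b : ℕ → Cardinal.{u}} (hμ : Sing μ b) (hH : HH W μ) {t : W} (l : Cardinal.{u}) :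
    l ≤ #(Iio t) → ∃ κ < μ, RR W μ l κ := by
  classical
  have h0 := hμ.aleph0_lt.le
  have hB : ∀ i : BW W μ, Big μ i.1 := fun i => i.2
  induction l using WellFoundedLT.induction with
  | ind l ih =>
    intro ht
    by_cases hl : l ≤ μ
    · refine ⟨ℵ₀, hμ.aleph0_lt, fun e _ h => ⟨∅, by simp, by simp, fun β hβ => ?_⟩⟩
      exact absurd ((h β hβ).trans hl) (not_le.mpr β.2)
    by_cases H : ∃ (K : Type u) (eK : Set K) (D : Filter K) (s : K → W), #eK < μ ∧ eK ∈ D ∧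
        CountableInterFilter D ∧ D.NeBot ∧ (∀ i, Big μ (s i)) ∧ (∀ᶠ i in D, #(Iio (s i)) < l) ∧
        Dir D s (Order.succ l)
    · obtain ⟨K, eK, D, s, h1, h2, h3, h4, h5, h6, h7⟩ := H
      obtain ⟨g₁, h8, h9⟩ := no_holes hμ h1 h2 h5 h7
      obtain ⟨g, ⟨h10, h11⟩, hmin⟩ := (wf_lt (W := W) D).has_min
        {g | Rep μ D g l ∧ ∀ᶠ i in D, #(Iio (g i)) < l} ⟨g₁, h9, h6.mono (fun i hi =>
          (mk_le_mk_of_subset (Iio_subset_Iio (h8 i).le)).trans_lt hi)⟩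
      have hA : ∀ i, ∃ m, #(Iio (g i)) < l → RR W μ #(Iio (g i)) (b m) := by
        intro i
        by_cases hi : #(Iio (g i)) < l
        · obtain ⟨κ, h12, h13⟩ := ih _ hi (hi.le.trans ht)
          obtain ⟨m, hm⟩ := hμ.cofinal κ h12
          exact ⟨m, fun _ => h13.mono hm⟩
        · exact ⟨0, fun h => absurd h hi⟩
      choose m hm using hA
      obtain ⟨n, hn⟩ : ∃ n, ∀ s : K → W, (∀ i, Big μ (s i)) →
          (∀ᶠ i in D ⊓ 𝓟 {i | m i = n}, s i ≤ g i) →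
          ¬ Dir (D ⊓ 𝓟 {i | m i = n}) s (Order.succ l) := by
        by_contra hcon
        push Not at hcon
        choose s' h12 h13 h14 using hcon
        have h15 : Dir D (fun i => s' (m i) i) (Order.succ l) := by
          intro J k hJ hk
          choose g0 hg0 _ using fun n => bound_fam (h12 n) (J := PEmpty.{u + 1}) (by simp)
            (fun j => j.elim) (fun j => j.elim)
          choose y h15 h16 using fun n => h14 n J (fun j i => if m i = n then k j i else g0 n i) hJ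
            (by
              intro j i
              dsimp only
              split_ifs with h15
              · exact h15 ▸ hk j i
              · exact hg0 n i)
          refine ⟨fun i => y (m i) i, fun i => h15 _ i, fun j => ?_⟩
          filter_upwards [eventually_countable_forall.mpr
            (fun n => eventually_inf_principal.mp (h16 n j))] with i hi
          simpa using hi (m i) rfl
        obtain ⟨g', h16, h17⟩ := no_holes hμ h1 h2 (fun i => h12 _ i) h15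
        have h18 : ∀ᶠ i in D, g' i < g i := by
          filter_upwards [eventually_countable_forall.mpr
            (fun n => eventually_inf_principal.mp (h13 n))] with i hi
          exact (h16 i).trans_le (hi (m i) rfl)
        refine hmin g' ⟨h17, ?_⟩ h18
        filter_upwards [h18, h11] with i h19 h20
        exact (mk_le_mk_of_subset (Iio_subset_Iio h19.le)).trans_lt h20
      refine swap hμ hH (not_le.mp hl).le ht h1 (D := D ⊓ 𝓟 {i | m i = n}) (mem_inf_of_left h2)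
        (hμ.b_inf n) (hμ.b_lt n) ?_ (fun p hp => ?_) (fun i => ⟨s i, h5 i⟩) hn
      · exact eventually_inf_principal.mpr (h11.mono (fun i hi h12 => h12 ▸ hm i hi))
      · obtain ⟨h, f, h12, h13⟩ := h10 p hp
        exact ⟨h, f, h12.filter_mono inf_le_left, h13.mono inf_le_left⟩
    · refine ⟨ℵ₀, hμ.aleph0_lt, fun e he hcof => ?_⟩
      let J : Set (Set (BW W μ)) := {X | ∃ C : Set (Set (BW W μ)), C.Countable ∧
        (∀ B ∈ C, B ⊆ e ∧ Jl l B) ∧ X ∩ e ⊆ ⋃₀ C}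
      have hJ1 : ∀ T : Set (Set (BW W μ)), T.Countable → (∀ s ∈ T, s ∈ J) → ⋃₀ T ∈ J := by
        intro T hT hTJ
        choose! C h1 h2 h3 using hTJ
        refine ⟨⋃ s ∈ T, C s, hT.biUnion h1, fun B hB' => ?_, ?_⟩
        · obtain ⟨s, h4, h5⟩ := mem_iUnion₂.mp hB'
          exact h2 s h4 B h5
        · rintro j ⟨⟨s, hs, hj⟩, hje⟩
          obtain ⟨q, hq, hjq⟩ := h3 s hs ⟨hj, hje⟩
          exact ⟨q, mem_biUnion hs hq, hjq⟩
      have hJ2 : ∀ t ∈ J, ∀ s ⊆ t, s ∈ J := by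
        rintro t ⟨C, h1, h2, h3⟩ s hs
        exact ⟨C, h1, h2, (inter_subset_inter_left _ hs).trans h3⟩
      have hJ3 : ∀ B ⊆ e, Jl l B → Bᶜ ∈ Filter.ofCountableUnion J hJ1 hJ2 := by
        intro B h1 h2
        rw [Filter.mem_ofCountableUnion, compl_compl]
        exact ⟨{B}, countable_singleton _, by rintro _ rfl; exact ⟨h1, h2⟩,
          fun x hx => ⟨B, rfl, hx.1⟩⟩
      by_contra hcon
      have hne : (Filter.ofCountableUnion J hJ1 hJ2).NeBot := by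
        rw [← Filter.forall_mem_nonempty_iff_neBot]
        intro s hs
        rw [Filter.mem_ofCountableUnion] at hs
        by_contra hemp
        rw [not_nonempty_iff_eq_empty] at hemp
        rw [hemp, compl_empty] at hs
        obtain ⟨C, h1, h2, h3⟩ := hs
        exact hcon ⟨C, le_aleph0_iff_set_countable.mpr h1, h2, fun x hx => h3 ⟨mem_univ _, hx⟩⟩
      have heD : e ∈ Filter.ofCountableUnion J hJ1 hJ2 := by
        rw [Filter.mem_ofCountableUnion]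
        exact ⟨∅, countable_empty, by simp, fun x hx => absurd hx.2 hx.1⟩
      choose q h1 h2 h3 using fun β : BW W μ => exists_reg_pt h0 β
      refine H ⟨BW W μ, e, Filter.ofCountableUnion J hJ1 hJ2, fun β => (q β).1, he, heD,
        inferInstance, hne, fun β => (q β).2, ?_,
        dir_of_ultra hμ (fun β => (q β).2) he heD (fun U hU => ?_)⟩
      · filter_upwards [heD, hJ3 {β | β ∈ e ∧ Order.cof (Iio β.1) = l} (fun β hβ => hβ.1)
          (jl_cof h0 ((mk_le_mk_of_subset (fun β hβ => hβ.1)).trans he.le) (fun β hβ => hβ.2))]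
          with β h4 h5
        rw [h2]
        exact lt_of_le_of_ne (hcof β h4) (fun h6 => h5 ⟨h4, h6⟩)
      · rw [cf_map h0 (fun β => (q β).2) hB id he.le (hU heD) (fun β _ => h3 β)]
        refine Order.succ_le_of_lt (not_le.mp (fun h4 => ?_))
        obtain ⟨B, h5, h6, h7⟩ := exists_gen hμ he ht (U := U) (hU heD) h4
        exact Ultrafilter.compl_mem_iff_notMem.mp (hU (hJ3 B h5 h7)) h6

end Pool.Agent.Lib.MP_856180_lc
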