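import Mathlib
import Pool.Agent.Lib.MP_856180_lc.PcfRG

/-!
Hierarchies of small sets built downwards from the top point.
-/

set_option autoImplicit false

namespace Pool.Agent.Lib.MP_856180_lc

open Cardinal Set Filter Pool.Agent.Shared.RevisedGCH

universe u

variable {W : Type u} [LinearOrder W] {μ : Cardinal.{u}} {M : Type u}

lemma exists_lad (hμ : ℵ₀ ≤ μ) : ∃ (lad : W → μ.out → W) (inv : W → W → μ.out),
    ∀ β, ¬ Big μ β → ∀ α < β, α ≤ lad β (inv β α) ∧ lad β (inv β α) < β := by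
  have hne : Nonempty μ.out := by
    rw [← mk_ne_zero_iff, mk_out]
    exact (aleph0_pos.trans_le hμ).ne'
  have h1 : ∀ β : W, ∃ (l : μ.out → W) (v : W → μ.out),
      ¬ Big μ β → ∀ α < β, α ≤ l (v α) ∧ l (v α) < β := by
    intro β
    by_cases hβ : Big μ β
    · exact ⟨fun _ => β, fun _ => Classical.arbitrary _, fun h => absurd hβ h⟩
    obtain ⟨C, hC1, hC2⟩ := Order.exists_cof_eq (Iio β)
    obtain ⟨j⟩ : #C ≤ #μ.out := by simpa using hC2.le.trans (not_lt.mp hβ)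
    have h2 : ∀ α, ∃ v, α < β → α ≤ Function.extend j (fun c => c.1.1) (fun _ => β) v ∧
        Function.extend j (fun c => c.1.1) (fun _ => β) v < β := by
      intro α
      by_cases hα : α < β
      · obtain ⟨c, h2, h3⟩ := hC1 ⟨α, hα⟩
        refine ⟨j ⟨c, h2⟩, fun _ => ?_⟩
        rw [j.injective.extend_apply]
        exact ⟨h3, c.2⟩
      · exact ⟨Classical.arbitrary _, fun h => absurd h hα⟩
    choose v hv using h2
    exact ⟨_, v, fun _ => hv⟩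
  choose lad inv h using h1
  exact ⟨lad, inv, h⟩

lemma recon [WellFoundedLT W] {t : W} {L N : Set W} (ht : t ∈ L) (hN : ∀ α ∈ N, α ≤ t)
    (h : ∀ β ∈ L, ∀ α ∈ N, α < β → ∃ α' ∈ L, α ≤ α' ∧ α' < β) : N ⊆ L := by
  intro α hα
  obtain ⟨β, ⟨h1, h2⟩, h3⟩ := WellFounded.has_min wellFounded_lt {β | β ∈ L ∧ α ≤ β}
    ⟨t, ht, hN α hα⟩
  rcases h2.eq_or_lt with rfl | h4
  · exact h1
  · obtain ⟨α', h5, h6, h7⟩ := h β h1 α hα h4
    exact absurd h7 (h3 α' ⟨h5, h6⟩)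

lemma pigeonJ {J K : Type u} {ν : Cardinal.{u}} (hν : ℵ₀ ≤ ν) (hK : #K ≤ ν) {A : Set J}
    (hA : ν < #A) (T : K → Set J) (h : ∀ j ∈ A, ∃ k, j ∈ T k) : ∃ k, ν < #(A ∩ T k : Set J) := by
  by_contra hcon
  push Not at hcon
  refine absurd hA (not_lt.mpr (le_trans (mk_le_mk_of_subset (fun j hj => ?_))
    (iUnion_le hν _ hK hcon)))
  obtain ⟨k, hk⟩ := h j hj
  exact mem_iUnion.mpr ⟨k, hj, hk⟩

lemma closure_family {X : Type u} {θ κ : Cardinal.{u}} (hκ : ℵ₀ ≤ κ) {q₀ : Set X} (h0 : #q₀ ≤ θ)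
    (op : Set X → Set (Set X)) (h : ∀ q : Set X, #q ≤ θ → #(op q) ≤ κ ∧ ∀ q' ∈ op q, #q' ≤ θ) :
    ∃ C : Set (Set X), #C ≤ κ ∧ q₀ ∈ C ∧ (∀ q ∈ C, #q ≤ θ) ∧ ∀ q ∈ C, op q ⊆ C := by
  let CC : ℕ → Set (Set X) := fun n => Nat.rec {q₀} (fun _ A => ⋃ q : A, op q.1) n
  have h1 : ∀ n, #(↥(CC n)) ≤ κ ∧ ∀ q ∈ CC n, #q ≤ θ := by
    intro n
    induction n with
    | zero => exact ⟨by simpa [CC] using one_le_aleph0.trans hκ, fun q hq => (show q = q₀ from hq) ▸ h0⟩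
    | succ n ih =>
      refine ⟨iUnion_le hκ _ ih.1 (fun q => (h _ (ih.2 _ q.2)).1), fun q' hq' => ?_⟩
      obtain ⟨q, hq⟩ := mem_iUnion.mp hq'
      exact (h _ (ih.2 _ q.2)).2 q' hq
  refine ⟨⋃ n, CC n, iUnion_nat_le hκ _ (fun n => (h1 n).1), mem_iUnion.mpr ⟨0, rfl⟩,
    fun q hq => ?_, fun q hq q' hq' => ?_⟩
  · obtain ⟨n, hn⟩ := mem_iUnion.mp hq
    exact (h1 n).2 q hn
  · obtain ⟨n, hn⟩ := mem_iUnion.mp hq
    exact mem_iUnion.mpr ⟨n + 1, mem_iUnion.mpr ⟨⟨q, hn⟩, hq'⟩⟩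

/-- One step down from `e`, along ladders and along the pools of the points of `B`. -/
def stp (lad : W → M → W) (Ξ : Set M) (pool : BW W μ → Set W) (e : Set W) (B : Set (BW W μ)) :
    Set W :=
  {w | w ∈ e ∨ (∃ β ∈ e, ∃ ξ ∈ Ξ, lad β ξ = w) ∨ ∃ β ∈ B, w ∈ pool β}

lemma stp_mono {lad : W → M → W} {Ξ Ξ' : Set M} {pool pool' : BW W μ → Set W} {e e' : Set W}
    {B B' : Set (BW W μ)} (h1 : Ξ ⊆ Ξ') (h2 : ∀ β, pool β ⊆ pool' β) (h3 : e ⊆ e') (h4 : B ⊆ B') :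
    stp lad Ξ pool e B ⊆ stp lad Ξ' pool' e' B' := by
  rintro w (h | ⟨β, h5, ξ, h6, h7⟩ | ⟨β, h5, h6⟩)
  · exact Or.inl (h3 h)
  · exact Or.inr (Or.inl ⟨β, h3 h5, ξ, h1 h6, h7⟩)
  · exact Or.inr (Or.inr ⟨β, h4 h5, h2 β h6⟩)

lemma mk_val_le (e : Set W) : #(Subtype.val ⁻¹' e : Set (BW W μ)) ≤ #e :=
  mk_preimage_of_injective _ _ Subtype.val_injective

lemma mk_stp {lad : W → M → W} {Ξ : Set M} {pool : BW W μ → Set W} {e : Set W}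
    {B : Set (BW W μ)} {θ : Cardinal.{u}} (hθ : ℵ₀ ≤ θ) (h1 : #Ξ ≤ θ) (h2 : ∀ β, #(pool β) ≤ θ)
    (h3 : #e ≤ θ) (h4 : B ⊆ Subtype.val ⁻¹' e) : #(stp lad Ξ pool e B) ≤ θ := by
  have h5 : stp lad Ξ pool e B ⊆ e ∪ (image2 lad e Ξ ∪ ⋃ β : B, pool β.1) := by
    rintro w (h | h | ⟨β, h5, h6⟩)
    · exact Or.inl h
    · exact Or.inr (Or.inl h)
    · exact Or.inr (Or.inr (mem_iUnion.mpr ⟨⟨β, h5⟩, h6⟩))
  refine (mk_le_mk_of_subset h5).trans ((mk_union_le _ _).trans (add_le_of_le hθ h3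
    ((mk_union_le _ _).trans (add_le_of_le hθ (mk_image2_le.trans (mul_le_of_le hθ h3 h1))
      (iUnion_le hθ _ ((mk_le_mk_of_subset h4).trans ((mk_val_le e).trans h3)) (fun β => h2 _))))))

/-- The sets reached in `n` steps through clopen sets. -/
def Hier (lad : W → M → W) (t : W) (l : Cardinal.{u}) (Ξ : Set M) (pool : BW W μ → Set W) :
    ℕ → Set (Set W)
  | 0 => {{t}}
  | n + 1 => {e' | ∃ e ∈ Hier lad t l Ξ pool n, ∃ B ∈ Clop l (Subtype.val ⁻¹' e),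
      stp lad Ξ pool e B = e'}

/-- The points reached in `n` steps. -/
def Full (lad : W → M → W) (t : W) (Ξ : Set M) (pool : BW W μ → Set W) : ℕ → Set W
  | 0 => {t}
  | n + 1 => stp lad Ξ pool (Full lad t Ξ pool n) (Subtype.val ⁻¹' Full lad t Ξ pool n)

variable {lad : W → M → W} {t : W} {l : Cardinal.{u}} {Ξ : Set M} {pool : BW W μ → Set W}

lemma Hier.sub (n : ℕ) : ∀ e ∈ Hier lad t l Ξ pool n, e ⊆ Full lad t Ξ pool n := by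
  induction n with
  | zero => rintro _ rfl; exact subset_rfl
  | succ n ih =>
    rintro _ ⟨e, h1, B, h2, rfl⟩
    exact stp_mono subset_rfl (fun _ => subset_rfl) (ih e h1) (h2.1.trans (preimage_mono (ih e h1)))

lemma Hier.card {θ : Cardinal.{u}} (hθ : ℵ₀ ≤ θ) (h1 : #Ξ ≤ θ) (h2 : ∀ β, #(pool β) ≤ θ) (n : ℕ) :
    ∀ e ∈ Hier lad t l Ξ pool n, #e ≤ θ := by
  induction n with
  | zero => rintro _ rfl; simpa using one_le_aleph0.trans hθ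
  | succ n ih =>
    rintro _ ⟨e, h3, B, h4, rfl⟩
    exact mk_stp hθ h1 h2 (ih e h3) h4.1

lemma mk_Hier {θ ρ : Cardinal.{u}} (hθ : ℵ₀ ≤ θ) (hρ : ℵ₀ ≤ ρ) (h1 : #Ξ ≤ θ)
    (h2 : ∀ β, #(pool β) ≤ θ) (h3 : ∀ e : Set (BW W μ), #e ≤ θ → #(Clop l e) ≤ ρ) (n : ℕ) :
    #(Hier lad t l Ξ pool n) ≤ ρ := by
  induction n with
  | zero => simpa [Hier] using one_le_aleph0.trans hρ
  | succ n ih =>
    refine le_trans (mk_le_mk_of_subset (t := ⋃ e : Hier lad t l Ξ pool n,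
      stp lad Ξ pool e.1 '' Clop l (Subtype.val ⁻¹' e.1)) ?_) (iUnion_le hρ _ ih (fun e =>
        mk_image_le.trans (h3 _ ((mk_val_le _).trans (Hier.card hθ h1 h2 n _ e.2)))))
    rintro _ ⟨e, h4, B, h5, rfl⟩
    exact mem_iUnion.mpr ⟨⟨e, h4⟩, B, h5, rfl⟩

lemma Hier.trace {I : Type u} [LinearOrder I] [Nonempty I] {Ξ' : I → Set M}
    {pool' : I → BW W μ → Set W} (h1 : Monotone Ξ') (h2 : ∀ β, Monotone (fun i => pool' i β))
    (h3 : ∀ ξ, ξ ∈ Ξ ↔ ∃ i, ξ ∈ Ξ' i) (h4 : ∀ β w, w ∈ pool β ↔ ∃ i, w ∈ pool' i β) (n : ℕ) :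
    ∀ e ∈ Hier lad t l Ξ pool n, ∃ e' : I → Set W, Monotone e' ∧
      (∀ i, e' i ∈ Hier lad t l (Ξ' i) (pool' i) n) ∧ ∀ w, w ∈ e ↔ ∃ i, w ∈ e' i := by
  induction n with
  | zero =>
    rintro _ rfl
    exact ⟨fun _ => {t}, monotone_const, fun _ => rfl, fun w => by simp⟩
  | succ n ih =>
    rintro _ ⟨e, h5, B, h6, rfl⟩
    obtain ⟨e', h7, h8, h9⟩ := ih e h5
    have h10 : ∀ i, e' i ⊆ e := fun i w hw => (h9 w).mpr ⟨i, hw⟩
    refine ⟨fun i => stp lad (Ξ' i) (pool' i) (e' i) (B ∩ Subtype.val ⁻¹' e' i),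
      fun i j hij => stp_mono (h1 hij) (fun β => h2 β hij) (h7 hij)
        (inter_subset_inter_right _ (preimage_mono (h7 hij))),
      fun i => ⟨e' i, h8 i, _, Clop.trace h6 (preimage_mono (h10 i)), rfl⟩, fun w => ⟨?_, ?_⟩⟩
    · rintro (h | ⟨β, h11, ξ, h12, h13⟩ | ⟨β, h11, h12⟩)
      · obtain ⟨i, hi⟩ := (h9 w).mp h
        exact ⟨i, Or.inl hi⟩
      · obtain ⟨i, hi⟩ := (h9 β).mp h11
        obtain ⟨j, hj⟩ := (h3 ξ).mp h12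
        exact ⟨max i j, Or.inr (Or.inl
          ⟨β, h7 (le_max_left i j) hi, ξ, h1 (le_max_right i j) hj, h13⟩)⟩
      · obtain ⟨i, hi⟩ := (h9 β.1).mp (h6.1 h11)
        obtain ⟨j, hj⟩ := (h4 β w).mp h12
        exact ⟨max i j, Or.inr (Or.inr
          ⟨β, ⟨h11, h7 (le_max_left i j) hi⟩, h2 β (le_max_right i j) hj⟩)⟩
    · rintro ⟨i, hi⟩
      exact stp_mono (fun ξ h => (h3 ξ).mpr ⟨i, h⟩) (fun β w h => (h4 β w).mpr ⟨i, h⟩) (h10 i)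
        inter_subset_left hi

lemma Hier.catch {ν θ : Cardinal.{u}} (hν : ℵ₀ ≤ ν) (hθ : ℵ₀ ≤ θ) (h1 : #Ξ ≤ θ)
    (h2 : ∀ β, #(pool β) ≤ θ) (h3 : ∀ e : Set (BW W μ), #e ≤ θ →
      ∃ C ⊆ Clop l e, #C ≤ ν ∧ e ⊆ ⋃₀ C) {J : Type u} (n : ℕ) :
    ∀ (z : J → W) (A : Set J), ν < #A → (∀ j ∈ A, z j ∈ Full lad t Ξ pool n) →
      ∃ e ∈ Hier lad t l Ξ pool n, ν < #(A ∩ z ⁻¹' e : Set J) := by
  induction n with
  | zero =>
    intro z A h4 h5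
    exact ⟨{t}, rfl, h4.trans_le (mk_le_mk_of_subset (fun j hj => ⟨hj, h5 j hj⟩))⟩
  | succ n ih =>
    intro z A h4 h5
    have h6 : ∀ j, ∃ y, j ∈ A → y ∈ Full lad t Ξ pool n ∧
        z j ∈ stp lad Ξ pool {y} (Subtype.val ⁻¹' {y}) := by
      intro j
      by_cases hj : j ∈ A
      · rcases h5 j hj with h | ⟨β, h6, ξ, h7, h8⟩ | ⟨β, h6, h7⟩
        · exact ⟨z j, fun _ => ⟨h, Or.inl rfl⟩⟩
        · exact ⟨β, fun _ => ⟨h6, Or.inr (Or.inl ⟨β, rfl, ξ, h7, h8⟩)⟩⟩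
        · exact ⟨β.1, fun _ => ⟨h6, Or.inr (Or.inr ⟨β, rfl, h7⟩)⟩⟩
      · exact ⟨t, fun h => absurd h hj⟩
    choose y hy using h6
    obtain ⟨e, h6, h7⟩ := ih y A h4 (fun j hj => (hy j hj).1)
    obtain ⟨C, h8, h9, h10⟩ := h3 _ ((mk_val_le e).trans (Hier.card hθ h1 h2 n e h6))
    obtain ⟨B, h11⟩ := pigeonJ (K := (insert ∅ C : Set (Set (BW W μ)))) hν
      (mk_insert_le.trans (add_le_of_le hν h9 (one_le_aleph0.trans hν))) h7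
      (fun B => {j | Subtype.val ⁻¹' {y j} ⊆ B.1}) (by
        intro j hj
        by_cases h11 : Big μ (y j)
        · obtain ⟨B, h12, h13⟩ := h10 (show (⟨y j, h11⟩ : BW W μ) ∈ Subtype.val ⁻¹' e from hj.2)
          refine ⟨⟨B, Or.inr h12⟩, fun β hβ => ?_⟩
          rwa [show β = ⟨y j, h11⟩ from Subtype.ext hβ]
        · exact ⟨⟨∅, Or.inl rfl⟩, fun β hβ => h11 ((show β.1 = y j from hβ) ▸ β.2)⟩)
    refine ⟨_, ⟨e, h6, B.1, ?_, rfl⟩, h11.trans_le (mk_le_mk_of_subset (fun j hj =>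
      ⟨hj.1.1, stp_mono subset_rfl (fun _ => subset_rfl) 
        (singleton_subset_iff.mpr (show y j ∈ e from hj.1.2)) hj.2
        (hy j hj.1.1).2⟩))⟩
    rcases B.2 with h12 | h12
    · rw [h12]
      exact Clop.empty l _
    · exact h8 h12

end Pool.Agent.Lib.MP_856180_lc
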