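import Mathlib
import Pool.Agent.Lib.MP_856180_lc.PcfHier
import Pool.Agent.Lib.MP_856180_lc.Slalom

/-!
Covering numbers from the revised GCH, and splitting families from covering numbers.
-/

set_option autoImplicit false

namespace Pool.Agent.Lib.MP_856180_lc

open Cardinal Set Filter Pool.Agent.Shared.RevisedGCH

universe u

variable {W : Type u} [LinearOrder W] [WellFoundedLT W] {μ : Cardinal.{u}}

lemma Sing.split {b : ℕ → Cardinal.{u}} (hμ : Sing μ b) {X : Type u} {e : Set X} (he : #e ≤ μ) :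
    ∃ p : ℕ → Set X, (∀ n, p n ⊆ e ∧ #(p n) < μ) ∧ ∀ x ∈ e, ∃ n, x ∈ p n := by
  obtain ⟨j⟩ : #e ≤ #μ.ord.ToType := by simpa using he
  refine ⟨fun n => Subtype.val '' (j ⁻¹' {ξ | #(Iio ξ) < b n}), fun n => ⟨?_, ?_⟩, fun x hx => ?_⟩
  · rintro _ ⟨x, -, rfl⟩
    exact x.2
  · exact (mk_image_le.trans ((mk_preimage_of_injective _ _ j.injective).trans
      (mk_low (b n)))).trans_lt (hμ.b_lt n)
  · obtain ⟨n, hn⟩ := hμ.cofinal _ (hμ.succ_lt (mk_Iio_ord (j ⟨x, hx⟩)))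
    exact ⟨n, ⟨x, hx⟩, (Order.lt_succ _).trans_le hn, rfl⟩

lemma dom_family {b : ℕ → Cardinal.{u}} (hμ : Sing μ b) (hH : HH W μ) {l κ : Cardinal.{u}}
    (hl : μ ≤ l) {t : W} (ht : l ≤ #(Iio t)) (hκ : ℵ₀ ≤ κ) (hR : RR W μ l κ)
    {e : Set (BW W μ)} (he : #e ≤ μ) (hcof : ∀ β ∈ e, Order.cof (Iio β.1) ≤ l) :
    ∃ S : Set (BW W μ → W), #S ≤ l ^ κ ∧ ∀ g, Pr Subtype.val g →
      ∃ u ∈ S, ∀ β ∈ e, g β ≤ u β ∧ u β < β.1 := by
  have h0 := hμ.aleph0_lt.le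
  obtain ⟨p, h1, h2⟩ := hμ.split he
  choose C h3 h4 h5 using fun n => hR (p n) (h1 n).2 (fun β hβ => hcof β ((h1 n).1 hβ))
  choose S h6 h7 h8 using fun n => cof_family hμ (h1 n).2 (h0.trans hl) (by
    obtain ⟨ρ, h6, h7⟩ := hH _ (h1 n).2
    exact (h7 _ le_rfl).trans (h6.le.trans hl)) ht
  have h9 : ∀ β : e, ∃ z : (⋃ n, C n : Set (Set (BW W μ))), β.1 ∈ z.1 := by
    intro β
    obtain ⟨n, hn⟩ := h2 β.1 β.2
    obtain ⟨B, h9, h10⟩ := h5 n hn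
    exact ⟨⟨B, mem_iUnion.mpr ⟨n, h9⟩⟩, h10⟩
  choose z hz using h9
  classical
  refine ⟨(fun (v : (⋃ n, C n : Set (Set (BW W μ))) → BW W μ → W) β =>
    if h : β ∈ e then v (z ⟨β, h⟩) β else t) '' {v | ∀ j, v j ∈ ⋃ n, S n}, mk_image_le.trans
    ((mk_pi_set_le _ (fun _ => iUnion_nat_le (h0.trans hl) _ h6)).trans (power_le_power_left
      (aleph0_pos.trans_le (h0.trans hl)).ne' (iUnion_nat_le hκ _ h3))), fun g hg => ?_⟩
  have h10 : ∀ j : (⋃ n, C n : Set (Set (BW W μ))), ∃ u ∈ ⋃ n, S n, Pr Subtype.val u ∧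
      ∀ β ∈ j.1, g β ≤ u β := by
    intro j
    obtain ⟨n, hn⟩ := mem_iUnion.mp j.2
    obtain ⟨u, h10, h11⟩ := h8 n j.1 (h4 n _ hn).1 (h4 n _ hn).2 g hg
    exact ⟨u, mem_iUnion.mpr ⟨n, h10⟩, h7 n u h10, h11⟩
  choose v h11 h12 h13 using h10
  refine ⟨_, ⟨v, h11, rfl⟩, fun β hβ => ?_⟩
  simp only [dif_pos hβ]
  exact ⟨h13 _ β (hz ⟨β, hβ⟩), h12 _ β⟩

theorem cv_of_RR {b : ℕ → Cardinal.{u}} (hμ : Sing μ b) (hH : HH W μ) {l κ c : Cardinal.{u}}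
    (hl : μ ≤ l) {t : W} (ht : #(Iio t) = l) (hκ : ℵ₀ ≤ κ) (hR : RR W μ l κ) (hc1 : l ^ κ ≤ c)
    (hc2 : c ^ ℵ₀ ≤ c) : Cv μ c (Iic t) := by
  have h0 := hμ.aleph0_lt.le
  have hc : ℵ₀ ≤ c := (h0.trans hl).trans
    ((self_le_power l (one_le_aleph0.trans hκ)).trans hc1)
  obtain ⟨lad, inv, hlad⟩ := exists_lad (W := W) h0
  choose! S h1 h2 using fun (q : Set W) (hq : #q ≤ μ) => dom_family hμ hH hl ht.ge hκ hR
    (e := Subtype.val ⁻¹' (q ∩ Iic t))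
    ((mk_val_le _).trans ((mk_le_mk_of_subset inter_subset_left).trans hq))
    (fun β hβ => (Order.cof_le_cardinalMk _).trans
      ((mk_le_mk_of_subset (Iio_subset_Iio hβ.2)).trans ht.le))
  let nx : Set W → (BW W μ → W) → Set W := fun q u =>
    stp lad Set.univ (fun β => {u β}) q (Subtype.val ⁻¹' q)
  obtain ⟨C, hC1, hC2, hC3, hC4⟩ := closure_family hc (q₀ := {t}) (θ := μ)
    (by simpa using one_le_aleph0.trans h0) (fun q => nx q '' S q) (fun q hq =>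
      ⟨mk_image_le.trans ((h1 q hq).trans hc1), by
        rintro _ ⟨u, -, rfl⟩
        exact mk_stp h0 (by simp) (fun _ => by simpa using one_le_aleph0.trans h0) hq
          subset_rfl⟩)
  refine ⟨(fun s : ℕ → Set W => ⋃ n, s n) '' {s | ∀ n, s n ∈ C}, mk_image_le.trans
    ((mk_seq_le C).trans ((power_le_power_right hC1).trans hc2)), ?_, fun A hA hAμ => ?_⟩
  · rintro _ ⟨s, hs, rfl⟩
    exact iUnion_nat_le h0 _ (fun n => hC3 _ (hs n))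
  choose g h3 h4 using fun β : BW W μ => bound_below (w := β.1) (A ∩ Iio β.1)
    (((mk_le_mk_of_subset inter_subset_left).trans hAμ).trans_lt β.2) (fun _ h => h.2)
  choose u h5 h6 using fun q : C => h2 q.1 (hC3 _ q.2) g h3
  let s : ℕ → C := fun n => Nat.rec ⟨_, hC2⟩ (fun _ q => ⟨nx q.1 (u q), hC4 _ q.2 ⟨_, h5 q, rfl⟩⟩) n
  refine ⟨_, ⟨fun n => (s n).1, fun n => (s n).2, rfl⟩, ?_⟩
  refine (recon (L := (⋃ n, (s n).1) ∩ Iic t) ⟨mem_iUnion.mpr ⟨0, rfl⟩, le_rfl⟩ hA ?_).trans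
    inter_subset_left
  rintro β ⟨h7, h8⟩ α hα h9
  obtain ⟨n, hn⟩ := mem_iUnion.mp h7
  by_cases h10 : Big μ β
  · obtain ⟨h11, h12⟩ := h6 (s n) ⟨β, h10⟩ ⟨hn, h8⟩
    exact ⟨_, ⟨mem_iUnion.mpr ⟨n + 1, Or.inr (Or.inr ⟨⟨β, h10⟩, hn, rfl⟩)⟩, h12.le.trans h8⟩,
      (h4 ⟨β, h10⟩ α ⟨hα, h9⟩).le.trans h11, h12⟩
  · obtain ⟨h11, h12⟩ := hlad β h10 α h9
    exact ⟨_, ⟨mem_iUnion.mpr ⟨n + 1, Or.inr (Or.inl ⟨β, hn, _, mem_univ _, rfl⟩)⟩,
      h12.le.trans h8⟩, h11, h12⟩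

section Branch

variable {T : Type u} [LinearOrder T]

lemma loc_branch (hμ : ℵ₀ ≤ μ) (hT : #T ≤ μ) (hcof : ℵ₀ < Order.cof T) (q : T → Set (Set T))
    (hq : ∀ α, #(q α) ≤ μ) : Loc μ {X : Set T | ∀ α, X ∩ Iio α ∈ q α} := by
  choose L hL1 hL2 using fun α => loc hμ _ (hq α) (q α) rfl
  refine ⟨⋃ α, (fun π X => π ⟨_, X.2 α⟩) '' L α,
    iUnion_le hμ _ hT (fun α => mk_image_le.trans (hL1 α)), fun A hA => ?_⟩
  obtain ⟨B, hBA, hB⟩ := le_mk_iff_exists_subset.mp (infinite_iff_aleph0.mp hA)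
  obtain ⟨d₀, -⟩ := bound_of_lt_cof (∅ : Set T) (by simpa using aleph0_pos.trans hcof)
  have h3 : ∀ z : B × B, ∃ d, (d ∈ z.1.1.1 ↔ d ∈ z.2.1.1) → z.1 = z.2 := by
    intro z
    by_contra hcon
    push Not at hcon
    exact (hcon d₀).2 (Subtype.ext (Subtype.ext (Set.ext (fun d => (hcon d).1))))
  choose d hd using h3
  obtain ⟨α, hα⟩ := bound_of_lt_cof (range d) (by
    refine mk_range_le.trans_lt (lt_of_le_of_lt ?_ hcof)
    rw [mk_prod, lift_id, hB, aleph0_mul_aleph0])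
  obtain ⟨π, hπ, hinf⟩ := hL2 α ((fun X => ⟨_, X.2 α⟩) '' B) (by
    refine Infinite.image (fun X hX X' hX' h => ?_) (infinite_iff_aleph0.mpr hB.ge)
    have h6 := hα _ ⟨(⟨X, hX⟩, ⟨X', hX'⟩), rfl⟩
    refine congrArg Subtype.val (hd (⟨X, hX⟩, ⟨X', hX'⟩) ?_)
    have h7 := Set.ext_iff.mp (Subtype.mk.inj h) (d (⟨X, hX⟩, ⟨X', hX'⟩))
    exact ⟨fun h => (h7.mp ⟨h, h6⟩).1, fun h => (h7.mpr ⟨h, h6⟩).1⟩)
  refine ⟨_, mem_iUnion.mpr ⟨α, π, hπ, rfl⟩, hinf.mono ?_⟩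
  rintro _ ⟨_, ⟨X, hX, rfl⟩, rfl⟩
  exact ⟨X, hBA hX, rfl⟩

lemma card_branch [NoMaxOrder T] (hμ : ℵ₀ ≤ μ) (hcof : Order.cof T ≤ ℵ₀) (q : T → Set (Set T))
    (hq : ∀ α, #(q α) ≤ μ) : #{X : Set T | ∀ α, X ∩ Iio α ∈ q α} ≤ μ ^ ℵ₀ := by
  obtain ⟨C, hC1, hC2⟩ := Order.exists_cof_eq T
  choose s hs using fun w : T => exists_gt w
  refine le_trans ?_ ((mk_pi_set_le (fun c : C => q (s c.1)) (fun _ => hq _)).trans
    (power_le_power_left (aleph0_pos.trans_le hμ).ne' (hC2.le.trans hcof)))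
  refine mk_le_of_injective (f := fun X => ⟨fun c => X.1 ∩ Iio (s c.1), fun c => X.2 _⟩)
    (fun X X' h => Subtype.ext (Set.ext (fun x => ?_)))
  obtain ⟨c, h1, h2⟩ := hC1 x
  have h3 := Set.ext_iff.mp (congrFun (Subtype.mk.inj h) ⟨c, h1⟩) x
  exact ⟨fun h => (h3.mp ⟨h, h2.trans_lt (hs c)⟩).1, fun h => (h3.mpr ⟨h, h2.trans_lt (hs c)⟩).1⟩

end Branch

theorem loc_of_cov {ν ν₀ c : Cardinal.{u}} (hν : ℵ₀ ≤ ν) (hμν : μ ≤ 2 ^ ν) (hνν : ν ≤ ν₀)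
    (hcν : c = 2 ^ ν₀) (hC : Cv μ c (Set.univ : Set (Set ν.out))) {ρ : Cardinal.{u}} (hρ : ρ ≤ μ)
    (hνρ : c < 2 ^ ρ) : Loc μ (Set ν.out) := by
  have hν₀ := hν.trans hνν
  have hc : ℵ₀ ≤ c := hν₀.trans (hcν ▸ (cantor _).le)
  have hm : ∀ η ≤ ν₀, 2 ^ η ≤ c := fun η h => hcν ▸ power_le_power_left two_ne_zero h
  have h1 := hm ν hνν
  have hpow : ∀ η : Cardinal.{u}, 2 ^ η ≤ c → c ^ η ≤ c := by
    intro η h
    rw [hcν] at h ⊢
    rw [← power_mul]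
    refine (power_le_power_left two_ne_zero (mul_le_max_of_aleph0_le_left hν₀)).trans ?_
    rcases le_total ν₀ η with h' | h'
    · rwa [max_eq_right h']
    · rw [max_eq_left h']
  have hne : {η : Cardinal.{u} | c < 2 ^ η}.Nonempty := ⟨ρ, hνρ⟩
  have hτ1 : c < 2 ^ sInf {η : Cardinal.{u} | c < 2 ^ η} := csInf_mem hne
  have hτ2 : sInf {η : Cardinal.{u} | c < 2 ^ η} ≤ μ :=
    (csInf_le' (s := {η : Cardinal.{u} | c < 2 ^ η}) hνρ).trans hρ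
  have hτ3 : ∀ η < sInf {η : Cardinal.{u} | c < 2 ^ η}, 2 ^ η ≤ c :=
    fun η hη => not_lt.mp (notMem_of_lt_csInf' (s := {η : Cardinal.{u} | c < 2 ^ η}) hη)
  generalize sInf {η : Cardinal.{u} | c < 2 ^ η} = τ at hτ1 hτ2 hτ3
  have hντ : ν₀ < τ := by
    by_contra h
    exact absurd hτ1 (not_lt.mpr (hm _ (not_lt.mp h)))
  have hreg : τ.IsRegular := by
    refine ⟨hν₀.trans hντ.le, not_lt.mp (fun h => ?_)⟩
    exact absurd hτ1 (not_lt.mpr ((two_pow_le_pow_cof (hν₀.trans hντ.le) hτ3).trans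
      (hpow _ (hτ3 _ h))))
  have hμ : ℵ₀ ≤ μ := hν₀.trans (hντ.le.trans hτ2)
  by_contra hL
  have key : ∀ η ≤ ν₀, Cv μ c (Set.univ : Set (Set η.ord.ToType)) := by
    intro η
    induction η using WellFoundedLT.induction with
    | ind η ih =>
      intro hη
      by_cases h2 : η ≤ ν
      · exact hC.of_card (by simpa using power_le_power_left two_ne_zero h2)
      have := Cardinal.noMaxOrder (hν.trans (not_le.mp h2).le)
      choose P hP1 hP2 hP3 using fun α : η.ord.ToType => (ih _ (mk_Iio_ord α)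
        ((mk_Iio_ord α).le.trans hη)).of_card (Q' := 𝒫 (Iio α)) (by simp [mk_powerset])
      choose R hR1 hR2 hR3 using fun q : {q : η.ord.ToType → Set (Set η.ord.ToType) |
        ∀ α, q α ∈ P α} => hC.of_card (Q' := {X | ∀ α, X ∩ Iio α ∈ q.1 α}) (by
          have h3 := fun α => hP2 α _ (q.2 α)
          rw [mk_univ]
          by_cases h4 : ℵ₀ < Order.cof η.ord.ToType
          · by_contra h5
            exact hL ((loc_branch hμ (by simpa using hη.trans (hντ.le.trans hτ2)) h4 _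
              h3).mono_card (not_le.mp h5).le)
          · refine (card_branch hμ (not_lt.mp h4) _ h3).trans
              ((power_le_power_right hμν).trans ?_)
            rw [← power_mul, mk_set, mk_out, mul_aleph0_eq hν])
      refine ⟨⋃ q, R q, iUnion_le hc _ ((mk_pi_set_le P hP1).trans (hpow _ (by
        simpa using hm _ hη))) hR1, fun p hp => ?_, fun A _ hA => ?_⟩
      · obtain ⟨q, hq⟩ := mem_iUnion.mp hp
        exact hR2 q p hq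
      · choose q h3 h4 using fun α => hP3 α ((fun X => X ∩ Iio α) '' A) (by
          rintro _ ⟨X, -, rfl⟩
          exact inter_subset_right) (mk_image_le.trans hA)
        obtain ⟨p, h5, h6⟩ := hR3 ⟨q, h3⟩ A (fun X hX α => h4 α ⟨X, hX, rfl⟩) hA
        exact ⟨p, mem_iUnion.mpr ⟨_, h5⟩, h6⟩
  exact hL (loc_of_branch hreg (hν₀.trans_lt hντ) hτ2 (hμν.trans h1) hτ3 hτ1
    (((key ν₀ le_rfl).of_card (by simpa using hcν.le)).uu hτ2) (by simpa using h1))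

end Pool.Agent.Lib.MP_856180_lc
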