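import Mathlib
import Pool.Agent.Lib.MP_856180_lc.LexMin

/-!
The bound `2 ^ ν ≤ κ` from threads through wide families.
-/

set_option autoImplicit false

namespace Pool.Agent.Lib.MP_856180_lc

open Cardinal Set Pool.Agent.Shared.RevisedGCH

universe u

/-- Every strategy `G` can be followed along a chain of length above `ν` of subsets of members of
a family of at most `κ` sets of size at most `σ`. -/
def Thw (ν σ κ : Cardinal.{u}) (X : Type u) : Prop :=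
  ∃ C : Set (Set X), #C ≤ κ ∧ (∀ q ∈ C, #q ≤ σ) ∧ ∀ G : Set (Set X) → X,
    ∃ (I : Type u) (_ : LinearOrder I) (e : I → Set X), ν < #I ∧ #I ≤ σ ∧
      (∀ i : I, #(Iio i) ≤ ν) ∧ Monotone e ∧ ∀ i, ∃ P : Set (Set X), e i ∈ P ∧ #P ≤ σ ∧
        (∀ p ∈ P, ∃ q ∈ C, p ⊆ q) ∧ ∃ i', G P ∈ e i'

theorem two_pow_le_wide {N W X S : Type u} [LinearOrder N] [WellFoundedLT N] [LinearOrder W]
    [WellFoundedLT W] {ν σ κ : Cardinal.{u}} (hν : ℵ₀ ≤ ν) (hN : #N = ν) (hνσ : ν ≤ σ)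
    (hS : #S = σ) (hb : ∀ R : Set W, #R ≤ σ → ∃ v, ∀ x ∈ R, x < v) (hT : Thw ν σ κ X)
    (code : X → (W × S → Finset N) × W)
    (hcode : ∀ (F : W × S → N) (γ : W), ∃ x, (∀ p, F p ∈ (code x).1 p) ∧ (code x).2 = γ) :
    2 ^ ν ≤ κ := by
  classical
  by_contra hcon
  have hlt : κ < #(N → Bool) := by
    rw [not_le] at hcon
    simpa [hN] using hcon
  obtain ⟨C, hC1, hC2, hC3⟩ := hT
  have hσ : ℵ₀ ≤ σ := hν.trans hνσ
  let tl : Set X → Set ((W → Finset N) × W) := fun e =>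
    ⋃ x : e, range (fun k : S => (fun α => (code x.1).1 (α, k), (code x.1).2))
  have htl : ∀ e : Set X, #e ≤ σ → #(tl e) ≤ σ := fun e he =>
    iUnion_le hσ _ he (fun _ => mk_range_le.trans hS.le)
  have hmono : ∀ {e e' : Set X}, e ⊆ e' → tl e ⊆ tl e' := by
    intro e e' h y hy
    obtain ⟨x, hx⟩ := mem_iUnion.mp hy
    exact mem_iUnion.mpr ⟨⟨x.1, h x.2⟩, hx⟩
  obtain ⟨r, hr⟩ := rec_exists (Y := W) (St := N → Bool) (fun α ih st => ∀ q ∈ C,
    ¬ LMin st (Kset (fun β => if h : β < α then ih β h else fun _ => false) (Iio α) (tl q) α)) (by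
      intro α ih
      by_contra h
      push Not at h
      choose q hq1 hq2 using h
      refine absurd (le_trans (mk_le_of_injective (f := fun st => (⟨q st, hq1 st⟩ : C)) ?_) hC1)
        (not_le.mpr hlt)
      intro st st' hst
      have h1 : q st = q st' := congrArg Subtype.val hst
      exact (hq2 st).unique (h1 ▸ hq2 st'))
  have hr' : ∀ α, ∀ q ∈ C, ¬ LMin (r α) (Kset r (Iio α) (tl q) α) := by
    intro α q hq
    rw [Kset_congr (r' := fun β => if β < α then r β else fun _ => false) (A := Iio α)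
      (fun β hβ => (if_pos hβ).symm)]
    exact hr α q hq
  have hN0 : Nonempty N := by
    rw [← mk_ne_zero_iff, hN]
    exact (aleph0_pos.trans_le hν).ne'
  have hgap : ∀ e : Set X, (∃ q ∈ C, e ⊆ q) → ∃ (γ : W) (f : W → N), ∀ β, γ ≤ β →
      ∃ m, LMin m (Kset r univ (tl e) β) ∧ LexAt m (r β) (f β) := by
    rintro e ⟨q, hq, heq⟩
    obtain ⟨γ₁, h1⟩ := Kset_stable hσ (hN.le.trans hνσ) hb r (htl q (hC2 q hq))
    obtain ⟨γ₂, h2⟩ := hb (Prod.snd '' tl q) (mk_image_le.trans (htl q (hC2 q hq)))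
    have : ∀ β, ∃ k, max γ₁ γ₂ ≤ β → ∃ m, LMin m (Kset r univ (tl e) β) ∧ LexAt m (r β) k := by
      intro β
      by_cases hβ : max γ₁ γ₂ ≤ β
      · have h3 : r β ∈ Kset r univ (tl q) β := self_mem_Kset r
          (fun y hy => (h2 _ ⟨y, hy, rfl⟩).le.trans ((le_max_right _ _).trans hβ))
        have h4 := Kset_anti r univ (hmono heq) β
        obtain ⟨m, hm⟩ := exists_lmin (isClosed_Kset r univ (tl e) β) ⟨_, h4 h3⟩
        obtain ⟨k, hk⟩ := hm.2 _ (h4 h3) (by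
          intro h5
          apply hr' β q hq
          rw [h1 β ((le_max_left _ _).trans hβ), h5]
          exact ⟨h5 ▸ h3, fun z hz => hm.2 z (h4 hz)⟩)
        exact ⟨k, fun _ => ⟨m, hm, hk⟩⟩
      · exact ⟨Classical.arbitrary N, fun h => absurd h hβ⟩
    choose f hf using this
    exact ⟨_, f, hf⟩
  have hG : ∀ P : Set (Set X), ∃ x, #P ≤ σ → (∀ p ∈ P, ∃ q ∈ C, p ⊆ q) →
      ∀ p ∈ P, ∃ y ∈ tl {x}, IsGap r (tl p) y := by
    intro P
    by_cases hP : #P ≤ σ ∧ ∀ p ∈ P, ∃ q ∈ C, p ⊆ q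
    · choose γ f hf using fun p : P => hgap p.1 (hP.2 p.1 p.2)
      obtain ⟨j⟩ : #P ≤ #S := hP.1.trans hS.ge
      obtain ⟨γ', hγ'⟩ := hb (range γ) (mk_range_le.trans hP.1)
      obtain ⟨x, hx1, hx2⟩ := hcode (fun z => Function.extend j (fun p => f p z.1)
        (fun _ => Classical.arbitrary N) z.2) γ'
      refine ⟨x, fun _ _ p hp => ⟨_, mem_iUnion.mpr ⟨⟨x, rfl⟩, j ⟨p, hp⟩, rfl⟩, fun β hβ => ?_⟩⟩
      obtain ⟨m, h1, h2⟩ := hf ⟨p, hp⟩ β ((hγ' _ ⟨_, rfl⟩).le.trans (hx2 ▸ hβ))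
      refine ⟨m, h1, _, ?_, h2⟩
      have := hx1 (β, j ⟨p, hp⟩)
      rwa [j.injective.extend_apply] at this
    · obtain ⟨w0, -⟩ := hb ∅ (by simp)
      obtain ⟨x, -⟩ := hcode (fun _ => Classical.arbitrary N) w0
      exact ⟨x, fun h1 h2 => absurd ⟨h1, h2⟩ hP⟩
  choose G hG using hG
  obtain ⟨I, _, e, h1, h2, h3, h4, h5⟩ := hC3 G
  have hν1 : ℵ₀ ≤ Order.succ ν := hν.trans (Order.le_succ _)
  obtain ⟨α, hα⟩ := hb (⋃ i, Prod.snd '' tl (e i)) (iUnion_le hσ _ h2 (fun i => by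
    obtain ⟨P, hP1, -, hP2, -⟩ := h5 i
    obtain ⟨q, hq, hsub⟩ := hP2 _ hP1
    exact mk_image_le.trans (htl _ ((mk_le_mk_of_subset hsub).trans (hC2 q hq)))))
  have hm : ∀ i, ∃ m, LMin m (Kset r univ (tl (e i)) α) := fun i =>
    exists_lmin (isClosed_Kset _ _ _ _) ⟨_, self_mem_Kset r
      (fun y hy => (hα _ (mem_iUnion.mpr ⟨i, y, hy, rfl⟩)).le)⟩
  choose m hm using hm
  have hu : ∀ i, ∃ (u : Finset N) (i' : I), ∀ i'', i' ≤ i'' → ¬ ∀ ξ ∈ u, m i'' ξ = m i ξ := by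
    intro i
    obtain ⟨P, hP1, hP2, hP3, i', hi'⟩ := h5 i
    obtain ⟨y, hy1, hy2⟩ := hG P hP2 hP3 _ hP1
    obtain ⟨u, hu⟩ := hy2.strict (hm i)
    refine ⟨u, max i i', fun i'' hi'' => hu _ (insert_subset ?_ ?_) _ (hm i'').1⟩
    · exact hmono (singleton_subset_iff.mpr (h4 ((le_max_right _ _).trans hi'') hi')) hy1
    · exact hmono (h4 ((le_max_left _ _).trans hi''))
  choose u i' hu using hu
  obtain ⟨s, hs⟩ := infinite_pigeonhole_card (fun i => (u i).image (fun ξ => (ξ, m i ξ)))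
    (Order.succ ν) (Order.succ_le_of_lt h1) hν1 (by
      rw [(isRegular_succ hν).cof_ord]
      refine Order.lt_succ_of_le (mk_finset_le hν ?_)
      rw [mk_prod, lift_uzero, hN]
      exact mul_le_of_le hν le_rfl (by simpa using (natCast_lt_aleph0 (n := 2)).le.trans hν))
  have hne : ∀ i₀ : I, ∃ i, (u i).image (fun ξ => (ξ, m i ξ)) = s ∧ i₀ ≤ i := by
    intro i₀
    by_contra hcon'
    push Not at hcon'
    exact absurd (hs.trans ((mk_le_mk_of_subset (fun i hi => hcon' i hi)).trans (h3 i₀)))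
      (not_le.mpr (Order.lt_succ _))
  have hI : Nonempty I := by
    rw [← mk_ne_zero_iff]
    exact (zero_le.trans_lt h1).ne'
  obtain ⟨i, hi, -⟩ := hne (Classical.arbitrary I)
  obtain ⟨k, hk, hik⟩ := hne (i' i)
  refine hu i k hik (fun ξ hξ => ?_)
  have h6 : (ξ, m i ξ) ∈ (u k).image (fun ξ => (ξ, m k ξ)) := by
    rw [hk, ← hi]
    exact Finset.mem_image_of_mem _ hξ
  obtain ⟨ξ', -, h7⟩ := Finset.mem_image.mp h6
  obtain ⟨rfl, h8⟩ := Prod.mk.inj h7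
  exact h8

end Pool.Agent.Lib.MP_856180_lc
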