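import Mathlib
import Pool.Agent.Lib.MP_856180_lc.PcfHier
import Pool.Agent.Lib.MP_856180_lc.PcfWide

/-!
Threads through clopen sets.
-/

set_option autoImplicit false

namespace Pool.Agent.Lib.MP_856180_lc

open Cardinal Set Filter Pool.Agent.Shared.RevisedGCH

universe u

variable {W : Type u} [LinearOrder W] {μ : Cardinal.{u}}

section Hist

variable {Y : Type u} [LinearOrder Y] {X : Type u}

/-- The union of the sets built before stage `ζ`. -/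
def Prev (ζ : Y) (N : (ξ : Y) → ξ < ζ → Set X) : Set X := {w | ∃ ξ, ∃ h : ξ < ζ, w ∈ N ξ h}

lemma mk_Prev {θ : Cardinal.{u}} (hθ : ℵ₀ ≤ θ) {ζ : Y} (hζ : #(Iio ζ) ≤ θ)
    (N : (ξ : Y) → ξ < ζ → Set X) (h : ∀ ξ h, #(N ξ h) ≤ θ) : #(Prev ζ N) ≤ θ :=
  le_trans (mk_le_mk_of_subset (t := ⋃ ξ : Iio ζ, N ξ.1 ξ.2)
    (fun _ ⟨ξ, h1, h2⟩ => mem_iUnion.mpr ⟨⟨ξ, h1⟩, h2⟩)) (iUnion_le hθ _ hζ (fun _ => h _ _))

/-- The values at `β` of the chain at the points of `c` after `β` has appeared. -/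
def Vals (c : Set Y) (ζ : Y) (x : (ξ : Y) → ξ < ζ → BW W μ → W) (N : (ξ : Y) → ξ < ζ → Set W)
    (β : BW W μ) : Set W :=
  {w | ∃ α ∈ c, ∃ h : α < ζ, (∃ ξ, ∃ h' : ξ < α, β.1 ∈ N ξ (h'.trans h)) ∧ x α h β = w}

lemma mk_Vals (c : Set Y) (ζ : Y) (x : (ξ : Y) → ξ < ζ → BW W μ → W)
    (N : (ξ : Y) → ξ < ζ → Set W) (β : BW W μ) : #(Vals c ζ x N β) ≤ #(Iio ζ) :=
  le_trans (mk_le_mk_of_subset (t := range (fun ξ : Iio ζ => x ξ.1 ξ.2 β))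
    (fun _ ⟨α, _, h1, _, h2⟩ => ⟨⟨α, h1⟩, h2⟩)) mk_range_le

end Hist

theorem thw_of [WellFoundedLT W] {b : ℕ → Cardinal.{u}} (hμ : Sing μ b) (hH : HH W μ)
    {κ ν : Cardinal.{u}} (hμκ : μ ≤ κ) (hW : #W ≤ κ) {t : W} (ht : ∀ w, w ≤ t)
    (htκ : κ ≤ #(Iio t)) (hν : ℵ₀ ≤ ν) (hνμ : ν < μ) (hR : RR W μ κ ν)
    (hCv : ∀ θ, ℵ₀ ≤ θ → θ ≤ μ → Cv θ κ (Set.univ : Set μ.out)) :
    ∃ σ < μ, ν ≤ σ ∧ Thw ν σ κ W := by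
  classical
  have h0 := hμ.aleph0_lt.le
  have hκ := h0.trans hμκ
  have hB : ∀ i : BW W μ, Big μ i.1 := fun i => i.2
  obtain ⟨θ, hθ1, hθ2⟩ : ∃ θ, Order.succ (Order.succ ν) ≤ θ ∧ θ < μ :=
    ⟨_, le_rfl, hμ.succ_lt (hμ.succ_lt hνμ)⟩
  have hνθ : Order.succ ν ≤ θ := (Order.le_succ _).trans hθ1
  have hθ : ℵ₀ ≤ θ := hν.trans ((Order.le_succ _).trans hνθ)
  obtain ⟨Y, _, _, hY⟩ := exists_YY hθ
  obtain ⟨ρ, hρ1, hρ2⟩ := hH θ hθ2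
  obtain ⟨σ, hσ1, hσ2, hσ3⟩ : ∃ σ < μ, Order.succ θ ≤ σ ∧ ρ ≤ σ :=
    ⟨max (Order.succ θ) ρ, max_lt (hμ.succ_lt hθ2) hρ1, le_max_left _ _, le_max_right _ _⟩
  have hθσ : θ ≤ σ := (Order.le_succ _).trans hσ2
  have hσ := hθ.trans hθσ
  have hcl := fun (e : Set (BW W μ)) (he : #e ≤ θ) =>
    clop_facts hμ (he.trans_lt hθ2) hσ hσ1.le ((hρ2 e he).trans hσ3) htκ
  have hcov : ∀ e : Set (BW W μ), #e ≤ θ → ∃ C ⊆ Clop κ e, #C ≤ ν ∧ e ⊆ ⋃₀ C := by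
    intro e he
    obtain ⟨C, h1, h2, h3⟩ := hR e (he.trans_lt hθ2)
      (fun β _ => (Order.cof_le_cardinalMk _).trans ((mk_set_le _).trans hW))
    choose B h4 h5 using fun B : C => (hcl e he).2 B.1 (h2 B.1 B.2).1 (h2 B.1 B.2).2
    refine ⟨range B, by rintro _ ⟨B', rfl⟩; exact h4 B', mk_range_le.trans h1, fun β hβ => ?_⟩
    obtain ⟨B', h6, h7⟩ := h3 hβ
    exact ⟨_, ⟨⟨B', h6⟩, rfl⟩, h5 ⟨B', h6⟩ h7⟩
  obtain ⟨lad, inv, hlad⟩ := exists_lad (W := W) h0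
  have : Nonempty W := ⟨t⟩
  choose! u req hu hreq hex using fun (q : Set W) (hq : #q ≤ θ) => exact_limit hμ hY hθ2
    ((mk_val_le q).trans hq) ((hρ2 _ ((mk_val_le q).trans hq)).trans hρ1.le)
  let big : Set W → Finset (BW W μ × W) → Set W := fun q s => stp lad Set.univ
    (fun β => ⋃ z : s, range (can Y (u q z.1.1 z.1.2 β))) q (Subtype.val ⁻¹' q)
  choose! R hR1 hR2 hR3 using fun (q : Set W) (hq : #q ≤ θ) (s : Finset (BW W μ × W)) =>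
    (hCv θ hθ hθ2.le).of_card (Q' := big q s) (by
      rw [mk_univ, mk_out]
      exact mk_stp h0 (by simp) (fun β => iUnion_le h0 _ ((lt_aleph0_of_finite _).le.trans h0)
        (fun _ => mk_range_le.trans (hY.card.trans (hσ2.trans hσ1.le)))) (hq.trans hθ2.le)
        subset_rfl)
  obtain ⟨C, hC1, hC2, hC3, hC4⟩ := closure_family hκ (q₀ := {t}) (θ := θ)
    (by simpa using one_le_aleph0.trans hθ) (fun q => ⋃ s, R q s) (fun q hq => ⟨iUnion_le hκ _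
      (mk_finset_le hκ (by
        rw [mk_prod, lift_id, lift_id]
        exact mul_le_of_le hκ ((mk_subtype_le _).trans hW) hW)) (hR1 q hq), fun q' hq' => by
      obtain ⟨s, hs⟩ := mem_iUnion.mp hq'
      exact hR2 q hq s q' hs⟩)
  refine ⟨σ, hσ1, (Order.le_succ _).trans (hνθ.trans hθσ), C, hC1,
    fun q hq => (hC3 q hq).trans hθσ, fun G => ?_⟩
  obtain ⟨GG, hG1, hG2, hG3⟩ := club_guessing hν hθ1 hY.low hY.bdd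
  let PP : (ζ : Y) → ((ξ : Y) → ξ < ζ → BW W μ → W) → ((ξ : Y) → ξ < ζ → Set W) →
      ((ξ : Y) → ξ < ζ → Set μ.out) → Set (Set W) := fun ζ x N Ξ =>
    {p | (∃ c ∈ GG, ∃ n, p ∈ Hier lad t κ (Prev ζ Ξ) (Vals c ζ x N) n) ∧ ∃ q ∈ C, p ⊆ q}
  have hPP : ∀ ζ x N Ξ, (∀ ξ h, #(Ξ ξ h) ≤ θ) → #(PP ζ x N Ξ) ≤ σ := by
    intro ζ x N Ξ h
    refine le_trans (mk_le_mk_of_subset (t := ⋃ c : GG, ⋃ n,
      Hier lad t κ (Prev ζ Ξ) (Vals c.1 ζ x N) n) ?_) (iUnion_le hσ _ (hG1.trans (hY.card.trans hσ2))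
      (fun c => iUnion_nat_le hσ _ (mk_Hier hθ hσ (mk_Prev hθ (hY.low ζ) _ h)
        (fun β => (mk_Vals _ _ _ _ β).trans (hY.low ζ)) (fun e he => (hcl e he).1))))
    rintro p ⟨⟨c, h1, n, h2⟩, -⟩
    exact mem_iUnion.mpr ⟨⟨c, h1⟩, mem_iUnion.mpr ⟨n, h2⟩⟩
  obtain ⟨x, tt, ex, z, hz1, hz2, -, htt, hQ⟩ := chain_rec hY (hμ.succ_lt hθ2).le hB
    (Ex := {w : Set W × Set μ.out × Set (Set W) //
      #w.1 ≤ θ ∧ #w.2.1 ≤ θ ∧ #w.2.2 ≤ μ ∧ w.2.2 ⊆ C})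
    (fun ζ ih y k ex =>
      insert t (Prev ζ (fun ξ h => (ih ξ h).2.1.1)) ⊆ ex.1.1 ∧
      (∀ β ∈ Prev ζ (fun ξ h => (ih ξ h).2.1.1), (∀ h : Big μ β, y ⟨β, h⟩ ∈ ex.1.1) ∧
        (∀ ξ ∈ Prev ζ (fun ξ h => (ih ξ h).2.1.2.1), lad β ξ ∈ ex.1.1) ∧
        ∀ α ∈ Prev ζ (fun ξ h => (ih ξ h).2.1.1), inv β α ∈ ex.1.2.1) ∧
      G (PP ζ (fun ξ h => (ih ξ h).1) (fun ξ h => (ih ξ h).2.1.1)
        (fun ξ h => (ih ξ h).2.1.2.1)) ∈ ex.1.1 ∧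
      Prev ζ (fun ξ h => (ih ξ h).2.1.2.2) ⊆ ex.1.2.2 ∧
      (∀ p ∈ PP ζ (fun ξ h => (ih ξ h).1) (fun ξ h => (ih ξ h).2.1.1)
        (fun ξ h => (ih ξ h).2.1.2.1), ∃ q ∈ ex.1.2.2, p ⊆ q) ∧
      (∀ q ∈ ex.1.2.2, ∀ β, req q y β ≤ k β) ∧
      ∀ β : BW W μ, ∀ w ∈ ex.1.1, w < β.1 → w ≤ k β) (by
    intro ζ ih y hy _
    have h1 := mk_Prev hθ (hY.low ζ) (fun ξ h => (ih ξ h).2.1.1) (fun ξ h => (ih ξ h).2.2.1)
    have h2 := mk_Prev hθ (hY.low ζ) (fun ξ h => (ih ξ h).2.1.2.1) (fun ξ h => (ih ξ h).2.2.2.1)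
    have h3 := mk_Prev h0 ((hY.low ζ).trans hθ2.le) (fun ξ h => (ih ξ h).2.1.2.2)
      (fun ξ h => (ih ξ h).2.2.2.2.1)
    have h4 := hPP ζ (fun ξ h => (ih ξ h).1) (fun ξ h => (ih ξ h).2.1.1)
      (fun ξ h => (ih ξ h).2.1.2.1) (fun ξ h => (ih ξ h).2.2.2.1)
    have h5 : Prev ζ (fun ξ h => (ih ξ h).2.1.2.2) ⊆ C :=
      fun q ⟨ξ, h, hq⟩ => (ih ξ h).2.2.2.2.2 hq
    have h6 : ∀ p ∈ PP ζ (fun ξ h => (ih ξ h).1) (fun ξ h => (ih ξ h).2.1.1)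
      (fun ξ h => (ih ξ h).2.1.2.1), ∃ q ∈ C, p ⊆ q := fun p hp => hp.2
    generalize Prev ζ (fun ξ h => (ih ξ h).2.1.1) = N at h1 ⊢
    generalize Prev ζ (fun ξ h => (ih ξ h).2.1.2.1) = Ξ at h2 ⊢
    generalize Prev ζ (fun ξ h => (ih ξ h).2.1.2.2) = A at h3 h5 ⊢
    generalize PP ζ (fun ξ h => (ih ξ h).1) (fun ξ h => (ih ξ h).2.1.1)
      (fun ξ h => (ih ξ h).2.1.2.1) = P at h4 h6 ⊢
    choose q h7 h8 using fun p : P => h6 p.1 p.2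
    have h9 : #(insert t (insert (G P) (stp lad Ξ (fun β => {y β}) N (Subtype.val ⁻¹' N))) :
        Set W) ≤ θ := mk_insert_le.trans (add_le_of_le hθ (mk_insert_le.trans (add_le_of_le hθ
      (mk_stp hθ h2 (fun _ => by simpa using one_le_aleph0.trans hθ) h1 subset_rfl)
      (one_le_aleph0.trans hθ))) (one_le_aleph0.trans hθ))
    have h10 : #(A ∪ range q : Set (Set W)) ≤ μ := (mk_union_le _ _).trans
      (add_le_of_le h0 h3 (mk_range_le.trans (h4.trans hσ1.le)))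
    have h11 : A ∪ range q ⊆ C := union_subset h5 (by rintro _ ⟨p, rfl⟩; exact h7 p)
    obtain ⟨k₁, h12, h13⟩ := bound_fam hB h10 (fun q' => req q'.1 y)
      (fun q' => hreq _ (hC3 _ (h11 q'.2)) y hy)
    choose k₂ h14 h15 using fun β : BW W μ => bound_below (w := β.1)
      (insert t (insert (G P) (stp lad Ξ (fun β => {y β}) N (Subtype.val ⁻¹' N))) ∩ Iio β.1)
      (((mk_le_mk_of_subset inter_subset_left).trans (h9.trans hθ2.le)).trans_lt β.2)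
      (fun _ h => h.2)
    obtain ⟨k, h16, h17, h18⟩ := bound_two h0 hB h12 h14
    refine ⟨k, ⟨(_, image2 inv N N, _), h9, mk_image2_le.trans (mul_le_of_le hθ h1 h1), h10, h11⟩,
      h16, insert_subset_insert (fun w hw => Or.inr (Or.inl hw)), fun β hβ => ⟨fun h => ?_,
      fun ξ hξ => ?_, fun α hα => mem_image2_of_mem hβ hα⟩, Or.inr (Or.inl rfl),
      subset_union_left, fun p hp => ⟨_, Or.inr ⟨⟨p, hp⟩, rfl⟩, h8 ⟨p, hp⟩⟩,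
      fun q' hq' β => ((h13 ⟨q', hq'⟩ β).trans (h17 β)).le,
      fun β w h19 h20 => ((h15 β w ⟨h19, h20⟩).trans (h18 β)).le⟩
    · exact Or.inr (Or.inr (Or.inr (Or.inr ⟨⟨β, h⟩, hβ, rfl⟩)))
    · exact Or.inr (Or.inr (Or.inr (Or.inl ⟨β, hβ, ξ, hξ, rfl⟩))))
  obtain ⟨N, hN⟩ : ∃ N : Y → Set W, ∀ ζ, (ex ζ).1.1 = N ζ := ⟨_, fun _ => rfl⟩
  obtain ⟨Ξ, hΞ⟩ : ∃ Ξ : Y → Set μ.out, ∀ ζ, (ex ζ).1.2.1 = Ξ ζ := ⟨_, fun _ => rfl⟩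
  obtain ⟨A, hA⟩ : ∃ A : Y → Set (Set W), ∀ ζ, (ex ζ).1.2.2 = A ζ := ⟨_, fun _ => rfl⟩
  have hNθ : ∀ ζ, #(N ζ) ≤ θ := fun ζ => hN ζ ▸ (ex ζ).2.1
  have hΞθ : ∀ ζ, #(Ξ ζ) ≤ θ := fun ζ => hΞ ζ ▸ (ex ζ).2.2.1
  have hAC : ∀ ζ, A ζ ⊆ C := fun ζ => hA ζ ▸ (ex ζ).2.2.2.2
  simp only [hN, hΞ, hA] at hQ
  have hNm : Monotone N := by
    intro ξ ζ h
    rcases h.eq_or_lt with rfl | h
    · exact subset_rfl
    · exact fun w hw => (hQ ζ).1 (Or.inr ⟨ξ, h, hw⟩)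
  choose h hh using fun β => (hz2 β).agree (hz2 β).can
  choose g hg using fun α : Y => hY.bound (J := (Subtype.val ⁻¹' N α : Set (BW W μ)) × Iic α) (by
    rw [mk_prod, lift_id, lift_id]
    exact mul_le_of_le hθ ((mk_val_le _).trans (hNθ α)) (mk_Iic_le hθ (hY.low α)))
    (fun z => h z.1.1 z.2.1)
  obtain ⟨c, hc, hcg⟩ := hG3 g
  have hcan : ∀ α ∈ c, ∀ β : BW W μ, ∀ ξ < α, β.1 ∈ N ξ → x α β = can Y (z β) α := by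
    intro α hα β ξ h1 h2
    refine hh β α (fun ζ h3 => ?_)
    exact (hg (max ζ ξ) (⟨β, hNm (le_max_right _ _) h2⟩, ⟨ζ, le_max_left _ _⟩)).trans
      (hcg hα _ (max_lt h3 h1))
  have hub : ∀ {T : Set c}, ν < #T → ∀ k : c, ∃ k' ∈ T, k < k' := by
    intro T hT k
    by_contra hcon
    push Not at hcon
    have h1 := mk_inter_Iic_lt (hν.trans (Order.le_succ ν))
      (Order.lt_succ_of_le ((hG2 c hc).2 k.1 k.2))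
    refine absurd hT (not_lt.mpr (le_trans ?_ (Order.le_of_lt_succ h1)))
    apply mk_le_of_injective (f := fun k' => ⟨k'.1.1, k'.1.2, hcon k'.1 k'.2⟩)
    intro k₁ k₂ h2
    have h3 : k₁.1.1 = k₂.1.1 := congrArg (fun z : (c ∩ Iic k.1 : Set Y) => z.1) h2
    exact Subtype.ext (Subtype.ext h3)
  have hcν : ν < #(Set.univ : Set c) := by
    rw [mk_univ, (hG2 c hc).1]
    exact Order.lt_succ ν
  obtain ⟨δ, hδ1, hδ2⟩ : ∃ δ, (∀ α ∈ c, α < δ) ∧ ∀ ξ < δ, ∃ α : c, ξ < α.1 := by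
    obtain ⟨δ, h1, h2⟩ := WellFounded.has_min wellFounded_lt {δ | ∀ α ∈ c, α < δ}
      (hY.bdd c ((hG2 c hc).1.le.trans hνθ))
    refine ⟨δ, h1, fun ξ hξ => ?_⟩
    by_contra hcon
    push Not at hcon
    refine h2 ξ (fun α hα => ?_) hξ
    obtain ⟨k, -, hk⟩ := hub hcν ⟨α, hα⟩
    exact lt_of_lt_of_le hk (hcon k)
  have hne : Nonempty c := by
    rw [← mk_ne_zero_iff, ← mk_univ]
    exact (zero_le.trans_lt hcν).ne'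
  have htN : t ∈ Prev δ (fun ξ _ => N ξ) :=
    hne.elim (fun α => ⟨α.1, hδ1 _ α.2, (hQ α.1).1 (Or.inl rfl)⟩)
  have hFN : ∀ n, Full lad t (Prev δ (fun ξ _ => Ξ ξ))
      (Vals c δ (fun ξ _ => x ξ) (fun ξ _ => N ξ)) n ⊆ Prev δ (fun ξ _ => N ξ) := by
    intro n
    induction n with
    | zero => exact singleton_subset_iff.mpr htN
    | succ n ih =>
      rintro w (h1 | ⟨β, h1, ξ, ⟨ζ₂, h2, h3⟩, rfl⟩ | ⟨β, -, α, h1, h2, ⟨ξ, h3, h4⟩, rfl⟩)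
      · exact ih h1
      · obtain ⟨ζ₁, h4, h5⟩ := ih h1
        obtain ⟨α, h6⟩ := hδ2 _ (max_lt h4 h2)
        exact ⟨α.1, hδ1 _ α.2, ((hQ α.1).2.1 β ⟨ζ₁, (le_max_left _ _).trans_lt h6, h5⟩).2.1 ξ
          ⟨ζ₂, (le_max_right _ _).trans_lt h6, h3⟩⟩
      · exact ⟨α, h2, ((hQ α).2.1 β.1 ⟨ξ, h3, h4⟩).1 β.2⟩
  have hNF : Prev δ (fun ξ _ => N ξ) ⊆ ⋃ n, Full lad t (Prev δ (fun ξ _ => Ξ ξ))
      (Vals c δ (fun ξ _ => x ξ) (fun ξ _ => N ξ)) n := by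
    refine recon (mem_iUnion.mpr ⟨0, rfl⟩) (fun w _ => ht w) ?_
    rintro β hβ w ⟨ζ₂, h1, h2⟩ h3
    obtain ⟨n, hn⟩ := mem_iUnion.mp hβ
    obtain ⟨ζ₁, h4, h5⟩ := hFN n hn
    obtain ⟨α, h6⟩ := hδ2 _ (max_lt h4 h1)
    by_cases h7 : Big μ β
    · refine ⟨x α.1 ⟨β, h7⟩, mem_iUnion.mpr ⟨n + 1, Or.inr (Or.inr ⟨⟨β, h7⟩, hn, α.1, α.2,
        hδ1 _ α.2, ⟨ζ₁, (le_max_left _ _).trans_lt h6, h5⟩, rfl⟩)⟩, ?_,
        ((hz2 _).lt _).trans (hz1 _)⟩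
      exact ((hQ ζ₂).2.2.2.2.2.2 ⟨β, h7⟩ w h2 h3).trans
        (htt _ _ ((le_max_right _ _).trans_lt h6) _)
    · exact ⟨_, mem_iUnion.mpr ⟨n + 1, Or.inr (Or.inl ⟨β, hn, inv β w, ⟨α.1, hδ1 _ α.2,
        ((hQ α.1).2.1 β ⟨ζ₁, (le_max_left _ _).trans_lt h6, h5⟩).2.2 w
          ⟨ζ₂, (le_max_right _ _).trans_lt h6, h2⟩⟩, rfl⟩)⟩, hlad β h7 w h3⟩
  have hΞδ := mk_Prev hθ (hY.low δ) (fun ξ _ => Ξ ξ) (fun ξ _ => hΞθ ξ)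
  have hPδ := fun β => (mk_Vals c δ (fun ξ _ => x ξ) (fun ξ _ => N ξ) β).trans (hY.low δ)
  have hcovd : ∀ n, ∀ e ∈ Hier lad t κ (Prev δ (fun ξ _ => Ξ ξ))
      (Vals c δ (fun ξ _ => x ξ) (fun ξ _ => N ξ)) n, ∃ q ∈ C, e ⊆ q := by
    intro n
    induction n with
    | zero =>
      intro e he
      exact ⟨_, hC2, (show e = {t} from he).le⟩
    | succ n ih =>
      rintro _ ⟨e, h1, B, h2, rfl⟩
      obtain ⟨q, h3, h4⟩ := (hQ δ).2.2.2.2.1 e ⟨⟨c, hc, n, h1⟩, ih e h1⟩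
      have h5 := hC3 q (hAC δ h3)
      have h6 : B ⊆ Subtype.val ⁻¹' q := h2.1.trans (preimage_mono h4)
      obtain ⟨s, -, h7⟩ := compact_cover (B := B) (T := Set.univ)
        (fun p => {β | u q p (z p) β = z β}) (by
        intro U hU
        obtain ⟨p, h7, h8⟩ := exists_mem_Pts h0 (mem_of_superset hU h6) ((h2.2.1 U hU).trans htκ)
        refine ⟨p, mem_univ _, hex q h5 x z δ hz1 hz2 (fun α α' h9 h10 β => le_trans ?_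
          (htt α α' h10 β)) p h7 U (mem_of_superset hU h6) h8⟩
        refine (hQ α).2.2.2.2.2.1 q ?_ β
        rcases h9.eq_or_lt with rfl | h11
        · exact h3
        · exact (hQ α).2.2.2.1 ⟨δ, h11, h3⟩)
      obtain ⟨q', h8, h9⟩ := hR3 q h5 (s.image (fun p => (p, z p))) _ (by
        rintro w (h8 | ⟨β, h8, ξ, -, h9⟩ | ⟨β, h8, α, h9, _, ⟨ξ, h10, h11⟩, rfl⟩)
        · exact Or.inl (h4 h8)
        · exact Or.inr (Or.inl ⟨β, h4 h8, ξ, mem_univ _, h9⟩)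
        · obtain ⟨p, h12, h13⟩ := h7 β h8
          refine Or.inr (Or.inr ⟨β, h6 h8, mem_iUnion.mpr
            ⟨⟨(p, z p), Finset.mem_image_of_mem _ h12⟩, α, ?_⟩⟩)
          rw [show u q p (z p) β = z β from h13]
          exact (hcan α h9 β ξ h10 h11).symm)
        (mk_stp hθ hΞδ hPδ (Hier.card hθ hΞδ hPδ n e h1) h2.1)
      exact ⟨q', hC4 q (hAC δ h3) (mem_iUnion.mpr ⟨_, h8⟩), h9⟩
  obtain ⟨n, hn⟩ := pigeonJ (K := ULift.{u} ℕ) hν (by simpa using hν) hcν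
    (fun n => {α : c | G (PP α.1 (fun ξ _ => x ξ) (fun ξ _ => N ξ) (fun ξ _ => Ξ ξ)) ∈
      Full lad t (Prev δ (fun ξ _ => Ξ ξ)) (Vals c δ (fun ξ _ => x ξ) (fun ξ _ => N ξ)) n.down})
    (fun α _ => by
      obtain ⟨n, hn⟩ := mem_iUnion.mp (hNF ⟨α.1, hδ1 _ α.2, (hQ α.1).2.2.1⟩)
      exact ⟨⟨n⟩, hn⟩)
  obtain ⟨e, he1, he2⟩ := Hier.catch hν hθ hΞδ hPδ hcov n.down
    (fun α : c => G (PP α.1 (fun ξ _ => x ξ) (fun ξ _ => N ξ) (fun ξ _ => Ξ ξ))) _ hn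
    (fun α hα => hα.2)
  replace he2 := he2.trans_le (mk_le_mk_of_subset inter_subset_right)
  obtain ⟨e', h1, h2, h3⟩ := Hier.trace (I := c) (Ξ := Prev δ (fun ξ _ => Ξ ξ))
    (pool := Vals c δ (fun ξ _ => x ξ) (fun ξ _ => N ξ)) (Ξ' := fun α => Prev α.1 (fun ξ _ => Ξ ξ))
    (pool' := fun α => Vals c α.1 (fun ξ _ => x ξ) (fun ξ _ => N ξ))
    (fun α α' h w ⟨ξ, h1, h2⟩ => ⟨ξ, lt_of_lt_of_le h1 h, h2⟩)
    (fun β α α' h w ⟨ξ, h1, h2, h3⟩ => ⟨ξ, h1, lt_of_lt_of_le h2 h, h3⟩)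
    (fun w => ⟨fun ⟨ξ, h1, h2⟩ => (hδ2 ξ h1).imp (fun α h3 => ⟨ξ, h3, h2⟩),
      fun ⟨α, ξ, h1, h2⟩ => ⟨ξ, h1.trans (hδ1 _ α.2), h2⟩⟩)
    (fun β w => ⟨fun ⟨ξ, h1, h2, h3⟩ => (hδ2 ξ h2).imp (fun α h4 => ⟨ξ, h1, h4, h3⟩),
      fun ⟨α, ξ, h1, h2, h3⟩ => ⟨ξ, h1, h2.trans (hδ1 _ α.2), h3⟩⟩) _ e he1
  obtain ⟨q, h4, h5⟩ := hcovd _ e he1
  refine ⟨_, inferInstance, fun i => e' i.1, he2, (mk_set_le _).trans
    ((hG2 c hc).1.le.trans (hνθ.trans hθσ)), fun i => le_trans ?_ ((hG2 c hc).2 i.1.1 i.1.2),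
    fun i j hij => h1 hij, fun i => ⟨PP i.1.1 (fun ξ _ => x ξ) (fun ξ _ => N ξ) (fun ξ _ => Ξ ξ),
      ⟨⟨c, hc, _, h2 i.1⟩, q, h4, fun w hw => h5 ((h3 w).mpr ⟨_, hw⟩)⟩,
      hPP _ _ _ _ (fun ξ _ => hΞθ ξ), fun p hp => hp.2, ?_⟩⟩
  · apply mk_le_of_injective (f := fun k => ⟨k.1.1.1, k.1.1.2, k.2⟩)
    intro k₁ k₂ h6
    have h7 : k₁.1.1.1 = k₂.1.1.1 := congrArg (fun z : (c ∩ Iio i.1.1 : Set Y) => z.1) h6
    exact Subtype.ext (Subtype.ext (Subtype.ext h7))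
  · obtain ⟨α, h6⟩ := (h3 _).mp i.2
    obtain ⟨k, h7, h8⟩ := hub he2 α
    exact ⟨⟨k, h7⟩, h1 h8.le h6⟩

end Pool.Agent.Lib.MP_856180_lc
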