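import Mathlib
import Pool.Agent.Lib.MP_856180_lc.PcfThr
import Pool.Agent.Lib.MP_856180_lc.PcfCov
import Pool.Agent.Lib.MP_856180_lc.Gap

/-!
If small sets of regular cardinals have few possible cofinalities up to the dominating number,
then the dominating number is `2 ^ μ`.
-/

set_option autoImplicit false

namespace Pool.Agent.Lib.MP_856180_lc

open Cardinal Set Filter Pool.Agent.Shared.RevisedGCH

universe u

variable {μ : Cardinal.{u}}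

lemma exists_sing (hμ : ℵ₀ < μ) (hcof : μ.ord.cof = ℵ₀) : ∃ b, Sing μ b := by
  obtain ⟨ι, ρ, h1, h2, h3, -⟩ := exists_cof_family hμ.le
  obtain ⟨e⟩ : Nonempty (ULift.{u} ℕ ≃ ι) := by
    rw [← Cardinal.eq, h1, hcof]
    simp
  refine ⟨fun n => max (ρ (e ⟨n⟩)) ℵ₀, hμ, succ_lt_of_cof hμ.le (hcof ▸ hμ),
    fun n => max_lt (h2 _) hμ, fun n => le_max_right _ _, fun a ha => ?_⟩
  obtain ⟨i, hi⟩ := h3 a ha
  refine ⟨(e.symm i).down, le_max_of_le_left ?_⟩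
  rwa [ULift.up_down, e.apply_symm_apply]

theorem two_pow_le_of_HH {W : Type u} [LinearOrder W] [WellFoundedLT W] (hμ : ℵ₀ < μ)
    (hcof : μ.ord.cof = ℵ₀) {D : Set (μ.out → ℕ)}
    (hD : ∀ g : μ.out → ℕ, ∃ f ∈ D, ∀ a, g a ≤ f a) {κ : Cardinal.{u}} (hDκ : #D ≤ κ)
    (hμκ : μ ≤ κ) (hH : HH W μ) (hW : #W ≤ κ) {t : W} (ht : ∀ w, w ≤ t) (htκ : κ ≤ #(Iio t)) :
    2 ^ μ ≤ κ := by
  classical
  obtain ⟨b, hb⟩ := exists_sing hμ hcof
  have hι : ℵ₀ ≤ #μ.out := by simpa using hμ.le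
  have hκ : ℵ₀ ≤ κ := hμ.le.trans hμκ
  have hloc : ∀ {β : Type u}, #β ≤ μ → Loc (#μ.out) β := fun h =>
    loc hι _ (by simpa using h) _ rfl
  have hpow : ∀ ρ < μ, 2 ^ ρ ≤ κ := by
    intro ρ hρ
    obtain ⟨κ', hκ', hR⟩ := revised hb hH κ htκ
    obtain ⟨ν, hνμ, hν, h1, h2⟩ : ∃ ν < μ, ℵ₀ ≤ ν ∧ κ' ≤ ν ∧ ρ ≤ ν :=
      ⟨max ℵ₀ (max κ' ρ), max_lt hμ (max_lt hκ' hρ), by simp, by simp, by simp⟩
    refine (power_le_power_left two_ne_zero h2).trans ?_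
    obtain ⟨σ, hσμ, hνσ, hT⟩ := thw_of hb hH hμκ hW ht htκ hν hνμ (hR.mono h1)
      (fun θ h3 h4 => cv_of_dom hι hD h3 (by simpa using h4) hDκ)
    have h4 := hb.succ_lt hσμ
    obtain ⟨S, hS1, hS2⟩ := slalom hι hD
      (ι := (Order.succ σ).ord.ToType × σ.out) (β := fun _ => ν.ord.ToType)
      (by simpa using mul_le_of_le hμ.le h4.le hσμ.le) (fun _ => hloc (by simpa using hνμ.le))
    obtain ⟨j⟩ : #(S × (Order.succ σ).ord.ToType) ≤ #W := by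
      refine le_trans ?_ (htκ.trans (mk_set_le _))
      simpa using mul_le_of_le hκ (hS1.trans hDκ) (h4.le.trans hμκ)
    have hbd := succ_bound (hν.trans hνσ)
    obtain ⟨w0, -⟩ := hbd ∅ (by simp)
    refine two_pow_le_wide (N := ν.ord.ToType) (S := σ.out) hν (by simp) hνσ (by simp) hbd hT
      (Function.extend j (fun z => (z.1.1, z.2)) (fun _ => (fun _ => ∅, w0))) (fun F γ => ?_)
    obtain ⟨s, hs, h⟩ := hS2 F
    refine ⟨j (⟨s, hs⟩, γ), ?_⟩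
    rw [j.injective.extend_apply]
    exact ⟨h, rfl⟩
  have hμω : μ ^ ℵ₀ ≤ κ := by
    simpa using pi_le_of_loc hι hD (ι := (ℵ₀ : Cardinal.{u}).out) (β := fun _ => μ.out) (by simp)
      (fun _ => hloc (by simp)) hDκ (hpow _ hμ)
  by_contra hcon
  have hB : ∀ c : Cardinal.{u}, c ^ ℵ₀ ≤ κ → ∃ ρ < μ, c < 2 ^ ρ := by
    intro c hc
    by_contra h
    push Not at h
    exact hcon ((two_pow_le_pow_cof hμ.le h).trans (hcof ▸ hc))
  obtain ⟨ρ₀, hρ₀, hμρ⟩ := hB μ hμω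
  have hL : ∀ ρ < μ, Loc (#μ.out) (Set ρ.out) := by
    intro ρ hρ
    obtain ⟨ν, hνμ, hν, h1, h2⟩ : ∃ ν < μ, ℵ₀ ≤ ν ∧ ρ ≤ ν ∧ ρ₀ ≤ ν :=
      ⟨max ℵ₀ (max ρ ρ₀), max_lt hμ (max_lt hρ hρ₀), by simp, by simp, by simp⟩
    have hμν : μ ≤ 2 ^ ν := hμρ.le.trans (power_le_power_left two_ne_zero h2)
    have h3 := (hpow ν hνμ).trans htκ
    obtain ⟨κ', hκ', hR⟩ := revised hb hH _ h3
    obtain ⟨p, -, hp⟩ := exists_pt h3
    obtain ⟨ν₀, h4, h5, h6⟩ : ∃ ν₀ < μ, ν ≤ ν₀ ∧ κ' ≤ ν₀ :=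
      ⟨max ν κ', max_lt hνμ hκ', by simp, by simp⟩
    have hν₀ := hν.trans h5
    have h7 : ((2 : Cardinal.{u}) ^ ν₀) ^ ℵ₀ ≤ 2 ^ ν₀ := by rw [← power_mul, mul_aleph0_eq hν₀]
    have h8 := cv_of_RR hb hH hμν hp hν₀ (hR.mono h6) (c := 2 ^ ν₀) (by
      rw [← power_mul]
      exact power_le_power_left two_ne_zero (mul_le_of_le hν₀ h5 le_rfl)) h7
    obtain ⟨ρ', h9, h10⟩ := hB _ (h7.trans (hpow _ h4))
    rw [mk_out]
    refine (loc_of_cov hν hμν h5 rfl (h8.of_card ?_) h9.le h10).mono_card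
      (by simpa using power_le_power_left two_ne_zero h1)
    rw [mk_univ, mk_set, mk_out, ← hp]
    exact mk_le_mk_of_subset Iio_subset_Iic_self
  obtain ⟨ι, ρ, h1, h2, -, h3⟩ := exists_cof_family hμ.le
  exact hcon (h3.trans (pi_le_of_loc hι hD (h1.trans hcof).le (fun i => hL _ (h2 i)) hDκ
    (hpow _ hμ)))

lemma of_not_HH {W : Type u} [LinearOrder W] [WellFoundedLT W] {b : ℕ → Cardinal.{u}}
    (hb : Sing μ b) (hH : ¬ HH W μ) :
    ∃ (ι : Type u) (a : ι → Cardinal.{u}), Function.Injective a ∧ #ι < μ ∧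
      (∀ i, (a i).IsRegular ∧ μ < a i ∧ a i ≤ #W) ∧
      ∃ U : μ.out → Ultrafilter ι, Function.Injective (fun x => ucof a (U x)) ∧
        ∀ x, μ < ucof a (U x) ∧ ucof a (U x) ≤ #W := by
  classical
  have h0 := hb.aleph0_lt.le
  obtain ⟨e, he1, he2⟩ : ∃ e : Set (BW W μ), #e < μ ∧ μ ≤ #(Pts e) := by
    unfold HH at hH
    push Not at hH
    obtain ⟨ν, hν, h⟩ := hH
    choose e h1 h2 using fun n => h _ (hb.b_lt n)
    refine ⟨⋃ n, e n, (iUnion_nat_le (le_max_right ν ℵ₀) _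
      (fun n => (h1 n).trans (le_max_left _ _))).trans_lt (max_lt hν hb.aleph0_lt),
      not_lt.mp (fun h3 => ?_)⟩
    obtain ⟨n, hn⟩ := hb.cofinal _ h3
    exact absurd ((mk_le_mk_of_subset (Pts_mono (subset_iUnion e n))).trans hn)
      (not_le.mpr (h2 n))
  choose q h1 h2 h3 using exists_reg_pt (W := W) h0
  obtain ⟨j⟩ : #μ.out ≤ #(Pts e) := by simpa using he2
  choose U h4 h5 using fun x => (j x).2.2
  have hinj : ∀ {p p' : BW W μ}, Init p.1 → Init p'.1 → #(Iio p.1) = #(Iio p'.1) → p = p' :=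
    fun h6 h7 h8 => Subtype.ext (le_antisymm (h6.le h8.le) (h7.le h8.ge))
  have hreg : ∀ p : q '' e, (#(Iio p.1.1)).IsRegular := by
    rintro ⟨_, β, -, rfl⟩
    exact h2 β ▸ regular_cof (h0.trans β.2.le)
  have hcof : ∀ p : q '' e, Order.cof (#(Iio p.1.1)).ord.ToType = #(Iio p.1.1) := fun p => by
    rw [Ordinal.cof_toType, (hreg p).cof_ord]
  have h6 : ∀ x, ∃ V : Ultrafilter (q '' e),
      ucof (fun p : q '' e => #(Iio p.1.1)) V = #(Iio (j x).1.1) := by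
    intro x
    obtain ⟨β₀, h6⟩ := (U x).nonempty_of_mem (h4 x)
    refine ⟨(U x).map (fun β => if h : β ∈ e then ⟨q β, β, h, rfl⟩ else ⟨q β₀, β₀, h6, rfl⟩), ?_⟩
    rw [← h5 x]
    refine (gcf_map (X := fun β : BW W μ => Iio β.1)
      (X' := fun p : q '' e => (#(Iio p.1.1)).ord.ToType) h0 (fun β => β.2)
      (fun p => (hcof p).symm ▸ p.1.2.lt_mk) _ he1.le (h4 x) (fun β hβ => ?_)).symm
    rw [hcof, dif_pos hβ, h2]
  choose V hV using h6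
  refine ⟨q '' e, fun p => #(Iio p.1.1), ?_, mk_image_le.trans_lt he1,
    fun p => ⟨hreg p, p.1.2.lt_mk, mk_set_le _⟩, V, fun x y hxy => ?_,
    fun x => ⟨(j x).1.2.lt_mk.trans_le (hV x).ge, (hV x).le.trans (mk_set_le _)⟩⟩
  · rintro ⟨_, β, h6, rfl⟩ ⟨_, β', h7, rfl⟩ h8
    exact Subtype.ext (hinj (h1 β) (h1 β') h8)
  · exact j.injective (Subtype.ext (hinj (j x).2.1 (j y).2.1
      ((hV x).symm.trans (hxy.trans (hV y)))))

theorem pcf_failure (hμ : ℵ₀ < μ) (hcof : μ.ord.cof = ℵ₀) (h : domNum μ < 2 ^ μ) :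
    ∃ (ι : Type u) (a : ι → Cardinal.{u}), Function.Injective a ∧ #ι < μ ∧
      (∀ i, (a i).IsRegular ∧ μ < a i ∧ a i ≤ domNum μ) ∧
      ∃ U : μ.out → Ultrafilter ι, Function.Injective (fun x => ucof a (U x)) ∧
        ∀ x, μ < ucof a (U x) ∧ ucof a (U x) ≤ domNum μ := by
  obtain ⟨hμκ, D, hDκ, hD⟩ := exists_dom hμ.le
  generalize domNum μ = κ at h hμκ hDκ
  obtain ⟨b, hb⟩ := exists_sing hμ hcof
  have hκ : ℵ₀ ≤ κ := hμ.le.trans hμκ.le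
  have hW : #(WithTop κ.ord.ToType) ≤ κ := by
    refine le_trans (mk_option (α := κ.ord.ToType)).le ?_
    rw [mk_ord_toType, add_one_eq hκ]
  obtain ⟨ι, a, h1, h2, h3, U, h4, h5⟩ := of_not_HH (W := WithTop κ.ord.ToType) hb
    (fun hH => absurd h (not_lt.mpr
    (two_pow_le_of_HH hμ hcof hD hDκ hμκ.le hH hW (t := ⊤) (fun _ => le_top) (by
      refine le_trans (mk_ord_toType κ).ge (mk_le_of_injective
        (f := fun x => ⟨(x : WithTop κ.ord.ToType), WithTop.coe_lt_top x⟩) (fun x y hxy => ?_))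
      exact WithTop.coe_injective (congrArg Subtype.val hxy)))))
  exact ⟨ι, a, h1, h2, fun i => ⟨(h3 i).1, (h3 i).2.1, (h3 i).2.2.trans hW⟩, U, h4,
    fun x => ⟨(h5 x).1, (h5 x).2.trans hW⟩⟩

end Pool.Agent.Lib.MP_856180_lc
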