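import Mathlib
import Pool.Agent.Lib.MP_856180_lc.PcfMain

/-!
The bound on possible cofinalities is needed only at one threshold `θ ≤ μ`.
-/

set_option autoImplicit false

namespace Pool.Agent.Lib.MP_856180_lc

open Cardinal Set Filter Pool.Agent.Shared.RevisedGCH

universe u

lemma closure_pred {X : Type u} {κ : Cardinal.{u}} (hκ : ℵ₀ ≤ κ) (P : Set X → Prop) {q₀ : Set X}
    (h0 : P q₀) (op : Set X → Set (Set X))
    (h : ∀ q : Set X, P q → #(op q) ≤ κ ∧ ∀ q' ∈ op q, P q') :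
    ∃ C : Set (Set X), #C ≤ κ ∧ q₀ ∈ C ∧ (∀ q ∈ C, P q) ∧ ∀ q ∈ C, op q ⊆ C := by
  let CC : ℕ → Set (Set X) := fun n => Nat.rec {q₀} (fun _ A => ⋃ q : A, op q.1) n
  have h1 : ∀ n, #(↥(CC n)) ≤ κ ∧ ∀ q ∈ CC n, P q := by
    intro n
    induction n with
    | zero =>
      exact ⟨by simpa [CC] using one_le_aleph0.trans hκ, fun q hq => (show q = q₀ from hq) ▸ h0⟩
    | succ n ih =>
      refine ⟨iUnion_le hκ _ ih.1 (fun q => (h _ (ih.2 _ q.2)).1), fun q' hq' => ?_⟩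
      obtain ⟨q, hq⟩ := mem_iUnion.mp hq'
      exact (h _ (ih.2 _ q.2)).2 q' hq
  refine ⟨⋃ n, CC n, iUnion_nat_le hκ _ (fun n => (h1 n).1), mem_iUnion.mpr ⟨0, rfl⟩,
    fun q hq => ?_, fun q hq q' hq' => ?_⟩
  · obtain ⟨n, hn⟩ := mem_iUnion.mp hq
    exact (h1 n).2 q hn
  · obtain ⟨n, hn⟩ := mem_iUnion.mp hq
    exact mem_iUnion.mpr ⟨n + 1, mem_iUnion.mpr ⟨⟨q, hn⟩, hq'⟩⟩

/-- The covering form of the revised GCH at `θ`. -/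
theorem cover_of_RR {W : Type u} [LinearOrder W] [WellFoundedLT W] {θ : Cardinal.{u}}
    {b : ℕ → Cardinal.{u}} (hθ : Sing θ b) (hH : HH W θ) {l κ : Cardinal.{u}}
    (hl : θ ≤ l) {t : W} (ht : #(Iio t) = l) (hκ : ℵ₀ ≤ κ) (hR : RR W θ l κ) :
    ∃ C : Set (Set W), #C ≤ l ∧ (∀ q ∈ C, #q < θ) ∧
      ∀ A ⊆ Iic t, #A ≤ θ → ∃ T ⊆ C, #T ≤ κ ∧ A ⊆ ⋃₀ T := by
  have h0 := hθ.aleph0_lt.le
  have hl0 : ℵ₀ ≤ l := h0.trans hl
  obtain ⟨lad, inv, hlad⟩ := exists_lad (W := W) h0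
  obtain ⟨Ξ, hΞ1, hΞ2⟩ := hθ.split (e := (Set.univ : Set θ.out)) (by simp)
  have hsm : ∀ q : Set W, #q < θ →
      #(Subtype.val ⁻¹' (q ∩ Iic t) : Set (BW W θ)) < θ := fun q hq =>
    ((mk_val_le _).trans (mk_le_mk_of_subset inter_subset_left)).trans_lt hq
  choose! S h1 h2 h3 using fun (q : Set W) (hq : #q < θ) => cof_family hθ (hsm q hq) hl0 (by
    obtain ⟨ρ, h6, h7⟩ := hH _ (hsm q hq)
    exact (h7 _ le_rfl).trans (h6.le.trans hl)) ht.ge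
  choose! K h4 h5 h6 using fun (q : Set W) (hq : #q < θ) => hR _ (hsm q hq)
    (fun β hβ => (Order.cof_le_cardinalMk _).trans
      ((mk_le_mk_of_subset (Iio_subset_Iio hβ.2)).trans ht.le))
  let nx : Set W → ULift.{u} ℕ × (BW W θ → W) → Set W := fun q z =>
    stp lad (Ξ z.1.down) (fun β => {z.2 β}) q (Subtype.val ⁻¹' q)
  have hnx : ∀ (q : Set W) z, #q < θ → #(nx q z) < θ := by
    intro q z hq
    refine (mk_stp (θ := max (max #q #(Ξ z.1.down)) ℵ₀) (le_max_right _ _)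
      ((le_max_right _ _).trans (le_max_left _ _))
      (fun _ => by simp)
      ((le_max_left _ _).trans (le_max_left _ _)) subset_rfl).trans_lt
      (max_lt (max_lt hq (hΞ1 _).2) hθ.aleph0_lt)
  have hcard : ∀ {V : Set (BW W θ → W)} {c : Cardinal.{u}}, ℵ₀ ≤ c → #V ≤ c →
      #((Set.univ : Set (ULift.{u} ℕ)) ×ˢ V : Set _) ≤ c := by
    intro V c hc hV
    rw [mk_setProd]
    exact mul_le_of_le hc (by simpa using hc) hV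
  obtain ⟨C, hC1, hC2, hC3, hC4⟩ := closure_pred hl0 (fun q : Set W => #q < θ) (q₀ := {t})
    (by simpa using one_lt_aleph0.trans hθ.aleph0_lt)
    (fun q => nx q '' (Set.univ ×ˢ S q)) (fun q hq =>
      ⟨mk_image_le.trans (hcard hl0 (h1 q hq)), by
        rintro _ ⟨z, -, rfl⟩
        exact hnx q z hq⟩)
  refine ⟨C, hC1, hC3, fun A hA hAθ => ?_⟩
  choose g h7 h8 using fun β : BW W θ => bound_below (w := β.1) (A ∩ Iio β.1)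
    (((mk_le_mk_of_subset inter_subset_left).trans hAθ).trans_lt β.2) (fun _ h => h.2)
  have h9 : ∀ q : Set W, #q < θ → ∃ V ⊆ S q, #V ≤ κ ∧ V.Nonempty ∧
      ∀ β : BW W θ, β.1 ∈ q ∩ Iic t → ∃ v ∈ V, g β ≤ v β := by
    intro q hq
    choose v h9 h10 using fun B : K q => h3 q hq B.1 (h5 q hq _ B.2).1 (h5 q hq _ B.2).2 g h7
    obtain ⟨v₀, h11, -⟩ := h3 q hq ∅ (empty_subset _)
      (fun U hU => absurd hU U.empty_notMem) g h7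
    refine ⟨insert v₀ (range v), insert_subset h11 (by rintro _ ⟨B, rfl⟩; exact h9 B),
      mk_insert_le.trans (add_le_of_le hκ (mk_range_le.trans (h4 q hq))
        (one_le_aleph0.trans hκ)), insert_nonempty _ _, fun β hβ => ?_⟩
    obtain ⟨B, h12, h13⟩ := h6 q hq hβ
    exact ⟨_, Or.inr ⟨⟨B, h12⟩, rfl⟩, h10 ⟨B, h12⟩ β h13⟩
  choose! V h10 h11 h12 h13 using h9
  obtain ⟨T, hT1, hT2, hT3, hT4⟩ := closure_pred hκ (fun q : Set W => q ∈ C) (q₀ := {t}) hC2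
    (fun q => nx q '' (Set.univ ×ˢ V q)) (fun q hq =>
      ⟨mk_image_le.trans (hcard hκ (h11 q (hC3 q hq))), by
        rintro _ ⟨z, hz, rfl⟩
        exact hC4 q hq ⟨z, ⟨mem_univ _, h10 q (hC3 q hq) hz.2⟩, rfl⟩⟩)
  refine ⟨T, hT3, hT1, ?_⟩
  refine (recon (L := (⋃₀ T) ∩ Iic t) ⟨⟨_, hT2, rfl⟩, le_rfl⟩ hA ?_).trans inter_subset_left
  rintro β ⟨⟨q, hq, hβ⟩, h14⟩ α hα h15
  have hqθ := hC3 q (hT3 q hq)
  by_cases h16 : Big θ β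
  · obtain ⟨v, h17, h18⟩ := h13 q hqθ ⟨β, h16⟩ ⟨hβ, h14⟩
    have h19 : v ⟨β, h16⟩ < β := h2 q hqθ v (h10 q hqθ h17) ⟨β, h16⟩
    exact ⟨v ⟨β, h16⟩, ⟨⟨_, hT4 q hq ⟨(⟨0⟩, v), ⟨mem_univ _, h17⟩, rfl⟩,
      Or.inr (Or.inr ⟨⟨β, h16⟩, hβ, rfl⟩)⟩, h19.le.trans h14⟩,
      (h8 ⟨β, h16⟩ α ⟨hα, h15⟩).le.trans h18, h19⟩
  · obtain ⟨h17, h18⟩ := hlad β h16 α h15
    obtain ⟨n, hn⟩ := hΞ2 (inv β α) (mem_univ _)
    obtain ⟨v, hv⟩ := h12 q hqθ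
    exact ⟨_, ⟨⟨_, hT4 q hq ⟨(⟨n⟩, v), ⟨mem_univ _, hv⟩, rfl⟩,
      Or.inr (Or.inl ⟨β, hβ, _, hn, rfl⟩)⟩, h18.le.trans h14⟩, h17, h18⟩

/-- Finite slaloms over a large alphabet from a covering family. -/
lemma slalom_cv {ι₀ : Type u} (hι₀ : ℵ₀ ≤ #ι₀) {D : Set (ι₀ → ℕ)}
    (hD : ∀ g : ι₀ → ℕ, ∃ f ∈ D, ∀ a, g a ≤ f a) {ι : Type u} {β : ι → Type u} (hι : #ι ≤ #ι₀)
    {Z : Type u} (hβ : ∀ i, #(β i) ≤ #Z) {κ : Cardinal.{u}} (hκ : ℵ₀ ≤ κ) (hDκ : #D ≤ κ)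
    (hC : Cv (#ι₀) κ (Set.univ : Set Z)) :
    ∃ S : Set (∀ i, Finset (β i)), #S ≤ κ ∧ ∀ F : ∀ i, β i, ∃ s ∈ S, ∀ i, F i ∈ s i := by
  classical
  obtain ⟨C, h1, h2, h3⟩ := hC
  have e : ∀ i, β i ↪ Z := fun i => (hβ i).some
  choose S h4 h5 using fun q : C => slalom hι₀ hD (ι := ι) (β := fun _ => q.1) hι
    (fun _ => loc hι₀ _ (h2 q.1 q.2) _ rfl)
  refine ⟨⋃ q : C, (fun (s : ι → Finset q.1) i =>
    ((s i).image Subtype.val).preimage (e i) (e i).injective.injOn) '' S q,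
    iUnion_le hκ _ h1 (fun q => mk_image_le.trans ((h4 q).trans hDκ)), fun F => ?_⟩
  obtain ⟨q, h6, h7⟩ := h3 (range (fun i => e i (F i))) (subset_univ _) (mk_range_le.trans hι)
  obtain ⟨s, h8, h9⟩ := h5 ⟨q, h6⟩ (fun i => ⟨e i (F i), h7 ⟨i, rfl⟩⟩)
  refine ⟨_, mem_iUnion.mpr ⟨⟨q, h6⟩, s, h8, rfl⟩, fun i => ?_⟩
  rw [Finset.mem_preimage]
  exact Finset.mem_image.mpr ⟨_, h9 i, rfl⟩

/-- Counting subsets from finite slaloms along a hitting family. -/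
lemma two_pow_le_hit {β X : Type u} (v : β → X) (hv : Function.Injective v) {P : Set (Set X)}
    {τ κ : Cardinal.{u}} (hit : ∀ A : Set β, τ ≤ #A → ∃ p ∈ P, (v '' A ∩ p).Infinite)
    (hκ : ℵ₀ ≤ κ) (hν : ∀ ρ < τ, (2 : Cardinal.{u}) ^ ρ ≤ κ)
    (hS : ∃ S : Set (∀ p : P, Finset (Set p.1)), #S ≤ κ ∧
      ∀ F : ∀ p : P, Set p.1, ∃ s ∈ S, ∀ p, F p ∈ s p) : (2 : Cardinal.{u}) ^ #β ≤ κ := by
  classical
  obtain ⟨S, hS1, hS2⟩ := hS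
  let tr : (p : P) → Set β → Set p.1 := fun p Y => {x | x.1 ∈ v '' Y}
  let H : S → Set (Set β) := fun s => {Y | ∀ p, tr p Y ∈ s.1 p}
  have hcov : (Set.univ : Set (Set β)) = ⋃ s, H s := by
    ext Y
    simp only [mem_univ, mem_iUnion, true_iff]
    obtain ⟨s, hs, h⟩ := hS2 (fun p => tr p Y)
    exact ⟨⟨s, hs⟩, h⟩
  have hH : ∀ s, #(H s) ≤ κ := by
    intro s
    let col : β → Set (H s) := fun b => {Y | b ∈ Y.1}
    have hR : #(range col) < τ := by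
      by_contra hge
      rw [not_lt] at hge
      let sec : range col → β := fun r => r.2.choose
      have hsec : ∀ r, col (sec r) = r.1 := fun r => r.2.choose_spec
      have hsi : Function.Injective sec := fun r r' h =>
        Subtype.ext (by rw [← hsec, ← hsec, h])
      obtain ⟨p, hp, hinf⟩ := hit (range sec) (by rwa [mk_range_eq _ hsi])
      have hinj2 : Function.Injective (fun x : ↥(v '' range sec ∩ p) =>
          {T : s.1 ⟨p, hp⟩ | (⟨x.1, x.2.2⟩ : p) ∈ T.1}) := by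
        intro x y h
        apply Subtype.ext
        obtain ⟨x', ⟨r, hr⟩, hx⟩ := x.2.1
        obtain ⟨y', ⟨r', hr'⟩, hy⟩ := y.2.1
        have h1 : r = r' := by
          apply Subtype.ext
          rw [← hsec, ← hsec, hr, hr']
          ext Y
          have h2 : x.1 ∈ v '' Y.1 ↔ y.1 ∈ v '' Y.1 :=
            Set.ext_iff.mp h ⟨tr ⟨p, hp⟩ Y.1, Y.2 ⟨p, hp⟩⟩
          rw [← hx, ← hy] at h2
          exact (hv.mem_set_image.symm.trans h2).trans hv.mem_set_image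
        rw [← hx, ← hy, ← hr, ← hr', h1]
      have := hinf.to_subtype
      exact not_injective_infinite_finite _ hinj2
    refine le_trans ?_ (hν _ hR)
    rw [← mk_set]
    apply mk_le_of_injective (f := fun Y : H s => {r : range col | Y ∈ r.1})
    intro Y Y' h
    apply Subtype.ext
    ext b
    exact Set.ext_iff.mp h ⟨col b, b, rfl⟩
  rw [← mk_set, ← mk_univ, hcov]
  exact iUnion_le hκ _ hS1 hH

theorem two_pow_le_of_HH_at {W : Type u} [LinearOrder W] [WellFoundedLT W] {θ μ : Cardinal.{u}}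
    (hθ : ℵ₀ < θ) (hcof : θ.ord.cof = ℵ₀) (hθμ : θ ≤ μ) {D : Set (μ.out → ℕ)}
    (hD : ∀ g : μ.out → ℕ, ∃ f ∈ D, ∀ a, g a ≤ f a) {κ : Cardinal.{u}} (hDκ : #D ≤ κ)
    (hμκ : μ ≤ κ) (hH : HH W θ) (hW : #W ≤ κ) {t : W} (ht : ∀ w, w ≤ t)
    (htκ : κ ≤ #(Iio t)) :
    2 ^ θ ≤ κ ∧ ((∀ ν < θ, (2 : Cardinal.{u}) ^ ν < 2 ^ θ) → 2 ^ μ ≤ κ) ∧
      ∀ κ₂, κ ≤ κ₂ → Cv μ κ₂ (Set.univ : Set ((2 : Cardinal.{u}) ^ θ).out) → 2 ^ μ ≤ κ₂ := by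
  classical
  obtain ⟨b, hb⟩ := exists_sing hθ hcof
  have hμ : ℵ₀ ≤ μ := hθ.le.trans hθμ
  have hι : ℵ₀ ≤ #μ.out := by simpa using hμ
  have hκ : ℵ₀ ≤ κ := hμ.trans hμκ
  obtain ⟨e⟩ : #θ.out ≤ #μ.out := by simpa using hθμ
  have h2θ : 2 ^ θ ≤ κ := by
    refine two_pow_le_of_HH hθ hcof (D := (fun f => f ∘ e) '' D) (fun g => ?_)
      (mk_image_le.trans hDκ) (hθμ.trans hμκ) hH hW ht htκ
    obtain ⟨f, hf, h⟩ := hD (Function.extend e g (fun _ => 0))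
    refine ⟨_, ⟨f, hf, rfl⟩, fun a => ?_⟩
    have := h (e a)
    rwa [e.injective.extend_apply] at this
  have h1 := hμκ.trans htκ
  obtain ⟨κ', hκ', hR⟩ := revised hb hH _ h1
  obtain ⟨p, -, hp⟩ := exists_pt h1
  obtain ⟨ν, hνθ, hν, h2⟩ : ∃ ν < θ, ℵ₀ ≤ ν ∧ κ' ≤ ν :=
    ⟨max ℵ₀ κ', max_lt hθ hκ', by simp, by simp⟩
  obtain ⟨C, hC1, hC2, hC3⟩ := cover_of_RR hb hH hθμ hp hν (hR.mono h2)
  have hCμ : #C ≤ #μ.out := by simpa using hC1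
  have key : ∀ κ₂, κ ≤ κ₂ → (∃ S : Set (∀ q : C, Finset (Set q.1)), #S ≤ κ₂ ∧
      ∀ F : ∀ q : C, Set q.1, ∃ s ∈ S, ∀ q, F q ∈ s q) → 2 ^ μ ≤ κ₂ := by
    intro κ₂ hκ₂ hS
    rw [← hp]
    refine two_pow_le_hit (Subtype.val : Iio p → W) Subtype.val_injective (τ := θ)
      (fun A hA => ?_) (hκ.trans hκ₂)
      (fun ρ hρ => (power_le_power_left two_ne_zero hρ.le).trans (h2θ.trans hκ₂)) hS
    obtain ⟨B, hBA, hB⟩ := le_mk_iff_exists_subset.mp hA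
    have h3 : #(Subtype.val '' B : Set W) = θ := by
      rw [mk_image_eq Subtype.val_injective, hB]
    obtain ⟨T, hT1, hT2, hT3⟩ := hC3 (Subtype.val '' B)
      (by rintro _ ⟨x, -, rfl⟩; exact le_of_lt x.2) h3.le
    obtain ⟨q, hq⟩ := pigeonJ (K := T) hν hT2 (hνθ.trans_eq h3.symm) (fun q => q.1)
      (fun x hx => by
        obtain ⟨q, h4, h5⟩ := hT3 hx
        exact ⟨⟨q, h4⟩, h5⟩)
    exact ⟨q.1, hT1 q.2, (infinite_iff_aleph0.mpr (hν.trans hq.le)).mono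
      (inter_subset_inter_left _ (image_mono hBA))⟩
  refine ⟨h2θ, fun hns => ?_, fun κ₂ hκ₂ hCv => key κ₂ hκ₂ (slalom_cv hι hD hCμ
    (Z := ((2 : Cardinal.{u}) ^ θ).out) (fun q => by
    simpa using power_le_power_left two_ne_zero (hC2 q.1 q.2).le) (hκ.trans hκ₂)
    (hDκ.trans hκ₂) (by rwa [mk_out]))⟩
  have hL : ∀ ρ < θ, Loc (#μ.out) (Set ρ.out) := by
    intro ρ hρ
    obtain ⟨ν, hνθ, hν, h1⟩ : ∃ ν < θ, ℵ₀ ≤ ν ∧ ρ ≤ ν :=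
      ⟨max ℵ₀ ρ, max_lt hθ hρ, by simp, by simp⟩
    have h2 : #(Set ρ.out) ≤ #(Set ν.out) := by
      simpa using power_le_power_left two_ne_zero h1
    refine Loc.mono_card ?_ h2
    rcases le_or_gt (2 ^ ν) μ with h3 | h3
    · exact loc hι _ (by simpa using h3) _ rfl
    have hθν : θ ≤ 2 ^ ν := hθμ.trans h3.le
    have h4 := ((power_le_power_left two_ne_zero hνθ.le).trans h2θ).trans htκ
    obtain ⟨κ', hκ', hR⟩ := revised hb hH _ h4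
    obtain ⟨p, -, hp⟩ := exists_pt h4
    obtain ⟨ν₀, h5, h6, h7⟩ : ∃ ν₀ < θ, ν ≤ ν₀ ∧ κ' ≤ ν₀ :=
      ⟨max ν κ', max_lt hνθ hκ', by simp, by simp⟩
    have hν₀ := hν.trans h6
    have h8 : ((2 : Cardinal.{u}) ^ ν₀) ^ ℵ₀ ≤ 2 ^ ν₀ := by rw [← power_mul, mul_aleph0_eq hν₀]
    have h9 := cv_of_RR hb hH hθν hp hν₀ (hR.mono h7) (c := 2 ^ ν₀) (by
      rw [← power_mul]
      exact power_le_power_left two_ne_zero (mul_le_of_le hν₀ h6 le_rfl)) h8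
    obtain ⟨L, h10, h11⟩ := loc_of_cov hν hθν h6 rfl (h9.of_card (by
      rw [mk_univ, mk_set, mk_out, ← hp]
      exact mk_le_mk_of_subset Iio_subset_Iic_self)) le_rfl (hns ν₀ h5)
    exact ⟨L, h10.trans (by simpa using hθμ), h11⟩
  obtain ⟨S, hS1, hS2⟩ := slalom hι hD (ι := C) (β := fun q => Set q.1) hCμ
    (fun q => (hL _ (hC2 q.1 q.2)).mono_card (by simp))
  exact key κ le_rfl ⟨S, hS1.trans hDκ, hS2⟩

theorem two_pow_le_of_HH_low {W : Type u} [LinearOrder W] [WellFoundedLT W] {θ μ : Cardinal.{u}}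
    (hθ : ℵ₀ < θ) (hcof : θ.ord.cof = ℵ₀) (hθμ : θ ≤ μ) {D : Set (μ.out → ℕ)}
    (hD : ∀ g : μ.out → ℕ, ∃ f ∈ D, ∀ a, g a ≤ f a) {κ : Cardinal.{u}} (hDκ : #D ≤ κ)
    (hμκ : μ ≤ κ) (hH : HH W θ) {t : W} (htμ : μ ≤ #(Iio t))
    (hpow : ∀ σ < θ, σ ^ ℵ₀ ≤ μ) : 2 ^ μ ≤ κ := by
  obtain ⟨b, hb⟩ := exists_sing hθ hcof
  have hμ : ℵ₀ ≤ μ := hθ.le.trans hθμ
  have hι : ℵ₀ ≤ #μ.out := by simpa using hμ
  have hκ : ℵ₀ ≤ κ := hμ.trans hμκ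
  have hc : 𝔠 ≤ μ := by simpa using hpow _ hθ
  have hc' : 𝔠 ≤ Order.succ^[0] #μ.out := by simpa using hc
  have hmul : 𝔠 * #D * κ ≤ κ := mul_le_of_le hκ (mul_le_of_le hκ (hc.trans hμκ) hDκ) le_rfl
  have hlow : ∀ ρ < θ, (2 : Cardinal.{u}) ^ ρ ≤ κ := by
    intro ρ hρ
    have h1 := two_pow_le (β := ρ.out) D hD hι hc' (τ := ℵ₀) (ν := κ)
      (hit_of_pow hι (Or.inr (by simpa using hpow ρ hρ)))
      (fun ρ' h => (power_lt_aleph0 (natCast_lt_aleph0 (n := 2)) h).le.trans hκ)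
    rw [mk_out] at h1
    exact h1.trans hmul
  obtain ⟨κ', hκ', hR⟩ := revised hb hH _ htμ
  obtain ⟨p, -, hp⟩ := exists_pt htμ
  obtain ⟨ν, hνθ, hν, h2⟩ : ∃ ν < θ, ℵ₀ ≤ ν ∧ κ' ≤ ν :=
    ⟨max ℵ₀ κ', max_lt hθ hκ', by simp, by simp⟩
  obtain ⟨C, hC1, hC2, hC3⟩ := cover_of_RR hb hH hθμ hp hν (hR.mono h2)
  have hit : Hit (#μ.out) θ (Iio p) := by
    refine ⟨⋃ q : C, {s | ∀ n, s n ∈ (Subtype.val ⁻¹' q.1 : Set (Iio p))}, ?_, fun A hA => ?_⟩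
    · rw [mk_out]
      exact iUnion_le hμ _ hC1 (fun q => (mk_seq_le _).trans ((power_le_power_right
        (mk_preimage_of_injective _ _ Subtype.val_injective)).trans (hpow _ (hC2 q.1 q.2))))
    obtain ⟨B, hBA, hB⟩ := le_mk_iff_exists_subset.mp hA
    obtain ⟨T, hT1, hT2, hT3⟩ := hC3 (Subtype.val '' B)
      (by rintro _ ⟨x, -, rfl⟩; exact le_of_lt x.2) (mk_image_le.trans hB.le)
    obtain ⟨q, hq⟩ := pigeonJ (K := T) hν hT2 (hνθ.trans_eq hB.symm)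
      (fun q => Subtype.val ⁻¹' q.1) (fun x hx => by
        obtain ⟨q, h4, h5⟩ := hT3 ⟨x, hx, rfl⟩
        exact ⟨⟨q, h4⟩, h5⟩)
    obtain ⟨s, hs1, hs2⟩ := exists_seq (infinite_iff_aleph0.mpr (hν.trans hq.le))
    refine ⟨s, mem_iUnion.mpr ⟨⟨q.1, hT1 q.2⟩, fun n => (hs2 n).2⟩, hs1.mono ?_⟩
    rintro _ ⟨n, rfl⟩
    exact ⟨hBA (hs2 n).1, n, rfl⟩
  have h3 := two_pow_le D hD hι hc' hit hlow
  rw [hp] at h3
  exact h3.trans hmul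

lemma cv_cofSub (θ μ : Cardinal.{u}) : Cv μ (cofSub θ μ) (Set.univ : Set θ.out) := by
  obtain ⟨C, h1, h2, h3⟩ := csInf_mem (s := {c : Cardinal.{u} | ∃ C : Set (Set θ.out), #C = c ∧
    (∀ p ∈ C, #p ≤ μ) ∧ ∀ A : Set θ.out, #A ≤ μ → ∃ p ∈ C, A ⊆ p})
    ⟨_, {p | #p ≤ μ}, rfl, fun _ h => h, fun A hA => ⟨A, hA, subset_rfl⟩⟩
  exact ⟨C, h1.le, h2, fun A _ => h3 A⟩

lemma cofSub_le_pow (θ μ : Cardinal.{u}) : cofSub θ μ ≤ max θ ℵ₀ ^ μ := by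
  refine le_trans (csInf_le' (s := {c : Cardinal.{u} | ∃ C : Set (Set θ.out), #C = c ∧
    (∀ p ∈ C, #p ≤ μ) ∧ ∀ A : Set θ.out, #A ≤ μ → ∃ p ∈ C, A ⊆ p})
    ⟨{p | #p ≤ μ}, rfl, fun _ h => h, fun A hA => ⟨A, hA, subset_rfl⟩⟩) ?_
  have h := mk_bounded_set_le θ.out μ
  rw [mk_out] at h
  exact h

lemma top_facts {κ : Cardinal.{u}} (hκ : ℵ₀ ≤ κ) : #(WithTop κ.ord.ToType) ≤ κ ∧
    κ ≤ #(Iio (⊤ : WithTop κ.ord.ToType)) := by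
  constructor
  · refine le_trans (mk_option (α := κ.ord.ToType)).le ?_
    rw [mk_ord_toType, add_one_eq hκ]
  · refine le_trans (mk_ord_toType κ).ge (mk_le_of_injective
      (f := fun x => ⟨(x : WithTop κ.ord.ToType), WithTop.coe_lt_top x⟩) (fun x y hxy => ?_))
    exact WithTop.coe_injective (congrArg Subtype.val hxy)

theorem threshold {θ μ : Cardinal.{u}} (hθ : ℵ₀ < θ) (hcof : θ.ord.cof = ℵ₀) (hθμ : θ ≤ μ)
    (h : domNum μ < 2 ^ μ) :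
    (∃ (ι : Type u) (a : ι → Cardinal.{u}), Function.Injective a ∧ #ι < θ ∧
      (∀ i, (a i).IsRegular ∧ θ < a i ∧ a i ≤ domNum μ) ∧
      ∃ U : θ.out → Ultrafilter ι, Function.Injective (fun x => ucof a (U x)) ∧
        ∀ x, θ < ucof a (U x) ∧ ucof a (U x) ≤ domNum μ) ∨
    ((∃ ν < θ, μ < ν ^ ℵ₀ ∧ (2 : Cardinal.{u}) ^ ν = 2 ^ θ) ∧ 2 ^ θ ≤ domNum μ ∧
      cofSub (2 ^ θ) μ = 2 ^ μ) := by
  have hμ : ℵ₀ ≤ μ := hθ.le.trans hθμ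
  obtain ⟨hμκ, D, hDκ, hD⟩ := exists_dom hμ
  generalize domNum μ = κ at h hμκ hDκ
  obtain ⟨b, hb⟩ := exists_sing hθ hcof
  have hκ : ℵ₀ ≤ κ := hμ.trans hμκ.le
  obtain ⟨hW, ht⟩ := top_facts hκ
  by_cases hH : HH (WithTop κ.ord.ToType) θ
  · obtain ⟨h6, h7, h8⟩ := two_pow_le_of_HH_at hθ hcof hθμ hD hDκ hμκ.le hH hW (t := ⊤)
      (fun _ => le_top) ht
    refine Or.inr ⟨?_, h6, le_antisymm ((cofSub_le_pow _ _).trans ?_) ?_⟩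
    · obtain ⟨ν, h9, h10⟩ : ∃ ν < θ, (2 : Cardinal.{u}) ^ ν = 2 ^ θ := by
        by_contra hcon
        refine absurd h (not_lt.mpr (h7 (fun ν h9 => ?_)))
        exact lt_of_le_of_ne (power_le_power_left two_ne_zero h9.le)
          (fun h10 => hcon ⟨ν, h9, h10⟩)
      obtain ⟨σ, h11, h12⟩ : ∃ σ < θ, μ < σ ^ ℵ₀ := by
        by_contra hcon
        push Not at hcon
        exact absurd h (not_lt.mpr (two_pow_le_of_HH_low hθ hcof hθμ hD hDκ hμκ.le hH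
          (hμκ.le.trans ht) hcon))
      exact ⟨max ν σ, max_lt h9 h11, h12.trans_le (power_le_power_right (le_max_right _ _)),
        le_antisymm (power_le_power_left two_ne_zero (max_lt h9 h11).le)
          (h10.ge.trans (power_le_power_left two_ne_zero (le_max_left _ _)))⟩
    · rw [max_eq_left (hθ.le.trans (cantor θ).le), ← power_mul]
      exact power_le_power_left two_ne_zero (mul_le_of_le hμ hθμ le_rfl)
    · exact (le_max_iff.mp (h8 _ (le_max_left κ _)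
        ((cv_cofSub _ _).mono (le_max_right _ _)))).resolve_left (not_le.mpr h)
  · obtain ⟨ι, a, h1, h2, h3, U, h4, h5⟩ := of_not_HH hb hH
    exact Or.inl ⟨ι, a, h1, h2, fun i => ⟨(h3 i).1, (h3 i).2.1, (h3 i).2.2.trans hW⟩, U, h4,
      fun x => ⟨(h5 x).1, (h5 x).2.trans hW⟩⟩

theorem below {θ μ : Cardinal.{u}} (hθ : ℵ₀ < θ) (hcof : θ.ord.cof = ℵ₀) (hθμ : θ ≤ μ)
    (hpow : ∀ σ < θ, σ ^ ℵ₀ ≤ μ) (h : domNum μ < 2 ^ μ) :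
    ∃ (ι : Type u) (a : ι → Cardinal.{u}), Function.Injective a ∧ #ι < θ ∧
      (∀ i, (a i).IsRegular ∧ θ < a i ∧ a i ≤ μ) ∧
      ∃ U : θ.out → Ultrafilter ι, Function.Injective (fun x => ucof a (U x)) ∧
        ∀ x, θ < ucof a (U x) ∧ ucof a (U x) ≤ μ := by
  have hμ : ℵ₀ ≤ μ := hθ.le.trans hθμ
  obtain ⟨hμκ, D, hDκ, hD⟩ := exists_dom hμ
  obtain ⟨b, hb⟩ := exists_sing hθ hcof
  obtain ⟨hW, ht⟩ := top_facts hμ
  obtain ⟨ι, a, h1, h2, h3, U, h4, h5⟩ := of_not_HH (W := WithTop μ.ord.ToType) hb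
    (fun hH => absurd h (not_lt.mpr
      (two_pow_le_of_HH_low hθ hcof hθμ hD hDκ hμκ.le hH ht hpow)))
  exact ⟨ι, a, h1, h2, fun i => ⟨(h3 i).1, (h3 i).2.1, (h3 i).2.2.trans hW⟩, U, h4,
    fun x => ⟨(h5 x).1, (h5 x).2.trans hW⟩⟩

end Pool.Agent.Lib.MP_856180_lc
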