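import Mathlib
import Pool.Agent.Lib.MP_856180_lc.Thresh
import Pool.Agent.Lib.MP_856180_lc.PcfHoles

/-!
A cardinal with a large covering number serves as an alphabet for splitting families.
-/

set_option autoImplicit false

namespace Pool.Agent.Lib.MP_856180_lc

open Cardinal Set Filter Pool.Agent.Shared.RevisedGCH

universe u

variable {W : Type u} [LinearOrder W] [WellFoundedLT W] {μ : Cardinal.{u}}

/-- Small sets of points below `p` are countable unions of sets with small cofinalities. -/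
def RC (μ l : Cardinal.{u}) (p : W) : Prop :=
  ∀ e : Set (BW W μ), #e < μ → (∀ β ∈ e, β.1 ≤ p) →
    ∃ C : Set (Set (BW W μ)), #C ≤ ℵ₀ ∧ (∀ B ∈ C, B ⊆ e ∧ Jl l B) ∧ e ⊆ ⋃₀ C

lemma dom_family_c {b : ℕ → Cardinal.{u}} (hμ : Sing μ b) {l : Cardinal.{u}} (hW : #W ≤ l)
    (hl : μ ≤ l) {t p : W} (ht : l ≤ #(Iio t)) (hR : RC μ l p)
    {e : Set (BW W μ)} (he : #e ≤ μ) (hcof : ∀ β ∈ e, β.1 ≤ p) :
    ∃ S : Set (BW W μ → W), #S ≤ l ^ ℵ₀ ∧ ∀ g, Pr Subtype.val g →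
      ∃ u ∈ S, ∀ β ∈ e, g β ≤ u β ∧ u β < β.1 := by
  have h0 := hμ.aleph0_lt.le
  obtain ⟨r, h1, h2⟩ := hμ.split he
  choose C h3 h4 h5 using fun n => hR (r n) (h1 n).2 (fun β hβ => hcof β ((h1 n).1 hβ))
  choose S h6 h7 h8 using fun n => cof_family hμ (h1 n).2 (h0.trans hl)
    ((mk_set_le _).trans ((mk_subtype_le _).trans hW)) ht
  have h9 : ∀ β : e, ∃ z : (⋃ n, C n : Set (Set (BW W μ))), β.1 ∈ z.1 := by
    intro β
    obtain ⟨n, hn⟩ := h2 β.1 β.2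
    obtain ⟨B, h9, h10⟩ := h5 n hn
    exact ⟨⟨B, mem_iUnion.mpr ⟨n, h9⟩⟩, h10⟩
  choose z hz using h9
  classical
  refine ⟨(fun (v : (⋃ n, C n : Set (Set (BW W μ))) → BW W μ → W) β =>
    if h : β ∈ e then v (z ⟨β, h⟩) β else t) '' {v | ∀ j, v j ∈ ⋃ n, S n}, mk_image_le.trans
    ((mk_pi_set_le _ (fun _ => iUnion_nat_le (h0.trans hl) _ h6)).trans (power_le_power_left
      (aleph0_pos.trans_le (h0.trans hl)).ne' (iUnion_nat_le le_rfl _ h3))), fun g hg => ?_⟩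
  have h10 : ∀ j : (⋃ n, C n : Set (Set (BW W μ))), ∃ u ∈ ⋃ n, S n, Pr Subtype.val u ∧
      ∀ β ∈ j.1, g β ≤ u β := by
    intro j
    obtain ⟨n, hn⟩ := mem_iUnion.mp j.2
    obtain ⟨u, h10, h11⟩ := h8 n j.1 (h4 n _ hn).1 (h4 n _ hn).2 g hg
    exact ⟨u, mem_iUnion.mpr ⟨n, h10⟩, h7 n u h10, h11⟩
  choose v h11 h12 h13 using h10
  refine ⟨_, ⟨v, h11, rfl⟩, fun β hβ => ?_⟩
  simp only [dif_pos hβ]
  exact ⟨h13 _ β (hz ⟨β, hβ⟩), h12 _ β⟩

theorem cv_of_RC {b : ℕ → Cardinal.{u}} (hμ : Sing μ b) {l : Cardinal.{u}} (hW : #W ≤ l)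
    (hl : μ ≤ l) {t p : W} (ht : l ≤ #(Iio t)) (hR : RC μ l p) (hc2 : l ^ ℵ₀ ≤ l) :
    Cv μ l (Iic p) := by
  have h0 := hμ.aleph0_lt.le
  have hc : ℵ₀ ≤ l := h0.trans hl
  obtain ⟨lad, inv, hlad⟩ := exists_lad (W := W) h0
  choose! S h1 h2 using fun (q : Set W) (hq : #q ≤ μ) => dom_family_c hμ hW hl ht hR
    (e := Subtype.val ⁻¹' (q ∩ Iic p))
    ((mk_val_le _).trans ((mk_le_mk_of_subset inter_subset_left).trans hq))
    (fun β hβ => hβ.2)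
  let nx : Set W → (BW W μ → W) → Set W := fun q u =>
    stp lad Set.univ (fun β => {u β}) q (Subtype.val ⁻¹' q)
  obtain ⟨C, hC1, hC2, hC3, hC4⟩ := closure_family hc (q₀ := {p}) (θ := μ)
    (by simpa using one_le_aleph0.trans h0) (fun q => nx q '' S q) (fun q hq =>
      ⟨mk_image_le.trans ((h1 q hq).trans hc2), by
        rintro _ ⟨u, -, rfl⟩
        exact mk_stp h0 (by simp) (fun _ => by simpa using one_le_aleph0.trans h0) hq
          subset_rfl⟩)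
  refine ⟨(fun s : ℕ → Set W => ⋃ n, s n) '' {s | ∀ n, s n ∈ C}, mk_image_le.trans
    ((mk_seq_le C).trans ((power_le_power_right hC1).trans hc2)), ?_, fun A hA hAμ => ?_⟩
  · rintro _ ⟨s, hs, rfl⟩
    exact iUnion_nat_le h0 _ (fun n => hC3 _ (hs n))
  choose g h3 h4 using fun β : BW W μ => bound_below (w := β.1) (A ∩ Iio β.1)
    (((mk_le_mk_of_subset inter_subset_left).trans hAμ).trans_lt β.2) (fun _ h => h.2)
  choose u h5 h6 using fun q : C => h2 q.1 (hC3 _ q.2) g h3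
  let s : ℕ → C := fun n => Nat.rec ⟨_, hC2⟩ (fun _ q => ⟨nx q.1 (u q), hC4 _ q.2 ⟨_, h5 q, rfl⟩⟩) n
  refine ⟨_, ⟨fun n => (s n).1, fun n => (s n).2, rfl⟩, ?_⟩
  refine (recon (L := (⋃ n, (s n).1) ∩ Iic p) ⟨mem_iUnion.mpr ⟨0, rfl⟩, le_rfl⟩ hA ?_).trans
    inter_subset_left
  rintro β ⟨h7, h8⟩ α hα h9
  obtain ⟨n, hn⟩ := mem_iUnion.mp h7
  by_cases h10 : Big μ β
  · obtain ⟨h11, h12⟩ := h6 (s n) ⟨β, h10⟩ ⟨hn, h8⟩
    exact ⟨_, ⟨mem_iUnion.mpr ⟨n + 1, Or.inr (Or.inr ⟨⟨β, h10⟩, hn, rfl⟩)⟩, h12.le.trans h8⟩,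
      (h4 ⟨β, h10⟩ α ⟨hα, h9⟩).le.trans h11, h12⟩
  · obtain ⟨h11, h12⟩ := hlad β h10 α h9
    exact ⟨_, ⟨mem_iUnion.mpr ⟨n + 1, Or.inr (Or.inl ⟨β, hn, _, mem_univ _, rfl⟩)⟩,
      h12.le.trans h8⟩, h11, h12⟩

/-- Many functions that are pairwise different modulo a proper countably complete filter. -/
lemma differ {b : ℕ → Cardinal.{u}} (hμ : Sing μ b) {l : Cardinal.{u}} {t : W}
    (ht : l ≤ #(Iio t)) {e : Set (BW W μ)} (he : #e < μ)
    (hno : ¬ ∃ C : Set (Set (BW W μ)), #C ≤ ℵ₀ ∧ (∀ B ∈ C, B ⊆ e ∧ Jl l B) ∧ e ⊆ ⋃₀ C) :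
    ∃ f : l.ord.ToType → BW W μ → W, (∀ x, Pr Subtype.val (f x)) ∧
      ∀ z : ℕ → l.ord.ToType, Function.Injective z →
        ∃ β ∈ e, Function.Injective (fun n => f (z n) β) := by
  have h0 := hμ.aleph0_lt.le
  let D : Filter (BW W μ) := Filter.countableGenerate (insert e {X | Xᶜ ⊆ e ∧ Jl l Xᶜ})
  have heD : e ∈ D := Filter.CountableGenerateSets.basic (mem_insert _ _)
  have hne : D.NeBot := by
    refine ⟨fun hbot => hno ?_⟩
    have h1 : (∅ : Set (BW W μ)) ∈ D := by rw [hbot]; exact mem_bot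
    obtain ⟨S, h2, h3, h4⟩ := Filter.mem_countableGenerate_iff.mp h1
    refine ⟨compl '' (S ∩ {X | Xᶜ ⊆ e ∧ Jl l Xᶜ}), mk_image_le.trans
      (le_aleph0_iff_set_countable.mpr (h3.mono inter_subset_left)), ?_, fun β hβ => ?_⟩
    · rintro _ ⟨X, hX, rfl⟩
      exact hX.2
    · by_contra hcon
      refine h4 (a := β) (mem_sInter.mpr (fun X hX => ?_))
      rcases h2 hX with rfl | h5
      · exact hβ
      · by_contra h6
        exact hcon ⟨Xᶜ, ⟨X, ⟨hX, h5⟩, rfl⟩, h6⟩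
  have hdir : Dir D Subtype.val (Order.succ l) := by
    refine dir_of_ultra hμ (fun i : BW W μ => i.2) he heD (fun U hU => ?_)
    by_contra hcon
    obtain ⟨B, h1, h2, h3⟩ := exists_gen hμ he ht (hU heD)
      (Order.le_of_lt_succ (not_le.mp hcon))
    have h4 : Bᶜ ∈ D := Filter.CountableGenerateSets.basic
      (mem_insert_of_mem _ (by simpa using ⟨h1, h3⟩))
    exact (Ultrafilter.compl_mem_iff_notMem.mp (hU h4)) h2
  obtain ⟨g0, hg0, -⟩ := bound_fam (fun i : BW W μ => i.2) (J := PEmpty.{u + 1}) (by simp)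
    (fun j => j.elim) (fun j => j.elim)
  obtain ⟨f, h1, -, h2, -⟩ := raise h0 (fun i : BW W μ => i.2) hdir (T := l.ord.ToType) Set.univ
    (fun x _ => (mk_Iio_ord x).trans (Order.lt_succ l)) (fun _ => g0) (fun _ => hg0)
    (fun _ => ∅) (fun _ => by simp)
  refine ⟨f, h1, fun z hz => ?_⟩
  have h3 : ∀ᶠ β in D, ∀ q : ℕ × ℕ, z q.1 < z q.2 → f (z q.1) β < f (z q.2) β := by
    refine eventually_countable_forall.mpr (fun q => ?_)
    by_cases h : z q.1 < z q.2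
    · exact (h2 _ (mem_univ _) _ h).mono (fun _ h4 _ => h4)
    · exact Eventually.of_forall (fun _ h4 => absurd h4 h)
  obtain ⟨β, h4, h5⟩ := (h3.and heD).exists
  refine ⟨β, h5, fun n m hnm => ?_⟩
  rcases lt_trichotomy (z n) (z m) with h | h | h
  · exact absurd hnm (h4 (n, m) h).ne
  · exact hz h
  · exact absurd hnm (h4 (m, n) h).ne'

theorem alphabet {μ s l : Cardinal.{u}} (hμ : ℵ₀ < μ) (hcof : μ.ord.cof = ℵ₀) (hμl : μ ≤ l)
    (hsl : s ≤ l) (hl : l ^ ℵ₀ ≤ l) (hC : ¬ Cv μ l (Set.univ : Set s.out)) :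
    ∃ a : l.out → Set s.out, (∀ x, #(a x) ≤ μ) ∧
      ∀ c : Set s.out, #c ≤ μ → Loc μ {x : l.out | a x ⊆ c} := by
  classical
  obtain ⟨b, hb⟩ := exists_sing hμ hcof
  obtain ⟨hW, ht⟩ := top_facts (hμ.le.trans hμl)
  obtain ⟨p, -, hp⟩ := exists_pt (hsl.trans ht)
  have hR : ¬ RC μ l p := fun hR => hC ((cv_of_RC hb hW hμl ht hR hl).of_card (by
    rw [mk_univ, mk_out, ← hp]
    exact mk_le_mk_of_subset Iio_subset_Iic_self))
  unfold RC at hR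
  push Not at hR
  obtain ⟨e, he, hep, hno⟩ := hR
  obtain ⟨f, h1, h2⟩ := differ hb ht he (by
    rintro ⟨C, h3, h4, h5⟩
    exact hno C h3 h4 h5)
  obtain ⟨j⟩ : Nonempty (Iio p ≃ s.out) := by rw [← Cardinal.eq, hp, mk_out]
  obtain ⟨k⟩ : Nonempty (l.out ≃ l.ord.ToType) := by rw [← Cardinal.eq, mk_out, mk_ord_toType]
  let v : l.out → e → s.out := fun x β =>
    j ⟨f (k x) β.1, (h1 (k x) β.1).trans_le (hep β.1 β.2)⟩
  refine ⟨fun x => range (v x), fun x => mk_range_le.trans he.le, fun c hc => ?_⟩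
  obtain ⟨L, hL1, hL2⟩ := loc hμ.le _ hc c rfl
  refine ⟨range (fun (q : e × L) (x : {x : l.out | range (v x) ⊆ c}) =>
    q.2.1 ⟨v x.1 q.1, x.2 ⟨q.1, rfl⟩⟩), mk_range_le.trans ?_, fun A hA => ?_⟩
  · rw [mk_prod, lift_id, lift_id]
    exact mul_le_of_le hμ.le he.le hL1
  · let z := hA.natEmbedding A
    obtain ⟨β, h3, h4⟩ := h2 (fun n => k (z n).1.1) (fun n m h =>
      z.injective (Subtype.ext (Subtype.ext (k.injective h))))
    let w : {x : l.out | range (v x) ⊆ c} → c := fun x => ⟨v x.1 ⟨β, h3⟩, x.2 ⟨_, rfl⟩⟩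
    have h5 : (w '' A).Infinite := by
      refine infinite_of_injective_forall_mem (f := fun n => w (z n).1) (fun n m h => h4 ?_)
        (fun n => ⟨_, (z n).2, rfl⟩)
      exact congrArg Subtype.val (j.injective (congrArg Subtype.val h))
    obtain ⟨π, h6, h7⟩ := hL2 _ h5
    refine ⟨_, ⟨(⟨β, h3⟩, ⟨π, h6⟩), rfl⟩, ?_⟩
    rwa [image_image] at h7

end Pool.Agent.Lib.MP_856180_lc
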