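import Mathlib
import Pool.Agent.Lib.MP_856180_lc.PcfCov

/-!
Covering numbers from slaloms: unions of splitting families, alphabets, and trees.
-/

set_option autoImplicit false

namespace Pool.Agent.Lib.MP_856180_lc

open Cardinal Set Pool.Agent.Shared.RevisedGCH

universe u

lemma Cv.glue {μ κ : Cardinal.{u}} (hκ : ℵ₀ ≤ κ) {X J : Type u} (hJ : #J ≤ κ) {Q₀ : Set X}
    (Q : J → Set X) (hQ : ∀ j, Cv μ κ (Q j))
    (h : ∀ A ⊆ Q₀, A.Nonempty → #A ≤ μ → ∃ j, A ⊆ Q j) : Cv μ κ Q₀ := by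
  choose P h1 h2 h3 using hQ
  refine ⟨insert ∅ (⋃ j, P j), mk_insert_le.trans (add_le_of_le hκ (iUnion_le hκ _ hJ h1)
    (one_le_aleph0.trans hκ)), ?_, fun A hA hAμ => ?_⟩
  · rintro p (rfl | hp)
    · simp
    · obtain ⟨j, hj⟩ := mem_iUnion.mp hp
      exact h2 j p hj
  · rcases A.eq_empty_or_nonempty with rfl | hne
    · exact ⟨∅, mem_insert _ _, subset_rfl⟩
    · obtain ⟨j, hj⟩ := h A hA hne hAμ
      obtain ⟨p, hp, hAp⟩ := h3 j A hj hAμ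
      exact ⟨p, mem_insert_of_mem _ (mem_iUnion.mpr ⟨j, hp⟩), hAp⟩

lemma exists_enum {X ι₀ : Type u} {A : Set X} (hA : A.Nonempty) (h : #A ≤ #ι₀) :
    ∃ e : ι₀ → A, Function.Surjective e := by
  obtain ⟨j⟩ := h
  have := hA.to_subtype
  exact ⟨Function.invFun j, Function.invFun_surjective j.injective⟩

/-- A union of at most `μ` sets with splitting families has a splitting family. -/
lemma loc_union {μ : Cardinal.{u}} (hμ : ℵ₀ ≤ μ) {X J : Type u} (hJ : #J ≤ μ) (Q : J → Set X)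
    (hc : ∀ x, ∃ j, x ∈ Q j) (hL : ∀ j, Loc μ (Q j)) : Loc μ X := by
  choose idx hidx using hc
  choose L h1 h2 using hL
  obtain ⟨L₀, h3, h4⟩ := loc hμ _ hJ J rfl
  refine ⟨(fun π => π ∘ idx) '' L₀ ∪ ⋃ j, (fun π => Function.extend Subtype.val π 0) '' L j,
    (mk_union_le _ _).trans (add_le_of_le hμ (mk_image_le.trans h3)
      (iUnion_le hμ _ hJ fun j => mk_image_le.trans (h1 j))), fun A hA => ?_⟩
  by_cases h5 : (idx '' A).Infinite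
  · obtain ⟨π, hπ, h6⟩ := h4 _ h5
    exact ⟨_, Or.inl ⟨π, hπ, rfl⟩, by rwa [image_comp]⟩
  obtain ⟨j, hj⟩ : ∃ j, (A ∩ Q j).Infinite := by
    by_contra! h6
    refine hA (((not_infinite.mp h5).biUnion fun j _ => h6 j).subset fun x hx => ?_)
    exact mem_biUnion (mem_image_of_mem idx hx) ⟨hx, hidx x⟩
  obtain ⟨π, hπ, h6⟩ := h2 j (Subtype.val ⁻¹' A) (by
    refine Infinite.of_image Subtype.val ?_
    rwa [Subtype.image_preimage_coe, inter_comm])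
  refine ⟨_, Or.inr (mem_iUnion.mpr ⟨j, π, hπ, rfl⟩), h6.mono ?_⟩
  rintro _ ⟨x, hx, rfl⟩
  exact ⟨x.1, hx, Subtype.val_injective.extend_apply _ _ _⟩

variable {ι₀ : Type u} (hι₀ : ℵ₀ ≤ #ι₀) {D : Set (ι₀ → ℕ)}
  (hD : ∀ g : ι₀ → ℕ, ∃ f ∈ D, ∀ a, g a ≤ f a) {κ : Cardinal.{u}} (hκ₀ : ℵ₀ ≤ κ) (hκ : #D ≤ κ)
include hι₀ hD hκ₀ hκ

lemma cv_of_loc {X : Type u} (hL : Loc (#ι₀) X) : Cv (#ι₀) κ (univ : Set X) := by
  obtain ⟨S, h1, h2⟩ := slalom hι₀ hD (ι := ι₀) (β := fun _ => X) le_rfl fun _ => hL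
  refine Cv.glue hκ₀ (h1.trans hκ) (fun s : S => ⋃ i, ↑(s.1 i)) (fun s => Cv.self hκ₀
    (iUnion_le hι₀ _ le_rfl fun i => (lt_aleph0_of_finite _).le.trans hι₀)) fun A _ h3 h4 => ?_
  obtain ⟨e, he⟩ := exists_enum h3 h4
  obtain ⟨s, hs, h⟩ := h2 fun i => (e i).1
  refine ⟨⟨s, hs⟩, fun x hx => ?_⟩
  obtain ⟨i, hi⟩ := he ⟨x, hx⟩
  exact mem_iUnion.mpr ⟨i, by simpa [hi] using h i⟩

lemma cv_of_loc' {X : Type u} {Q : Set X} (hL : Loc (#ι₀) Q) : Cv (#ι₀) κ Q :=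
  (cv_of_loc hι₀ hD hκ₀ hκ hL).of_card (by simp)

/-- An alphabet `Y` for `X`. -/
lemma cv_of_alpha {X Y : Type u} (a : X → Set Y) (ha : ∀ x, #(a x) ≤ #ι₀)
    (hL : ∀ c : Set Y, #c ≤ #ι₀ → Loc (#ι₀) {x | a x ⊆ c}) (hY : Cv (#ι₀) κ (univ : Set Y)) :
    Cv (#ι₀) κ (univ : Set X) := by
  obtain ⟨C, h1, h2, h3⟩ := hY
  refine Cv.glue hκ₀ h1 (fun c : C => {x | a x ⊆ c.1})
    (fun c => cv_of_loc' hι₀ hD hκ₀ hκ (hL _ (h2 _ c.2))) fun A _ _ h4 => ?_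
  obtain ⟨c, hc, h5⟩ := h3 (⋃ x : A, a x.1) (subset_univ _) (iUnion_le hι₀ _ h4 fun x => ha _)
  exact ⟨⟨c, hc⟩, fun x hx => (subset_iUnion (fun x : A => a x.1) ⟨x, hx⟩).trans h5⟩

/-- An alphabet `Y` for each of at most `μ` pieces of `X`. -/
lemma cv_of_alphas {X Y J : Type u} (hJ : #J ≤ #ι₀) (Q : J → Set X) (hc : ∀ x, ∃ j, x ∈ Q j)
    (a : ∀ j, Q j → Set Y) (ha : ∀ j x, #(a j x) ≤ #ι₀)
    (hL : ∀ j (c : Set Y), #c ≤ #ι₀ → Loc (#ι₀) {x | a j x ⊆ c})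
    (hY : Cv (#ι₀) κ (univ : Set Y)) : Cv (#ι₀) κ (univ : Set X) := by
  choose idx hidx using hc
  refine cv_of_alpha hι₀ hD hκ₀ hκ (fun x => a (idx x) ⟨x, hidx x⟩) (fun x => ha _ _)
    (fun c hc => loc_union hι₀ hJ (fun j => {x | ∃ h : x.1 ∈ Q j, a j ⟨x.1, h⟩ ⊆ c})
      (fun x => ⟨_, hidx x.1, x.2⟩) fun j => (hL j c hc).mono_card ?_) hY
  exact mk_le_of_injective (f := fun x => ⟨⟨x.1.1, x.2.1⟩, x.2.2⟩) fun x y h =>
    Subtype.ext (Subtype.ext (congrArg (fun z => z.1.1) h))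

/-- Covering the branches from a covering of the tree and of the continuum. -/
theorem cv_two_pow {n z : Cardinal.{u}} (hn : ℵ₀ ≤ n) (hnμ : n ≤ #ι₀) (hz : ∀ ρ < n, 2 ^ ρ ≤ z)
    (hZ : Cv (#ι₀) κ (univ : Set z.out)) (hc : Cv (#ι₀) κ (univ : Set (𝔠 : Cardinal.{u}).out)) :
    Cv (#ι₀) κ (univ : Set (Set n.ord.ToType)) := by
  have hnz : n ≤ z := le_of_forall_lt fun ρ h => (cantor ρ).trans_le (hz ρ h)
  have hT : #n.ord.ToType ≤ #ι₀ := by simpa using hnμ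
  have := Cardinal.noMaxOrder hn
  obtain ⟨C, h1, h2, h3⟩ := hZ.of_card (Q' := ⋃ α : n.ord.ToType, 𝒫 (Iio α)) (by
    rw [mk_univ, mk_out]
    exact iUnion_le (hn.trans hnz) _ (by simpa using hnz) fun α => by
      rw [mk_powerset]; exact hz _ (mk_Iio_ord α))
  refine Cv.glue hκ₀ h1 (fun c : C => {X | ∀ α, X ∩ Iio α ∈ c.1}) (fun c => ?_)
    fun A _ _ h4 => ?_
  · by_cases h4 : ℵ₀ < Order.cof n.ord.ToType
    · exact cv_of_loc' hι₀ hD hκ₀ hκ (loc_branch hι₀ hT h4 (fun _ => c.1) fun _ => h2 _ c.2)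
    obtain ⟨S, h5, h6⟩ := slalom hι₀ hD (ι := ι₀ × n.ord.ToType) (β := fun _ => c.1)
      (by rw [mk_prod, lift_id, lift_id]; exact mul_le_of_le hι₀ le_rfl hT)
      fun _ => loc hι₀ _ (h2 _ c.2) _ rfl
    refine Cv.glue hκ₀ (h5.trans hκ) (fun s : S => ⋃ ξ, {X | ∀ α, X ∩ Iio α ∈
      Subtype.val '' (s.1 (ξ, α) : Set c.1)}) (fun s => ?_) fun A h7 h8 h9 => ?_
    · have h7 : ∀ ξ, #{X : Set n.ord.ToType | ∀ α, X ∩ Iio α ∈
          Subtype.val '' (s.1 (ξ, α) : Set c.1)} ≤ 𝔠 := fun ξ =>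
        (card_branch le_rfl (not_lt.mp h4) _ fun α =>
          mk_image_le.trans (lt_aleph0_of_finite _).le).trans aleph0_power_aleph0.le
      rcases le_total 𝔠 #ι₀ with h8 | h8
      · exact Cv.self hκ₀ (iUnion_le hι₀ _ le_rfl fun ξ => (h7 ξ).trans h8)
      · exact hc.of_card (by
          rw [mk_univ, mk_out]; exact iUnion_le aleph0_le_continuum _ h8 h7)
    · obtain ⟨e, he⟩ := exists_enum h8 h9
      obtain ⟨s, hs, h⟩ := h6 fun p => ⟨_, h7 (e p.1).2 p.2⟩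
      refine ⟨⟨s, hs⟩, fun X hX => ?_⟩
      obtain ⟨ξ, hξ⟩ := he ⟨X, hX⟩
      exact mem_iUnion.mpr ⟨ξ, fun α => ⟨_, h (ξ, α), by simp [hξ]⟩⟩
  · obtain ⟨c, hc', h5⟩ := h3 (⋃ X : A, range fun α => X.1 ∩ Iio α) (by
      rintro _ ⟨_, ⟨X, rfl⟩, α, rfl⟩
      exact mem_iUnion.mpr ⟨α, inter_subset_right⟩)
      (iUnion_le hι₀ _ h4 fun X => mk_range_le.trans hT)
    exact ⟨⟨c, hc'⟩, fun X hX α => h5 (mem_iUnion.mpr ⟨⟨X, hX⟩, α, rfl⟩)⟩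

end Pool.Agent.Lib.MP_856180_lc
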