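import Mathlib
import Pool.Agent.Lib.MP_856180_lc.PcfMain

/-!
Covering numbers of power sets are bounded by a dominating family once the continuum is covered.
-/

set_option autoImplicit false

namespace Pool.Agent.Lib.MP_856180_lc

open Cardinal Set Filter Pool.Agent.Shared.RevisedGCH

universe u

variable {μ κ : Cardinal.{u}}

lemma Cv.cover (hκ : ℵ₀ ≤ κ) {X I : Type u} {Q : Set X} (hI : #I ≤ κ) (G : I → Set X)
    (hG : ∀ i, Cv μ κ (G i)) (h : ∀ A ⊆ Q, #A ≤ μ → ∃ i, A ⊆ G i) : Cv μ κ Q := by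
  choose P hP1 hP2 hP3 using hG
  refine ⟨⋃ i, P i, iUnion_le hκ _ hI hP1, fun q hq => ?_, fun A hA hAμ => ?_⟩
  · obtain ⟨i, hi⟩ := mem_iUnion.mp hq
    exact hP2 i q hi
  · obtain ⟨i, hi⟩ := h A hA hAμ
    obtain ⟨q, hq, hAq⟩ := hP3 i A hi hAμ
    exact ⟨q, mem_iUnion.mpr ⟨i, hq⟩, hAq⟩

lemma Cv.card_le (hμ : ℵ₀ ≤ μ) (hμκ : μ ≤ κ) {X : Type u} {Q : Set X} (h : Cv μ κ Q) :
    #Q ≤ κ := by
  obtain ⟨C, h1, h2, h3⟩ := h
  refine le_trans (mk_le_mk_of_subset (t := ⋃ p : C, p.1) (fun x hx => ?_))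
    (iUnion_le (hμ.trans hμκ) _ h1 (fun p => (h2 p.1 p.2).trans hμκ))
  obtain ⟨p, hp, h4⟩ := h3 {x} (singleton_subset_iff.mpr hx)
    (by simpa using one_le_aleph0.trans hμ)
  exact mem_iUnion.mpr ⟨⟨p, hp⟩, h4 rfl⟩

lemma Loc.fibers (hμ : ℵ₀ ≤ μ) {X Y : Type u} (f : X → Y) (hY : #Y ≤ μ)
    (h : ∀ y, Loc μ {x | f x = y}) : Loc μ X := by
  obtain ⟨L₀, h1, h2⟩ := loc hμ _ hY Y rfl
  choose L hL1 hL2 using h
  refine ⟨(fun π => π ∘ f) '' L₀ ∪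
      ⋃ y, (fun π => Function.extend Subtype.val π (fun _ => 0)) '' L y,
    (mk_union_le _ _).trans (add_le_of_le hμ (mk_image_le.trans h1)
      (iUnion_le hμ _ hY (fun y => mk_image_le.trans (hL1 y)))), fun A hA => ?_⟩
  by_cases h3 : (f '' A).Infinite
  · obtain ⟨π, hπ, hinf⟩ := h2 _ h3
    exact ⟨π ∘ f, Or.inl ⟨π, hπ, rfl⟩, by rwa [image_comp]⟩
  · obtain ⟨y, hy⟩ : ∃ y, (A ∩ {x | f x = y}).Infinite := by
      by_contra hcon
      push Not at hcon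
      refine hA (((not_infinite.mp h3).biUnion (fun y _ => hcon y)).subset (fun x hx => ?_))
      exact mem_biUnion (mem_image_of_mem f hx) ⟨hx, rfl⟩
    obtain ⟨π, hπ, hinf⟩ := hL2 y (Subtype.val ⁻¹' A) (by
      refine Infinite.of_image Subtype.val ?_
      rwa [Subtype.image_preimage_coe, inter_comm])
    refine ⟨_, Or.inr (mem_iUnion.mpr ⟨y, π, hπ, rfl⟩), hinf.mono ?_⟩
    rintro _ ⟨x, hx, rfl⟩
    exact ⟨x.1, hx, Subtype.val_injective.extend_apply _ _ _⟩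

/-- The points of `X` carry small subsets of `S` such that the points whose set lies inside a
small set are split by few countable partitions. -/
def Red (μ : Cardinal.{u}) (X S : Type u) : Prop :=
  ∃ a : X → Set S, (∀ x, #(a x) ≤ μ) ∧ ∀ c : Set S, #c ≤ μ → Loc μ {x : X | a x ⊆ c}

lemma Red.mono_card {X X' S : Type u} (h : Red μ X S) (hle : #X' ≤ #X) : Red μ X' S := by
  obtain ⟨e⟩ := hle
  obtain ⟨a, h1, h2⟩ := h
  refine ⟨fun x => a (e x), fun x => h1 _, fun c hc => (h2 c hc).mono_card ?_⟩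
  exact mk_le_of_injective (f := fun x => ⟨e x.1, x.2⟩)
    (fun x y hxy => Subtype.ext (e.injective (congrArg Subtype.val hxy)))

lemma Loc.red {X : Type u} (h : Loc μ X) (S : Type u) : Red μ X S :=
  ⟨fun _ => ∅, fun _ => by simp, fun _ _ => h.mono_card (mk_set_le _)⟩

lemma Red.fibers (hμ : ℵ₀ ≤ μ) {X Y S : Type u} (f : X → Y) (hY : #Y ≤ μ)
    (h : ∀ y, Red μ {x | f x = y} S) : Red μ X S := by
  choose a h1 h2 using h
  refine ⟨fun x => a (f x) ⟨x, rfl⟩, fun x => h1 _ _, fun c hc =>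
    Loc.fibers hμ (fun z => f z.1) hY (fun y => (h2 y c hc).mono_card ?_)⟩
  have h3 : ∀ x (hx : f x = y), a (f x) ⟨x, rfl⟩ ⊆ c → a y ⟨x, hx⟩ ⊆ c := by
    intro x hx
    subst hx
    exact id
  exact mk_le_of_injective (f := fun z => ⟨⟨z.1.1, z.2⟩, h3 _ z.2 z.1.2⟩)
    (fun z z' hz => Subtype.ext (Subtype.ext
      (congrArg (fun w : {w : {x | f x = y} | a y w ⊆ c} => w.1.1) hz)))

section Dom

variable {D : Set (μ.out → ℕ)}

lemma cv_of_loc (hμ : ℵ₀ ≤ μ) (hD : ∀ g : μ.out → ℕ, ∃ f ∈ D, ∀ a, g a ≤ f a) (hDκ : #D ≤ κ)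
    (hκ : ℵ₀ ≤ κ) {X : Type u} (h : Loc μ X) : Cv μ κ (Set.univ : Set X) := by
  rcases isEmpty_or_nonempty X with hX | ⟨⟨a₀⟩⟩
  · exact Cv.self hκ (by simp)
  obtain ⟨S, h1, h2⟩ := slalom (by simpa using hμ) hD (ι := μ.out) (β := fun _ => X) le_rfl
    (fun _ => by simpa using h)
  refine Cv.cover hκ (I := S) (h1.trans hDκ) (fun s => ⋃ i, ↑(s.1 i)) (fun s => Cv.self hκ
    (iUnion_le hμ _ (by simp) (fun i => (lt_aleph0_of_finite _).le.trans hμ))) (fun A _ hA => ?_)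
  obtain ⟨j⟩ : #A ≤ #μ.out := by simpa using hA
  obtain ⟨s, hs, h3⟩ := h2 (Function.extend j Subtype.val (fun _ => a₀))
  refine ⟨⟨s, hs⟩, fun x hx => mem_iUnion.mpr ⟨j ⟨x, hx⟩, ?_⟩⟩
  have := h3 (j ⟨x, hx⟩)
  rwa [j.injective.extend_apply] at this

lemma cv_of_red (hμ : ℵ₀ ≤ μ) (hD : ∀ g : μ.out → ℕ, ∃ f ∈ D, ∀ a, g a ≤ f a) (hDκ : #D ≤ κ)
    (hκ : ℵ₀ ≤ κ) {X S : Type u} (h : Red μ X S) (hS : Cv μ κ (Set.univ : Set S)) :
    Cv μ κ (Set.univ : Set X) := by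
  obtain ⟨a, h1, h2⟩ := h
  obtain ⟨C, h3, h4, h5⟩ := hS
  refine Cv.cover hκ (I := C) h3 (fun p => {x | a x ⊆ p.1}) (fun p =>
    (cv_of_loc hμ hD hDκ hκ (h2 p.1 (h4 p.1 p.2))).of_card (by simp)) (fun A _ hA => ?_)
  obtain ⟨p, hp, h6⟩ := h5 (⋃ x : A, a x.1) (subset_univ _) (iUnion_le hμ _ hA (fun x => h1 _))
  exact ⟨⟨p, hp⟩, fun x hx => (subset_iUnion (fun x : A => a x.1) ⟨x, hx⟩).trans h6⟩

lemma cv_pow (hμ : ℵ₀ ≤ μ) (hD : ∀ g : μ.out → ℕ, ∃ f ∈ D, ∀ a, g a ≤ f a) (hDκ : #D ≤ κ)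
    (hκ : ℵ₀ ≤ κ) (hc : Cv μ κ (Set.univ : Set (𝔠 : Cardinal.{u}).out)) {X : Type u} {Q : Set X}
    (hQ : #Q ≤ μ ^ ℵ₀) : Cv μ κ Q := by
  have hι : ℵ₀ ≤ #μ.out := by simpa using hμ
  obtain ⟨a₀⟩ : Nonempty μ.out := by
    rw [← mk_ne_zero_iff]
    exact (aleph0_pos.trans_le hι).ne'
  refine Cv.of_card (Q := (Set.univ : Set ((ℵ₀ : Cardinal.{u}).out → μ.out))) ?_ (by simpa using hQ)
  obtain ⟨S, h1, h2⟩ := slalom hι hD (ι := (ℵ₀ : Cardinal.{u}).out × μ.out) (β := fun _ => μ.out)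
    (by simpa using mul_le_of_le hμ hμ le_rfl) (fun _ => loc hι _ le_rfl _ rfl)
  refine Cv.cover hκ (I := S) (h1.trans hDκ)
    (fun s => ⋃ ξ : μ.out, {x | ∀ m, x m ∈ (↑(s.1 (m, ξ)) : Set μ.out)}) (fun s => ?_)
    (fun A _ hA => ?_)
  · have h3 : ∀ ξ : μ.out, #{x : (ℵ₀ : Cardinal.{u}).out → μ.out |
        ∀ m, x m ∈ (↑(s.1 (m, ξ)) : Set μ.out)} ≤ 𝔠 := fun ξ =>
      (mk_pi_set_le (ρ := ℵ₀) _ (fun m => (lt_aleph0_of_finite _).le)).trans (by simp)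
    rcases le_total 𝔠 μ with h4 | h4
    · exact Cv.self hκ (iUnion_le hμ _ (by simp) (fun ξ => (h3 ξ).trans h4))
    · exact hc.of_card (by
        simpa using iUnion_le aleph0_le_continuum _ (by simpa using h4) h3)
  · obtain ⟨j⟩ : #A ≤ #μ.out := by simpa using hA
    obtain ⟨s, hs, h3⟩ := h2 (fun z => Function.extend j Subtype.val (fun _ _ => a₀) z.2 z.1)
    refine ⟨⟨s, hs⟩, fun x hx => mem_iUnion.mpr ⟨j ⟨x, hx⟩, fun m => ?_⟩⟩
    have := h3 (m, j ⟨x, hx⟩)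
    dsimp only at this
    rwa [j.injective.extend_apply] at this

lemma cv_branches (hμ : ℵ₀ ≤ μ) (hD : ∀ g : μ.out → ℕ, ∃ f ∈ D, ∀ a, g a ≤ f a) (hDκ : #D ≤ κ)
    (hκ : ℵ₀ ≤ κ) (hc : Cv μ κ (Set.univ : Set (𝔠 : Cardinal.{u}).out)) {T : Type u}
    [LinearOrder T] [NoMaxOrder T] (hT : #T ≤ μ)
    (hN : Cv μ κ {z : T × Set T | z.2 ⊆ Iio z.1}) : Cv μ κ (Set.univ : Set (Set T)) := by
  obtain ⟨C, h1, h2, h3⟩ := hN
  have h4 : ∀ (p : C) (α : T), #{Y : Set T | (α, Y) ∈ p.1} ≤ μ := fun p α =>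
    (mk_preimage_of_injective (Prod.mk α) p.1 (Prod.mk_right_injective α)).trans (h2 p.1 p.2)
  refine Cv.cover hκ (I := C) h1 (fun p => {X | ∀ α, X ∩ Iio α ∈ {Y : Set T | (α, Y) ∈ p.1}})
    (fun p => ?_) (fun A _ hA => ?_)
  · by_cases h5 : ℵ₀ < Order.cof T
    · exact (cv_of_loc hμ hD hDκ hκ (loc_branch hμ hT h5 _ (h4 p))).of_card (by simp)
    · exact cv_pow hμ hD hDκ hκ hc (card_branch hμ (not_lt.mp h5) _ (h4 p))
  · obtain ⟨p, hp, h5⟩ := h3 (range (fun z : T × A => (z.1, z.2.1 ∩ Iio z.1))) (by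
      rintro _ ⟨z, rfl⟩
      exact inter_subset_right) (mk_range_le.trans (by
        rw [mk_prod, lift_id, lift_id]
        exact mul_le_of_le hμ hT hA))
    exact ⟨⟨p, hp⟩, fun X hX α => h5 ⟨(α, ⟨X, hX⟩), rfl⟩⟩

theorem two_pow_le_alpha (hμ : ℵ₀ ≤ μ) (hD : ∀ g : μ.out → ℕ, ∃ f ∈ D, ∀ a, g a ≤ f a)
    (hDκ : #D ≤ κ) (hμκ : μ ≤ κ) (hc : Cv μ κ (Set.univ : Set (𝔠 : Cardinal.{u}).out))
    (hA : ∀ s l : Cardinal.{u}, μ ≤ l → s ≤ l → l ^ ℵ₀ ≤ l → ¬ Cv μ l (Set.univ : Set s.out) →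
      Red μ l.out s.out) : 2 ^ μ ≤ κ := by
  have hκ := hμ.trans hμκ
  by_contra hcon
  have hne : {n : Cardinal.{u} | ¬ Cv μ κ (Set.univ : Set (Set n.out))}.Nonempty :=
    ⟨μ, fun h => hcon (by simpa using h.card_le hμ hμκ)⟩
  have hn1 := csInf_mem hne
  have hn2 : sInf {n : Cardinal.{u} | ¬ Cv μ κ (Set.univ : Set (Set n.out))} ≤ μ :=
    csInf_le' (fun h => hcon (by simpa using h.card_le hμ hμκ))
  have hn3 : ∀ i < sInf {n : Cardinal.{u} | ¬ Cv μ κ (Set.univ : Set (Set n.out))},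
      Cv μ κ (Set.univ : Set (Set i.out)) := fun i hi => not_not.mp (notMem_of_lt_csInf' hi)
  generalize sInf {n : Cardinal.{u} | ¬ Cv μ κ (Set.univ : Set (Set n.out))} = n at hn1 hn2 hn3
  have hn0 : ℵ₀ < n := by
    by_contra h
    exact hn1 (hc.of_card (by
      simpa using power_le_power_left two_ne_zero (not_lt.mp h)))
  have := Cardinal.noMaxOrder hn0.le
  have hT : #n.ord.ToType ≤ μ := by simpa using hn2
  have hN : ¬ Cv μ κ (Set.univ : Set {z : n.ord.ToType × Set n.ord.ToType | z.2 ⊆ Iio z.1}) :=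
    fun h => hn1 ((cv_branches hμ hD hDκ hκ hc hT (h.of_card (by simp))).of_card (by simp))
  have hfib : ∀ α : n.ord.ToType, #{z : {z : n.ord.ToType × Set n.ord.ToType | z.2 ⊆ Iio z.1} |
      z.1.1 = α} ≤ 2 ^ #(Iio α) := by
    intro α
    rw [← mk_powerset]
    refine mk_le_of_injective (f := fun z => ⟨z.1.1.2, fun y hy =>
      (show y < z.1.1.1 from z.1.2 hy).trans_eq z.2⟩) (fun z z' h => ?_)
    exact Subtype.ext (Subtype.ext (Prod.ext (z.2.trans z'.2.symm) (congrArg Subtype.val h)))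
  have hR : ∀ S : Type u, Cv μ κ (Set.univ : Set S) → ¬ ∀ i < n, Red μ (Set i.out) S :=
    fun S hS h => hN (cv_of_red hμ hD hDκ hκ (Red.fibers hμ (fun z => z.1.1) hT (fun α =>
      (h _ (mk_Iio_ord α)).mono_card (by simpa using hfib α))) hS)
  have hup : ∀ i < n, ∃ i' < n, (2 : Cardinal.{u}) ^ i < 2 ^ i' := by
    intro i hi
    by_contra h
    push Not at h
    refine hR _ (hn3 i hi) (fun i' hi' => Red.mono_card (X := Set i.out)
      ⟨fun x => {x}, fun x => by simpa using one_le_aleph0.trans hμ, fun c h1 => ?_⟩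
      (by simpa using h i' hi'))
    exact loc hμ _ ((mk_le_mk_of_subset (s := {x : Set i.out | ({x} : Set (Set i.out)) ⊆ c}) (t := c)
      (fun x hx => singleton_subset_iff.mp hx)).trans h1) _ rfl
  by_cases H : ∀ i < n, ∃ i' < n, Cv μ (2 ^ i') (Set.univ : Set (Set i.out))
  · refine hR PEmpty.{u + 1} (Cv.self hκ (by simp)) (fun i hi => Loc.red ?_ _)
    refine Loc.mono_card (β := Set (max i ℵ₀).out) ?_
      (by simpa using power_le_power_left two_ne_zero (le_max_left i ℵ₀))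
    have h1 := max_lt hi hn0
    have h2 := le_max_right i ℵ₀
    generalize max i ℵ₀ = ν at h1 h2
    rcases le_total (2 ^ ν) μ with h3 | h3
    · exact loc hμ _ (by simpa using h3) _ rfl
    obtain ⟨i', h4, h5⟩ := H ν h1
    obtain ⟨ρ, h6, h7⟩ := hup _ (max_lt h1 h4)
    exact loc_of_cov h2 h3 (le_max_left ν i') rfl
      (h5.mono (power_le_power_left two_ne_zero (le_max_right ν i'))) (h6.le.trans hn2) h7
  · push Not at H
    obtain ⟨i₀, h1, h2⟩ := H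
    refine hR ((2 : Cardinal.{u}) ^ i₀).out ((hn3 i₀ h1).of_card (by simp)) (fun i hi => ?_)
    have h3 := max_lt (max_lt hi h1) hn0
    have h4 : i ≤ max (max i i₀) ℵ₀ := le_max_of_le_left (le_max_left _ _)
    have h5 : i₀ ≤ max (max i i₀) ℵ₀ := le_max_of_le_left (le_max_right _ _)
    have h6 := le_max_right (max i i₀) ℵ₀
    generalize max (max i i₀) ℵ₀ = ν at h3 h4 h5 h6
    have h7 : (2 : Cardinal.{u}) ^ i₀ ≤ 2 ^ ν := power_le_power_left two_ne_zero h5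
    have h8 : μ ≤ 2 ^ i₀ := by
      by_contra h
      exact h2 ν h3 (Cv.self (h6.trans (cantor ν).le) (by simpa using (not_le.mp h).le))
    refine (hA _ _ (h8.trans h7) h7 (by rw [← power_mul, mul_aleph0_eq h6])
      (fun h => h2 ν h3 (h.of_card (by simp)))).mono_card ?_
    simpa using power_le_power_left two_ne_zero h4

end Dom

end Pool.Agent.Lib.MP_856180_lc
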