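import Mathlib
import Pool.Agent.Lib.MP_856180_lc.AlphaFrame

/-!
A cardinal with large covering number serves as an alphabet for larger powers.
-/

set_option autoImplicit false

namespace Pool.Agent.Lib.MP_856180_lc

open Cardinal Set Filter Pool.Agent.Shared.RevisedGCH

universe u

variable {W : Type u} [LinearOrder W] [WellFoundedLT W] {μ : Cardinal.{u}}

/-- Small sets of points up to `p` are countable unions of sets with possible cofinalities at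
most `l`. -/
def CU (μ l : Cardinal.{u}) (p : W) : Prop :=
  ∀ e : Set (BW W μ), #e < μ → (∀ β ∈ e, β.1 ≤ p) →
    ∃ C : Set (Set (BW W μ)), #C ≤ ℵ₀ ∧ (∀ B ∈ C, B ⊆ e ∧ Jl l B) ∧ e ⊆ ⋃₀ C

lemma dom_ctble {b : ℕ → Cardinal.{u}} (hμ : Sing μ b) {l : Cardinal.{u}} (hl : μ ≤ l)
    (hW : #W ≤ l) {t p₀ : W} (ht : l ≤ #(Iio t)) (hR : CU μ l p₀)
    {e : Set (BW W μ)} (he : #e ≤ μ) (hp : ∀ β ∈ e, β.1 ≤ p₀) :
    ∃ S : Set (BW W μ → W), #S ≤ l ^ ℵ₀ ∧ ∀ g, Pr Subtype.val g →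
      ∃ u ∈ S, ∀ β ∈ e, g β ≤ u β ∧ u β < β.1 := by
  have h0 := hμ.aleph0_lt.le
  obtain ⟨p, h1, h2⟩ := hμ.split he
  choose C h3 h4 h5 using fun n => hR (p n) (h1 n).2 (fun β hβ => hp β ((h1 n).1 hβ))
  choose S h6 h7 h8 using fun n => cof_family hμ (h1 n).2 (h0.trans hl)
    ((mk_set_le _).trans ((mk_subtype_le _).trans hW)) ht
  have h9 : ∀ β : e, ∃ z : (⋃ n, C n : Set (Set (BW W μ))), β.1 ∈ z.1 := by
    intro β
    obtain ⟨n, hn⟩ := h2 β.1 β.2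
    obtain ⟨B, h9, h10⟩ := h5 n hn
    exact ⟨⟨B, mem_iUnion.mpr ⟨n, h9⟩⟩, h10⟩
  choose z hz using h9
  classical
  refine ⟨(fun (v : (⋃ n, C n : Set (Set (BW W μ))) → BW W μ → W) β =>
    if h : β ∈ e then v (z ⟨β, h⟩) β else t) '' {v | ∀ j, v j ∈ ⋃ n, S n}, mk_image_le.trans
    ((mk_pi_set_le _ (fun _ => iUnion_nat_le (h0.trans hl) _ h6)).trans (power_le_power_left
      (aleph0_pos.trans_le (h0.trans hl)).ne' (iUnion_nat_le le_rfl _ h3))), fun g hg => ?_⟩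
  have h10 : ∀ j : (⋃ n, C n : Set (Set (BW W μ))), ∃ u ∈ ⋃ n, S n, Pr Subtype.val u ∧
      ∀ β ∈ j.1, g β ≤ u β := by
    intro j
    obtain ⟨n, hn⟩ := mem_iUnion.mp j.2
    obtain ⟨u, h10, h11⟩ := h8 n j.1 (h4 n _ hn).1 (h4 n _ hn).2 g hg
    exact ⟨u, mem_iUnion.mpr ⟨n, h10⟩, h7 n u h10, h11⟩
  choose v h11 h12 h13 using h10
  refine ⟨_, ⟨v, h11, rfl⟩, fun β hβ => ?_⟩
  simp only [dif_pos hβ]
  exact ⟨h13 _ β (hz ⟨β, hβ⟩), h12 _ β⟩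

theorem cv_of_CU {b : ℕ → Cardinal.{u}} (hμ : Sing μ b) {l : Cardinal.{u}} (hl : μ ≤ l)
    (hW : #W ≤ l) {t₀ t : W} (ht : l ≤ #(Iio t₀)) (hR : CU μ l t) (hc2 : l ^ ℵ₀ ≤ l) :
    Cv μ l (Iic t) := by
  have h0 := hμ.aleph0_lt.le
  have hc : ℵ₀ ≤ l := h0.trans hl
  obtain ⟨lad, inv, hlad⟩ := exists_lad (W := W) h0
  choose! S h1 h2 using fun (q : Set W) (hq : #q ≤ μ) => dom_ctble hμ hl hW ht hR
    (e := Subtype.val ⁻¹' (q ∩ Iic t))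
    ((mk_val_le _).trans ((mk_le_mk_of_subset inter_subset_left).trans hq))
    (fun β hβ => hβ.2)
  let nx : Set W → (BW W μ → W) → Set W := fun q u =>
    stp lad Set.univ (fun β => {u β}) q (Subtype.val ⁻¹' q)
  obtain ⟨C, hC1, hC2, hC3, hC4⟩ := closure_family hc (q₀ := {t}) (θ := μ)
    (by simpa using one_le_aleph0.trans h0) (fun q => nx q '' S q) (fun q hq =>
      ⟨mk_image_le.trans ((h1 q hq).trans hc2), by
        rintro _ ⟨u, -, rfl⟩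
        exact mk_stp h0 (by simp) (fun _ => by simpa using one_le_aleph0.trans h0) hq
          subset_rfl⟩)
  refine ⟨(fun s : ℕ → Set W => ⋃ n, s n) '' {s | ∀ n, s n ∈ C}, mk_image_le.trans
    ((mk_seq_le C).trans ((power_le_power_right hC1).trans hc2)), ?_, fun A hA hAμ => ?_⟩
  · rintro _ ⟨s, hs, rfl⟩
    exact iUnion_nat_le h0 _ (fun n => hC3 _ (hs n))
  choose g h3 h4 using fun β : BW W μ => bound_below (w := β.1) (A ∩ Iio β.1)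
    (((mk_le_mk_of_subset inter_subset_left).trans hAμ).trans_lt β.2) (fun _ h => h.2)
  choose u h5 h6 using fun q : C => h2 q.1 (hC3 _ q.2) g h3
  let s : ℕ → C := fun n => Nat.rec ⟨_, hC2⟩ (fun _ q => ⟨nx q.1 (u q), hC4 _ q.2 ⟨_, h5 q, rfl⟩⟩) n
  refine ⟨_, ⟨fun n => (s n).1, fun n => (s n).2, rfl⟩, ?_⟩
  refine (recon (L := (⋃ n, (s n).1) ∩ Iic t) ⟨mem_iUnion.mpr ⟨0, rfl⟩, le_rfl⟩ hA ?_).trans
    inter_subset_left
  rintro β ⟨h7, h8⟩ α hα h9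
  obtain ⟨n, hn⟩ := mem_iUnion.mp h7
  by_cases h10 : Big μ β
  · obtain ⟨h11, h12⟩ := h6 (s n) ⟨β, h10⟩ ⟨hn, h8⟩
    exact ⟨_, ⟨mem_iUnion.mpr ⟨n + 1, Or.inr (Or.inr ⟨⟨β, h10⟩, hn, rfl⟩)⟩, h12.le.trans h8⟩,
      (h4 ⟨β, h10⟩ α ⟨hα, h9⟩).le.trans h11, h12⟩
  · obtain ⟨h11, h12⟩ := hlad β h10 α h9
    exact ⟨_, ⟨mem_iUnion.mpr ⟨n + 1, Or.inr (Or.inl ⟨β, hn, _, mem_univ _, rfl⟩)⟩,
      h12.le.trans h8⟩, h11, h12⟩

omit [WellFoundedLT W] in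
theorem red_of_not_CU {b : ℕ → Cardinal.{u}} (hμ : Sing μ b) {l s : Cardinal.{u}} {p : W}
    (hp : #(Iio p) ≤ s) (hR : ¬ CU μ l p) : Red μ l.ord.ToType s.out := by
  have h0 := hμ.aleph0_lt.le
  have hB : ∀ i : BW W μ, Big μ i.1 := fun i => i.2
  unfold CU at hR
  push Not at hR
  obtain ⟨e, he, hep, hno⟩ := hR
  obtain ⟨g0, hg0, -⟩ := bound_fam hB (J := PEmpty.{u + 1}) (by simp) (fun j => j.elim)
    (fun j => j.elim)
  obtain ⟨f, h1, -, h2, -⟩ := raise h0 hB (dir_FF (le_max_right #e ℵ₀)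
    (hμ.succ_lt (max_lt he hμ.aleph0_lt)).le hB (le_max_left _ _) (Order.succ l))
    (T := l.ord.ToType) Set.univ (fun t _ => (mk_Iio_ord t).trans (Order.lt_succ l))
    (fun _ => g0) (fun _ => hg0) (fun _ => ∅) (fun _ => by simp)
  obtain ⟨j⟩ : #(Iio p) ≤ #s.out := by simpa using hp
  let v : l.ord.ToType → e → s.out := fun t β => j ⟨f t β.1, (h1 t β.1).trans_le (hep β.1 β.2)⟩
  have h3 : ∀ B : Set l.ord.ToType, #B ≤ ℵ₀ → ∃ β : e, InjOn (fun t => v t β) B := by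
    intro B hBc
    have h4 := hno (range (fun z : {z : B × B // z.1.1 < z.2.1} =>
      {β | β ∈ e ∧ ¬ f z.1.1.1 β < f z.1.2.1 β})) (mk_range_le.trans ((mk_subtype_le _).trans (by
        rw [mk_prod, lift_id]
        exact mul_le_of_le le_rfl hBc hBc))) (by
      rintro _ ⟨z, rfl⟩
      refine ⟨fun β hβ => hβ.1, fun U hU => not_lt.mp (fun h4 => ?_)⟩
      have h5 := ev_FF.mp (h2 _ (mem_univ _) _ z.2) U (mem_of_superset hU (fun β hβ => hβ.1))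
        (Order.succ_le_of_lt h4)
      obtain ⟨β, h6, h7⟩ := (h5.and (show ∀ᶠ β in (U : Filter (BW W μ)),
        β ∈ {β | β ∈ e ∧ ¬ f z.1.1.1 β < f z.1.2.1 β} from hU)).exists
      exact h7.2 h6)
    obtain ⟨β, h5, h6⟩ := not_subset.mp h4
    have h7 : ∀ x ∈ B, ∀ y ∈ B, x < y → f x β < f y β := by
      intro x hx y hy hxy
      by_contra h7
      exact h6 ⟨_, ⟨⟨(⟨x, hx⟩, ⟨y, hy⟩), hxy⟩, rfl⟩, h5, h7⟩
    refine ⟨⟨β, h5⟩, fun x hx y hy hxy => ?_⟩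
    have h8 : f x β = f y β := congrArg Subtype.val (j.injective hxy)
    rcases lt_trichotomy x y with h | h | h
    · exact absurd h8 (h7 x hx y hy h).ne
    · exact h
    · exact absurd h8 (h7 y hy x hx h).ne'
  refine ⟨fun t => range (v t), fun t => mk_range_le.trans he.le, fun c hc => ?_⟩
  obtain ⟨L, hL1, hL2⟩ := loc h0 _ hc c rfl
  refine ⟨range (fun z : e × L => fun t => z.2.1 ⟨v t.1 z.1, t.2 ⟨_, rfl⟩⟩),
    mk_range_le.trans ?_, fun A hA => ?_⟩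
  · rw [mk_prod, lift_id, lift_id]
    exact mul_le_of_le h0 he.le hL1
  obtain ⟨B, hBA, hBc⟩ := le_mk_iff_exists_subset.mp (infinite_iff_aleph0.mp hA)
  obtain ⟨β, hβ⟩ := h3 (Subtype.val '' B) (mk_image_le.trans hBc.le)
  obtain ⟨π, hπ, hinf⟩ := hL2
    ((fun t : {x | range (v x) ⊆ c} => (⟨v t.1 β, t.2 ⟨β, rfl⟩⟩ : c)) '' B)
    (Infinite.image (fun x hx y hy h => Subtype.ext
      (hβ ⟨x, hx, rfl⟩ ⟨y, hy, rfl⟩ (congrArg Subtype.val h))) (infinite_iff_aleph0.mpr hBc.ge))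
  refine ⟨_, ⟨(β, ⟨π, hπ⟩), rfl⟩, hinf.mono ?_⟩
  rintro _ ⟨_, ⟨X, hX, rfl⟩, rfl⟩
  exact ⟨X, hBA hX, rfl⟩

theorem red_of_not_cv (hμ : ℵ₀ < μ) (hcof : μ.ord.cof = ℵ₀) (s l : Cardinal.{u}) (hμl : μ ≤ l)
    (hsl : s ≤ l) (hl : l ^ ℵ₀ ≤ l) (hC : ¬ Cv μ l (Set.univ : Set s.out)) :
    Red μ l.out s.out := by
  obtain ⟨b, hb⟩ := exists_sing hμ hcof
  have hκ : ℵ₀ ≤ l := hμ.le.trans hμl
  have hW : #(WithTop l.ord.ToType) ≤ l := by
    refine le_trans (mk_option (α := l.ord.ToType)).le ?_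
    rw [mk_ord_toType, add_one_eq hκ]
  have ht : l ≤ #(Iio (⊤ : WithTop l.ord.ToType)) := by
    refine le_trans (mk_ord_toType l).ge (mk_le_of_injective
      (f := fun x => ⟨(x : WithTop l.ord.ToType), WithTop.coe_lt_top x⟩) (fun x y hxy => ?_))
    exact WithTop.coe_injective (congrArg Subtype.val hxy)
  obtain ⟨p, -, hp⟩ := exists_pt (hsl.trans ht)
  refine (red_of_not_CU hb (l := l) hp.le (fun h => hC ((cv_of_CU hb hμl hW ht h hl).of_card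
    ?_))).mono_card (by simp)
  rw [mk_univ, mk_out, ← hp]
  exact mk_le_mk_of_subset Iio_subset_Iic_self

lemma cv_cofSub (θ μ : Cardinal.{u}) : Cv μ (cofSub θ μ) (Set.univ : Set θ.out) := by
  obtain ⟨C, h1, h2, h3⟩ := csInf_mem (s := {c : Cardinal.{u} | ∃ C : Set (Set θ.out), #C = c ∧
    (∀ p ∈ C, #p ≤ μ) ∧ ∀ A : Set θ.out, #A ≤ μ → ∃ p ∈ C, A ⊆ p})
    ⟨_, {p | #p ≤ μ}, rfl, fun _ h => h, fun A hA => ⟨A, hA, subset_rfl⟩⟩
  exact ⟨C, h1.le, h2, fun A _ => h3 A⟩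

lemma cofSub_le {θ μ κ : Cardinal.{u}} (h : Cv μ κ (Set.univ : Set θ.out)) : cofSub θ μ ≤ κ := by
  obtain ⟨C, h1, h2, h3⟩ := h
  exact (csInf_le' (s := {c : Cardinal.{u} | ∃ C : Set (Set θ.out), #C = c ∧
    (∀ p ∈ C, #p ≤ μ) ∧ ∀ A : Set θ.out, #A ≤ μ → ∃ p ∈ C, A ⊆ p})
    ⟨C, rfl, h2, fun A => h3 A (subset_univ _)⟩).trans h1

theorem two_pow_le_of_cv (hμ : ℵ₀ < μ) (hcof : μ.ord.cof = ℵ₀) {κ : Cardinal.{u}}
    (hκ : domNum μ ≤ κ) (hc : Cv μ κ (Set.univ : Set (𝔠 : Cardinal.{u}).out)) : 2 ^ μ ≤ κ := by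
  obtain ⟨h1, D, h2, hD⟩ := exists_dom hμ.le
  exact two_pow_le_alpha hμ.le hD (h2.trans hκ) (h1.le.trans hκ) hc (red_of_not_cv hμ hcof)

theorem two_pow_eq_max (hμ : ℵ₀ < μ) (hcof : μ.ord.cof = ℵ₀) :
    2 ^ μ = max (domNum μ) (cofSub 𝔠 μ) := by
  refine le_antisymm (two_pow_le_of_cv hμ hcof (le_max_left _ _)
    ((cv_cofSub _ _).mono (le_max_right _ _))) (max_le (domNum_le hμ.le) (cofSub_le
      ⟨{p | #p ≤ μ}, (mk_bounded_set_le _ μ).trans ?_, fun _ h => h,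
        fun A _ hA => ⟨A, hA, subset_rfl⟩⟩))
  rw [mk_out, max_eq_left aleph0_le_continuum, ← two_power_aleph0, ← power_mul,
    aleph0_mul_eq hμ.le]

theorem domNum_of_cofSub (hμ : ℵ₀ < μ) (hcof : μ.ord.cof = ℵ₀) {α : Ordinal.{u}}
    (hα : μ = aleph α) (h : cofSub 𝔠 μ ≤ aleph (α + μ.ord)) : domNum μ = 2 ^ μ := by
  refine le_antisymm (domNum_le hμ.le) (not_lt.mp (fun h1 => ?_))
  obtain ⟨δ, h2, h3, -⟩ := gap_of_lt hμ hcof h1
  have h4 : α ≤ δ := (aleph_lt_aleph.mp (hα ▸ h2)).le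
  exact absurd h1 (not_lt.mpr (two_pow_le_of_cv hμ hcof le_rfl ((cv_cofSub _ _).mono
    (h.trans ((aleph_le_aleph.mpr (add_le_add_left h4 _)).trans h3)))))

theorem domNum_of_succ (hμ : ℵ₀ < μ) (hcof : μ.ord.cof = ℵ₀) (n : ℕ)
    (hc : 𝔠 ≤ Order.succ^[n] μ) : domNum μ = 2 ^ μ := by
  obtain ⟨α, hα⟩ := mem_range_aleph_iff.mpr hμ.le
  have h1 : ∀ m : ℕ, Order.succ^[m] μ = aleph (α + m) := by
    intro m
    induction m with
    | zero => simp [hα]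
    | succ m ih => rw [Function.iterate_succ_apply', ih, Nat.cast_succ, ← add_assoc, succ_aleph]
  obtain ⟨C, h2, h3, h4⟩ := cofinal_family hμ.le hc
  refine domNum_of_cofSub hμ hcof hα.symm ((cofSub_le (Cv.of_card
    (Q := (Set.univ : Set (Set (ULift.{u} ℕ)))) ⟨C, h2, h3, fun A _ => h4 A⟩ (by simp))).trans
    (hc.trans ((h1 n).trans_le (aleph_le_aleph.mpr (add_le_add_right ?_ _)))))
  exact (Ordinal.natCast_lt_omega0 n).le.trans (by simpa using ord_le_ord.mpr hμ.le)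

end Pool.Agent.Lib.MP_856180_lc
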