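import Mathlib
import Pool.Agent.Lib.MP_856180_lc.AlphaKey

/-!
The power `2 ^ μ` is bounded by the dominating number and the powers below `μ`.
-/

set_option autoImplicit false

namespace Pool.Agent.Lib.MP_856180_lc

open Cardinal Set Filter Pool.Agent.Shared.RevisedGCH

universe u

variable {W : Type u} [LinearOrder W] [WellFoundedLT W] {μ : Cardinal.{u}}

/-- Small sets of points up to `p` are unions of `ρ` sets with possible cofinalities at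
most `l`. -/
def CUk (μ l ρ : Cardinal.{u}) (p : W) : Prop :=
  ∀ e : Set (BW W μ), #e < μ → (∀ β ∈ e, β.1 ≤ p) →
    ∃ C : Set (Set (BW W μ)), #C ≤ ρ ∧ (∀ B ∈ C, B ⊆ e ∧ Jl l B) ∧ e ⊆ ⋃₀ C

lemma dom_many {b : ℕ → Cardinal.{u}} (hμ : Sing μ b) {l ρ : Cardinal.{u}} (hl : μ ≤ l)
    (hρ : ℵ₀ ≤ ρ)
    (hW : #W ≤ l) {t p₀ : W} (ht : l ≤ #(Iio t)) (hR : CUk μ l ρ p₀)
    {e : Set (BW W μ)} (he : #e ≤ μ) (hp : ∀ β ∈ e, β.1 ≤ p₀) :
    ∃ S : Set (BW W μ → W), #S ≤ l ^ ρ ∧ ∀ g, Pr Subtype.val g →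
      ∃ u ∈ S, ∀ β ∈ e, g β ≤ u β ∧ u β < β.1 := by
  have h0 := hμ.aleph0_lt.le
  obtain ⟨p, h1, h2⟩ := hμ.split he
  choose C h3 h4 h5 using fun n => hR (p n) (h1 n).2 (fun β hβ => hp β ((h1 n).1 hβ))
  choose S h6 h7 h8 using fun n => cof_family hμ (h1 n).2 (h0.trans hl)
    ((mk_set_le _).trans ((mk_subtype_le _).trans hW)) ht
  have h9 : ∀ β : e, ∃ z : (⋃ n, C n : Set (Set (BW W μ))), β.1 ∈ z.1 := by
    intro β
    obtain ⟨n, hn⟩ := h2 β.1 β.2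
    obtain ⟨B, h9, h10⟩ := h5 n hn
    exact ⟨⟨B, mem_iUnion.mpr ⟨n, h9⟩⟩, h10⟩
  choose z hz using h9
  classical
  refine ⟨(fun (v : (⋃ n, C n : Set (Set (BW W μ))) → BW W μ → W) β =>
    if h : β ∈ e then v (z ⟨β, h⟩) β else t) '' {v | ∀ j, v j ∈ ⋃ n, S n}, mk_image_le.trans
    ((mk_pi_set_le _ (fun _ => iUnion_nat_le (h0.trans hl) _ h6)).trans (power_le_power_left
      (aleph0_pos.trans_le (h0.trans hl)).ne' (iUnion_nat_le hρ _ h3))), fun g hg => ?_⟩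
  have h10 : ∀ j : (⋃ n, C n : Set (Set (BW W μ))), ∃ u ∈ ⋃ n, S n, Pr Subtype.val u ∧
      ∀ β ∈ j.1, g β ≤ u β := by
    intro j
    obtain ⟨n, hn⟩ := mem_iUnion.mp j.2
    obtain ⟨u, h10, h11⟩ := h8 n j.1 (h4 n _ hn).1 (h4 n _ hn).2 g hg
    exact ⟨u, mem_iUnion.mpr ⟨n, h10⟩, h7 n u h10, h11⟩
  choose v h11 h12 h13 using h10
  refine ⟨_, ⟨v, h11, rfl⟩, fun β hβ => ?_⟩
  simp only [dif_pos hβ]
  exact ⟨h13 _ β (hz ⟨β, hβ⟩), h12 _ β⟩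

theorem cv_of_CUk {b : ℕ → Cardinal.{u}} (hμ : Sing μ b) {l ρ c : Cardinal.{u}} (hl : μ ≤ l)
    (hρ : ℵ₀ ≤ ρ)
    (hW : #W ≤ l) {t₀ t : W} (ht : l ≤ #(Iio t₀)) (hR : CUk μ l ρ t) (hc1 : l ^ ρ ≤ c)
    (hc2 : c ^ ℵ₀ ≤ c) : Cv μ c (Iic t) := by
  have h0 := hμ.aleph0_lt.le
  have hc : ℵ₀ ≤ c := (h0.trans hl).trans
    ((self_le_power l (one_le_aleph0.trans hρ)).trans hc1)
  obtain ⟨lad, inv, hlad⟩ := exists_lad (W := W) h0
  choose! S h1 h2 using fun (q : Set W) (hq : #q ≤ μ) => dom_many hμ hl hρ hW ht hR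
    (e := Subtype.val ⁻¹' (q ∩ Iic t))
    ((mk_val_le _).trans ((mk_le_mk_of_subset inter_subset_left).trans hq))
    (fun β hβ => hβ.2)
  let nx : Set W → (BW W μ → W) → Set W := fun q u =>
    stp lad Set.univ (fun β => {u β}) q (Subtype.val ⁻¹' q)
  obtain ⟨C, hC1, hC2, hC3, hC4⟩ := closure_family hc (q₀ := {t}) (θ := μ)
    (by simpa using one_le_aleph0.trans h0) (fun q => nx q '' S q) (fun q hq =>
      ⟨mk_image_le.trans ((h1 q hq).trans hc1), by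
        rintro _ ⟨u, -, rfl⟩
        exact mk_stp h0 (by simp) (fun _ => by simpa using one_le_aleph0.trans h0) hq
          subset_rfl⟩)
  refine ⟨(fun s : ℕ → Set W => ⋃ n, s n) '' {s | ∀ n, s n ∈ C}, mk_image_le.trans
    ((mk_seq_le C).trans ((power_le_power_right hC1).trans hc2)), ?_, fun A hA hAμ => ?_⟩
  · rintro _ ⟨s, hs, rfl⟩
    exact iUnion_nat_le h0 _ (fun n => hC3 _ (hs n))
  choose g h3 h4 using fun β : BW W μ => bound_below (w := β.1) (A ∩ Iio β.1)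
    (((mk_le_mk_of_subset inter_subset_left).trans hAμ).trans_lt β.2) (fun _ h => h.2)
  choose u h5 h6 using fun q : C => h2 q.1 (hC3 _ q.2) g h3
  let s : ℕ → C := fun n => Nat.rec ⟨_, hC2⟩ (fun _ q => ⟨nx q.1 (u q), hC4 _ q.2 ⟨_, h5 q, rfl⟩⟩) n
  refine ⟨_, ⟨fun n => (s n).1, fun n => (s n).2, rfl⟩, ?_⟩
  refine (recon (L := (⋃ n, (s n).1) ∩ Iic t) ⟨mem_iUnion.mpr ⟨0, rfl⟩, le_rfl⟩ hA ?_).trans
    inter_subset_left
  rintro β ⟨h7, h8⟩ α hα h9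
  obtain ⟨n, hn⟩ := mem_iUnion.mp h7
  by_cases h10 : Big μ β
  · obtain ⟨h11, h12⟩ := h6 (s n) ⟨β, h10⟩ ⟨hn, h8⟩
    exact ⟨_, ⟨mem_iUnion.mpr ⟨n + 1, Or.inr (Or.inr ⟨⟨β, h10⟩, hn, rfl⟩)⟩, h12.le.trans h8⟩,
      (h4 ⟨β, h10⟩ α ⟨hα, h9⟩).le.trans h11, h12⟩
  · obtain ⟨h11, h12⟩ := hlad β h10 α h9
    exact ⟨_, ⟨mem_iUnion.mpr ⟨n + 1, Or.inr (Or.inl ⟨β, hn, _, mem_univ _, rfl⟩)⟩,
      h12.le.trans h8⟩, h11, h12⟩

lemma inf_cof {t : Cardinal.{u}} (h : ℵ₀ ≤ t) : ℵ₀ ≤ t.ord.cof :=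
  Ordinal.aleph0_le_cof_iff.mpr (Ordinal.one_lt_cof_iff.mpr (isSuccLimit_ord h))

theorem cv_step (hμ : ℵ₀ < μ) (hcof : μ.ord.cof = ℵ₀) {D : Set (μ.out → ℕ)}
    (hD : ∀ g : μ.out → ℕ, ∃ f ∈ D, ∀ a, g a ≤ f a) {κ t : Cardinal.{u}} (hDκ : #D ≤ κ)
    (hκ : ℵ₀ ≤ κ) (hμt : μ ≤ t) (hlim : ∀ s < t, Cv μ κ (Set.univ : Set s.out))
    (hpow : t ^ t.ord.cof ≤ κ) : Cv μ κ (Set.univ : Set t.out) := by
  obtain ⟨b, hb⟩ := exists_sing hμ hcof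
  have h0 : ℵ₀ ≤ t := hμ.le.trans hμt
  have hρ : ℵ₀ ≤ t.ord.cof := inf_cof h0
  have hW : #(WithTop t.ord.ToType) ≤ t := by
    refine le_trans (mk_option (α := t.ord.ToType)).le ?_
    rw [mk_ord_toType, add_one_eq h0]
  have ht : t ≤ #(Iio (⊤ : WithTop t.ord.ToType)) := by
    refine le_trans (mk_ord_toType t).ge (mk_le_of_injective
      (f := fun x => ⟨(x : WithTop t.ord.ToType), WithTop.coe_lt_top x⟩) (fun x y hxy => ?_))
    exact WithTop.coe_injective (congrArg Subtype.val hxy)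
  by_cases h : ∀ w : t.ord.ToType, CU μ t (w : WithTop t.ord.ToType)
  · obtain ⟨K, hK1, hK2⟩ := Order.exists_cof_eq t.ord.ToType
    rw [Ordinal.cof_toType] at hK2
    have h1 : CUk μ t t.ord.cof (⊤ : WithTop t.ord.ToType) := by
      intro e he _
      choose C h1 h2 h3 using fun k : K => h k.1 {β | β ∈ e ∧ β.1 ≤ k.1}
        ((mk_le_mk_of_subset (fun β hβ => hβ.1)).trans_lt he) (fun β hβ => hβ.2)
      refine ⟨insert {β | β ∈ e ∧ β.1 = ⊤} (⋃ k, C k), mk_insert_le.trans (add_le_of_le hρ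
        (iUnion_le hρ _ hK2.le (fun k => (h1 k).trans hρ)) (one_le_aleph0.trans hρ)), ?_,
        fun β hβ => ?_⟩
      · rintro B (rfl | hB)
        · refine ⟨fun β hβ => hβ.1, fun U hU => (jl_cof hμ.le
            ((mk_le_mk_of_subset (fun β hβ => hβ.1)).trans he.le)
            (l := Order.cof (Iio (⊤ : WithTop t.ord.ToType))) (fun β hβ => by rw [hβ.2])
            U hU).trans ((Order.cof_le_cardinalMk _).trans ((mk_set_le _).trans hW))⟩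
        · obtain ⟨k, hk⟩ := mem_iUnion.mp hB
          exact ⟨fun β hβ => ((h2 k B hk).1 hβ).1, (h2 k B hk).2⟩
      · by_cases h4 : β.1 = ⊤
        · exact ⟨_, mem_insert _ _, hβ, h4⟩
        · obtain ⟨w, hw⟩ := WithTop.ne_top_iff_exists.mp h4
          obtain ⟨k, hk, h5⟩ := hK1 w
          obtain ⟨B, h6, h7⟩ := h3 ⟨k, hk⟩ (show β ∈ _ from ⟨hβ, hw ▸ WithTop.coe_le_coe.mpr h5⟩)
          exact ⟨B, mem_insert_of_mem _ (mem_iUnion.mpr ⟨_, h6⟩), h7⟩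
    refine ((cv_of_CUk hb hμt hρ hW ht h1 le_rfl ?_).mono hpow).of_card ?_
    · rw [← power_mul, mul_aleph0_eq hρ]
    · rw [mk_univ, mk_out]
      exact ht.trans (mk_le_mk_of_subset Iio_subset_Iic_self)
  · obtain ⟨w, hw⟩ := not_forall.mp h
    have h1 : #(Iio (w : WithTop t.ord.ToType)) ≤ #(Iio w) := by
      refine mk_le_of_surjective (f := fun x : Iio w =>
        (⟨(x.1 : WithTop t.ord.ToType), WithTop.coe_lt_coe.mpr (show x.1 < w from x.2)⟩ :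
          Iio (w : WithTop t.ord.ToType))) ?_
      rintro ⟨y, hy⟩
      obtain ⟨x, rfl⟩ := WithTop.ne_top_iff_exists.mp
        ((show y < w from hy).trans (WithTop.coe_lt_top w)).ne
      exact ⟨⟨x, WithTop.coe_lt_coe.mp (show (x : WithTop t.ord.ToType) < w from hy)⟩, rfl⟩
    exact (cv_of_red hμ.le hD hDκ hκ (red_of_not_CU hb (l := t) h1 hw)
      (hlim _ (mk_Iio_ord w))).of_card (by simp)

theorem exists_least (hμ : ℵ₀ < μ) (hcof : μ.ord.cof = ℵ₀) {κ : Cardinal.{u}}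
    (hκ : domNum μ ≤ κ) (h : κ < 2 ^ μ) : ∃ t, μ < t ∧ t ≤ 𝔠 ∧ κ < cofSub t μ ∧
      (∀ s < t, cofSub s μ ≤ κ) ∧ ((t.ord.cof < μ ∧ κ < 2 ^ t.ord.cof) ∨ κ < t) := by
  obtain ⟨h1, D, h2, hD⟩ := exists_dom hμ.le
  have hκ0 : ℵ₀ ≤ κ := hμ.le.trans (h1.le.trans hκ)
  obtain ⟨t, ⟨ht, h3⟩, h4⟩ := WellFounded.has_min wellFounded_lt
    {t : Cardinal.{u} | t ≤ 𝔠 ∧ ¬ Cv μ κ (Set.univ : Set t.out)}
    ⟨𝔠, le_rfl, fun hc => absurd (two_pow_le_of_cv hμ hcof hκ hc) (not_le.mpr h)⟩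
  have ih : ∀ s < t, Cv μ κ (Set.univ : Set s.out) :=
    fun s hs => by_contra (fun h5 => h4 s ⟨hs.le.trans ht, h5⟩ hs)
  have h5 : μ < t := not_le.mp (fun h5 => h3 (Cv.self hκ0 (by simpa using h5)))
  refine ⟨t, h5, ht, not_le.mp (fun h6 => h3 ((cv_cofSub _ _).mono h6)),
    fun s hs => cofSub_le (ih s hs), ?_⟩
  rcases lt_trichotomy t.ord.cof μ with h6 | h6 | h6
  · refine Or.inl ⟨h6, not_le.mp (fun h7 => h3 (cv_step hμ hcof hD (h2.trans hκ) hκ0 h5.le ih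
      ((power_le_power_right ht).trans ?_)))⟩
    rwa [← two_power_aleph0, ← power_mul, aleph0_mul_eq (inf_cof (hμ.le.trans h5.le))]
  · have h7 := Ordinal.cof_ord_cof t.ord
    rw [h6, hcof] at h7
    exact absurd h7 hμ.ne
  · exact Or.inr (not_le.mp (fun h7 => h3 ((Cv.cover hκ0 (I := t.ord.ToType) (Q := Set.univ)
      (by simpa using h7) (fun w => Iio w) (fun w => (ih _ (mk_Iio_ord w)).of_card (by simp))
      (fun A _ hA => bounded_of_lt_cof A (hA.trans_lt h6))).of_card (by simp))))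

theorem location (hμ : ℵ₀ < μ) (hcof : μ.ord.cof = ℵ₀) (h : domNum μ < 2 ^ μ) :
    cofSub 𝔠 μ = 2 ^ μ ∧ ∃ l : Cardinal.{u}, μ < l ∧ l ≤ 𝔠 ∧ l.ord.cof < μ ∧
      domNum μ < cofSub l μ ∧ (2 : Cardinal.{u}) ^ l.ord.cof = 2 ^ μ := by
  refine ⟨?_, ?_⟩
  · have h1 := two_pow_eq_max hμ hcof
    rcases max_choice (domNum μ) (cofSub 𝔠 μ) with h2 | h2
    · exact absurd (h1.trans h2) h.ne'
    · exact (h1.trans h2).symm
  by_cases hc : 2 ^ μ ≤ 𝔠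
  · obtain ⟨t, h1, h2, h3, h4, ⟨h5, -⟩ | h5⟩ := exists_least hμ hcof le_rfl h
    · refine ⟨t, h1, h2, h5, h3, le_antisymm (power_le_power_left two_ne_zero h5.le) (hc.trans ?_)⟩
      rw [← two_power_aleph0]
      exact power_le_power_left two_ne_zero (inf_cof (hμ.le.trans h1.le))
    · obtain ⟨δ, -, h6, h7⟩ := gap_of_lt hμ hcof h
      exact absurd (h7 _ ((aleph_le_aleph.mpr le_self_add).trans h6) le_rfl)
        (not_lt.mpr (h4 _ h5))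
  obtain ⟨n, hn1, hn2⟩ := WellFounded.has_min wellFounded_lt
    {n : Cardinal.{u} | (2 : Cardinal.{u}) ^ μ ≤ 2 ^ n} ⟨μ, le_refl ((2 : Cardinal.{u}) ^ μ)⟩
  have hn3 : ∀ σ < n, (2 : Cardinal.{u}) ^ σ < 2 ^ μ :=
    fun σ hσ => not_le.mp (fun h1 => hn2 σ h1 hσ)
  have hn4 : ℵ₀ < n := not_le.mp (fun h1 => hc (le_trans hn1
    ((power_le_power_left two_ne_zero h1).trans two_power_aleph0.le)))
  have hn5 : n ≤ μ := not_lt.mp (hn2 μ (le_refl ((2 : Cardinal.{u}) ^ μ)))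
  obtain ⟨ι, ρ, h1, h2, h3, -⟩ := exists_cof_family hn4.le
  have h4 : (⨆ i, (2 : Cardinal.{u}) ^ ρ i) < 2 ^ μ := iSup_lt_of_lt_cof_ord
    (((h1.le.trans (Ordinal.cof_ord_le n)).trans hn5).trans_lt
      (lt_cof_ord_power hμ.le one_lt_two)) (fun i => hn3 _ (h2 i))
  have h5 : ∀ σ < n, (2 : Cardinal.{u}) ^ σ ≤ max (domNum μ) (⨆ i, (2 : Cardinal.{u}) ^ ρ i) := by
    intro σ hσ
    obtain ⟨i, hi⟩ := h3 σ hσ
    exact ((power_le_power_left two_ne_zero hi).trans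
      (le_ciSup (f := fun i => (2 : Cardinal.{u}) ^ ρ i) bddAbove_of_small i)).trans
      (le_max_right _ _)
  obtain ⟨t, h6, h7, h8, -, ⟨h9, h10⟩ | h9⟩ :=
    exists_least hμ hcof (le_max_left _ _) (max_lt h h4)
  · refine ⟨t, h6, h7, h9, (le_max_left _ _).trans_lt h8,
      le_antisymm (power_le_power_left two_ne_zero h9.le) (le_trans hn1
        (power_le_power_left two_ne_zero (not_lt.mp (fun h11 => ?_))))⟩
    exact absurd h10 (not_lt.mpr (h5 _ h11))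
  · exact absurd (h9.trans_le h7) (not_lt.mpr (two_power_aleph0.ge.trans (h5 _ hn4)))

theorem domNum_of_lt (hμ : ℵ₀ < μ) (hcof : μ.ord.cof = ℵ₀)
    (h : ∀ ν < μ, (2 : Cardinal.{u}) ^ ν < 2 ^ μ) : domNum μ = 2 ^ μ := by
  refine le_antisymm (domNum_le hμ.le) (not_lt.mp (fun h1 => ?_))
  obtain ⟨-, l, -, -, h2, -, h3⟩ := location hμ hcof h1
  exact (h _ h2).ne h3

theorem domNum_of_continuum_le (hμ : ℵ₀ < μ) (hcof : μ.ord.cof = ℵ₀) (h : 𝔠 ≤ μ) :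
    domNum μ = 2 ^ μ := by
  refine le_antisymm (domNum_le hμ.le) (not_lt.mp (fun h1 => ?_))
  obtain ⟨-, l, h2, h3, -⟩ := location hμ hcof h1
  exact absurd (h2.trans_le h3) (not_lt.mpr h)

end Pool.Agent.Lib.MP_856180_lc
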