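import Mathlib
import Pool.Agent.Lib.MP_856180_lc.AlphaR

/-!
Sequences of reals are pieced together from `ℵ₁` sums read off a dominating family.
-/

set_option autoImplicit false

namespace Pool.Agent.Lib.MP_856180_lc

open Cardinal Set Pool.Agent.Shared.RevisedGCH
open scoped ENNReal

universe u

variable {μ : Cardinal.{u}}

theorem pieces {I : Type u} {D : Set (I → ℕ)} (hD : ∀ g : I → ℕ, ∃ f ∈ D, ∀ a, g a ≤ f a)
    {κ : Cardinal.{u}} (hκ : ℵ₀ ≤ κ) (hDκ : #D ≤ κ) :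
    ∃ X : Set (I → ℝ≥0∞), #X ≤ κ ^ ℵ₀ ∧ ∀ z : I → ℝ≥0∞, (∀ i, z i ≠ ⊤) →
      ∃ x : (ℵ₁ : Cardinal.{u}).ord.ToType → I → ℝ≥0∞, (∀ j, x j ∈ X) ∧ ∀ i, ∃ j, x j i = z i := by
  classical
  let w : Option D → I → ℝ≥0∞ := fun o i => o.elim 0 (fun f => 2⁻¹ ^ f.1 i)
  refine ⟨(fun (s : ℕ → Option D) i => ∑' n, w (s n) i) '' {s | ∀ n, s n ∈ Set.univ},
    mk_image_le.trans ((mk_seq_le _).trans (power_le_power_right ?_)), fun z hz => ?_⟩
  · rw [mk_univ, mk_option]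
    exact add_le_of_le hκ hDκ (one_le_aleph0.trans hκ)
  obtain ⟨f, hf⟩ := rec_exists (Y := (ℵ₁ : Cardinal.{u}).ord.ToType) (St := D)
    (fun j ih st => ∀ i, ∑' k : Iio j, 2⁻¹ ^ (ih k.1 k.2).1 i < z i →
      ∑' k : Iio j, 2⁻¹ ^ (ih k.1 k.2).1 i + 2⁻¹ ^ st.1 i ≤ z i) (by
      intro j ih
      have h1 : ∀ i, ∃ n : ℕ, ∑' k : Iio j, 2⁻¹ ^ (ih k.1 k.2).1 i < z i →
          ∑' k : Iio j, 2⁻¹ ^ (ih k.1 k.2).1 i + 2⁻¹ ^ n ≤ z i := by
        intro i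
        generalize ∑' k : Iio j, (2⁻¹ : ℝ≥0∞) ^ (ih k.1 k.2).1 i = T
        by_cases h : T < z i
        · obtain ⟨n, hn⟩ := ENNReal.exists_inv_two_pow_lt (tsub_pos_of_lt h).ne'
          exact ⟨n, fun _ => (add_le_add_right hn.le T).trans (add_tsub_cancel_of_le h.le).le⟩
        · exact ⟨0, fun h' => absurd h' h⟩
      choose g hg using h1
      obtain ⟨f, hf, h2⟩ := hD g
      exact ⟨⟨f, hf⟩, fun i hi => (add_le_add_right
        (pow_le_pow_right_of_le_one' (by simp) (h2 i)) _).trans (hg i hi)⟩)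
  refine ⟨fun j i => ∑' k : Iio j, 2⁻¹ ^ (f k.1).1 i, fun j => ?_, fun i => ?_⟩
  · have h1 : Countable (Iio j) := by
      rw [← mk_le_aleph0_iff, ← Order.lt_succ_iff, succ_aleph0]
      exact mk_Iio_ord j
    obtain ⟨e, he⟩ := Countable.exists_injective_nat (Iio j)
    refine ⟨Function.extend e (fun k => some (f k.1)) (fun _ => none), fun _ => mem_univ _,
      funext (fun i => ?_)⟩
    beta_reduce
    rw [← he.tsum_eq (f := fun n => w (Function.extend e (fun k => some (f k.1))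
      (fun _ => none) n) i) ?_]
    · exact tsum_congr (fun k => by rw [he.extend_apply]; rfl)
    · intro n hn
      by_contra h2
      exact hn (by simp only [Function.extend_apply' _ _ _ h2]; rfl)
  by_contra hcon
  push Not at hcon
  have h1 : ∀ (s : Finset (ℵ₁ : Cardinal.{u}).ord.ToType),
      (∀ m ∈ s, ∑' k : Iio m, (2⁻¹ : ℝ≥0∞) ^ (f k.1).1 i ≤ z i) →
        ∑ k ∈ s, (2⁻¹ : ℝ≥0∞) ^ (f k).1 i ≤ z i := by
    intro s hs
    rcases s.eq_empty_or_nonempty with rfl | hne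
    · simp
    have h2 := s.max'_mem hne
    rw [← Finset.sum_erase_add _ _ h2]
    refine le_trans (add_le_add_left ?_ _) (hf _ i ((hs _ h2).lt_of_ne (hcon _)))
    rw [tsum_subtype (Iio (s.max' hne)) (fun k => (2⁻¹ : ℝ≥0∞) ^ (f k).1 i)]
    refine le_trans (Finset.sum_le_sum (fun k hk => ?_)) (ENNReal.sum_le_tsum _)
    rw [indicator_of_mem (show k ∈ Iio _ from s.lt_max'_of_mem_erase_max' hne hk)]
  have h2 : ∀ m, ∑' k : Iio m, (2⁻¹ : ℝ≥0∞) ^ (f k.1).1 i ≤ z i := by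
    intro m
    induction m using WellFoundedLT.induction with
    | ind m ih =>
      refine ENNReal.summable.tsum_le_of_sum_le (fun s => ?_)
      rw [← Finset.sum_image (g := Subtype.val) (f := fun k => (2⁻¹ : ℝ≥0∞) ^ (f k).1 i)
        Subtype.val_injective.injOn]
      refine h1 _ (fun k hk => ?_)
      obtain ⟨k', -, rfl⟩ := Finset.mem_image.mp hk
      exact ih _ k'.2
  have h3 := Summable.countable_support_ennreal (f := fun k => (2⁻¹ : ℝ≥0∞) ^ (f k).1 i)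
    (ne_top_of_le_ne_top (hz i)
      (ENNReal.summable.tsum_le_of_sum_le (fun s => h1 s (fun m _ => h2 m))))
  have h4 : (Set.univ : Set (ℵ₁ : Cardinal.{u}).ord.ToType).Countable :=
    h3.mono (fun k _ => pow_ne_zero _ (by simp))
  rw [← le_aleph0_iff_set_countable, mk_univ, mk_ord_toType] at h4
  exact absurd h4 (not_le.mpr aleph0_lt_aleph_one)

lemma real_codes {Y : Type u} {Q : Set Y} (h : Cv μ 𝔠 Q) : ∃ E : ℝ≥0∞ → Set Y,
    (∀ y, #(E y) ≤ μ) ∧ ∀ A ⊆ Q, #A ≤ μ → ∃ y, y ≠ ⊤ ∧ A ⊆ E y := by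
  obtain ⟨C, h1, h2, h3⟩ := h
  obtain ⟨e⟩ : Nonempty (C ↪ ℝ) := lift_mk_le'.mp (by simpa [mk_real] using h1)
  have h4 : Function.Injective (fun p : C => ENNReal.ofReal (Real.exp (e p))) := fun p q h =>
    e.injective (Real.exp_injective ((ENNReal.ofReal_eq_ofReal_iff (Real.exp_pos _).le
      (Real.exp_pos _).le).mp h))
  refine ⟨Function.extend (fun p : C => ENNReal.ofReal (Real.exp (e p))) Subtype.val
    (fun _ => ∅), fun y => ?_, fun A hA hAμ => ?_⟩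
  rotate_left
  · obtain ⟨p, hp, h5⟩ := h3 A hA hAμ
    exact ⟨ENNReal.ofReal (Real.exp (e ⟨p, hp⟩)), ENNReal.ofReal_ne_top,
      by rwa [h4.extend_apply _ _ ⟨p, hp⟩]⟩
  by_cases h5 : ∃ p : C, ENNReal.ofReal (Real.exp (e p)) = y
  · obtain ⟨p, rfl⟩ := h5
    rw [h4.extend_apply]
    exact h2 _ p.2
  · rw [Function.extend_apply' _ _ _ h5]
    simp

theorem cv_long (hμ : ℵ₀ ≤ μ) {D : Set (μ.out → ℕ)}
    (hD : ∀ g : μ.out → ℕ, ∃ f ∈ D, ∀ a, g a ≤ f a) {κ t : Cardinal.{u}} (hκ : ℵ₀ ≤ κ)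
    (hDκ : #D ≤ κ) (h1 : ℵ₁ < t.ord.cof) (h2 : t.ord.cof ≤ μ)
    (h : ∀ s < t, Cv μ 𝔠 (Set.univ : Set s.out)) : Cv μ (κ ^ ℵ₀) (Set.univ : Set t.out) := by
  obtain ⟨X, hX1, hX2⟩ := pieces hD hκ hDκ
  obtain ⟨K, hK1, hK2⟩ := Order.exists_cof_eq t.ord.ToType
  rw [Ordinal.cof_toType] at hK2
  obtain ⟨e⟩ : #K ≤ #μ.out := by simpa using hK2.le.trans h2
  choose E hE1 hE2 using fun k : K => real_codes (Q := Iio k.1)
    ((h _ (mk_Iio_ord k.1)).of_card (by simp))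
  refine Cv.of_card (Q := (Set.univ : Set t.ord.ToType))
    ⟨(fun x => ⋃ k, E k (x (e k))) '' X, mk_image_le.trans hX1, ?_, fun A _ hA => ?_⟩ (by simp)
  · rintro _ ⟨x, -, rfl⟩
    exact iUnion_le hμ _ (hK2.le.trans h2) (fun k => hE1 k _)
  choose y h3 h4 using fun k : K => hE2 k (A ∩ Iio k.1) inter_subset_right
    ((mk_le_mk_of_subset inter_subset_left).trans hA)
  obtain ⟨x, h5, h6⟩ := hX2 (Function.extend e y (fun _ => 0)) (fun i => by
    by_cases h5 : ∃ k, e k = i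
    · obtain ⟨k, rfl⟩ := h5
      rw [e.injective.extend_apply]
      exact h3 k
    · rw [Function.extend_apply' _ _ _ h5]
      simp)
  have h7 : ∃ j, ∀ w, ∃ k : K, x j (e k) = y k ∧ w < k.1 := by
    by_contra hcon
    push Not at hcon
    choose w hw using hcon
    obtain ⟨v, hv⟩ := bounded_of_lt_cof (range w) (mk_range_le.trans_lt (by simpa using h1))
    obtain ⟨k, hk, h7⟩ := hK1 v
    obtain ⟨j, hj⟩ := h6 (e ⟨k, hk⟩)
    rw [e.injective.extend_apply] at hj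
    exact absurd ((hw j _ hj).trans_lt (hv _ ⟨j, rfl⟩)) (not_lt.mpr h7)
  obtain ⟨j, hj⟩ := h7
  refine ⟨_, ⟨x j, h5 j, rfl⟩, fun a ha => ?_⟩
  obtain ⟨k, h8, h9⟩ := hj a
  exact mem_iUnion.mpr ⟨k, h8 ▸ h4 k ⟨ha, h9⟩⟩

theorem two_pow_le_max_pow (hμ : ℵ₀ < μ) (hcof : μ.ord.cof = ℵ₀) :
    2 ^ μ ≤ max (domNum μ ^ ℵ₀) (2 ^ ℵ₁) := by
  by_contra hcon
  obtain ⟨h1, D, h2, hD⟩ := exists_dom hμ.le
  have h0 : ℵ₀ ≤ domNum μ := hμ.le.trans h1.le
  have h3 : domNum μ ≤ max (domNum μ ^ ℵ₀) (2 ^ ℵ₁) :=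
    (self_le_power _ one_le_aleph0).trans (le_max_left _ _)
  have hc : 𝔠 ≤ max (domNum μ ^ ℵ₀) (2 ^ ℵ₁) := two_power_aleph0.ge.trans
    ((power_le_power_left two_ne_zero aleph0_lt_aleph_one.le).trans (le_max_right _ _))
  obtain ⟨t, h4, h5, h6, h7, ⟨h8, h9⟩ | h8⟩ := exists_least hμ hcof h3 (not_le.mp hcon)
  · refine absurd h6 (not_lt.mpr ((cofSub_le (cv_long hμ.le hD h0 h2 (not_le.mp (fun h10 =>
      absurd h9 (not_lt.mpr ((power_le_power_left two_ne_zero h10).trans (le_max_right _ _)))))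
      h8.le (fun s hs => by_contra (fun h10 => hcon (two_pow_le_of_cv hμ hcof h3
        (cv_of_red hμ.le hD (h2.trans h3) (h0.trans h3) (red_of_not_cv hμ hcof s 𝔠
          (h4.le.trans h5) (hs.le.trans h5) continuum_power_aleph0.le h10)
          ((cv_cofSub _ _).mono (h7 s hs)))))))).trans (le_max_left _ _)))
  · exact absurd (h8.trans_le h5) (not_lt.mpr hc)

theorem two_pow_eq_max_pow (hμ : ℵ₀ < μ) (hcof : μ.ord.cof = ℵ₀) :
    2 ^ μ = max (domNum μ ^ ℵ₀) (2 ^ ℵ₁) := by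
  refine le_antisymm (two_pow_le_max_pow hμ hcof) (max_le ?_
    (power_le_power_left two_ne_zero (succ_aleph0.ge.trans (Order.succ_le_of_lt hμ))))
  refine (power_le_power_right (domNum_le hμ.le)).trans ?_
  rw [← power_mul, mul_aleph0_eq hμ.le]

end Pool.Agent.Lib.MP_856180_lc
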