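import Mathlib
import Pool.Agent.Lib.MP_856180_lc.AlphaF

/-!
The countable power is removed when sets of size `2 ^ σ` are covered by `σ` small sets.
-/

set_option autoImplicit false

namespace Pool.Agent.Lib.MP_856180_lc

open Cardinal Set Pool.Agent.Shared.RevisedGCH
open scoped ENNReal

universe u

variable {μ σ : Cardinal.{u}}

/-- The sum read off a sequence of functions. -/
noncomputable def gSm {I : Type u} (s : ℕ → Option (I → ℕ)) (i : I) : ℝ≥0∞ :=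
  ∑' n, (s n).elim 0 (fun f => 2⁻¹ ^ f i)

/-- The sums read off a set of functions. -/
def GSums {I : Type u} (E : Set (I → ℕ)) : Set (I → ℝ≥0∞) :=
  gSm '' {s | ∀ n, s n ∈ insert none (some '' E)}

/-- The function `f` passes the gap test of `x` below `z`. -/
def GGap {I : Type u} (z x : I → ℝ≥0∞) (f : I → ℕ) : Prop :=
  ∀ i, x i < z i → x i + 2⁻¹ ^ f i ≤ z i

/-- Sets of size `2 ^ σ` are covered by `σ` many members of a small family. -/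
def GCov (σ κ : Cardinal.{u}) {X : Type u} (Q : Set X) : Prop :=
  ∃ C : Set (Set X), #C ≤ κ ∧ (∀ q ∈ C, #q ^ ℵ₀ ≤ κ) ∧ ∀ A ⊆ Q, #A ≤ 2 ^ σ →
    ∃ q : σ.out → Set X, (∀ n, q n ∈ C) ∧ A ⊆ ⋃ n, q n

lemma gSums_mono {I : Type u} {E E' : Set (I → ℕ)} (h : E ⊆ E') : GSums E ⊆ GSums E' :=
  image_mono (fun _ hs n => insert_subset_insert (image_mono h) (hs n))

lemma gSums_card {I : Type u} {E : Set (I → ℕ)} {θ : Cardinal.{u}} (hθ : ℵ₀ ≤ θ) (h : #E ≤ θ) :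
    #(GSums E) ≤ θ ^ ℵ₀ :=
  mk_image_le.trans ((mk_seq_le _).trans (power_le_power_right (mk_insert_le.trans
    (add_le_of_le hθ (mk_image_le.trans h) (one_le_aleph0.trans hθ)))))

lemma gSums_mem {I J : Type u} [Countable J] {E : Set (I → ℕ)} (g : J → E) :
    (fun i => ∑' k : J, (2⁻¹ : ℝ≥0∞) ^ (g k).1 i) ∈ GSums E := by
  classical
  obtain ⟨e, he⟩ := Countable.exists_injective_nat J
  refine ⟨Function.extend e (fun k => some (g k).1) (fun _ => none), fun n => ?_,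
    funext (fun i => ?_)⟩
  · by_cases h : ∃ k, e k = n
    · obtain ⟨k, rfl⟩ := h
      rw [he.extend_apply]
      exact Or.inr ⟨_, (g k).2, rfl⟩
    · rw [Function.extend_apply' _ _ _ h]
      exact Or.inl rfl
  unfold gSm
  rw [← he.tsum_eq (f := fun n => (Function.extend e (fun k => some (g k).1)
    (fun _ => none) n).elim 0 (fun f : I → ℕ => (2⁻¹ : ℝ≥0∞) ^ f i)) ?_]
  · exact tsum_congr (fun k => by rw [he.extend_apply]; rfl)
  · intro n hn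
    by_contra h2
    exact hn (by simp only [Function.extend_apply' _ _ _ h2]; rfl)

theorem g_run {I : Type u} {E : Set (I → ℕ)} {z : I → ℝ≥0∞} (hz : ∀ i, z i ≠ ⊤)
    (hE : ∀ x ∈ GSums E, ∃ f ∈ E, GGap z x f) :
    ∃ x : (ℵ₁ : Cardinal.{u}).ord.ToType → I → ℝ≥0∞, (∀ j, x j ∈ GSums E) ∧
      ∀ i, ∃ j, x j i = z i := by
  classical
  have hc : ∀ j : (ℵ₁ : Cardinal.{u}).ord.ToType, Countable (Iio j) := fun j => by
    rw [← mk_le_aleph0_iff, ← Order.lt_succ_iff, succ_aleph0]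
    exact mk_Iio_ord j
  obtain ⟨f, hf⟩ := rec_exists (Y := (ℵ₁ : Cardinal.{u}).ord.ToType) (St := E)
    (fun j ih st => ∀ i, ∑' k : Iio j, 2⁻¹ ^ (ih k.1 k.2).1 i < z i →
      ∑' k : Iio j, 2⁻¹ ^ (ih k.1 k.2).1 i + 2⁻¹ ^ st.1 i ≤ z i) (by
      intro j ih
      obtain ⟨f, hf, h2⟩ := hE _ (gSums_mem (fun k : Iio j => ih k.1 k.2))
      exact ⟨⟨f, hf⟩, h2⟩)
  refine ⟨fun j i => ∑' k : Iio j, 2⁻¹ ^ (f k.1).1 i,
    fun j => gSums_mem (fun k : Iio j => f k.1), fun i => ?_⟩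
  by_contra hcon
  push Not at hcon
  have h1 : ∀ (s : Finset (ℵ₁ : Cardinal.{u}).ord.ToType),
      (∀ m ∈ s, ∑' k : Iio m, (2⁻¹ : ℝ≥0∞) ^ (f k.1).1 i ≤ z i) →
        ∑ k ∈ s, (2⁻¹ : ℝ≥0∞) ^ (f k).1 i ≤ z i := by
    intro s hs
    rcases s.eq_empty_or_nonempty with rfl | hne
    · simp
    have h2 := s.max'_mem hne
    rw [← Finset.sum_erase_add _ _ h2]
    refine le_trans (add_le_add_left ?_ _) (hf _ i ((hs _ h2).lt_of_ne (hcon _)))
    rw [tsum_subtype (Iio (s.max' hne)) (fun k => (2⁻¹ : ℝ≥0∞) ^ (f k).1 i)]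
    refine le_trans (Finset.sum_le_sum (fun k hk => ?_)) (ENNReal.sum_le_tsum _)
    rw [indicator_of_mem (show k ∈ Iio _ from s.lt_max'_of_mem_erase_max' hne hk)]
  have h2 : ∀ m, ∑' k : Iio m, (2⁻¹ : ℝ≥0∞) ^ (f k.1).1 i ≤ z i := by
    intro m
    induction m using WellFoundedLT.induction with
    | ind m ih =>
      refine ENNReal.summable.tsum_le_of_sum_le (fun s => ?_)
      rw [← Finset.sum_image (g := Subtype.val) (f := fun k => (2⁻¹ : ℝ≥0∞) ^ (f k).1 i)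
        Subtype.val_injective.injOn]
      refine h1 _ (fun k hk => ?_)
      obtain ⟨k', -, rfl⟩ := Finset.mem_image.mp hk
      exact ih _ k'.2
  have h3 := Summable.countable_support_ennreal (f := fun k => (2⁻¹ : ℝ≥0∞) ^ (f k).1 i)
    (ne_top_of_le_ne_top (hz i)
      (ENNReal.summable.tsum_le_of_sum_le (fun s => h1 s (fun m _ => h2 m))))
  have h4 : (Set.univ : Set (ℵ₁ : Cardinal.{u}).ord.ToType).Countable :=
    h3.mono (fun k _ => pow_ne_zero _ (by simp))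
  rw [← le_aleph0_iff_set_countable, mk_univ, mk_ord_toType] at h4
  exact absurd h4 (not_le.mpr aleph0_lt_aleph_one)

lemma g_pow (hσ : ℵ₀ ≤ σ) {a b : Cardinal.{u}} (ha : a ≤ 2 ^ σ) (hb : b ≤ σ) : a ^ b ≤ 2 ^ σ := by
  refine (power_le_power_right ha).trans ?_
  rw [← power_mul]
  exact power_le_power_left two_ne_zero (mul_le_of_le hσ le_rfl hb)

lemma g_closure (hσ : ℵ₀ ≤ σ) {Z T N : Type u} (z₀ : Z) (hT : #T ≤ 2 ^ σ) (hN : #N ≤ σ)
    (Φ : T → (N → Z) → Z) :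
    ∃ D : Set Z, #D ≤ 2 ^ σ ∧ z₀ ∈ D ∧ ∀ τ s, (∀ n, s n ∈ D) → Φ τ s ∈ D := by
  have hc : ℵ₀ ≤ 2 ^ σ := hσ.trans (cantor σ).le
  have hs : Order.succ σ ≤ 2 ^ σ := Order.succ_le_of_lt (cantor σ)
  obtain ⟨A, hA⟩ := rec_exists (Y := (Order.succ σ).ord.ToType) (St := {A : Set Z // #A ≤ 2 ^ σ})
    (fun j ih st => z₀ ∈ st.1 ∧ ∀ τ s, (∀ n, s n ∈ ⋃ k : Iio j, (ih k.1 k.2).1) → Φ τ s ∈ st.1) (by
      intro j ih
      have h1 : #(⋃ k : Iio j, (ih k.1 k.2).1) ≤ 2 ^ σ := iUnion_le hc _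
        ((mk_Iio_ord j).le.trans hs) (fun k => (ih k.1 k.2).2)
      refine ⟨⟨insert z₀ (range (fun p : T × (N → (⋃ k : Iio j, (ih k.1 k.2).1)) =>
        Φ p.1 (fun n => (p.2 n).1))), mk_insert_le.trans
          (add_le_of_le hc (mk_range_le.trans ?_) (one_le_aleph0.trans hc))⟩, Or.inl rfl,
        fun τ s hs => Or.inr ⟨(τ, fun n => ⟨s n, hs n⟩), rfl⟩⟩
      rw [← mul_def, ← power_def]
      exact mul_le_of_le hc hT (g_pow hσ h1 hN))
  obtain ⟨j₀, -⟩ := succ_bound hσ ∅ (by simp)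
  refine ⟨⋃ j, (A j).1, iUnion_le hc _ (by simpa using hs) (fun j => (A j).2),
    mem_iUnion.mpr ⟨j₀, (hA j₀).1⟩, fun τ s hs => ?_⟩
  choose j hj using fun n => mem_iUnion.mp (hs n)
  obtain ⟨v, hv⟩ := succ_bound hσ (range j) (mk_range_le.trans hN)
  exact mem_iUnion.mpr ⟨v, (hA v).2 τ s (fun n => mem_iUnion.mpr ⟨⟨j n, hv _ ⟨n, rfl⟩⟩, hj n⟩)⟩

lemma GCov.of_card {κ : Cardinal.{u}} {X X' : Type u} {Q' : Set X'}
    (h : GCov σ κ (univ : Set X)) (hle : #Q' ≤ #X) : GCov σ κ Q' := by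
  obtain ⟨e⟩ := hle
  obtain ⟨C, h1, h2, h3⟩ := h
  refine ⟨(fun p => Subtype.val '' (e ⁻¹' p)) '' C, mk_image_le.trans h1, ?_, fun A hA hAc => ?_⟩
  · rintro _ ⟨p, hp, rfl⟩
    exact (power_le_power_right (mk_image_le.trans
      (mk_preimage_of_injective _ _ e.injective))).trans (h2 p hp)
  obtain ⟨q, h4, h5⟩ := h3 (e '' (Subtype.val ⁻¹' A)) (subset_univ _) (mk_image_le.trans
    ((mk_preimage_of_injective _ _ Subtype.val_injective).trans hAc))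
  refine ⟨fun n => _, fun n => ⟨q n, h4 n, rfl⟩, fun a ha => ?_⟩
  obtain ⟨n, hn⟩ := mem_iUnion.mp (h5 ⟨⟨a, hA ha⟩, ha, rfl⟩)
  exact mem_iUnion.mpr ⟨n, ⟨a, hA ha⟩, hn, rfl⟩

theorem g_cover (hσ : ℵ₀ ≤ σ) {κ d : Cardinal.{u}} (hσκ : 2 ^ σ ≤ κ) (hd : d ≤ κ)
    (h : ∀ t, κ < t ^ ℵ₀ → t ≤ d → t.ord.cof ≤ σ ∨ 2 ^ σ < t.ord.cof) :
    ∀ t ≤ d, GCov σ κ (univ : Set t.ord.ToType) := by
  have hκ : ℵ₀ ≤ κ := (hσ.trans (cantor σ).le).trans hσκ
  obtain ⟨n₀⟩ : Nonempty σ.out := by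
    rw [← mk_ne_zero_iff, mk_out]
    exact (aleph0_pos.trans_le hσ).ne'
  obtain ⟨pr⟩ : Nonempty (σ.out × σ.out ≃ σ.out) := Cardinal.eq.mp (by simp [mul_eq_self hσ])
  intro t
  induction t using WellFoundedLT.induction with
  | ind t ih =>
  intro ht
  by_cases h1 : t ^ ℵ₀ ≤ κ
  · exact ⟨{Set.univ}, by simpa using one_le_aleph0.trans hκ, by simpa using h1,
      fun A _ _ => ⟨fun _ => Set.univ, fun _ => rfl, fun a _ => mem_iUnion.mpr ⟨n₀, mem_univ _⟩⟩⟩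
  choose C h2 h3 h4 using fun x : t.ord.ToType => (ih _ (mk_Iio_ord x)
    ((mk_Iio_ord x).le.trans ht)).of_card (Q' := Iio x) (by simp)
  refine ⟨⋃ x, C x, iUnion_le hκ _ (by simpa using ht.trans hd) h2, fun q hq => ?_,
    fun A _ hA => ?_⟩
  · obtain ⟨x, hx⟩ := mem_iUnion.mp hq
    exact h3 x q hx
  rcases h t (not_le.mp h1) ht with h5 | h5
  · obtain ⟨K, hK1, hK2⟩ := Order.exists_cof_eq t.ord.ToType
    rw [Ordinal.cof_toType] at hK2
    have h0 := inf_cof (t := t) (not_lt.mp (fun h6 => h1 ((g_pow hσ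
      ((h6.le.trans hσ).trans (cantor σ).le) hσ).trans hσκ)))
    have : Nonempty K := by
      rw [← mk_ne_zero_iff, hK2]
      exact (aleph0_pos.trans_le h0).ne'
    obtain ⟨e⟩ : #K ≤ #σ.out := by simpa using hK2.le.trans h5
    choose q h6 h7 using fun n => h4 (Function.invFun e n).1 (A ∩ Iio (Function.invFun e n).1)
      inter_subset_right ((mk_le_mk_of_subset inter_subset_left).trans hA)
    refine ⟨fun n => q (pr.symm n).1 (pr.symm n).2, fun n => mem_iUnion.mpr ⟨_, h6 _ _⟩,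
      fun a ha => ?_⟩
    obtain ⟨v, hv⟩ := bounded_of_lt_cof {a} (by simpa using one_lt_aleph0.trans_le h0)
    obtain ⟨w, hw, h8⟩ := hK1 v
    obtain ⟨m, hm⟩ := mem_iUnion.mp (h7 (e ⟨w, hw⟩) ⟨ha, by
      rw [Function.leftInverse_invFun e.injective]
      exact (hv a rfl).trans_le h8⟩)
    exact mem_iUnion.mpr ⟨pr (e ⟨w, hw⟩, m), by simpa using hm⟩
  · obtain ⟨v, hv⟩ := bounded_of_lt_cof A (hA.trans_lt h5)
    obtain ⟨q, h6, h7⟩ := h4 v A hv hA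
    exact ⟨q, fun n => mem_iUnion.mpr ⟨_, h6 n⟩, h7⟩

theorem g_pieces (hσ : ℵ₀ ≤ σ) (hμ : σ ≤ μ) {D : Set (μ.out → ℕ)}
    (hD : ∀ g : μ.out → ℕ, ∃ f ∈ D, ∀ a, g a ≤ f a) {κ : Cardinal.{u}}
    (hσκ : 2 ^ σ ≤ κ) (hC : GCov σ κ (univ : Set D)) :
    ∃ X : Set (μ.out → ℝ≥0∞), #X ≤ κ ∧ ∀ z : μ.out → ℝ≥0∞, (∀ i, z i ≠ ⊤) →
      ∃ x : (ℵ₁ : Cardinal.{u}).ord.ToType → μ.out → ℝ≥0∞, (∀ j, x j ∈ X) ∧
        ∀ i, ∃ j, x j i = z i := by
  classical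
  obtain ⟨C, h1, h2, h3⟩ := hC
  have hκ : ℵ₀ ≤ κ := (hσ.trans (cantor σ).le).trans hσκ
  obtain ⟨c⟩ : #(μ.out × σ.out) ≤ #μ.out := by
    simpa using mul_le_of_le (hσ.trans hμ) le_rfl hμ
  let col : D × σ.out → μ.out → ℕ := fun p i => p.1.1 (c (i, p.2))
  let E : Set D → Set (μ.out → ℕ) := fun q => col '' (q ×ˢ Set.univ)
  refine ⟨⋃ q : C, GSums (E q.1), iUnion_le hκ _ h1 (fun q => (gSums_card
    (θ := max (#q.1) σ) (hσ.trans (le_max_right _ _)) (mk_image_le.trans ?_)).trans ?_),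
    fun z hz => ?_⟩
  · rw [mk_setProd]
    exact mul_le_of_le (hσ.trans (le_max_right _ _)) (le_max_left _ _) (by simp)
  · rcases le_total (#q.1) σ with h4 | h4
    · rw [max_eq_right h4]
      exact (g_pow hσ (cantor σ).le hσ).trans hσκ
    · rw [max_eq_left h4]
      exact h2 _ q.2
  have h4 : ∀ x : σ.out → μ.out → ℝ≥0∞, ∃ F : D, ∀ n, GGap z (x n) (col (F, n)) := by
    intro x
    have h5 : ∀ n i, ∃ m : ℕ, x n i < z i → x n i + 2⁻¹ ^ m ≤ z i := by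
      intro n i
      by_cases h : x n i < z i
      · obtain ⟨m, hm⟩ := ENNReal.exists_inv_two_pow_lt (tsub_pos_of_lt h).ne'
        exact ⟨m, fun _ => (add_le_add_right hm.le _).trans (add_tsub_cancel_of_le h.le).le⟩
      · exact ⟨0, fun h' => absurd h' h⟩
    choose g hg using h5
    obtain ⟨F, hF, h6⟩ := hD (Function.extend c (fun p => g p.2 p.1) (fun _ => 0))
    refine ⟨⟨F, hF⟩, fun n i hi => (add_le_add_right (pow_le_pow_right_of_le_one' (by simp) ?_)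
      _).trans (hg n i hi)⟩
    have h7 := h6 (c (i, n))
    rwa [c.injective.extend_apply] at h7
  choose Ψ hΨ using h4
  have hN : #(σ.out × ULift.{u} ℕ) ≤ σ := by simpa using (mul_aleph0_eq hσ).le
  obtain ⟨D₁, h5, h6, h7⟩ := g_closure hσ (T := σ.out × ULift.{u} ℕ → Option σ.out)
    (Ψ fun _ _ => 0) (by
      rw [← power_def]
      exact g_pow hσ (by simpa [add_one_eq hσ] using (cantor σ).le) hN) hN
    (fun τ s => Ψ (fun n => gSm (fun m => (τ (n, ⟨m⟩)).map (fun r => col (s (n, ⟨m⟩), r)))))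
  obtain ⟨q, h8, h9⟩ := h3 D₁ (subset_univ _) h5
  have h10 : ∃ n, ∀ x ∈ GSums (E (q n ∩ D₁)), ∃ f ∈ E (q n ∩ D₁), GGap z x f := by
    by_contra hcon
    push Not at hcon
    choose x h11 h12 using hcon
    choose S h13 h14 using h11
    have h15 : ∀ n m, ∃ (r : Option σ.out) (F : D), F ∈ D₁ ∧
        S n m = r.map (fun r => col (F, r)) := by
      intro n m
      rcases h13 n m with h | ⟨_, ⟨p, hp, rfl⟩, h⟩
      · exact ⟨none, _, h6, h⟩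
      · exact ⟨some p.2, p.1, hp.1.2, h.symm⟩
    choose r F h16 h17 using h15
    have h18 := h7 (fun p => r p.1 p.2.down) (fun p => F p.1 p.2.down) (fun p => h16 _ _)
    have h19 : (fun n => gSm (fun m => (r n m).map (fun r => col (F n m, r)))) = x := by
      funext n
      rw [← h14 n]
      congr 1
      funext m
      rw [h17]
    change Ψ (fun n => gSm (fun m => (r n m).map (fun r => col (F n m, r)))) ∈ D₁ at h18
    rw [h19] at h18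
    obtain ⟨n, hn⟩ := mem_iUnion.mp (h9 h18)
    exact h12 n _ ⟨(Ψ x, n), ⟨⟨hn, h18⟩, mem_univ _⟩, rfl⟩ (hΨ x n)
  obtain ⟨n, hn⟩ := h10
  obtain ⟨x, h11, h12⟩ := g_run hz hn
  exact ⟨x, fun j => mem_iUnion.mpr ⟨⟨q n, h8 n⟩, gSums_mono (image_mono
    (prod_mono inter_subset_left subset_rfl)) (h11 j)⟩, h12⟩

theorem g_long (hσ : ℵ₀ ≤ σ) (hσμ : σ ≤ μ) {D : Set (μ.out → ℕ)}
    (hD : ∀ g : μ.out → ℕ, ∃ f ∈ D, ∀ a, g a ≤ f a) {κ t : Cardinal.{u}}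
    (hσκ : 2 ^ σ ≤ κ) (hC : GCov σ κ (univ : Set D)) (h1 : ℵ₁ < t.ord.cof) (h2 : t.ord.cof ≤ μ)
    (h : ∀ s < t, Cv μ 𝔠 (Set.univ : Set s.out)) : Cv μ κ (Set.univ : Set t.out) := by
  have hμ := hσ.trans hσμ
  obtain ⟨X, hX1, hX2⟩ := g_pieces hσ hσμ hD hσκ hC
  obtain ⟨K, hK1, hK2⟩ := Order.exists_cof_eq t.ord.ToType
  rw [Ordinal.cof_toType] at hK2
  obtain ⟨e⟩ : #K ≤ #μ.out := by simpa using hK2.le.trans h2
  choose E hE1 hE2 using fun k : K => real_codes (Q := Iio k.1)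
    ((h _ (mk_Iio_ord k.1)).of_card (by simp))
  refine Cv.of_card (Q := (Set.univ : Set t.ord.ToType))
    ⟨(fun x => ⋃ k, E k (x (e k))) '' X, mk_image_le.trans hX1, ?_, fun A _ hA => ?_⟩ (by simp)
  · rintro _ ⟨x, -, rfl⟩
    exact iUnion_le hμ _ (hK2.le.trans h2) (fun k => hE1 k _)
  choose y h3 h4 using fun k : K => hE2 k (A ∩ Iio k.1) inter_subset_right
    ((mk_le_mk_of_subset inter_subset_left).trans hA)
  obtain ⟨x, h5, h6⟩ := hX2 (Function.extend e y (fun _ => 0)) (fun i => by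
    by_cases h5 : ∃ k, e k = i
    · obtain ⟨k, rfl⟩ := h5
      rw [e.injective.extend_apply]
      exact h3 k
    · rw [Function.extend_apply' _ _ _ h5]
      simp)
  have h7 : ∃ j, ∀ w, ∃ k : K, x j (e k) = y k ∧ w < k.1 := by
    by_contra hcon
    push Not at hcon
    choose w hw using hcon
    obtain ⟨v, hv⟩ := bounded_of_lt_cof (range w) (mk_range_le.trans_lt (by simpa using h1))
    obtain ⟨k, hk, h7⟩ := hK1 v
    obtain ⟨j, hj⟩ := h6 (e ⟨k, hk⟩)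
    rw [e.injective.extend_apply] at hj
    exact absurd ((hw j _ hj).trans_lt (hv _ ⟨j, rfl⟩)) (not_lt.mpr h7)
  obtain ⟨j, hj⟩ := h7
  refine ⟨_, ⟨x j, h5 j, rfl⟩, fun a ha => ?_⟩
  obtain ⟨k, h8, h9⟩ := hj a
  exact mem_iUnion.mpr ⟨k, h8 ▸ h4 k ⟨ha, h9⟩⟩

theorem two_pow_le_of_gap (hμ : ℵ₀ < μ) (hcof : μ.ord.cof = ℵ₀) (hσ : ℵ₀ ≤ σ) (hσμ : σ ≤ μ)
    {κ : Cardinal.{u}} (h3 : domNum μ ≤ κ) (hκ : 2 ^ ℵ₁ ≤ κ) (hσκ : 2 ^ σ ≤ κ)
    (h : ∀ t, κ < t ^ ℵ₀ → t ≤ domNum μ → t.ord.cof ≤ σ ∨ 2 ^ σ < t.ord.cof) : 2 ^ μ ≤ κ := by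
  by_contra hcon
  obtain ⟨h1, D, h2, hD⟩ := exists_dom hμ.le
  have h0 : ℵ₀ ≤ domNum μ := hμ.le.trans h1.le
  have hc : 𝔠 ≤ κ := two_power_aleph0.ge.trans
    ((power_le_power_left two_ne_zero aleph0_lt_aleph_one.le).trans hκ)
  have hC : GCov σ κ (univ : Set D) := (g_cover hσ hσκ h3 h _ le_rfl).of_card (by simpa using h2)
  obtain ⟨t, h4, h5, h6, h7, ⟨h8, h9⟩ | h8⟩ := exists_least hμ hcof h3 (not_le.mp hcon)
  · exact absurd h6 (not_lt.mpr (cofSub_le (g_long hσ hσμ hD hσκ hC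
      (not_le.mp (fun h10 =>
      absurd h9 (not_lt.mpr ((power_le_power_left two_ne_zero h10).trans hκ))))
      h8.le (fun s hs => by_contra (fun h10 => hcon (two_pow_le_of_cv hμ hcof h3
        (cv_of_red hμ.le hD (h2.trans h3) (h0.trans h3) (red_of_not_cv hμ hcof s 𝔠
          (h4.le.trans h5) (hs.le.trans h5) continuum_power_aleph0.le h10)
          ((cv_cofSub _ _).mono (h7 s hs)))))))))
  · exact absurd (h8.trans_le h5) (not_lt.mpr hc)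

theorem exists_wide (hμ : ℵ₀ < μ) (hcof : μ.ord.cof = ℵ₀) (hσ : ℵ₀ ≤ σ)
    (h1 : (2 : Cardinal.{u}) ^ σ < 2 ^ μ) (h2 : (2 : Cardinal.{u}) ^ ℵ₁ < 2 ^ μ)
    (h3 : domNum μ < 2 ^ μ) :
    ∃ t ≤ domNum μ, σ < t.ord.cof ∧ t.ord.cof ≤ 2 ^ σ ∧ t ^ ℵ₀ = 2 ^ μ := by
  by_contra hcon
  have hσμ : σ ≤ μ := not_lt.mp (fun h => absurd h1
    (not_lt.mpr (power_le_power_left two_ne_zero h.le)))
  refine absurd (two_pow_le_of_gap hμ hcof hσ hσμ (κ := max (domNum μ) (max (2 ^ ℵ₁) (2 ^ σ)))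
    (le_max_left _ _) ((le_max_left _ _).trans (le_max_right _ _))
    ((le_max_right _ _).trans (le_max_right _ _)) (fun t h4 h5 => ?_))
    (not_le.mpr (max_lt h3 (max_lt h2 h1)))
  by_contra h6
  push Not at h6
  refine hcon ⟨t, h5, h6.1, h6.2, le_antisymm ?_ ?_⟩
  · refine (power_le_power_right (h5.trans h3.le)).trans ?_
    rw [← power_mul, mul_aleph0_eq hμ.le]
  refine (two_pow_le_max_pow hμ hcof).trans (max_le ?_
    (((le_max_left _ _).trans (le_max_right _ _)).trans h4.le))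
  refine (power_le_power_right ((le_max_left _ _).trans h4.le)).trans ?_
  rw [← power_mul, aleph0_mul_aleph0]

end Pool.Agent.Lib.MP_856180_lc
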