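import Mathlib
import Pool.Agent.Lib.MP_856180_lc.AlphaKey

/-!
The first cardinal with a large covering number.
-/

set_option autoImplicit false

namespace Pool.Agent.Lib.MP_856180_lc

open Cardinal Set Filter Pool.Agent.Shared.RevisedGCH

universe u

variable {μ κ t : Cardinal.{u}}

lemma cv_lim (hκ : ℵ₀ ≤ κ) (htκ : t ≤ κ) (hcof : μ < t.ord.cof)
    (h : ∀ s < t, Cv μ κ (Set.univ : Set s.out)) : Cv μ κ (Set.univ : Set t.out) := by
  refine Cv.of_card (Q := (Set.univ : Set t.ord.ToType)) (Cv.cover hκ (I := t.ord.ToType)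
    (by simpa using htκ) (fun w => Iio w) (fun w => (h _ (mk_Iio_ord w)).of_card (by simp))
    (fun A _ hA => ?_)) (by simp)
  exact bounded_of_lt_cof A (hA.trans_lt hcof)

lemma cv_sing (hμ : ℵ₀ ≤ μ) (ht : ℵ₀ ≤ t) (hcof : t.ord.cof ≤ μ)
    (h : ∀ s < t, Cv μ κ (Set.univ : Set s.out)) :
    Cv μ (κ ^ t.ord.cof) (Set.univ : Set t.out) := by
  have : NoMaxOrder t.ord.ToType := noMaxOrder ht
  obtain ⟨K, hK, hKc⟩ := Order.exists_cof_eq t.ord.ToType
  rw [Ordinal.cof_toType] at hKc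
  choose nx hnx using fun w : t.ord.ToType => exists_gt w
  have h1 : ∀ w : K, Cv μ κ (Iio (nx w.1)) := fun w =>
    (h _ (mk_Iio_ord (nx w.1))).of_card (by simp)
  choose P hP1 hP2 hP3 using h1
  refine Cv.of_card (Q := (Set.univ : Set t.ord.ToType))
    ⟨(fun v : K → Set t.ord.ToType => ⋃ w, v w) '' {v | ∀ w, v w ∈ P w},
      mk_image_le.trans ((mk_pi_set_le _ hP1).trans_eq (by rw [hKc])), ?_,
      fun A _ hA => ?_⟩ (by simp)
  · rintro _ ⟨v, hv, rfl⟩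
    exact iUnion_le hμ _ (hKc.le.trans hcof) (fun w => hP2 w _ (hv w))
  · choose v h2 h3 using fun w : K => hP3 w (A ∩ Iio (nx w.1)) inter_subset_right
      ((mk_le_mk_of_subset inter_subset_left).trans hA)
    refine ⟨_, ⟨v, h2, rfl⟩, fun x hx => ?_⟩
    obtain ⟨w, h4, h5⟩ := hK x
    exact mem_iUnion.mpr ⟨⟨w, h4⟩, h3 _ ⟨hx, h5.trans_lt (hnx w)⟩⟩

lemma cof_lt_of_le (hμ : ℵ₀ < μ) (hcof : μ.ord.cof = ℵ₀) (h : t.ord.cof ≤ μ) : t.ord.cof < μ := by
  refine lt_of_le_of_ne h (fun h1 => ?_)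
  have := Ordinal.cof_ord_cof t.ord
  rw [h1, hcof] at this
  exact hμ.ne this

theorem location_one (hμ : ℵ₀ < μ) (hcof : μ.ord.cof = ℵ₀) (h : domNum μ < 2 ^ μ) :
    ∃ l : Cardinal.{u}, μ < l ∧ l ≤ 𝔠 ∧ l.ord.cof < μ ∧ domNum μ < cofSub l μ ∧
      (2 : Cardinal.{u}) ^ l.ord.cof = 2 ^ μ ∧ max 𝔠 (cofSub l μ) = 2 ^ μ := by
  obtain ⟨h1, D, h2, hD⟩ := exists_dom hμ.le
  have hd : ℵ₀ ≤ domNum μ := hμ.le.trans h1.le
  have hE := two_pow_eq_max hμ hcof
  have hc2 : 𝔠 ≤ (2 : Cardinal.{u}) ^ μ := by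
    rw [← two_power_aleph0]
    exact power_le_power_left two_ne_zero hμ.le
  have hmono : ∀ {s s' : Cardinal.{u}}, s ≤ s' → cofSub s μ ≤ cofSub s' μ := fun hs =>
    cofSub_le ((cv_cofSub _ _).of_card (by simpa using hs))
  have hcc : cofSub 𝔠 μ = 2 ^ μ := by
    rcases max_cases (domNum μ) (cofSub 𝔠 μ) with h3 | h3
    · exact absurd (hE.trans h3.1) h.ne'
    · exact (hE.trans h3.1).symm
  have hsmall : ∀ {s : Cardinal.{u}}, domNum μ < cofSub s μ → μ < s := fun hs =>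
    not_le.mp (fun h3 => absurd hs (not_lt.mpr (cofSub_le (Cv.self hd (by simpa using h3)))))
  have hdc : domNum μ < cofSub 𝔠 μ := h.trans_eq hcc.symm
  have hμc : μ < 𝔠 := hsmall hdc
  rcases hc2.eq_or_lt with h3 | h3
  · obtain ⟨t, ht, hmin⟩ := wellFounded_lt.has_min {s | domNum μ < cofSub s μ} ⟨𝔠, hdc⟩
    have h4 : t ≤ 𝔠 := not_lt.mp (hmin 𝔠 hdc)
    have h5 : t ≤ domNum μ := by
      obtain ⟨δ, -, h5, h6⟩ := gap_of_lt hμ hcof h
      exact not_lt.mp (hmin _ (h6 _ ((aleph_le_aleph.mpr le_self_add).trans h5) le_rfl))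
    have h6 : t.ord.cof ≤ μ := not_lt.mp (fun h6 => absurd ht (not_lt.mpr (cofSub_le
      (cv_lim hd h5 h6 (fun s hs => (cv_cofSub _ _).mono (not_lt.mp (fun h7 => hmin s h7 hs)))))))
    have h7 := hsmall ht
    refine ⟨t, h7, h4, cof_lt_of_le hμ hcof h6, ht, le_antisymm
      (power_le_power_left two_ne_zero h6) ?_, ?_⟩
    · rw [← h3, ← two_power_aleph0]
      exact power_le_power_left two_ne_zero
        (isRegular_cof (isSuccLimit_ord (hμ.le.trans h7.le))).aleph0_le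
    · rw [max_eq_left ((hmono h4).trans (hcc.trans h3.symm).le), h3]
  · obtain ⟨t, ht, hmin⟩ := wellFounded_lt.has_min {s | 2 ^ μ ≤ cofSub s μ} ⟨𝔠, hcc.ge⟩
    have h4 : t ≤ 𝔠 := not_lt.mp (hmin 𝔠 hcc.ge)
    have h5 : ∀ s < t, Cv μ 𝔠 (Set.univ : Set s.out) := by
      intro s hs
      by_contra h5
      refine absurd (two_pow_le_of_cv hμ hcof (le_max_left _ (cofSub s μ)) (cv_of_red hμ.le hD
        (h2.trans (le_max_left _ _)) (hd.trans (le_max_left _ _))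
        (red_of_not_cv hμ hcof s 𝔠 hμc.le (hs.le.trans h4) (by simp) h5)
        ((cv_cofSub _ _).mono (le_max_right _ _)))) (not_le.mpr (max_lt h ?_))
      exact not_le.mp (fun h6 => hmin s h6 hs)
    have h6 : t.ord.cof ≤ μ := not_lt.mp (fun h6 => absurd h3 (not_lt.mpr
      (le_trans ht (cofSub_le (cv_lim aleph0_le_continuum h4 h6 h5)))))
    have h7 := hsmall (h.trans_le ht)
    have h8 := (isRegular_cof (isSuccLimit_ord (hμ.le.trans h7.le))).aleph0_le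
    have h9 : cofSub t μ = 2 ^ μ := le_antisymm ((hmono h4).trans hcc.le) ht
    refine ⟨t, h7, h4, cof_lt_of_le hμ hcof h6, h.trans_le ht, le_antisymm
      (power_le_power_left two_ne_zero h6) ?_, by rw [h9, max_eq_right hc2]⟩
    refine le_trans ht ((cofSub_le
      (cv_sing hμ.le (hμ.le.trans h7.le) h6 h5)).trans_eq ?_)
    rw [← two_power_aleph0, ← power_mul, aleph0_mul_eq h8]

end Pool.Agent.Lib.MP_856180_lc
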