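import Mathlib

/-!
Few functions meet every function with values in a set of size continuum on an unbounded set.
-/

set_option autoImplicit false

namespace Pool.Agent.Lib.MP_856180_lc

open Cardinal Set
open scoped ENNReal

universe u

lemma au_sum {W : Type u} [LinearOrder W] (v : W → ℝ≥0∞) (c : ℝ≥0∞) (p : W → Prop)
    [DecidablePred p] (h : ∀ m, p m → (∑' k, if k < m then v k else 0) + v m ≤ c) :
    (∑' k, if p k then v k else 0) ≤ c := by
  rw [ENNReal.tsum_eq_iSup_sum]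
  refine iSup_le fun s => ?_
  rw [← Finset.sum_filter]
  rcases (s.filter p).eq_empty_or_nonempty with e | e
  · rw [e, Finset.sum_empty]
    exact zero_le
  have hm := (s.filter p).max'_mem e
  rw [← Finset.sum_erase_add _ _ hm]
  refine le_trans (add_le_add ?_ le_rfl) (h _ (Finset.mem_filter.1 hm).2)
  refine le_trans (Finset.sum_le_sum fun k hk => ?_) (ENNReal.sum_le_tsum _)
  rw [if_pos (Finset.lt_max'_of_mem_erase_max' _ e hk)]

theorem meet_ennreal {T : Type u} [LinearOrder T]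
    (hT : ∀ s : Set T, #s ≤ ℵ₁ → ∃ t, ∀ a ∈ s, a ≤ t) {D : Set (T → ℕ)}
    (hD : ∀ g : T → ℕ, ∃ f ∈ D, ∀ a, g a ≤ f a) {κ : Cardinal.{u}} (hDκ : #D ≤ κ)
    (h0 : ℵ₀ ≤ κ) (hκ : κ ^ ℵ₀ ≤ κ) :
    ∃ X : Set (T → ℝ≥0∞), #X ≤ κ ∧ ∀ z : T → ℝ≥0∞, (∀ i, z i ≠ ⊤) →
      ∃ x ∈ X, ∀ a, ∃ i, a ≤ i ∧ x i = z i := by
  classical
  refine ⟨range fun (s : ℕ → Option D) (i : T) => ∑' n, (s n).elim 0 fun f => 2⁻¹ ^ f.1 i,
    mk_range_le.trans ?_, fun z hz => ?_⟩
  · have e : #(ℕ → Option D) = (#D + 1) ^ ℵ₀ := by simp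
    rw [e]
    exact (power_le_power_right (add_le_of_le h0 hDκ (one_le_aleph0.trans h0))).trans hκ
  by_contra hc
  push Not at hc
  have step : ∀ x : T → ℝ≥0∞, ∃ f ∈ D, ∀ i, x i < z i → x i + 2⁻¹ ^ f i ≤ z i := fun x => by
    have : ∀ i, ∃ n : ℕ, x i < z i → x i + 2⁻¹ ^ n ≤ z i := fun i => by
      by_cases h : x i < z i
      · obtain ⟨r, r1, r2⟩ := ENNReal.lt_iff_exists_add_pos_lt.1 h
        obtain ⟨n, hn⟩ := ENNReal.exists_inv_two_pow_lt (a := r) (by exact_mod_cast r1.ne')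
        exact ⟨n, fun _ => (add_le_add le_rfl hn.le).trans r2.le⟩
      · exact ⟨0, fun h' => absurd h' h⟩
    choose g hg using this
    obtain ⟨f, f1, f2⟩ := hD g
    exact ⟨f, f1, fun i h => (add_le_add le_rfl
      (pow_le_pow_of_le_one zero_le (by norm_num) (f2 i))).trans (hg i h)⟩
  choose nx n1 n2 using step
  let W := (ℵ₁ : Cardinal.{u}).ord.ToType
  have hW : #W = ℵ₁ := mk_ord_toType _
  let F : W → T → ℕ := (wellFounded_lt (α := W)).fix fun j r =>
    nx fun i => ∑' k, if h : k < j then 2⁻¹ ^ r k h i else 0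
  let x : W → T → ℝ≥0∞ := fun j i => ∑' k, if k < j then 2⁻¹ ^ F k i else 0
  have hF : ∀ j, F j = nx (x j) := fun j => by
    refine (WellFounded.fix_eq _ _ j).trans ?_
    simp only [dite_eq_ite, x]
    rfl
  have hb : ∀ j, ∃ a, ∀ i, a ≤ i → x j i ≠ z i := fun j => by
    obtain ⟨e, he⟩ := Set.countable_iff_exists_injOn.1
      ((countable_iff_lt_aleph_one _).2 (mk_Iio_toType_ord_lt j))
    refine hc _ ⟨fun n => if h : ∃ k, k < j ∧ e k = n then
      some ⟨F h.choose, by rw [hF]; exact n1 _⟩ else none, funext fun i => ?_⟩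
    have e1 : x j i = ∑' k : Iio j, (2⁻¹ : ℝ≥0∞) ^ F k i :=
      ((tsum_subtype (Iio j) fun k => (2⁻¹ : ℝ≥0∞) ^ F k i).trans (by
        simp only [indicator, mem_Iio, x])).symm
    rw [e1]
    refine (Function.Injective.tsum_eq (g := fun k : Iio j => e k)
      (fun a b h => Subtype.ext (he a.2 b.2 h)) fun n hn => ?_).symm.trans
      (tsum_congr fun k => ?_)
    · by_contra h
      refine hn ?_
      beta_reduce
      rw [dif_neg fun ⟨k, k1, k2⟩ => h ⟨⟨k, k1⟩, k2⟩]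
      rfl
    · have h : ∃ m, m < j ∧ e m = e k := ⟨k, k.2, rfl⟩
      beta_reduce
      rw [dif_pos h, he h.choose_spec.1 k.2 h.choose_spec.2]
      rfl
  have bd : ∀ a : W → T, ∃ t, ∀ j, a j ≤ t := fun a => by
    obtain ⟨t, ht⟩ := hT (range a) (mk_range_le.trans hW.le)
    exact ⟨t, fun j => ht _ ⟨j, rfl⟩⟩
  have key : ∀ j, ∃ a, ∀ i, a ≤ i → x j i + 2⁻¹ ^ F j i ≤ z i := fun j => by
    induction j using WellFoundedLT.induction with
    | ind j ih =>
      obtain ⟨b, h1⟩ := hb j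
      choose a ha using ih
      obtain ⟨t, ht⟩ := bd fun k => if h : k < j then a k h else b
      refine ⟨max t b, fun i hi => ?_⟩
      rw [hF]
      refine n2 _ i (lt_of_le_of_ne ?_ (h1 i (le_of_max_le_right hi)))
      refine au_sum (fun k => 2⁻¹ ^ F k i) _ (· < j) fun m hm => ha m hm i ?_
      have := ht m
      rw [dif_pos hm] at this
      exact this.trans (le_of_max_le_left hi)
  choose a ha using key
  obtain ⟨t, ht⟩ := bd a
  have h1 := au_sum (fun k => 2⁻¹ ^ F k t) (z t) (fun _ => True) fun m _ => ha m t (ht m)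
  simp only [if_true] at h1
  have h2 := Summable.countable_support_ennreal (ne_top_of_le_ne_top (hz t) h1)
  rw [Function.support_eq_univ fun k => pow_ne_zero _ (by norm_num),
    ← le_aleph0_iff_set_countable, mk_univ, hW] at h2
  exact aleph0_lt_aleph_one.not_ge h2

/-- If `T` has cofinality above `ℵ₁` and `κ = κ ^ ℵ₀` many functions dominate `T → ℕ`, then `κ`
many functions from `T` to a set of size at most continuum meet every such function on an
unbounded set. -/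
theorem meet_cont {T : Type u} [LinearOrder T]
    (hT : ∀ s : Set T, #s ≤ ℵ₁ → ∃ t, ∀ a ∈ s, a ≤ t) {D : Set (T → ℕ)}
    (hD : ∀ g : T → ℕ, ∃ f ∈ D, ∀ a, g a ≤ f a) {κ : Cardinal.{u}} (hDκ : #D ≤ κ)
    (h0 : ℵ₀ ≤ κ) (hκ : κ ^ ℵ₀ ≤ κ) {Y : Type u} [Nonempty Y] (hY : #Y ≤ 𝔠) :
    ∃ X : Set (T → Y), #X ≤ κ ∧ ∀ z : T → Y, ∃ x ∈ X, ∀ a, ∃ i, a ≤ i ∧ x i = z i := by
  obtain ⟨X, h1, h2⟩ := meet_ennreal hT hD hDκ h0 hκ
  obtain ⟨e⟩ : Nonempty (Y ↪ ℝ) := lift_mk_le'.1 (by simpa [mk_real] using hY)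
  let c : Y → ℝ≥0∞ := fun y => ENNReal.ofReal (Real.exp (e y))
  have hc : Function.Injective c := fun a b h => e.injective (Real.exp_injective
    ((ENNReal.ofReal_eq_ofReal_iff (Real.exp_pos _).le (Real.exp_pos _).le).1 h))
  refine ⟨(fun x i => Function.invFun c (x i)) '' X, mk_image_le.trans h1, fun z => ?_⟩
  obtain ⟨x, x1, x2⟩ := h2 (fun i => c (z i)) fun i => ENNReal.ofReal_ne_top
  refine ⟨_, ⟨x, x1, rfl⟩, fun a => ?_⟩
  obtain ⟨i, i1, i2⟩ := x2 a
  exact ⟨i, i1, by simp only [i2, Function.leftInverse_invFun hc (z i)]⟩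

end Pool.Agent.Lib.MP_856180_lc
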