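import Mathlib

set_option autoImplicit false

namespace Pool.Agent.Lib.MP_856180_lc

open Cardinal

universe u

/-- `κ` is a caliber of the functions from `μ` to `ω`: every family of such functions indexed by
`κ` has `κ` many members lying pointwise below one function. -/
def IsCaliber (μ κ : Cardinal.{u}) : Prop :=
  ∀ F : κ.out → μ.out → ℕ, ∃ g : μ.out → ℕ, κ ≤ Cardinal.mk {b | ∀ a, F b a ≤ g a}

/-- No proper filter on `ω` admits a sequence of length `κ` of functions from `ω` to `l` that is
strictly increasing modulo the filter. -/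
def NoChain (l κ : Cardinal.{u}) : Prop :=
  ∀ U : Filter ℕ, U.NeBot → ∀ f : κ.ord.ToType → ℕ → l.ord.ToType,
    ¬ ∀ a b, a < b → ∀ᶠ n in U, f a n < f b n

end Pool.Agent.Lib.MP_856180_lc
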