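import Mathlib
import Pool.Agent.Lib.MP_856180_lc.Gap
import Pool.Agent.Lib.MP_856180_lc.CalDefs

/-!
Calibers of the functions from `μ` to `ω`, and shrinking of large families in products.
-/

set_option autoImplicit false

namespace Pool.Agent.Lib.MP_856180_lc

open Cardinal Set Pool.Agent.Shared.RevisedGCH

universe u

lemma IsCaliber.flex {μ κ : Cardinal.{u}} (h : IsCaliber μ κ) {B J : Type u} (hJ : #J ≤ μ)
    (F : B → J → ℕ) {S : Set B} (hS : κ ≤ #S) :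
    ∃ g : J → ℕ, κ ≤ #{b | b ∈ S ∧ ∀ a, F b a ≤ g a} := by
  obtain ⟨e⟩ : #κ.out ≤ #S := by simpa using hS
  obtain ⟨j⟩ : #J ≤ #μ.out := by simpa using hJ
  obtain ⟨g, hg⟩ := h (fun b => Function.extend j (F (e b).1) (fun _ => 0))
  refine ⟨fun a => g (j a), hg.trans (mk_le_of_injective
    (f := fun b => ⟨(e b.1).1, (e b.1).2, fun a => ?_⟩) ?_)⟩
  · have := b.2 (j a)
    rwa [j.injective.extend_apply] at this
  · intro b b' hb
    exact Subtype.ext (e.injective (Subtype.ext (Subtype.mk.inj hb)))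

lemma pigeon {κ : Cardinal.{u}} (hκ : κ.IsRegular) {B T : Type u} (hT : #T < κ) (p : B → T)
    {S : Set B} (hS : κ ≤ #S) : ∃ t, κ ≤ #{b | b ∈ S ∧ p b = t} := by
  obtain ⟨t, ht⟩ := infinite_pigeonhole_card (fun b : S => p b.1) κ hS hκ.aleph0_le
    (by rwa [hκ.cof_ord])
  refine ⟨t, ht.trans (mk_le_of_injective (f := fun b => ⟨b.1.1, b.1.2, b.2⟩) ?_)⟩
  intro b b' hb
  exact Subtype.ext (Subtype.ext (Subtype.mk.inj hb))

/-- Large families in products of at most `μ` regular cardinals below `κ` have large subfamilies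
with small projections. -/
def PC (μ κ : Cardinal.{u}) : Prop :=
  ∀ (B I : Type u) (θ : I → Cardinal.{u}), #I ≤ μ → (∀ i, (θ i).IsRegular ∧ θ i < κ) →
    ∀ (G : B → ∀ i, (θ i).out) (S : Set B), κ ≤ #S →
      ∃ S' ⊆ S, κ ≤ #S' ∧ ∀ i, #((fun b => G b i) '' S') < θ i

lemma pc_of {μ κ b : Cardinal.{u}} (hμ : ℵ₀ ≤ μ) (hκ : κ.IsRegular) (hcal : IsCaliber μ κ)
    (hbκ : b < κ) (hb : Cv μ b (univ : Set b.out))
    (hmin : ∀ θ : Cardinal.{u}, θ.IsRegular → b < θ → θ < κ → ¬ IsCaliber μ θ) : PC μ κ := by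
  classical
  intro B I θ hI hθ G S hS
  have h1 : ∀ i, ∃ Φ : (θ i).out → μ.out → ℕ, (μ < θ i ∧ θ i ≤ b) ∨
      ∀ g : μ.out → ℕ, #{x | ∀ a, Φ x a ≤ g a} < θ i := by
    intro i
    by_cases h2 : θ i ≤ μ
    · obtain ⟨L, hL1, hL2⟩ := loc hμ (θ i) h2 (θ i).out (mk_out _)
      obtain ⟨j⟩ : #L ≤ #μ.out := by simpa using hL1
      refine ⟨fun x => Function.extend j (fun π => π.1 x) (fun _ => 0), Or.inr (fun g => ?_)⟩
      refine lt_of_lt_of_le ?_ (hθ i).1.aleph0_le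
      by_contra hcon
      obtain ⟨π, hπ, hinf⟩ := hL2 _ (infinite_iff_aleph0.mpr (not_lt.mp hcon))
      refine hinf ((finite_Iic (g (j ⟨π, hπ⟩))).subset ?_)
      rintro _ ⟨x, hx, rfl⟩
      have := hx (j ⟨π, hπ⟩)
      simp only [j.injective.extend_apply] at this
      exact this
    · by_cases h3 : θ i ≤ b
      · exact ⟨fun _ _ => 0, Or.inl ⟨not_le.mp h2, h3⟩⟩
      · have h4 := hmin _ (hθ i).1 (not_le.mp h3) (hθ i).2
        unfold IsCaliber at h4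
        push Not at h4
        obtain ⟨Φ, hΦ⟩ := h4
        exact ⟨Φ, Or.inr hΦ⟩
  choose Φ hΦ using h1
  have h2 : ∀ i, ∃ c : (θ i).out → b.out, θ i ≤ b → Function.Injective c := by
    intro i
    by_cases h3 : θ i ≤ b
    · obtain ⟨c⟩ : #(θ i).out ≤ #b.out := by simpa using h3
      exact ⟨c, fun _ => c.injective⟩
    · rcases isEmpty_or_nonempty b.out with hb0 | hb0
      · obtain ⟨C, hC1, -, hC3⟩ := hb
        obtain ⟨p, hp, -⟩ := hC3 ∅ (by simp) (by simp)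
        have h5 : #C = 0 := le_antisymm (hC1.trans (by rw [← mk_out b]; simp)) zero_le
        exact absurd (mk_eq_zero_iff.mp h5) (not_isEmpty_iff.mpr ⟨⟨p, hp⟩⟩)
      · exact ⟨fun _ => Classical.arbitrary _, fun h => absurd h h3⟩
  choose c hc using h2
  obtain ⟨C, hC1, hC2, hC3⟩ := hb
  choose p hp1 hp2 using fun x : B => hC3 (range (fun i => c i (G x i))) (subset_univ _)
    (mk_range_le.trans hI)
  obtain ⟨q, hq⟩ := pigeon hκ (hC1.trans_lt hbκ) (fun x => (⟨p x, hp1 x⟩ : C)) hS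
  obtain ⟨g, hg⟩ := hcal.flex (J := I × μ.out) (by simpa using mul_le_of_le hμ hI le_rfl)
    (fun x z => Φ z.1 (G x z.1) z.2) hq
  refine ⟨_, fun x hx => hx.1.1, hg, fun i => ?_⟩
  rcases hΦ i with h3 | h3
  · refine lt_of_le_of_lt ?_ h3.1
    refine le_trans (mk_le_mk_of_subset (t := c i ⁻¹' q.1) ?_)
      ((mk_preimage_of_injective _ _ (hc i h3.2)).trans (hC2 _ q.2))
    rintro _ ⟨x, hx, rfl⟩
    have h4 : p x = q.1 := congrArg Subtype.val hx.1.2
    exact h4 ▸ hp2 x ⟨i, rfl⟩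
  · refine lt_of_le_of_lt (mk_le_mk_of_subset ?_) (h3 (fun a => g (i, a)))
    rintro _ ⟨x, hx, rfl⟩ a
    exact hx.2 (i, a)

lemma cof_map {O : Type u} [LinearOrder O] [WellFoundedLT O] (y : O) :
    ∃ θ : Cardinal.{u}, θ.IsRegular ∧ θ ≤ max ℵ₀ #O ∧ ∃ π : O → θ.out, (Iio y).Nonempty →
      ∀ Z : Set O, #(π '' Z) < θ → ∃ z < y, ∀ x ∈ Z, x < y → x ≤ z := by
  classical
  have h0 : Nonempty (ℵ₀ : Cardinal.{u}).out := by
    rw [← mk_ne_zero_iff, mk_out]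
    exact aleph0_ne_zero
  by_cases h : ∃ z < y, ∀ x < y, x ≤ z
  · obtain ⟨z, hz, h⟩ := h
    exact ⟨ℵ₀, isRegular_aleph0, le_max_left _ _, fun _ => Classical.arbitrary _,
      fun _ Z _ => ⟨z, hz, fun x _ hx => h x hx⟩⟩
  by_cases hne : (Iio y).Nonempty
  swap
  · exact ⟨ℵ₀, isRegular_aleph0, le_max_left _ _, fun _ => Classical.arbitrary _,
      fun h' => absurd h' hne⟩
  push Not at h
  have : Nonempty (Iio y) := hne.to_subtype
  have : NoMaxOrder (Iio y) := ⟨fun z => by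
    obtain ⟨x, hx, hzx⟩ := h z.1 z.2
    exact ⟨⟨x, hx⟩, hzx⟩⟩
  obtain ⟨C, hC, hCc⟩ := Order.exists_cof_eq (Iio y)
  have hreg : (Order.cof (Iio y)).IsRegular := by
    refine ⟨Order.aleph0_le_cof, ?_⟩
    rw [← Ordinal.cof_type, Ordinal.cof_ord_cof]
  obtain ⟨e⟩ : Nonempty (C ≃ (Order.cof (Iio y)).out) := by
    rw [← Cardinal.eq, mk_out, hCc]
  choose k hk1 hk2 using hC
  obtain ⟨y0, hy0⟩ := hne
  refine ⟨_, hreg, le_max_of_le_right (hCc ▸ (mk_set_le C).trans (mk_set_le _)),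
    fun x => if hx : x < y then e ⟨k ⟨x, hx⟩, hk1 _⟩ else e ⟨k ⟨y0, hy0⟩, hk1 _⟩,
    fun _ Z hZ => ?_⟩
  have h1 : ¬ IsCofinal ((fun t => (e.symm t).1) '' ((fun x => if hx : x < y then
      e ⟨k ⟨x, hx⟩, hk1 _⟩ else e ⟨k ⟨y0, hy0⟩, hk1 _⟩) '' Z)) := fun hc =>
    absurd ((Order.cof_le hc).trans mk_image_le) (not_le.mpr hZ)
  obtain ⟨z, hz⟩ := not_isCofinal_iff.mp h1
  refine ⟨z.1, z.2, fun x hx hxy => ?_⟩
  have h2 := hz _ ⟨_, ⟨x, hx, rfl⟩, rfl⟩
  simp only [dif_pos hxy, Equiv.symm_apply_apply] at h2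
  exact ((hk2 ⟨x, hxy⟩).trans h2.le : (⟨x, hxy⟩ : Iio y) ≤ z)

lemma PC.bound {μ κ : Cardinal.{u}} (h : PC μ κ) (hκ : ℵ₀ < κ) {B I O : Type u} [LinearOrder O]
    [WellFoundedLT O] (hI : #I ≤ μ) (hO : #O < κ) (G : B → I → O) (y : I → O) {S : Set B}
    (hS : κ ≤ #S) : ∃ S' ⊆ S, κ ≤ #S' ∧ ∃ z : I → O, ∀ i, (Iio (y i)).Nonempty →
      z i < y i ∧ ∀ b ∈ S', G b i < y i → G b i ≤ z i := by
  choose θ h1 h2 π h3 using fun i => cof_map (y i)
  obtain ⟨S', h4, h5, h6⟩ := h B I θ hI (fun i => ⟨h1 i, (h2 i).trans_lt (max_lt hκ hO)⟩)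
    (fun b i => π i (G b i)) S hS
  have h7 : ∀ i, ∃ z, (Iio (y i)).Nonempty → z < y i ∧ ∀ b ∈ S', G b i < y i → G b i ≤ z := by
    intro i
    by_cases hne : (Iio (y i)).Nonempty
    · obtain ⟨z, hz1, hz2⟩ := h3 i hne ((fun b => G b i) '' S') (by
        rw [image_image]
        exact h6 i)
      exact ⟨z, fun _ => ⟨hz1, fun b hb => hz2 _ ⟨b, hb, rfl⟩⟩⟩
    · exact ⟨y i, fun h' => absurd h' hne⟩
  choose z hz using h7
  exact ⟨S', h4, h5, z, hz⟩

lemma PC.finite {μ κ : Cardinal.{u}} (h : PC μ κ) (hκ : ℵ₀ < κ) {B I O : Type u}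
    (hI : #I ≤ μ) (hO : #O < κ) (G : B → I → O) (hB : κ ≤ #B) :
    ∃ S : ℕ → Set B, (∀ n, κ ≤ #(S n)) ∧ ∀ i, ∃ n, ((fun b => G b i) '' S n).Finite := by
  classical
  obtain ⟨e⟩ : #O ≤ #(#O).ord.ToType := by simp
  have hO' : #(WithTop (#O).ord.ToType) < κ := by
    have : #(WithTop (#O).ord.ToType) = #O + 1 := by
      rw [← mk_ord_toType #O, ← mk_option]
      simp only [mk_ord_toType]
      rfl
    rw [this]
    exact add_lt_of_lt hκ.le hO (one_lt_aleph0.trans hκ)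
  let G' : B → I → WithTop (#O).ord.ToType := fun b i => (e (G b i) : (#O).ord.ToType)
  choose! S' hS1 hS2 z hz using fun (p : Set B × (I → WithTop (#O).ord.ToType))
    (hp : κ ≤ #p.1) => h.bound hκ hI hO' G' p.2 hp
  let s : ℕ → Set B × (I → WithTop (#O).ord.ToType) := fun n =>
    Nat.rec (univ, fun _ => ⊤) (fun _ p => (S' p, z p)) n
  have hs : ∀ n, s (n + 1) = (S' (s n), z (s n)) := fun _ => rfl
  have h1 : ∀ n, κ ≤ #(s n).1 := by
    intro n
    induction n with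
    | zero => simpa [s] using hB
    | succ n ih => exact hS2 _ ih
  refine ⟨fun n => (s n).1, h1, fun i => ?_⟩
  have h2 : ∀ n, (∃ m, ((fun b => G' b i) '' (s m).1).Finite) ∨
      ((s (n + 1)).2 i < (s n).2 i ∧
        ({x ∈ (fun b => G' b i) '' (s n).1 | (s n).2 i ≤ x}).Finite) := by
    intro n
    induction n with
    | zero =>
      by_cases hne : (Iio ((s 0).2 i)).Nonempty
      · refine Or.inr ⟨(hz _ (h1 0) i hne).1, (finite_singleton ⊤).subset ?_⟩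
        rintro x ⟨-, hx⟩
        exact top_le_iff.mp hx
      · refine Or.inl ⟨0, (finite_singleton ⊤).subset (fun x _ => ?_)⟩
        by_contra hx
        exact hne ⟨x, lt_top_iff_ne_top.mpr hx⟩
    | succ n ih =>
      rcases ih with ih | ⟨ih1, ih2⟩
      · exact Or.inl ih
      have h3 : ({x ∈ (fun b => G' b i) '' (s (n + 1)).1 | (s (n + 1)).2 i ≤ x}).Finite := by
        refine (ih2.insert ((s (n + 1)).2 i)).subset ?_
        rintro _ ⟨⟨b, hb, rfl⟩, hx⟩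
        by_cases h4 : G' b i < (s n).2 i
        · exact Or.inl (le_antisymm ((hz _ (h1 n) i ⟨_, ih1⟩).2 b hb h4) hx)
        · exact Or.inr ⟨⟨b, hS1 _ (h1 n) hb, rfl⟩, not_lt.mp h4⟩
      by_cases hne : (Iio ((s (n + 1)).2 i)).Nonempty
      · exact Or.inr ⟨(hz _ (h1 (n + 1)) i hne).1, h3⟩
      · refine Or.inl ⟨n + 1, h3.subset (fun x hx => ⟨hx, ?_⟩)⟩
        by_contra h4
        exact hne ⟨x, not_le.mp h4⟩
  have h3 : ∃ m, ((fun b => G' b i) '' (s m).1).Finite := by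
    by_contra hcon
    have h4 : StrictAnti (fun n => (s n).2 i) :=
      strictAnti_nat_of_succ_lt (fun n => ((h2 n).resolve_left hcon).1)
    obtain ⟨_, ⟨n, rfl⟩, hn⟩ := (wellFounded_lt (α := WithTop (#O).ord.ToType)).has_min
      (range (fun n => (s n).2 i)) (range_nonempty _)
    exact hn _ ⟨n + 1, rfl⟩ (h4 (Nat.lt_succ_self n))
  obtain ⟨m, hm⟩ := h3
  refine ⟨m, Finite.of_finite_image (f := fun x => ((e x : (#O).ord.ToType) :
    WithTop (#O).ord.ToType)) (by rwa [image_image]) ?_⟩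
  exact fun x _ x' _ hx => e.injective (WithTop.coe_injective hx)

end Pool.Agent.Lib.MP_856180_lc
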