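import Mathlib
import Pool.Agent.Lib.MP_856180_lc.Caliber

/-!
The least caliber above a covered cardinal and above the continuum produces a cardinal `l` of
countable cofinality whose reduced powers have no long increasing chains.
-/

set_option autoImplicit false

namespace Pool.Agent.Lib.MP_856180_lc

open Cardinal Set Pool.Agent.Shared.RevisedGCH

universe u

lemma large_cofinal {κ : Cardinal.{u}} (hκ : ℵ₀ ≤ κ) {S : Set κ.ord.ToType} (hS : κ ≤ #S)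
    (a : κ.ord.ToType) : ∃ a' ∈ S, a < a' := by
  by_contra hcon
  push Not at hcon
  have h1 := mk_inter_Iic_lt hκ (E := univ) (x := a) (by simpa using mk_Iio_ord a)
  rw [univ_inter] at h1
  exact absurd (hS.trans (mk_le_mk_of_subset hcon)) (not_le.mpr h1)

lemma PC.noChain_core {μ κ : Cardinal.{u}} (h : PC μ κ) (hμ : ℵ₀ ≤ μ) (hκ : κ.IsRegular)
    (hc : 2 ^ ℵ₀ < κ) {O : Type u} [LinearOrder O] [WellFoundedLT O] (hO : #O < κ)
    (U : Ultrafilter ℕ) (f : κ.ord.ToType → ℕ → O) (T : O) (hT : ∀ a n, f a n < T)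
    (hf : ∀ a b, a < b → ∀ᶠ n in U, f a n < f b n) : False := by
  classical
  have hκ0 : ℵ₀ < κ := (cantor _).trans hc
  have hle : ∀ a b, a ≤ b → ∀ᶠ n in U, f a n ≤ f b n := by
    intro a b hab
    rcases hab.eq_or_lt with rfl | hab
    · exact Filter.Eventually.of_forall (fun _ => le_rfl)
    · exact (hf a b hab).mono (fun _ h => h.le)
  have hdec : ∀ g : ℕ → O, ∃ g' : ℕ → O, (∀ a, ∀ᶠ n in U, f a n < g n) →
      (∀ a, ∀ᶠ n in U, f a n < g' n) ∧ ∀ᶠ n in U, g' n < g n := by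
    intro g
    by_cases hg : ∀ a, ∀ᶠ n in U, f a n < g n
    swap
    · exact ⟨g, fun h' => absurd h' hg⟩
    obtain ⟨S, -, hS, z, hz⟩ := h.bound hκ0 (I := ULift.{u} ℕ) (by simpa using hμ) hO
      (fun a n => f a n.down) (fun n => g n.down) (S := univ) (by simp)
    refine ⟨fun n => z ⟨n⟩, fun _ => ⟨fun a => ?_, ?_⟩⟩
    · obtain ⟨a', ha', hlt⟩ := large_cofinal hκ0.le hS a
      filter_upwards [hf a a' hlt, hg a'] with n h1 h2
      exact h1.trans_le ((hz ⟨n⟩ ⟨_, h2⟩).2 a' ha' h2)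
    · have : Nonempty κ.ord.ToType := by
        rw [← mk_ne_zero_iff, mk_ord_toType]
        exact (aleph0_pos.trans hκ0).ne'
      filter_upwards [hg (Classical.arbitrary _)] with n h1
      exact (hz ⟨n⟩ ⟨_, h1⟩).1
  choose next hnext using hdec
  let pr : (ℕ → Set O) → (ℕ → O) → ℕ → O := fun R x n =>
    (wellFounded_lt (α := O)).min {s | s ∈ insert T (R n) ∧ (x n < s ∨ s = T)}
      ⟨T, mem_insert _ _, Or.inr rfl⟩
  have hp1 : ∀ R x n, pr R x n ∈ insert T (R n) := fun R x n =>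
    ((wellFounded_lt (α := O)).min_mem {s | s ∈ insert T (R n) ∧ (x n < s ∨ s = T)}
      ⟨T, mem_insert _ _, Or.inr rfl⟩).1
  have hp2 : ∀ R a n, f a n < pr R (f a) n := fun R a n => by
    rcases ((wellFounded_lt (α := O)).min_mem
      {s | s ∈ insert T (R n) ∧ (f a n < s ∨ s = T)} ⟨T, mem_insert _ _, Or.inr rfl⟩).2 with h | h
    · exact h
    · exact lt_of_lt_of_eq (hT a n) h.symm
  have hp3 : ∀ R x n s, s ∈ insert T (R n) → x n < s → pr R x n ≤ s := fun R x n s h1 h2 =>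
    not_lt.mp ((wellFounded_lt (α := O)).not_lt_min
      {s | s ∈ insert T (R n) ∧ (x n < s ∨ s = T)} ⟨h1, Or.inl h2⟩)
  have hstab : ∀ R : ℕ → Set O, ∃ (p : ℕ → O) (a₀ : κ.ord.ToType), (∀ n, #(R n) ≤ ℵ₀) →
      (∀ a, ∀ᶠ n in U, f a n < p n) ∧ ∀ a, a₀ ≤ a → ∀ᶠ n in U, p n ≤ pr R (f a) n := by
    intro R
    have : Nonempty κ.ord.ToType := by
      rw [← mk_ne_zero_iff, mk_ord_toType]
      exact (aleph0_pos.trans hκ0).ne'
    by_cases hR : ∀ n, #(R n) ≤ ℵ₀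
    swap
    · exact ⟨fun _ => T, Classical.arbitrary _, fun h' => absurd h' hR⟩
    have h1 : #(∀ n : ULift.{u} ℕ, (insert T (R n.down) : Set O)) < κ := by
      refine lt_of_le_of_lt ?_ hc
      rw [mk_pi]
      refine (prod_le_prod _ (fun _ => ℵ₀) (fun n => mk_insert_le.trans
        (add_le_of_le le_rfl (hR _) one_le_aleph0))).trans ?_
      simp
    obtain ⟨t, ht⟩ := pigeon hκ h1 (fun a n => ⟨pr R (f a) n.down, hp1 R _ _⟩)
      (S := univ) (by simp)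
    obtain ⟨a₀, ha₀, -⟩ := large_cofinal hκ0.le ht (Classical.arbitrary _)
    refine ⟨fun n => (t ⟨n⟩).1, a₀, fun _ => ⟨fun a => ?_, fun a ha => ?_⟩⟩
    · obtain ⟨a', ha', hlt⟩ := large_cofinal hκ0.le ht a
      filter_upwards [hf a a' hlt] with n h2
      rw [← ha'.2]
      exact h2.trans (hp2 R a' n)
    · filter_upwards [hle a₀ a ha] with n h2
      rw [← ha₀.2]
      exact hp3 R _ n _ (hp1 R _ n) (h2.trans_lt (hp2 R a n))
  choose p a₀ hp using hstab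
  obtain ⟨s, hs⟩ := rec_exists (Y := (ℵ₁ : Cardinal.{u}).ord.ToType) (St := ℕ → O)
    (fun ζ ih st => st = next (p (fun n => {x | ∃ ξ, ∃ h : ξ < ζ, ih ξ h n = x})))
    (fun _ _ => ⟨_, rfl⟩)
  let R : (ℵ₁ : Cardinal.{u}).ord.ToType → ℕ → Set O := fun ζ n => {x | ∃ ξ, ∃ _ : ξ < ζ, s ξ n = x}
  have hs' : ∀ ζ, s ζ = next (p (R ζ)) := hs
  have hR : ∀ ζ n, #(R ζ n) ≤ ℵ₀ := by
    intro ζ n
    refine le_trans (mk_le_mk_of_subset (t := (fun ξ => s ξ n) '' Iio ζ) ?_)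
      (mk_image_le.trans (Order.le_of_lt_succ (by simpa using mk_Iio_ord ζ)))
    rintro _ ⟨ξ, h1, rfl⟩
    exact ⟨ξ, h1, rfl⟩
  obtain ⟨a, ha⟩ := bounded_of_lt_cof (range (fun ζ => a₀ (R ζ))) (by
    rw [hκ.cof_ord]
    refine mk_range_le.trans_lt (lt_of_le_of_lt ?_ hc)
    simpa using aleph_one_le_continuum)
  have h1 : ∀ ζ, ∃ n : ULift.{u} ℕ, ∀ ζ', ζ < ζ' →
      pr (R ζ') (f a) n.down < pr (R ζ) (f a) n.down := by
    intro ζ
    obtain ⟨h2, h3⟩ := hp _ (hR ζ)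
    obtain ⟨h4, h5⟩ := hnext _ h2
    rw [← hs'] at h4 h5
    obtain ⟨n, h6, h7, h8⟩ := ((h4 a).and (h5.and (h3 a (ha _ ⟨ζ, rfl⟩).le))).exists
    exact ⟨⟨n⟩, fun ζ' hζ =>
      ((hp3 (R ζ') _ n _ (Or.inr ⟨ζ, hζ, rfl⟩) h6).trans_lt h7).trans_le h8⟩
  choose n hn using h1
  obtain ⟨m, hm⟩ := pigeon isRegular_aleph_one (T := ULift.{u} ℕ) (by simp) n (S := univ)
    (by simp)
  obtain ⟨_, ⟨ζ, hζ, rfl⟩, hmin⟩ := (wellFounded_lt (α := O)).has_min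
    ((fun ζ => pr (R ζ) (f a) m.down) '' {b | b ∈ Set.univ ∧ n b = m}) (by
      rw [image_nonempty, ← nonempty_coe_sort, ← mk_ne_zero_iff]
      exact ((aleph_pos 1).trans_le hm).ne')
  obtain ⟨ζ', hζ', hlt⟩ := large_cofinal (aleph0_le_aleph 1) hm ζ
  have h2 := hn ζ ζ' hlt
  rw [hζ.2] at h2
  exact hmin _ ⟨ζ', hζ', rfl⟩ h2

lemma PC.noChain {μ κ l : Cardinal.{u}} (h : PC μ κ) (hμ : ℵ₀ ≤ μ) (hκ : κ.IsRegular)
    (hc : 2 ^ ℵ₀ < κ) (hl : l < κ) : NoChain l κ := by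
  intro F hF f hf
  have hκ0 : ℵ₀ < κ := (cantor _).trans hc
  have hO : #(WithTop l.ord.ToType) < κ := by
    have : #(WithTop l.ord.ToType) = l + 1 := by
      rw [← mk_ord_toType l, ← mk_option]
      simp only [mk_ord_toType]
      rfl
    rw [this]
    exact add_lt_of_lt hκ0.le hl (one_lt_aleph0.trans hκ0)
  refine h.noChain_core hμ hκ hc hO (Ultrafilter.of F) (fun a n => (f a n : l.ord.ToType)) ⊤
    (fun _ _ => WithTop.coe_lt_top _) (fun a b hab => ?_)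
  exact ((hf a b hab).filter_mono (Ultrafilter.of_le F)).mono (fun _ h => WithTop.coe_lt_coe.mpr h)

lemma PC.cof_eq {μ κ ν : Cardinal.{u}} (h : PC μ κ) (hκ : κ.IsRegular) (hκ0 : ℵ₀ < κ)
    (hν : ℵ₀ ≤ ν) (hνμ : ν ≤ μ) (hνκ : ν < κ) (h1 : κ ≤ 2 ^ ν) (h2 : ∀ ρ < ν, 2 ^ ρ < κ) :
    ν.ord.cof = ℵ₀ := by
  classical
  by_contra hcon
  have hcof : ℵ₀ < ν.ord.cof :=
    lt_of_le_of_ne (Ordinal.aleph0_le_cof_iff.mpr
      (Ordinal.one_lt_cof_iff.mpr (isSuccLimit_ord hν))) (Ne.symm hcon)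
  obtain ⟨e⟩ : #κ.out ≤ #(Set ν.ord.ToType) := by simpa using h1
  obtain ⟨S, hS1, hS2⟩ := h.finite hκ0 (B := κ.out) (I := ν.ord.ToType)
    (O := Σ i : ν.ord.ToType, Set (Iio i)) (by simpa using hνμ) (by
      rw [mk_sigma]
      exact sum_lt_of_isRegular hκ (by simpa using hνκ)
        (fun i => by simpa using h2 _ (mk_Iio_ord i)))
    (fun b i => ⟨i, Subtype.val ⁻¹' e b⟩) (by simp)
  choose n hn using hS2
  have h3 : ∃ m, ∀ w, ∃ i, n i = m ∧ w ≤ i := by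
    by_contra h4
    push Not at h4
    choose w hw using h4
    obtain ⟨v, hv⟩ := bounded_of_lt_cof (range w) (lt_of_le_of_lt (by
      rw [le_aleph0_iff_set_countable]
      exact countable_range w) hcof)
    exact absurd (hw (n v) v rfl) (not_lt.mpr (hv _ ⟨_, rfl⟩).le)
  obtain ⟨m, hm⟩ := h3
  obtain ⟨t, ht1, ht2⟩ := exists_seq (infinite_iff_aleph0.mpr (hκ0.le.trans (hS1 m)))
  have h4 : ∀ p : ℕ × ℕ, ∃ x : ν.ord.ToType, t p.1 ≠ t p.2 →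
      ¬ (x ∈ e (t p.1) ↔ x ∈ e (t p.2)) := by
    intro p
    by_cases hp : t p.1 = t p.2
    · have : Nonempty ν.ord.ToType := by
        rw [← mk_ne_zero_iff, mk_ord_toType]
        exact (aleph0_pos.trans_le hν).ne'
      exact ⟨Classical.arbitrary _, fun h' => absurd hp h'⟩
    · by_contra h5
      push Not at h5
      exact hp (e.injective (Set.ext (fun x => (h5 x).2)))
  choose x hx using h4
  obtain ⟨v, hv⟩ := bounded_of_lt_cof (range x) (lt_of_le_of_lt (by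
    rw [le_aleph0_iff_set_countable]
    exact countable_range x) hcof)
  obtain ⟨i, hi, hvi⟩ := hm v
  have h5 := hn i
  rw [hi] at h5
  refine ht1 (Finite.of_finite_image (h5.subset (image_mono ?_)) ?_)
  · rintro _ ⟨k, rfl⟩
    exact ht2 k
  · rintro _ ⟨k, rfl⟩ _ ⟨k', rfl⟩ h6
    by_contra h7
    have h8 : (Subtype.val ⁻¹' e (t k) : Set (Iio i)) = Subtype.val ⁻¹' e (t k') :=
      eq_of_heq (Sigma.mk.inj h6).2
    exact hx (k, k') h7 (Set.ext_iff.mp h8 ⟨x (k, k'), (hv _ ⟨_, rfl⟩).trans_le hvi⟩)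

lemma IsCaliber.pow_lt {μ κ l : Cardinal.{u}} (h : IsCaliber μ κ) (hμ : ℵ₀ ≤ μ)
    (hc : 2 ^ ℵ₀ < κ) (hl : l ≤ μ) : l ^ ℵ₀ < κ := by
  by_contra hcon
  obtain ⟨L, hL1, hL2⟩ := loc hμ l hl l.out (mk_out _)
  obtain ⟨g, hg⟩ := h.flex (B := ULift.{u} ℕ → l.out) (J := ULift.{u} ℕ × L)
    (by simpa using mul_le_of_le hμ hμ hL1) (fun t z => z.2.1 (t z.1)) (S := Set.univ)
    (by simpa using not_lt.mp hcon)
  have h1 : ∀ n : ULift.{u} ℕ, #{x : l.out | ∀ π : L, π.1 x ≤ g (n, π)} ≤ ℵ₀ := by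
    intro n
    by_contra h2
    obtain ⟨π, hπ, hinf⟩ := hL2 _ (infinite_iff_aleph0.mpr (not_le.mp h2).le)
    refine hinf ((finite_Iic (g (n, ⟨π, hπ⟩))).subset ?_)
    rintro _ ⟨x, hx, rfl⟩
    exact hx ⟨π, hπ⟩
  refine absurd (hg.trans ((mk_le_mk_of_subset (fun t ht n π => ht.2 (n, π))).trans
    (mk_pi_set_le (fun n : ULift.{u} ℕ => {x : l.out | ∀ π : L, π.1 x ≤ g (n, π)}) h1)))
    (not_le.mpr (by simpa using hc))

/-- The configuration in which the pseudopower of `l` falls short of `l ^ ℵ₀`. -/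
def PpFails (μ d : Cardinal.{u}) : Prop :=
  ∃ l κ : Cardinal.{u}, μ < l ∧ l ≤ d ∧ l.ord.cof = ℵ₀ ∧ (∀ a < l, a ^ ℵ₀ < l) ∧ κ.IsRegular ∧
    l < κ ∧ κ ≤ l ^ ℵ₀ ∧ NoChain l κ

lemma PC.ppFails {μ κ d : Cardinal.{u}} (h : PC μ κ) (hcal : IsCaliber μ κ) (hμ : ℵ₀ ≤ μ)
    (hκ : κ.IsRegular) (hc : 2 ^ ℵ₀ < κ) (hμκ : μ < κ) (h1 : κ ≤ 2 ^ μ)
    (hd : κ ≤ Order.succ d) : PpFails μ d := by
  have hκ0 : ℵ₀ < κ := (cantor _).trans hc
  have hne : {ν : Cardinal.{u} | κ ≤ 2 ^ ν}.Nonempty := ⟨μ, h1⟩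
  have h2 : κ ≤ 2 ^ sInf {ν : Cardinal.{u} | κ ≤ 2 ^ ν} := csInf_mem hne
  have h3 : sInf {ν : Cardinal.{u} | κ ≤ 2 ^ ν} ≤ μ := csInf_le' h1
  have h4 : ∀ ρ < sInf {ν : Cardinal.{u} | κ ≤ 2 ^ ν}, 2 ^ ρ < κ :=
    fun ρ hρ => not_le.mp (notMem_of_lt_csInf' (s := {ν : Cardinal.{u} | κ ≤ 2 ^ ν}) hρ)
  generalize sInf {ν : Cardinal.{u} | κ ≤ 2 ^ ν} = ν at h2 h3 h4
  have hν : ℵ₀ < ν := by
    by_contra h5
    exact absurd (h2.trans (power_le_power_left two_ne_zero (not_lt.mp h5))) (not_le.mpr hc)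
  have h5 := h.cof_eq hκ hκ0 hν.le h3 (h3.trans_lt hμκ) h2 h4
  obtain ⟨ι, ρ, hι, hρ1, hρ2, hρ3⟩ := exists_cof_family hν.le
  rw [h5] at hι
  obtain ⟨l, hl⟩ : ∃ l, l = ⨆ i, (2 : Cardinal.{u}) ^ ρ i := ⟨_, rfl⟩
  have h6 : ∀ i, 2 ^ ρ i ≤ l := fun i => hl ▸ le_ciSup (f := fun i => (2 : Cardinal.{u}) ^ ρ i)
    bddAbove_of_small i
  have h7 : l < κ := hl ▸ iSup_lt_of_lt_cof_ord (by rw [hκ.cof_ord, hι]; exact hκ0)
    (fun i => h4 _ (hρ1 i))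
  have h8 : κ ≤ l ^ ℵ₀ := by
    rw [mk_pi] at hρ3
    rw [← hι, ← prod_const']
    exact h2.trans (hρ3.trans (prod_le_prod _ _ (fun i => by simpa using h6 i)))
  have h9 : ∀ σ < ν, 2 ^ σ < l := by
    intro σ hσ
    obtain ⟨i, hi⟩ := hρ2 _ (max_lt hν hσ)
    refine lt_of_le_of_ne ((power_le_power_left two_ne_zero
      ((le_max_right _ _).trans hi)).trans (h6 i)) (fun heq => ?_)
    have h10 : 2 ^ ρ i = l := le_antisymm (h6 i) (heq ▸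
      power_le_power_left two_ne_zero ((le_max_right _ _).trans hi))
    rw [← h10, ← power_mul, mul_eq_left ((le_max_left _ _).trans hi) ((le_max_left _ _).trans hi)
      aleph0_ne_zero] at h8
    exact absurd (h4 _ (hρ1 i)) (not_lt.mpr h8)
  have h10 : ℵ₀ ≤ l := ((cantor _).trans (h9 _ hν)).le
  refine ⟨l, κ, not_le.mp (fun h11 => absurd h8 (not_le.mpr (hcal.pow_lt hμ hc h11))),
    Order.le_of_lt_succ (h7.trans_le hd), ?_, fun a ha => ?_, hκ, h7, h8,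
    h.noChain hμ hκ hc h7⟩
  · refine le_antisymm (not_lt.mp (fun h11 => ?_))
      (Ordinal.aleph0_le_cof_iff.mpr (Ordinal.one_lt_cof_iff.mpr (isSuccLimit_ord h10)))
    exact (iSup_lt_of_lt_cof_ord (hι ▸ h11) (fun i => h9 _ (hρ1 i))).ne hl.symm
  · obtain ⟨i, hi⟩ : ∃ i, a ≤ 2 ^ ρ i := by
      by_contra h11
      push Not at h11
      exact absurd ha (not_lt.mpr (hl ▸ ciSup_le' (fun i => (h11 i).le)))
    refine lt_of_le_of_lt ?_ (h9 _ (max_lt hν (hρ1 i)))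
    refine (power_le_power_right hi).trans ?_
    rw [← power_mul]
    exact power_le_power_left two_ne_zero (mul_le_of_le (le_max_left _ _) (le_max_right _ _)
      (le_max_left _ _))

lemma exists_least_caliber {μ b : Cardinal.{u}} (hμ : ℵ₀ ≤ μ) (h : domNum μ < 2 ^ μ)
    (hbd : b ≤ domNum μ) (hb : Cv μ b (univ : Set b.out)) :
    ∃ κ : Cardinal.{u}, κ.IsRegular ∧ b < κ ∧ κ ≤ Order.succ (domNum μ) ∧ IsCaliber μ κ ∧
      PC μ κ := by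
  obtain ⟨hμd, D, hD1, hD2⟩ := exists_dom hμ
  have hreg := isRegular_succ (hμ.trans hμd.le)
  have h1 : Order.succ (domNum μ) ∈ {κ : Cardinal.{u} | κ.IsRegular ∧ b < κ ∧ IsCaliber μ κ} := by
    refine ⟨hreg, Order.lt_succ_of_le hbd, fun F => ?_⟩
    choose g hg1 hg2 using fun x => hD2 (F x)
    obtain ⟨t, ht⟩ := pigeon hreg (Order.lt_succ_of_le hD1) (fun x => (⟨g x, hg1 x⟩ : D))
      (S := univ) (by simp)
    refine ⟨t.1, ht.trans (mk_le_mk_of_subset (fun x hx a => ?_))⟩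
    rw [← hx.2]
    exact hg2 x a
  obtain ⟨h2, h3, h4⟩ := csInf_mem ⟨_, h1⟩
  exact ⟨_, h2, h3, csInf_le' h1, h4, pc_of hμ h2 h4 h3 hb
    (fun θ h5 h6 h7 h8 => notMem_of_lt_csInf' h7 ⟨h5, h6, h8⟩)⟩

theorem joint {μ : Cardinal.{u}} (hμ : ℵ₀ < μ) (hcof : μ.ord.cof = ℵ₀) (h : domNum μ < 2 ^ μ) :
    μ < beth Ordinal.omega0 ∧ ∃ δ : Ordinal.{u}, μ < aleph δ ∧ aleph (δ + μ.ord) ≤ domNum μ ∧
      (∀ θ, aleph δ ≤ θ → θ ≤ domNum μ → θ < cofSub θ μ) ∧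
      ((aleph δ ≤ 2 ^ ℵ₀ ∧ ∃ κ : Cardinal.{u}, κ.IsRegular ∧ μ < κ ∧ κ ≤ 2 ^ ℵ₀ ∧
        IsCaliber μ κ) ∨ PpFails μ (domNum μ)) := by
  refine ⟨not_le.mp (fun h' => h.ne (domNum_of_beth h')), ?_⟩
  obtain ⟨δ, h1, h2, h3⟩ := gap_of_lt hμ hcof h
  by_cases hP : PpFails μ (domNum μ)
  · exact ⟨δ, h1, h2, h3, Or.inr hP⟩
  have hd := Order.succ_le_of_lt h
  obtain ⟨κ, hκ1, hκ2, hκ3, hκ4, hκ5⟩ := exists_least_caliber hμ.le h
    (exists_dom hμ.le).1.le (Cv.self hμ.le (by simp))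
  have h4 : κ ≤ 2 ^ ℵ₀ := not_lt.mp (fun h' =>
    hP (hκ5.ppFails hκ4 hμ.le hκ1 h' hκ2 (hκ3.trans hd) hκ3))
  by_cases h5 : aleph δ ≤ 2 ^ ℵ₀
  · exact ⟨δ, h1, h2, h3, Or.inl ⟨h5, κ, hκ1, hκ2, h4, hκ4⟩⟩
  obtain ⟨γ, hγ⟩ := mem_range_aleph_iff.mpr (cantor (ℵ₀ : Cardinal.{u})).le
  have h6 : γ ≤ δ := aleph_le_aleph.mp (hγ ▸ (not_le.mp h5).le)
  refine ⟨γ, hγ ▸ hκ2.trans_le h4, (aleph_le_aleph.mpr (add_le_add_left h6 _)).trans h2,
    fun θ h7 h8 => not_le.mp (fun h9 => ?_), Or.inl ⟨hγ.le, κ, hκ1, hκ2, h4, hκ4⟩⟩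
  rw [hγ] at h7
  obtain ⟨κ', h10, h11, h12, h14, h13⟩ := exists_least_caliber hμ.le h h8 (cv_of_cofSub h9)
  exact hP (h13.ppFails h14 hμ.le h10 (h7.trans_lt h11)
    ((hκ2.trans_le (h4.trans h7)).trans h11) (h12.trans hd) h12)

end Pool.Agent.Lib.MP_856180_lc
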