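import Mathlib
import Pool.Agent.Lib.MP_856180_lc.Thresh

/-!
Instances of the threshold theorem: `θ = μ`, `θ = ℶ_ω` and `θ = ℵ_ω`.
-/

set_option autoImplicit false

namespace Pool.Agent.Lib.MP_856180_lc

open Cardinal

universe u

theorem largePcf_of_threshold {μ : Cardinal.{u}} (hμ : ℵ₀ < μ) (hcof : μ.ord.cof = ℵ₀)
    (h : domNum μ < 2 ^ μ) :
    ∃ (ι : Type u) (a : ι → Cardinal.{u}), Function.Injective a ∧ #ι < μ ∧
      (∀ i, (a i).IsRegular ∧ μ < a i ∧ a i ≤ domNum μ) ∧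
      ∃ U : μ.out → Ultrafilter ι, Function.Injective (fun x => ucof a (U x)) ∧
        ∀ x, μ < ucof a (U x) ∧ ucof a (U x) ≤ domNum μ :=
  (threshold hμ hcof le_rfl h).resolve_right (fun h' => absurd h (not_lt.mpr h'.2.1))

theorem bethOmega_of_threshold {μ : Cardinal.{u}} (hμ : beth Ordinal.omega0 ≤ μ) :
    ¬ domNum μ < 2 ^ μ := by
  intro h
  have hs : (beth Ordinal.omega0.{u}).IsStrongLimit :=
    isStrongLimit_beth.mpr Ordinal.isSuccLimit_omega0.isSuccPrelimit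
  have h0 : ℵ₀ < beth Ordinal.omega0.{u} := by
    rw [← beth_zero]
    exact beth_lt_beth.mpr Ordinal.omega0_pos
  have hc : (beth Ordinal.omega0.{u}).ord.cof = ℵ₀ := by
    rw [← Ordinal.cof_omega0]
    exact Ordinal.cof_map_of_isNormal (isNormal_ord.comp isNormal_beth)
      Ordinal.isSuccLimit_omega0
  rcases threshold h0 hc hμ h with ⟨ι, a, -, h1, -, U, h2, -⟩ | ⟨⟨ν, h1, -, h2⟩, -⟩
  · have h3 : Function.Injective (fun x => (U x : Filter ι).sets) := by
      intro x y hxy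
      apply h2
      have : U x = U y := Ultrafilter.coe_injective (Filter.filter_eq hxy)
      simp only [this]
    have h4 := mk_le_of_injective h3
    rw [mk_out, mk_set, mk_set] at h4
    exact absurd h4 (not_le.mpr (hs.isStrongPrelimit (hs.isStrongPrelimit h1)))
  · exact absurd h2 ((hs.isStrongPrelimit h1).trans (cantor _)).ne

lemma aleph_nat_pow {μ : Cardinal.{u}} (hμ : aleph Ordinal.omega0 ≤ μ) (hc : 2 ^ ℵ₀ ≤ μ) (n : ℕ) :
    aleph (n : Ordinal.{u}) ^ ℵ₀ ≤ μ := by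
  have h0 : ℵ₀ ≤ μ := (aleph0_le_aleph _).trans hμ
  have h1 : (aleph (n : Ordinal.{u})) = Order.succ^[n] ℵ₀ := by
    induction n with
    | zero => simp
    | succ n ih => rw [Function.iterate_succ_apply', ← ih, Nat.cast_succ, succ_aleph]
  obtain ⟨P, h2, h3, h4⟩ := cov_succ (μ := ℵ₀) le_rfl n
    (Set.univ : Set (aleph (n : Ordinal.{u})).out) (by simpa using h1.le)
  have h5 : Cv ℵ₀ (aleph (n : Ordinal.{u})) (Set.univ : Set (aleph (n : Ordinal.{u})).out) := by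
    refine ⟨insert ∅ P, mk_insert_le.trans (add_le_of_le (aleph0_le_aleph _) (by simpa using h2)
      (one_le_aleph0.trans (aleph0_le_aleph _))), ?_, fun A hA hA' => ?_⟩
    · rintro p (rfl | hp)
      · simp
      · exact Order.le_of_lt_succ (h3 p hp)
    · obtain ⟨Q, h6, h7, h8⟩ := h4 A hA (Order.lt_succ_of_le hA')
      rcases Q.eq_empty_or_nonempty with rfl | ⟨q, hq⟩
      · exact ⟨∅, Or.inl rfl, by simpa using h8⟩
      · refine ⟨q, Or.inr (h6 hq), fun x hx => ?_⟩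
        obtain ⟨q', h9, h10⟩ := h8 hx
        rwa [← (mk_le_one_iff_set_subsingleton.mp h7) h9 hq]
  exact h5.pow_le le_rfl h0
    ((aleph_le_aleph.mpr (Ordinal.natCast_lt_omega0 n).le).trans hμ) (by simpa using hc)

theorem alephOmega_of_threshold {μ : Cardinal.{u}} (hμ : aleph Ordinal.omega0 ≤ μ)
    (hpow : 2 ^ ℵ₀ ≤ μ ∨
      ∀ ν < aleph Ordinal.omega0.{u}, (2 : Cardinal.{u}) ^ ν < 2 ^ aleph Ordinal.omega0.{u})
    (h : domNum μ < 2 ^ μ) :
    ∃ (ι : Type u) (a : ι → Cardinal.{u}), Function.Injective a ∧ #ι < aleph Ordinal.omega0 ∧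
      (∀ i, (a i).IsRegular ∧ aleph Ordinal.omega0 < a i) ∧
      ∃ U : (aleph Ordinal.omega0.{u}).out → Ultrafilter ι,
        Function.Injective (fun x => ucof a (U x)) := by
  have h0 : ℵ₀ < aleph Ordinal.omega0.{u} := by
    rw [← aleph_zero]
    exact aleph_lt_aleph.mpr Ordinal.omega0_pos
  have hc : (aleph Ordinal.omega0.{u}).ord.cof = ℵ₀ := by
    rw [← Ordinal.cof_omega0]
    exact Ordinal.cof_map_of_isNormal (isNormal_ord.comp isNormal_aleph)
      Ordinal.isSuccLimit_omega0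
  rcases threshold h0 hc hμ h with ⟨ι, a, h1, h2, h3, U, h4, -⟩ | ⟨⟨ν, h1, h2, h3⟩, -⟩
  · exact ⟨ι, a, h1, h2, fun i => ⟨(h3 i).1, (h3 i).2.1⟩, U, h4⟩
  · rcases hpow with h4 | h4
    · rw [aleph_limit Ordinal.isSuccLimit_omega0] at h1
      obtain ⟨⟨o, ho⟩, h5⟩ := exists_lt_of_lt_ciSup' h1
      obtain ⟨n, rfl⟩ := Ordinal.lt_omega0.mp ho
      exact absurd h2 (not_lt.mpr ((power_le_power_right h5.le).trans (aleph_nat_pow hμ h4 n)))
    · exact absurd h3 (h4 ν h1).ne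

end Pool.Agent.Lib.MP_856180_lc
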